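import Pool.Agent.Lib.MP_0c1c75_co.KA.Spec

/-!
# Theorem A, module AdmW: the weights `W (a - a*)_+^p` and `W (a* - a)_+^p` are admissible
-/

set_option autoImplicit false

open Set Filter Topology

namespace Pool.Agent.Lib.MP_0c1c75_co.KA

open Pool.Agent.Lib.MP_0c1c75_co.KG

namespace AdmWAux

variable {m : ℕ} (M : Modes m)

private lemma r_pos (k : Fin m) {a : ℝ} (ha : a ∈ Ioo (0 : ℝ) 1) : 0 < M.r k a := by
  have h1 := M.hμ k
  have h2 := M.hν k
  have h3 := M.hs k
  obtain ⟨ha0, ha1⟩ := ha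
  unfold Modes.r
  have h4 : 0 ≤ (1 - a) * M.μ k := mul_nonneg (by linarith) h1
  have h5 : 0 ≤ a * M.ν k := mul_nonneg ha0.le h2
  rcases lt_or_eq_of_le h2 with h | h
  · have : 0 < a * M.ν k := mul_pos ha0 h
    linarith
  · have h6 : M.μ k = 1 := by linarith
    have : 0 < (1 - a) * M.μ k := by
      rw [h6, mul_one]; linarith
    linarith

private lemma r_der (k : Fin m) (a : ℝ) : HasDerivAt (M.r k) (M.δ k) a := by
  have h : HasDerivAt (fun x : ℝ => (1 - x) * M.μ k + x * M.ν k)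
      ((0 - 1) * M.μ k + 1 * M.ν k) a :=
    (((hasDerivAt_const a (1 : ℝ)).sub (hasDerivAt_id a)).mul_const (M.μ k)).add
      ((hasDerivAt_id a).mul_const (M.ν k))
  have e : (0 - 1) * M.μ k + 1 * M.ν k = M.δ k := by unfold Modes.δ; ring
  rw [e] at h
  exact h

/-- `E` with weights -/
private noncomputable def eE (e : Fin m → ℝ) (a : ℝ) : ℝ := ∑ k, e k / M.r k a

private noncomputable def eP (e : Fin m → ℝ) (a : ℝ) : ℝ := ∑ k, e k * M.δ k / M.r k a ^ 2

private noncomputable def eQ (e : Fin m → ℝ) (a : ℝ) : ℝ := ∑ k, e k * M.δ k ^ 2 / M.r k a ^ 3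

private noncomputable def sL (a : ℝ) : ℝ := ∑ k, Real.log (M.r k a)

private noncomputable def sA (a : ℝ) : ℝ := ∑ k, M.δ k / M.r k a

private noncomputable def sB (a : ℝ) : ℝ := ∑ k, (M.δ k / M.r k a) ^ 2

private lemma der_eE (e : Fin m → ℝ) {a : ℝ} (ha : a ∈ Ioo (0 : ℝ) 1) :
    HasDerivAt (eE M e) (-eP M e a) a := by
  have h : HasDerivAt (fun x => ∑ k, e k / M.r k x)
      (∑ k, -(e k * M.δ k / M.r k a ^ 2)) a := by
    refine HasDerivAt.fun_sum fun k _ => ?_
    have hr := (r_pos M k ha).ne'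
    have h1 := (hasDerivAt_const a (e k)).fun_div (r_der M k a) hr
    refine h1.congr_deriv ?_
    ring
  rw [Finset.sum_neg_distrib] at h
  exact h

private lemma der_eP (e : Fin m → ℝ) {a : ℝ} (ha : a ∈ Ioo (0 : ℝ) 1) :
    HasDerivAt (eP M e) (-(2 * eQ M e a)) a := by
  have h : HasDerivAt (fun x => ∑ k, e k * M.δ k / M.r k x ^ 2)
      (∑ k, -(2 * (e k * M.δ k ^ 2 / M.r k a ^ 3))) a := by
    refine HasDerivAt.fun_sum fun k _ => ?_
    have hr := (r_pos M k ha).ne'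
    have h1 := (hasDerivAt_const a (e k * M.δ k)).fun_div ((r_der M k a).fun_pow 2)
      (pow_ne_zero 2 hr)
    refine h1.congr_deriv ?_
    field_simp
    ring
  rw [Finset.sum_neg_distrib, ← Finset.mul_sum] at h
  exact h

private lemma der_sL {a : ℝ} (ha : a ∈ Ioo (0 : ℝ) 1) : HasDerivAt (sL M) (sA M a) a := by
  have h : HasDerivAt (fun x => ∑ k, Real.log (M.r k x)) (∑ k, M.δ k / M.r k a) a :=
    HasDerivAt.fun_sum fun k _ => (r_der M k a).log (r_pos M k ha).ne'
  exact h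

private lemma der_sA {a : ℝ} (ha : a ∈ Ioo (0 : ℝ) 1) : HasDerivAt (sA M) (-sB M a) a := by
  have h : HasDerivAt (fun x => ∑ k, M.δ k / M.r k x) (∑ k, -((M.δ k / M.r k a) ^ 2)) a := by
    refine HasDerivAt.fun_sum fun k _ => ?_
    have hr := (r_pos M k ha).ne'
    have h1 := (hasDerivAt_const a (M.δ k)).fun_div (r_der M k a) hr
    refine h1.congr_deriv ?_
    field_simp
    ring
  rw [Finset.sum_neg_distrib] at h
  exact h

private lemma cont_r (k : Fin m) : Continuous (M.r k) := by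
  unfold Modes.r; fun_prop

private lemma cont_eQ (e : Fin m → ℝ) : ContinuousOn (eQ M e) (Ioo 0 1) := by
  unfold eQ
  refine continuousOn_finsetSum _ fun k _ => ?_
  exact continuousOn_const.div ((cont_r M k).continuousOn.pow 3)
    fun a ha => pow_ne_zero 3 (r_pos M k ha).ne'

private lemma cont_sB : ContinuousOn (sB M) (Ioo 0 1) := by
  unfold sB
  refine continuousOn_finsetSum _ fun k _ => ?_
  exact (continuousOn_const.div (cont_r M k).continuousOn
    fun a ha => (r_pos M k ha).ne').pow 2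

/-- the bound for `Q` -/
private lemma eQ_le (e : Fin m → ℝ) (he : ∀ k, 0 ≤ e k) {a : ℝ} (ha : a ∈ Ioo (0 : ℝ) 1) :
    eQ M e a ≤ (1 / a - 1 / (1 - a)) * eP M e a + 1 / a * (1 / (1 - a)) * eE M e a := by
  unfold eQ eP eE
  rw [Finset.mul_sum, Finset.mul_sum, ← Finset.sum_add_distrib]
  refine Finset.sum_le_sum fun k _ => ?_
  have hr := r_pos M k ha
  obtain ⟨ha0, ha1⟩ := ha
  have ha1' : 0 < 1 - a := by linarith
  have h1 : M.r k a + M.δ k * (0 - a) = M.μ k := by unfold Modes.r Modes.δ; ring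
  have h2 : M.r k a + M.δ k * (1 - a) = M.ν k := by unfold Modes.r Modes.δ; ring
  have h3 : 0 ≤ M.r k a - M.δ k * a := by
    have := M.hμ k
    rw [← h1] at this; linarith
  have h4 : 0 ≤ M.r k a + M.δ k * (1 - a) := by
    rw [h2]; exact M.hν k
  have h5 : 0 ≤ (M.r k a - M.δ k * a) * (M.r k a + M.δ k * (1 - a)) := mul_nonneg h3 h4
  have h6 : (1 / a - 1 / (1 - a)) * (e k * M.δ k / M.r k a ^ 2) +
      1 / a * (1 / (1 - a)) * (e k / M.r k a) - e k * M.δ k ^ 2 / M.r k a ^ 3 =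
      e k * ((M.r k a - M.δ k * a) * (M.r k a + M.δ k * (1 - a))) /
        (a * (1 - a) * M.r k a ^ 3) := by
    field_simp
    ring
  have h7 : 0 ≤ e k * ((M.r k a - M.δ k * a) * (M.r k a + M.δ k * (1 - a))) /
        (a * (1 - a) * M.r k a ^ 3) := by
    have := he k
    positivity
  rw [← h6] at h7
  linarith

/-- logarithm of `H` and its derivatives -/
private noncomputable def lf (e : Fin m → ℝ) (a : ℝ) : ℝ :=
  -(1 / 2) * sL M a - 3 / 2 * Real.log (eE M e a)

private noncomputable def lf1 (e : Fin m → ℝ) (a : ℝ) : ℝ :=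
  -(1 / 2) * sA M a + 3 / 2 * (eP M e a / eE M e a)

private noncomputable def lf2 (e : Fin m → ℝ) (a : ℝ) : ℝ :=
  1 / 2 * sB M a + 3 / 2 * ((eP M e a ^ 2 - 2 * (eQ M e a * eE M e a)) / eE M e a ^ 2)

private lemma der_lf (e : Fin m → ℝ) {a : ℝ} (ha : a ∈ Ioo (0 : ℝ) 1) (hE : 0 < eE M e a) :
    HasDerivAt (lf M e) (lf1 M e a) a := by
  have h := ((der_sL M ha).const_mul (-(1 / 2) : ℝ)).fun_sub
    (((der_eE M e ha).log hE.ne').const_mul (3 / 2 : ℝ))
  refine h.congr_deriv ?_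
  unfold lf1
  ring

private lemma der_lf1 (e : Fin m → ℝ) {a : ℝ} (ha : a ∈ Ioo (0 : ℝ) 1) (hE : 0 < eE M e a) :
    HasDerivAt (lf1 M e) (lf2 M e a) a := by
  have h := ((der_sA M ha).const_mul (-(1 / 2) : ℝ)).fun_add
    ((((der_eP M e ha).fun_div (der_eE M e ha) hE.ne')).const_mul (3 / 2 : ℝ))
  refine h.congr_deriv ?_
  unfold lf2
  ring

private lemma cont_lf2 (e : Fin m → ℝ) (hE : ∀ a ∈ Ioo (0 : ℝ) 1, 0 < eE M e a) :
    ContinuousOn (lf2 M e) (Ioo 0 1) := by
  have c1 : ContinuousOn (eE M e) (Ioo 0 1) :=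
    fun a ha => (der_eE M e ha).continuousAt.continuousWithinAt
  have c2 : ContinuousOn (eP M e) (Ioo 0 1) :=
    fun a ha => (der_eP M e ha).continuousAt.continuousWithinAt
  unfold lf2
  refine (continuousOn_const.mul (cont_sB M)).add (continuousOn_const.mul
    (((c2.pow 2).sub (continuousOn_const.mul ((cont_eQ M e).mul c1))).div (c1.pow 2) ?_))
  intro a ha
  exact pow_ne_zero 2 (hE a ha).ne'

private lemma W_eq {a : ℝ} (ha : a ∈ Ioo (0 : ℝ) 1) :
    M.W a = Real.exp (-(1 / 2) * sL M a) := by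
  unfold Modes.W sL
  rw [Finset.mul_sum, Real.exp_sum]
  refine Finset.prod_congr rfl fun k _ => ?_
  rw [Real.rpow_def_of_pos (r_pos M k ha), mul_comm]


/-- the sums of `g_k`, `g_k²` without three modes `μ_k = 0` and three modes `ν_k = 0` -/
private lemma split {a : ℝ} (ha : a ∈ Ioo (0 : ℝ) 1) :
    ∃ S1 S2 : ℝ, sA M a = 3 * (1 / a - 1 / (1 - a)) + S1 ∧
      sB M a = 3 * (1 / a) ^ 2 + 3 * (1 / (1 - a)) ^ 2 + S2 ∧
      S1 ^ 2 ≤ ((m : ℝ) - 6) * S2 ∧ 0 ≤ S2 ∧ (6 : ℝ) ≤ m := by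
  classical
  obtain ⟨ha0, ha1⟩ := ha
  have ha1' : 0 < 1 - a := by linarith
  obtain ⟨T1, hT1, hc1⟩ := Finset.exists_subset_card_eq M.hμ3
  obtain ⟨T2, hT2, hc2⟩ := Finset.exists_subset_card_eq M.hν3
  have hμ0 : ∀ k ∈ T1, M.μ k = 0 := fun k hk => (Finset.mem_filter.mp (hT1 hk)).2
  have hν0 : ∀ k ∈ T2, M.ν k = 0 := fun k hk => (Finset.mem_filter.mp (hT2 hk)).2
  have hd : Disjoint T1 T2 := by
    rw [Finset.disjoint_left]
    intro k hk1 hk2
    have := M.hs k
    rw [hμ0 k hk1, hν0 k hk2] at this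
    norm_num at this
  have hg1 : ∀ k ∈ T1, M.δ k / M.r k a = 1 / a := by
    intro k hk
    have h2 : M.ν k = 1 := by have := M.hs k; rw [hμ0 k hk] at this; linarith
    unfold Modes.δ Modes.r
    rw [hμ0 k hk, h2]; simp
  have hg2 : ∀ k ∈ T2, M.δ k / M.r k a = -(1 / (1 - a)) := by
    intro k hk
    have h2 : M.μ k = 1 := by have := M.hs k; rw [hν0 k hk] at this; linarith
    unfold Modes.δ Modes.r
    rw [hν0 k hk, h2]
    simp only [zero_sub, mul_one, mul_zero, add_zero, neg_div]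
  have hcu : (T1 ∪ T2).card = 6 := by rw [Finset.card_union_of_disjoint hd, hc1, hc2]
  have hm : 6 ≤ m := by
    have h1 := Finset.card_le_univ (T1 ∪ T2)
    rw [hcu, Fintype.card_fin] at h1
    exact h1
  have hsum : ∀ f : Fin m → ℝ, ∑ k, f k =
      (∑ k ∈ T1, f k + ∑ k ∈ T2, f k) + ∑ k ∈ (T1 ∪ T2)ᶜ, f k := by
    intro f
    rw [← Finset.sum_union hd, Finset.sum_add_sum_compl]
  have hcc : (((T1 ∪ T2)ᶜ).card : ℝ) = (m : ℝ) - 6 := by
    rw [Finset.card_compl, hcu, Fintype.card_fin, Nat.cast_sub hm]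
    norm_num
  refine ⟨∑ k ∈ (T1 ∪ T2)ᶜ, M.δ k / M.r k a, ∑ k ∈ (T1 ∪ T2)ᶜ, (M.δ k / M.r k a) ^ 2,
    ?_, ?_, ?_, ?_, ?_⟩
  · unfold sA
    rw [hsum, Finset.sum_congr rfl hg1, Finset.sum_congr rfl hg2, Finset.sum_const,
      Finset.sum_const, hc1, hc2]
    simp only [nsmul_eq_mul]
    push_cast
    ring
  · unfold sB
    rw [hsum, Finset.sum_congr rfl (fun k hk => by rw [hg1 k hk] :
      ∀ k ∈ T1, (M.δ k / M.r k a) ^ 2 = (1 / a) ^ 2),
      Finset.sum_congr rfl (fun k hk => by rw [hg2 k hk, neg_sq] :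
      ∀ k ∈ T2, (M.δ k / M.r k a) ^ 2 = (1 / (1 - a)) ^ 2), Finset.sum_const,
      Finset.sum_const, hc1, hc2]
    simp only [nsmul_eq_mul]
    push_cast
    ring
  · rw [← hcc]
    exact sq_sum_le_card_mul_sum_sq
  · exact Finset.sum_nonneg fun k _ => sq_nonneg _
  · exact_mod_cast hm

private lemma quad_aux (n T S z : ℝ) (hn : 0 ≤ n) (hT : 0 ≤ T) (h : S ^ 2 ≤ n * T) :
    0 ≤ T / 2 - S * z + n * z ^ 2 / 2 := by
  rcases hn.eq_or_lt with h0 | h0
  · rw [← h0, zero_mul] at h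
    have h1 : S = 0 := by
      have h2 : S ^ 2 = 0 := le_antisymm h (sq_nonneg S)
      exact pow_eq_zero_iff (by norm_num) |>.mp h2
    rw [h1, ← h0]
    linarith
  · have h1 : 0 ≤ n * (T / 2 - S * z + n * z ^ 2 / 2) := by
      nlinarith [sq_nonneg (S - n * z)]
    exact (mul_nonneg_iff_of_pos_left h0).mp h1

private lemma cs_aux (n T S X Z : ℝ) (hn : 0 ≤ n) (hT : 0 ≤ T) (h : S ^ 2 ≤ n * T) :
    (Z - 3 / 2 * X + S / 2) ^ 2 ≤ (5 / 2 + n / 2) * (Z ^ 2 + 3 / 2 * X ^ 2 + T / 2) := by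
  have h1 := quad_aux n T S Z hn hT h
  have h2 := quad_aux n T S (-X) hn hT h
  have h3 := sq_nonneg (X + Z)
  have h4 : (5 / 2 + n / 2) * (Z ^ 2 + 3 / 2 * X ^ 2 + T / 2) - (Z - 3 / 2 * X + S / 2) ^ 2 =
      3 / 2 * (X + Z) ^ 2 + (T / 2 - S * Z + n * Z ^ 2 / 2) +
      3 / 2 * (T / 2 - S * (-X) + n * (-X) ^ 2 / 2) + (n * T - S ^ 2) / 4 := by ring
  linarith

/-- the sign of the second derivative -/
private lemma sign_key (E P Q u v A B S1 S2 n p t σ : ℝ) (hE : 0 < E)
    (hQ : Q ≤ (u - v) * P + u * v * E) (hA : A = 3 * (u - v) + S1)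
    (hB : B = 3 * u ^ 2 + 3 * v ^ 2 + S2) (hS : S1 ^ 2 ≤ (n - 6) * S2) (hS2 : 0 ≤ S2)
    (hn : 6 ≤ n) (hp : n - 1 ≤ p) (hσ : σ * σ = 1) (ht : 0 < t) :
    0 ≤ ((-(1 / 2) * A + 3 / 2 * (P / E)) ^ 2 +
      (1 / 2 * B + 3 / 2 * ((P ^ 2 - 2 * (Q * E)) / E ^ 2))) * t ^ 2 +
      2 * (-(1 / 2) * A + 3 / 2 * (P / E)) * σ * p * t + p * (p - 1) := by
  obtain ⟨x, hx⟩ : ∃ x, x = P / E := ⟨_, rfl⟩
  obtain ⟨y, hy⟩ : ∃ y, y = (P ^ 2 - 2 * (Q * E)) / E ^ 2 := ⟨_, rfl⟩
  obtain ⟨ξ, hξ⟩ : ∃ ξ, ξ = x - (u - v) := ⟨_, rfl⟩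
  have hy1 : ξ ^ 2 - u ^ 2 - v ^ 2 ≤ y := by
    have hP : P = x * E := by rw [hx]; field_simp
    have h1 : (ξ ^ 2 - u ^ 2 - v ^ 2) * E ^ 2 ≤ P ^ 2 - 2 * (Q * E) := by
      have h2 := mul_le_mul_of_nonneg_right hQ hE.le
      rw [hP] at h2 ⊢
      rw [hξ]
      nlinarith [h2]
    rw [hy, le_div_iff₀ (by positivity)]
    exact h1
  rw [← hx, ← hy]
  obtain ⟨l1, hl1⟩ : ∃ l1, l1 = -(1 / 2) * A + 3 / 2 * x := ⟨_, rfl⟩
  have hl1' : l1 = 3 / 2 * ξ - S1 / 2 := by rw [hl1, hA, hξ]; ring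
  have hl2 : S2 / 2 + 3 / 2 * ξ ^ 2 ≤ 1 / 2 * B + 3 / 2 * y := by rw [hB]; linarith
  rw [← hl1]
  have h1 := cs_aux (n - 6) (S2 * t ^ 2) (S1 * t) (ξ * t) (l1 * t + σ * p) (by linarith)
    (by positivity) (by nlinarith [mul_le_mul_of_nonneg_right hS (sq_nonneg t)])
  have h2 : l1 * t + σ * p - 3 / 2 * (ξ * t) + S1 * t / 2 = σ * p := by rw [hl1']; ring
  rw [h2] at h1
  have h3 : (σ * p) ^ 2 = p ^ 2 := by
    have : (σ * p) ^ 2 = σ * σ * p ^ 2 := by ring
    rw [this, hσ, one_mul]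
  rw [h3] at h1
  obtain ⟨R, hR⟩ : ∃ R, R = (l1 * t + σ * p) ^ 2 + 3 / 2 * (ξ * t) ^ 2 + S2 * t ^ 2 / 2 :=
    ⟨_, rfl⟩
  rw [← hR] at h1
  have hR0 : 0 ≤ R := by rw [hR]; positivity
  have hp0 : 5 ≤ p := by linarith
  have h4 : p ≤ R := by
    by_contra hc
    push Not at hc
    have h5 : (5 / 2 + (n - 6) / 2) * R ≤ p * R := by
      apply mul_le_mul_of_nonneg_right _ hR0
      linarith
    have h6 : p * R < p * p := by
      apply mul_lt_mul_of_pos_left hc
      linarith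
    nlinarith
  have h5 : (l1 ^ 2 + (1 / 2 * B + 3 / 2 * y)) * t ^ 2 + 2 * l1 * σ * p * t + p * (p - 1) =
      (l1 * t + σ * p) ^ 2 - p + (1 / 2 * B + 3 / 2 * y) * t ^ 2 := by
    have : (l1 * t + σ * p) ^ 2 = l1 ^ 2 * t ^ 2 + 2 * l1 * σ * p * t + σ * σ * p ^ 2 := by ring
    rw [this, hσ]
    ring
  rw [h5]
  have h6 := mul_le_mul_of_nonneg_right hl2 (sq_nonneg t)
  have h7 : (S2 / 2 + 3 / 2 * ξ ^ 2) * t ^ 2 = 3 / 2 * (ξ * t) ^ 2 + S2 * t ^ 2 / 2 := by ring
  rw [h7] at h6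
  linarith

/-! ## the power -/

private lemma mx_der (p : ℝ) (hp : 1 < p) (x : ℝ) :
    HasDerivAt (fun x : ℝ => (max x 0) ^ p) (p * (max x 0) ^ (p - 1)) x := by
  have hp1 : p - 1 ≠ 0 := by linarith
  have hp0 : p ≠ 0 := by linarith
  rcases lt_trichotomy x 0 with h | h | h
  · have h1 : (fun x : ℝ => (max x 0) ^ p) =ᶠ[𝓝 x] fun _ => (0 : ℝ) := by
      filter_upwards [Iio_mem_nhds h] with y hy
      rw [max_eq_right (le_of_lt hy), Real.zero_rpow hp0]
    rw [max_eq_right h.le, Real.zero_rpow hp1, mul_zero]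
    exact (hasDerivAt_const x (0 : ℝ)).congr_of_eventuallyEq h1
  · subst h
    rw [max_self, Real.zero_rpow hp1, mul_zero, hasDerivAt_iff_isLittleO]
    have h1 : (fun y : ℝ => max y 0) =O[𝓝 0] fun y : ℝ => y := by
      refine Asymptotics.IsBigO.of_bound 1 (Eventually.of_forall fun y => ?_)
      rw [one_mul, Real.norm_eq_abs, Real.norm_eq_abs, abs_of_nonneg (le_max_right y 0)]
      exact max_le (le_abs_self y) (abs_nonneg y)
    have h2 : (fun y : ℝ => (max y 0) ^ (p - 1)) =o[𝓝 0] fun _ : ℝ => (1 : ℝ) := by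
      rw [Asymptotics.isLittleO_one_iff]
      have h3 : Continuous fun y : ℝ => (max y 0) ^ (p - 1) :=
        (continuous_id.max continuous_const).rpow_const fun y => Or.inr (by linarith)
      have h4 := h3.tendsto 0
      simp only [max_self] at h4
      rwa [Real.zero_rpow hp1] at h4
    have h3 := h1.mul_isLittleO h2
    refine (h3.congr' ?_ ?_)
    · refine Eventually.of_forall fun y => ?_
      have h4 : (0 : ℝ) ≤ max y 0 := le_max_right _ _
      have h5 : (max y 0) ^ p = max y 0 * (max y 0) ^ (p - 1) := by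
        have h6 := Real.rpow_add_of_nonneg h4 (zero_le_one) (by linarith : (0 : ℝ) ≤ p - 1)
        rw [Real.rpow_one, add_sub_cancel] at h6
        exact h6
      simp only [max_self, Real.zero_rpow hp0, sub_zero, smul_eq_mul, mul_zero]
      exact h5.symm
    · refine Eventually.of_forall fun y => ?_
      simp
  · have h1 : (fun x : ℝ => (max x 0) ^ p) =ᶠ[𝓝 x] fun x => x ^ p := by
      filter_upwards [Ioi_mem_nhds h] with y hy
      rw [max_eq_left (le_of_lt hy)]
    rw [max_eq_left h.le]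
    exact (Real.hasDerivAt_rpow_const (Or.inl h.ne')).congr_of_eventuallyEq h1

private lemma om_der (σ as p : ℝ) (hp : 1 < p) (a : ℝ) :
    HasDerivAt (fun a : ℝ => (max (σ * (a - as)) 0) ^ p)
      (σ * (p * (max (σ * (a - as)) 0) ^ (p - 1))) a := by
  have h1 : HasDerivAt (fun a : ℝ => σ * (a - as)) σ a := by
    have h2 := ((hasDerivAt_id a).sub_const as).const_mul σ
    exact h2.congr_deriv (by ring)
  have h2 := (mx_der p hp (σ * (a - as))).comp a h1
  exact h2.congr_deriv (by ring)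

private lemma om_cont (σ as p : ℝ) (hp : 0 ≤ p) :
    Continuous fun a : ℝ => (max (σ * (a - as)) 0) ^ p :=
  ((continuous_const.mul (continuous_id.sub continuous_const)).max continuous_const).rpow_const
    fun _ => Or.inr hp

private lemma adm (as p σ : ℝ) (hp : (m : ℝ) - 1 ≤ p) (hσ : σ * σ = 1) :
    Adm M (fun a => M.W a * (max (σ * (a - as)) 0) ^ p) := by
  have hm : (6 : ℝ) ≤ m := by
    obtain ⟨_, _, _, _, _, _, h⟩ := split M (a := 1 / 2) ⟨by norm_num, by norm_num⟩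
    exact h
  have hp5 : 5 ≤ p := by linarith
  have e1 : ∀ a ∈ Ioo (0 : ℝ) 1, HasDerivAt (fun a => Real.exp (-(1 / 2) * sL M a))
      (Real.exp (-(1 / 2) * sL M a) * (-(1 / 2) * sA M a)) a := by
    intro a ha
    exact ((der_sL M ha).const_mul (-(1 / 2) : ℝ)).exp
  have d3 := fun a => om_der σ as p (by linarith) a
  have d4 : ∀ a, HasDerivAt (fun a => σ * (p * (max (σ * (a - as)) 0) ^ (p - 1)))
      (σ * (p * (σ * ((p - 1) * (max (σ * (a - as)) 0) ^ (p - 1 - 1))))) a := fun a =>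
    ((om_der σ as (p - 1) (by linarith) a).const_mul p).const_mul σ
  have c3 := om_cont σ as p (by linarith)
  have c4 := om_cont σ as (p - 1) (by linarith)
  have c5 := om_cont σ as (p - 1 - 1) (by linarith)
  refine ⟨?_, ?_, ?_⟩
  · intro a ha
    have h1 : 0 ≤ M.W a := by
      rw [W_eq M ha]
      exact (Real.exp_pos _).le
    exact mul_nonneg h1 (Real.rpow_nonneg (le_max_right _ _) _)
  · refine ⟨fun a => Real.exp (-(1 / 2) * sL M a) * (-(1 / 2) * sA M a) *
      (max (σ * (a - as)) 0) ^ p + Real.exp (-(1 / 2) * sL M a) *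
      (σ * (p * (max (σ * (a - as)) 0) ^ (p - 1))), ?_, ?_⟩
    · have cA : ContinuousOn (sA M) (Ioo 0 1) :=
        fun a ha => (der_sA M ha).continuousAt.continuousWithinAt
      have cE : ContinuousOn (fun a => Real.exp (-(1 / 2) * sL M a)) (Ioo 0 1) :=
        fun a ha => (e1 a ha).continuousAt.continuousWithinAt
      exact ((cE.mul (continuousOn_const.mul cA)).mul c3.continuousOn).add
        (cE.mul (continuousOn_const.mul (continuousOn_const.mul c4.continuousOn)))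
    · intro a ha
      have h1 := (e1 a ha).fun_mul (d3 a)
      refine h1.congr_of_eventuallyEq ?_
      filter_upwards [Ioo_mem_nhds ha.1 ha.2] with x hx
      rw [W_eq M hx]
  · intro b Y hG a1 ha1 a2 ha2
    obtain ⟨e, he⟩ : ∃ e : Fin m → ℝ, e = fun k => M.res b Y k / (M.r k a1 * M.r k a2) :=
      ⟨_, rfl⟩
    have hres : ∀ k, 0 ≤ M.res b Y k := fun k => by unfold Modes.res; positivity
    have he0 : ∀ k, 0 ≤ e k := by
      intro k
      rw [he]
      exact div_nonneg (hres k) (mul_pos (r_pos M k ha1) (r_pos M k ha2)).le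
    have hEE : ∀ a, M.EE b Y a1 a2 a = eE M e a := by
      intro a
      unfold Modes.EE eE
      refine Finset.sum_congr rfl fun k _ => ?_
      rw [he]
      exact (div_div _ _ _).symm
    have hpos : ∀ a ∈ Ioo (0 : ℝ) 1, 0 < eE M e a := by
      intro a ha
      obtain ⟨⟨k, hk1, hk2⟩, -⟩ := hG
      unfold eE
      refine Finset.sum_pos' (fun j _ => div_nonneg (he0 j) (r_pos M j ha).le)
        ⟨k, Finset.mem_univ k, ?_⟩
      have h1 : M.ν k = 1 := by have := M.hs k; rw [hk1] at this; linarith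
      have h2 : M.res b Y k = Y k ^ 2 := by
        unfold Modes.res Modes.δ
        rw [hk1, h1]; ring
      have h3 : 0 < M.res b Y k := by rw [h2]; positivity
      rw [he]
      exact div_pos (div_pos h3 (mul_pos (r_pos M k ha1) (r_pos M k ha2))) (r_pos M k ha)
    have hHH : ∀ a ∈ Ioo (0 : ℝ) 1, M.W a * (max (σ * (a - as)) 0) ^ p *
        (M.EE b Y a1 a2 a) ^ (-(3 / 2) : ℝ) =
        Real.exp (lf M e a) * (max (σ * (a - as)) 0) ^ p := by
      intro a ha
      have h1 : M.W a * (M.EE b Y a1 a2 a) ^ (-(3 / 2) : ℝ) = Real.exp (lf M e a) := by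
        unfold lf
        rw [hEE, W_eq M ha, Real.rpow_def_of_pos (hpos a ha), ← Real.exp_add]
        congr 1
        ring
      rw [← h1]
      ring
    have d1 : ∀ a ∈ Ioo (0 : ℝ) 1, HasDerivAt (fun a => Real.exp (lf M e a))
        (Real.exp (lf M e a) * lf1 M e a) a := fun a ha => (der_lf M e ha (hpos a ha)).exp
    have d2 : ∀ a ∈ Ioo (0 : ℝ) 1, HasDerivAt (fun a => Real.exp (lf M e a) * lf1 M e a)
        (Real.exp (lf M e a) * lf1 M e a * lf1 M e a + Real.exp (lf M e a) * lf2 M e a) a :=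
      fun a ha => (d1 a ha).fun_mul (der_lf1 M e ha (hpos a ha))
    refine ⟨fun a ha => by rw [hEE]; exact hpos a ha,
      fun a => Real.exp (lf M e a) * lf1 M e a * (max (σ * (a - as)) 0) ^ p +
        Real.exp (lf M e a) * (σ * (p * (max (σ * (a - as)) 0) ^ (p - 1))),
      fun a => ((Real.exp (lf M e a) * lf1 M e a * lf1 M e a + Real.exp (lf M e a) * lf2 M e a) *
        (max (σ * (a - as)) 0) ^ p + Real.exp (lf M e a) * lf1 M e a *
        (σ * (p * (max (σ * (a - as)) 0) ^ (p - 1)))) + (Real.exp (lf M e a) * lf1 M e a *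
        (σ * (p * (max (σ * (a - as)) 0) ^ (p - 1))) + Real.exp (lf M e a) *
        (σ * (p * (σ * ((p - 1) * (max (σ * (a - as)) 0) ^ (p - 1 - 1)))))), ?_, ?_⟩
    · have k1 : ContinuousOn (fun a => Real.exp (lf M e a)) (Ioo 0 1) :=
        fun a ha => (d1 a ha).continuousAt.continuousWithinAt
      have k2 : ContinuousOn (lf1 M e) (Ioo 0 1) :=
        fun a ha => (der_lf1 M e ha (hpos a ha)).continuousAt.continuousWithinAt
      have k3 := cont_lf2 M e hpos
      have k4 : ContinuousOn (fun a => σ * (p * (max (σ * (a - as)) 0) ^ (p - 1))) (Ioo 0 1) :=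
        (continuous_const.mul (continuous_const.mul c4)).continuousOn
      have k5 : ContinuousOn (fun a => σ * (p * (σ * ((p - 1) *
          (max (σ * (a - as)) 0) ^ (p - 1 - 1))))) (Ioo 0 1) :=
        (continuous_const.mul (continuous_const.mul (continuous_const.mul
          (continuous_const.mul c5)))).continuousOn
      exact (((((k1.mul k2).mul k2).add (k1.mul k3)).mul c3.continuousOn).add
        ((k1.mul k2).mul k4)).add (((k1.mul k2).mul k4).add (k1.mul k5))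
    · intro a ha
      refine ⟨?_, ((d2 a ha).fun_mul (d3 a)).fun_add ((d1 a ha).fun_mul (d4 a)), ?_⟩
      · refine ((d1 a ha).fun_mul (d3 a)).congr_of_eventuallyEq ?_
        filter_upwards [Ioo_mem_nhds ha.1 ha.2] with x hx using hHH x hx
      · obtain ⟨t, ht⟩ : ∃ t, t = max (σ * (a - as)) 0 := ⟨_, rfl⟩
        have ht0 : 0 ≤ t := by rw [ht]; exact le_max_right _ _
        simp only [← ht]
        rcases ht0.eq_or_lt with h0 | h0
        · rw [← h0, Real.zero_rpow (by linarith), Real.zero_rpow (by linarith),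
            Real.zero_rpow (by linarith)]
          simp
        · have hA1 : t ^ (p - 1) = t ^ (p - 1 - 1) * t := by
            have h1 := Real.rpow_add h0 (p - 1 - 1) 1
            rw [Real.rpow_one, sub_add_cancel] at h1
            exact h1
          have hA2 : t ^ p = t ^ (p - 1 - 1) * t ^ 2 := by
            have h1 := Real.rpow_add h0 (p - 1) 1
            rw [Real.rpow_one, sub_add_cancel, hA1] at h1
            rw [h1]
            ring
          obtain ⟨S1, S2, hs1, hs2, hs3, hs4, hs5⟩ := split M ha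
          have hkey := sign_key (eE M e a) (eP M e a) (eQ M e a) (1 / a) (1 / (1 - a))
            (sA M a) (sB M a) S1 S2 m p t σ (hpos a ha) (eQ_le M e he0 ha) hs1 hs2 hs3 hs4 hs5
            hp hσ h0
          have hl1 : -(1 / 2) * sA M a + 3 / 2 * (eP M e a / eE M e a) = lf1 M e a := rfl
          have hl2 : 1 / 2 * sB M a + 3 / 2 * ((eP M e a ^ 2 - 2 * (eQ M e a * eE M e a)) /
            eE M e a ^ 2) = lf2 M e a := rfl
          rw [hl1, hl2] at hkey
          have hfin : ((Real.exp (lf M e a) * lf1 M e a * lf1 M e a +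
              Real.exp (lf M e a) * lf2 M e a) * t ^ p + Real.exp (lf M e a) * lf1 M e a *
              (σ * (p * t ^ (p - 1)))) + (Real.exp (lf M e a) * lf1 M e a *
              (σ * (p * t ^ (p - 1))) + Real.exp (lf M e a) *
              (σ * (p * (σ * ((p - 1) * t ^ (p - 1 - 1)))))) =
              Real.exp (lf M e a) * t ^ (p - 1 - 1) * ((lf1 M e a ^ 2 + lf2 M e a) * t ^ 2 +
              2 * lf1 M e a * σ * p * t + σ * σ * (p * (p - 1))) := by
            rw [hA1, hA2]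
            ring
          rw [hfin, hσ, one_mul]
          exact mul_nonneg (mul_nonneg (Real.exp_pos _).le (Real.rpow_nonneg ht0 _)) hkey

end AdmWAux

open AdmWAux

/-- the weights are admissible -/
theorem admWStmt : AdmWStmt := by
  intro m M as p hp
  have h1 := adm M as p 1 hp (by norm_num)
  have h2 := adm M as p (-1) hp (by norm_num)
  constructor
  · have e : (fun a => M.W a * (max (1 * (a - as)) 0) ^ p) =
        fun a => M.W a * (max (a - as) 0) ^ p := by
      funext a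
      rw [one_mul]
    rw [e] at h1
    exact h1
  · have e : (fun a => M.W a * (max (-1 * (a - as)) 0) ^ p) =
        fun a => M.W a * (max (as - a) 0) ^ p := by
      funext a
      rw [neg_one_mul, neg_sub]
    rw [e] at h2
    exact h2

end Pool.Agent.Lib.MP_0c1c75_co.KA
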