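import Pool.Agent.Lib.MP_0c1c75_co.KA.Spec

set_option autoImplicit false

open MeasureTheory Set Filter Topology
open scoped RealInnerProductSpace

namespace Pool.Agent.Lib.MP_0c1c75_co.KA

open Pool.Agent.Lib.MP_0c1c75_co.KG

namespace ApexAux

/-- the change of the levels is linear in the shift of the apex -/
private theorem lev_add {m N : ℕ} (M : Modes m) (ζ : Fin N → Fin m → ℝ) (Ys : Fin m → ℝ)
    (as hs t s : ℝ) (i : Fin N) :
    lev M ζ Ys (as + t) (hs + s) i =
      lev M ζ Ys as hs i + s + t * ∑ k, (M.ν k - M.μ k) * ζ i k ^ 2 := by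
  unfold lev
  have h : ∑ k, M.r k (as + t) * ζ i k ^ 2 =
      ∑ k, M.r k as * ζ i k ^ 2 + t * ∑ k, (M.ν k - M.μ k) * ζ i k ^ 2 := by
    rw [Finset.mul_sum, ← Finset.sum_add_distrib]
    refine Finset.sum_congr rfl fun k _ => ?_
    unfold Modes.r
    ring
  rw [h]
  ring

private theorem closed_set {d N : ℕ} (q : Fin N → E d) (c : Fin N → ℝ) :
    IsClosed {x : E d | ∀ k, ‖x - q k‖ ^ 2 ≤ c k} := by
  rw [Set.ofPred_forall]
  exact isClosed_iInter fun k => isClosed_le (by fun_prop) continuous_const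

private theorem finite_set {d N : ℕ} (hN : 0 < N) (q : Fin N → E d) (c : Fin N → ℝ) :
    volume {x : E d | ∀ k, ‖x - q k‖ ^ 2 ≤ c k} ≠ ⊤ := by
  have hsub : {x : E d | ∀ k, ‖x - q k‖ ^ 2 ≤ c k} ⊆
      Metric.closedBall (q ⟨0, hN⟩) (Real.sqrt (c ⟨0, hN⟩)) := by
    intro x hx
    rw [Metric.mem_closedBall, dist_eq_norm]
    exact Real.le_sqrt_of_sq_le (hx ⟨0, hN⟩)
  exact ((measure_mono hsub).trans_lt (isCompact_closedBall _ _).measure_lt_top).ne

end ApexAux

theorem apexStmt (h : LevelStmt) : ApexStmt := by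
  intro d N p q M ζ Ys as hs hC hR
  by_cases h01 : as ≠ 0 ∧ as ≠ 1
  · exact h d N p q M ζ Ys as hs hC hR h01.1 h01.2
  rcases Nat.eq_zero_or_pos N with hN | hN
  · subst hN
    have e1 : {x : E d | ∀ k : Fin 0, ‖x - p k‖ ^ 2 ≤ lev M ζ Ys as hs k} = univ :=
      eq_univ_of_forall fun x k => k.elim0
    have e2 : {x : E d | ∀ k : Fin 0, ‖x - q k‖ ^ 2 ≤ lev M ζ Ys as hs k} = univ :=
      eq_univ_of_forall fun x k => k.elim0
    rw [e1, e2]
  set B : ℝ := ∑ i : Fin N, |∑ k, (M.ν k - M.μ k) * ζ i k ^ 2| with hB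
  have hBi : ∀ i : Fin N, |∑ k, (M.ν k - M.μ k) * ζ i k ^ 2| ≤ B := fun i =>
    Finset.single_le_sum (f := fun i : Fin N => |∑ k, (M.ν k - M.μ k) * ζ i k ^ 2|)
      (fun j _ => abs_nonneg _) (Finset.mem_univ i)
  have hB0 : 0 ≤ B := Finset.sum_nonneg fun j _ => abs_nonneg _
  let t : ℕ → ℝ := fun n => 1 / ((n : ℝ) + 1 + 1)
  have ht0 : ∀ n, 0 < t n := fun n => by
    change (0 : ℝ) < 1 / ((n : ℝ) + 1 + 1)
    positivity
  have ht1 : ∀ n, t n < 1 := fun n => by
    change 1 / ((n : ℝ) + 1 + 1) < 1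
    rw [div_lt_one (by positivity)]
    have : (0 : ℝ) ≤ n := Nat.cast_nonneg n
    linarith
  have htanti : Antitone t := by
    intro m n hmn
    change 1 / ((n : ℝ) + 1 + 1) ≤ 1 / ((m : ℝ) + 1 + 1)
    have : (m : ℝ) ≤ n := Nat.cast_le.2 hmn
    exact one_div_le_one_div_of_le (by positivity) (by linarith)
  have htlim : Tendsto t atTop (𝓝 0) := by
    have h1 := (tendsto_one_div_add_atTop_nhds_zero_nat (𝕜 := ℝ)).comp (tendsto_add_atTop_nat 1)
    refine h1.congr fun n => ?_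
    change 1 / (((n + 1 : ℕ) : ℝ) + 1) = 1 / ((n : ℝ) + 1 + 1)
    push_cast
    rfl
  -- the comparison for every `n`
  have hstep : ∀ n, volume {x : E d | ∀ k, ‖x - p k‖ ^ 2 ≤ lev M ζ Ys as hs k} ≤
      volume {x : E d | ∀ k, ‖x - q k‖ ^ 2 ≤ lev M ζ Ys as hs k + 2 * (t n * B)} := by
    intro n
    have hne0 : as + t n ≠ 0 := by
      intro h1
      rw [not_and_or, not_not, not_not] at h01
      rcases h01 with h2 | h2
      · rw [h2, zero_add] at h1
        exact (ht0 n).ne' h1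
      · rw [h2] at h1
        linarith [ht0 n]
    have hne1 : as + t n ≠ 1 := by
      intro h1
      rw [not_and_or, not_not, not_not] at h01
      rcases h01 with h2 | h2
      · rw [h2, zero_add] at h1
        exact (ht1 n).ne h1
      · rw [h2] at h1
        linarith [ht0 n]
    have hmid := h d N p q M ζ Ys (as + t n) (hs + t n * B) hC hR hne0 hne1
    have hdiff : ∀ i, |t n * ∑ k, (M.ν k - M.μ k) * ζ i k ^ 2| ≤ t n * B := by
      intro i
      rw [abs_mul, abs_of_pos (ht0 n)]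
      exact mul_le_mul_of_nonneg_left (hBi i) (ht0 n).le
    have hsub1 : {x : E d | ∀ k, ‖x - p k‖ ^ 2 ≤ lev M ζ Ys as hs k} ⊆
        {x : E d | ∀ k, ‖x - p k‖ ^ 2 ≤ lev M ζ Ys (as + t n) (hs + t n * B) k} := by
      intro x hx k
      have h2 := hx k
      have h3 := (abs_le.1 (hdiff k)).1
      rw [ApexAux.lev_add]
      linarith
    have hsub2 : {x : E d | ∀ k, ‖x - q k‖ ^ 2 ≤ lev M ζ Ys (as + t n) (hs + t n * B) k} ⊆
        {x : E d | ∀ k, ‖x - q k‖ ^ 2 ≤ lev M ζ Ys as hs k + 2 * (t n * B)} := by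
      intro x hx k
      have h2 := hx k
      have h3 := (abs_le.1 (hdiff k)).2
      rw [ApexAux.lev_add] at h2
      linarith
    exact (measure_mono hsub1).trans (hmid.trans (measure_mono hsub2))
  -- continuity from above
  have hlim := tendsto_measure_iInter_atTop (μ := (volume : Measure (E d)))
    (s := fun n => {x : E d | ∀ k, ‖x - q k‖ ^ 2 ≤ lev M ζ Ys as hs k + 2 * (t n * B)})
    (fun n => (ApexAux.closed_set q _).measurableSet.nullMeasurableSet)
    (fun m n hmn x hx k => (hx k).trans (by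
      have := mul_le_mul_of_nonneg_right (htanti hmn) hB0
      linarith))
    ⟨0, ApexAux.finite_set hN q _⟩
  have hint : ⋂ n, {x : E d | ∀ k, ‖x - q k‖ ^ 2 ≤ lev M ζ Ys as hs k + 2 * (t n * B)} =
      {x : E d | ∀ k, ‖x - q k‖ ^ 2 ≤ lev M ζ Ys as hs k} := by
    ext x
    constructor
    · intro hx k
      have h1 : Tendsto (fun n => lev M ζ Ys as hs k + 2 * (t n * B)) atTop
          (𝓝 (lev M ζ Ys as hs k + 2 * (0 * B))) :=
        tendsto_const_nhds.add ((htlim.mul_const B).const_mul 2)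
      rw [zero_mul, mul_zero, add_zero] at h1
      exact ge_of_tendsto' h1 fun n => (mem_iInter.1 hx n) k
    · intro hx
      rw [mem_iInter]
      intro n k
      have h1 := hx k
      have h2 := mul_nonneg (ht0 n).le hB0
      linarith
  rw [hint] at hlim
  exact ge_of_tendsto' hlim hstep

end Pool.Agent.Lib.MP_0c1c75_co.KA
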