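import Pool.Agent.Lib.MP_0c1c75_co.KA.Spec

/-!
# Theorem A: approximation of a `C¹` function by polynomials in `exp (-h)`
-/

set_option autoImplicit false

open MeasureTheory Set Filter Topology
open scoped RealInnerProductSpace

namespace Pool.Agent.Lib.MP_0c1c75_co.KA

open Pool.Agent.Lib.MP_0c1c75_co.KG

namespace Approx1Aux

/-- antiderivative of a polynomial -/
private lemma antid (T : Polynomial ℝ) :
    ∃ U : Polynomial ℝ, Polynomial.derivative U = T ∧ U.eval 0 = 0 := by
  induction T using Polynomial.induction_on' with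
  | add p q hp hq =>
    obtain ⟨U, h1, h2⟩ := hp
    obtain ⟨V, h3, h4⟩ := hq
    exact ⟨U + V, by rw [Polynomial.derivative_add, h1, h3],
      by rw [Polynomial.eval_add, h2, h4, add_zero]⟩
  | monomial n a =>
    refine ⟨Polynomial.monomial (n + 1) (a / (n + 1)), ?_, ?_⟩
    · rw [Polynomial.derivative_monomial, Nat.add_sub_cancel]
      congr 1
      have : (n : ℝ) + 1 ≠ 0 := by positivity
      push_cast
      field_simp
    · rw [Polynomial.eval_monomial, zero_pow (Nat.succ_ne_zero n), mul_zero]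

variable {G G1 : ℝ → ℝ} {H : ℝ}

/-- `G(-log z)/z` -/
private noncomputable def ff (G : ℝ → ℝ) (z : ℝ) : ℝ := if 0 < z then G (-Real.log z) / z else 0

/-- its derivative -/
private noncomputable def ff1 (G G1 : ℝ → ℝ) (z : ℝ) : ℝ :=
  if 0 < z then -(G1 (-Real.log z) + G (-Real.log z)) / z ^ 2 else 0

private lemma G1_zero (hG : ∀ h, HasDerivAt G (G1 h) h) (hH : ∀ h, H ≤ h → G h = 0) {h : ℝ}
    (hh : H < h) : G1 h = 0 := by
  have h1 : G =ᶠ[𝓝 h] fun _ => 0 := by
    filter_upwards [Ioi_mem_nhds hh] with x hx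
    exact hH x (le_of_lt hx)
  exact ((hG h).congr_of_eventuallyEq h1.symm).unique (hasDerivAt_const h (0 : ℝ))

private lemma log_gt {z : ℝ} (hz : 0 < z) (h : z < Real.exp (-H)) : H < -Real.log z := by
  have := (Real.log_lt_iff_lt_exp hz).mpr h
  linarith

private lemma ff_zero (hH : ∀ h, H ≤ h → G h = 0) {z : ℝ} (h : z < Real.exp (-H)) :
    ff G z = 0 := by
  unfold ff
  split_ifs with hz
  · rw [hH _ (log_gt hz h).le, zero_div]
  · rfl

private lemma ff1_zero (hG : ∀ h, HasDerivAt G (G1 h) h) (hH : ∀ h, H ≤ h → G h = 0) {z : ℝ}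
    (h : z < Real.exp (-H)) : ff1 G G1 z = 0 := by
  unfold ff1
  split_ifs with hz
  · rw [hH _ (log_gt hz h).le, G1_zero hG hH (log_gt hz h)]
    simp
  · rfl

private lemma ff_deriv (hG : ∀ h, HasDerivAt G (G1 h) h) (hH : ∀ h, H ≤ h → G h = 0) (z : ℝ) :
    HasDerivAt (ff G) (ff1 G G1 z) z := by
  rcases lt_or_ge z (Real.exp (-H)) with h | h
  · rw [ff1_zero hG hH h]
    have h1 : ff G =ᶠ[𝓝 z] fun _ => 0 := by
      filter_upwards [Iio_mem_nhds h] with x hx
      exact ff_zero hH hx
    exact (hasDerivAt_const z (0 : ℝ)).congr_of_eventuallyEq h1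
  · have hz : 0 < z := lt_of_lt_of_le (Real.exp_pos _) h
    have h1 : ff G =ᶠ[𝓝 z] fun x => G (-Real.log x) / x := by
      filter_upwards [Ioi_mem_nhds hz] with x hx
      exact if_pos hx
    have h2 : HasDerivAt (fun x => -Real.log x) (-(z⁻¹)) z := (Real.hasDerivAt_log hz.ne').neg
    have h3 : HasDerivAt (fun x => G (-Real.log x)) (G1 (-Real.log z) * -(z⁻¹)) z :=
      (hG (-Real.log z)).comp z h2
    have h4 := h3.div (hasDerivAt_id z) hz.ne'
    refine (h4.congr_deriv ?_).congr_of_eventuallyEq h1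
    unfold ff1
    rw [if_pos hz]
    simp only [id]
    field_simp
    ring

private lemma ff1_cont (hG : ∀ h, HasDerivAt G (G1 h) h) (hc : Continuous G1)
    (hH : ∀ h, H ≤ h → G h = 0) : Continuous (ff1 G G1) := by
  rw [continuous_iff_continuousAt]
  intro z
  rcases lt_or_ge z (Real.exp (-H)) with h | h
  · have h1 : ff1 G G1 =ᶠ[𝓝 z] fun _ => 0 := by
      filter_upwards [Iio_mem_nhds h] with x hx
      exact ff1_zero hG hH hx
    exact continuousAt_const.congr h1.symm
  · have hz : 0 < z := lt_of_lt_of_le (Real.exp_pos _) h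
    have h1 : ff1 G G1 =ᶠ[𝓝 z] fun x => -(G1 (-Real.log x) + G (-Real.log x)) / x ^ 2 := by
      filter_upwards [Ioi_mem_nhds hz] with x hx
      exact if_pos hx
    refine ContinuousAt.congr ?_ h1.symm
    have h2 : ContinuousAt (fun x => -Real.log x) z := (Real.continuousAt_log hz.ne').neg
    have h3 : ContinuousAt (fun x => G (-Real.log x)) z :=
      ContinuousAt.comp (f := fun x => -Real.log x) (g := G) (hG _).continuousAt h2
    have h4 : ContinuousAt (fun x => G1 (-Real.log x)) z :=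
      ContinuousAt.comp (f := fun x => -Real.log x) (g := G1) hc.continuousAt h2
    exact (h4.add h3).neg.div (continuousAt_id.pow 2) (pow_ne_zero 2 hz.ne')

end Approx1Aux

open Approx1Aux in
theorem approx1Stmt : Approx1Stmt := by
  intro G G1 H S hG hc hH ε hε
  set Z : ℝ := Real.exp S with hZ
  have hZ0 : 0 < Z := Real.exp_pos S
  obtain ⟨T, hT⟩ := exists_polynomial_near_of_continuousOn 0 Z (ff1 G G1)
    (ff1_cont hG hc hH).continuousOn (ε / (2 * Z + 1)) (by positivity)
  obtain ⟨U, hU1, hU2⟩ := antid T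
  have hf0 : ff G 0 = 0 := if_neg (lt_irrefl 0)
  have hUf : ∀ z ∈ Icc (0 : ℝ) Z, |U.eval z - ff G z| ≤ ε / (2 * Z + 1) * Z := by
    intro z hz
    have h1 : ∀ x ∈ Icc (0 : ℝ) Z, HasDerivWithinAt (fun x => U.eval x - ff G x)
        (T.eval x - ff1 G G1 x) (Icc 0 Z) x := by
      intro x _
      have h2 := U.hasDerivAt x
      rw [hU1] at h2
      exact (h2.sub (ff_deriv hG hH x)).hasDerivWithinAt
    have h3 := Convex.norm_image_sub_le_of_norm_hasDerivWithin_le (C := ε / (2 * Z + 1)) h1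
      (fun x hx => (hT x hx).le) (convex_Icc 0 Z) (left_mem_Icc.mpr hZ0.le) hz
    simp only [hU2, hf0, sub_zero, Real.norm_eq_abs] at h3
    refine h3.trans ?_
    rw [abs_of_nonneg hz.1]
    exact mul_le_mul_of_nonneg_left hz.2 (by positivity)
  refine ⟨Polynomial.X * U, by rw [Polynomial.eval_mul, Polynomial.eval_X, zero_mul], ?_⟩
  intro h hh
  set z : ℝ := Real.exp (-h) with hz
  have hz0 : 0 < z := Real.exp_pos _
  have hzZ : z ≤ Z := Real.exp_le_exp.mpr (by linarith)
  have hlog : -Real.log z = h := by rw [hz, Real.log_exp, neg_neg]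
  have hzm : z ∈ Icc (0 : ℝ) Z := ⟨hz0.le, hzZ⟩
  have e1 : G h = z * ff G z := by
    unfold ff
    rw [if_pos hz0, hlog]
    field_simp
  have e2 : G1 h = -(z * (ff G z + z * ff1 G G1 z)) := by
    unfold ff ff1
    rw [if_pos hz0, if_pos hz0, hlog]
    field_simp
    ring
  have b1 := hUf z hzm
  have b2 := (hT z hzm).le
  have hε' : ε / (2 * Z + 1) * Z ≤ ε / 2 := by
    rw [div_mul_eq_mul_div, div_le_div_iff₀ (by positivity) (by norm_num)]
    nlinarith
  constructor
  · rw [e1, Polynomial.eval_mul, Polynomial.eval_X, ← mul_sub, abs_mul, abs_of_pos hz0, mul_comm]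
    exact mul_le_mul_of_nonneg_right (b1.trans (hε'.trans (by linarith))) hz0.le
  · rw [e2, Polynomial.derivative_mul, Polynomial.derivative_X, hU1, Polynomial.eval_add,
      Polynomial.eval_mul, Polynomial.eval_mul, Polynomial.eval_X, Polynomial.eval_one, one_mul]
    have e3 : -(z * (U.eval z + z * T.eval z)) - -(z * (ff G z + z * ff1 G G1 z)) =
        -(z * ((U.eval z - ff G z) + z * (T.eval z - ff1 G G1 z))) := by ring
    rw [e3, abs_neg, abs_mul, abs_of_pos hz0, mul_comm]
    refine mul_le_mul_of_nonneg_right ?_ hz0.le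
    refine (abs_add_le _ _).trans ?_
    rw [abs_mul, abs_of_pos hz0]
    have b3 : z * |T.eval z - ff1 G G1 z| ≤ Z * (ε / (2 * Z + 1)) :=
      mul_le_mul hzZ b2 (abs_nonneg _) hZ0.le
    have b4 : Z * (ε / (2 * Z + 1)) = ε / (2 * Z + 1) * Z := mul_comm _ _
    linarith

end Pool.Agent.Lib.MP_0c1c75_co.KA
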