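import Pool.Agent.Lib.MP_0c1c75_co.KA.Spec

/-!
# Theorem A, module Bound: integrability of the kernel integrand for homogeneous functions
-/

set_option autoImplicit false

open MeasureTheory Set Filter Topology
open scoped ENNReal

namespace Pool.Agent.Lib.MP_0c1c75_co.KA

open Pool.Agent.Lib.MP_0c1c75_co.KG

namespace BoundAux

/-! ## One-dimensional integrals -/

theorem lint_tail {γ Δ : ℝ} (hγ : γ < 1) (hΔ : 0 < Δ) :
    ∫⁻ t in Ioi Δ, ENNReal.ofReal (t ^ (γ - 2)) = ENNReal.ofReal (Δ ^ (γ - 1) / (1 - γ)) := by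
  have h1 : IntegrableOn (fun t : ℝ => t ^ (γ - 2)) (Ioi Δ) :=
    integrableOn_Ioi_rpow_of_lt (by linarith) hΔ
  rw [← ofReal_integral_eq_lintegral_ofReal h1 ?_, integral_Ioi_rpow_of_lt (by linarith) hΔ]
  · congr 1
    have h2 : γ - 2 + 1 = γ - 1 := by ring
    rw [h2, neg_div, ← div_neg, neg_sub]
  · exact (ae_restrict_iff' measurableSet_Ioi).2
      (ae_of_all _ fun t ht => Real.rpow_nonneg (hΔ.le.trans (le_of_lt ht)) _)

/-- the integral over the level shift -/
theorem lint_s {γ A B : ℝ} (hγ : γ < 1) :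
    ∫⁻ s : ℝ, (if 0 < A + s ∧ 0 < B + s then
      ENNReal.ofReal ((A + s + (B + s)) ^ (γ - 2)) else 0) ≤
      ENNReal.ofReal (1 / (1 - γ)) * ENNReal.ofReal |A - B| ^ (γ - 1) := by
  have h0 : 0 < 1 / (1 - γ) := by
    apply one_div_pos.2
    linarith
  rcases eq_or_lt_of_le (abs_nonneg (A - B)) with h | h
  · rw [← h, ENNReal.ofReal_zero, ENNReal.zero_rpow_of_neg (by linarith),
      ENNReal.mul_top (by simpa using h0)]
    exact le_top
  · have key : ∀ s : ℝ, (if 0 < A + s ∧ 0 < B + s then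
        ENNReal.ofReal ((A + s + (B + s)) ^ (γ - 2)) else 0) ≤
        (Ioi |A - B|).indicator (fun t : ℝ => ENNReal.ofReal (t ^ (γ - 2)))
          (s + (min A B + |A - B|)) := by
      intro s
      split_ifs with hs
      · have h2 : 0 < min A B + s := by
          rcases min_choice A B with h3 | h3 <;> rw [h3]
          · exact hs.1
          · exact hs.2
        have h3 : s + (min A B + |A - B|) ∈ Ioi |A - B| := by
          rw [mem_Ioi]
          linarith
        rw [indicator_of_mem h3]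
        apply ENNReal.ofReal_le_ofReal
        apply Real.rpow_le_rpow_of_nonpos (by linarith) _ (by linarith)
        have h4 : A + B = 2 * min A B + |A - B| := by
          rcases le_total A B with h5 | h5
          · rw [min_eq_left h5, abs_of_nonpos (by linarith)]
            ring
          · rw [min_eq_right h5, abs_of_nonneg (by linarith)]
            ring
        linarith
      · exact bot_le
    refine le_trans (lintegral_mono key) ?_
    rw [lintegral_add_right_eq_self (μ := volume)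
      ((Ioi |A - B|).indicator (fun t : ℝ => ENNReal.ofReal (t ^ (γ - 2)))) (min A B + |A - B|),
      lintegral_indicator measurableSet_Ioi, lint_tail hγ h, ENNReal.ofReal_rpow_of_pos h,
      ← ENNReal.ofReal_mul h0.le]
    apply le_of_eq
    congr 1
    ring

/-- the function `|t|^(γ-1)` on `(-1, 1)` -/
noncomputable def F1 (γ : ℝ) : ℝ → ℝ≥0∞ :=
  (Ioo (-1 : ℝ) 1).indicator fun t => ENNReal.ofReal |t| ^ (γ - 1)

theorem F1_meas (γ : ℝ) : Measurable (F1 γ) := by
  unfold F1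
  refine Measurable.indicator ?_ measurableSet_Ioo
  fun_prop

theorem F1_lint {γ : ℝ} (hγ : 0 < γ) : ∫⁻ t, F1 γ t < ⊤ := by
  have h1 : IntervalIntegrable (fun t : ℝ => |t| ^ (γ - 1)) volume 0 1 := by
    have h2 : IntervalIntegrable (fun t : ℝ => t ^ (γ - 1)) volume 0 1 :=
      intervalIntegral.intervalIntegrable_rpow' (by linarith)
    refine h2.congr ?_
    rw [uIoc_of_le zero_le_one]
    intro t ht
    simp only
    rw [abs_of_pos ht.1]
  have h2 : IntervalIntegrable (fun t : ℝ => |t| ^ (γ - 1)) volume (-1) 0 := by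
    have h3 := ((IntervalIntegrable.iff_comp_neg (enorm_ne_top)).1 h1).symm
    simpa using h3
  have h3 : IntegrableOn (fun t : ℝ => |t| ^ (γ - 1)) (Ioo (-1) 1) :=
    (intervalIntegrable_iff_integrableOn_Ioo_of_le (by norm_num)).1 (h2.trans h1)
  unfold F1
  rw [lintegral_indicator measurableSet_Ioo]
  have h4 : ∫⁻ t in Ioo (-1 : ℝ) 1, ENNReal.ofReal |t| ^ (γ - 1) =
      ∫⁻ t in Ioo (-1 : ℝ) 1, ENNReal.ofReal (|t| ^ (γ - 1)) := by
    refine lintegral_congr_ae ?_
    have h5 : ∀ᵐ t : ℝ ∂(volume.restrict (Ioo (-1 : ℝ) 1)), t ≠ 0 :=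
      ae_restrict_of_ae (Measure.ae_ne volume 0)
    filter_upwards [h5] with t ht
    rw [ENNReal.ofReal_rpow_of_pos (abs_pos.2 ht)]
  rw [h4]
  exact Integrable.lintegral_lt_top h3

/-- affine substitution -/
theorem F1_comp (γ : ℝ) {c : ℝ} (hc : c ≠ 0) (e : ℝ) :
    ∫⁻ y : ℝ, F1 γ (c * y + e) = ENNReal.ofReal |c⁻¹| * ∫⁻ t, F1 γ t := by
  have h1 : Measurable fun u : ℝ => F1 γ (u + e) := (F1_meas γ).comp (measurable_add_const e)
  have h2 : ∫⁻ y : ℝ, F1 γ (c * y + e) =
      ∫⁻ u : ℝ, F1 γ (u + e) ∂(Measure.map (fun y : ℝ => c * y) volume) :=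
    (lintegral_map h1 (measurable_const_mul c)).symm
  rw [h2, Real.map_volume_mul_left hc, lintegral_smul_measure,
    lintegral_add_right_eq_self (μ := volume) (F1 γ) e, smul_eq_mul]

/-- one-dimensional bound -/
theorem lint_one {γ : ℝ} (hγ : γ < 1) {c ρ ρ0 : ℝ} (hc : c ≠ 0) (z e : ℝ) (hρ : ρ ≤ ρ0) :
    ∫⁻ y : ℝ, (if |y - z| ≤ ρ then ENNReal.ofReal |c * y + e| ^ (γ - 1) else 0) ≤
      ENNReal.ofReal (2 * ρ0) + ENNReal.ofReal |c⁻¹| * ∫⁻ t, F1 γ t := by
  have key : ∀ y : ℝ, (if |y - z| ≤ ρ then ENNReal.ofReal |c * y + e| ^ (γ - 1) else 0) ≤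
      (Metric.closedBall z ρ).indicator (fun _ => (1 : ℝ≥0∞)) y + F1 γ (c * y + e) := by
    intro y
    split_ifs with h
    · by_cases h1 : |c * y + e| < 1
      · refine le_trans (le_of_eq ?_) le_add_self
        have h2 : c * y + e ∈ Ioo (-1 : ℝ) 1 := abs_lt.1 h1
        rw [F1, indicator_of_mem h2]
      · refine le_trans ?_ le_self_add
        have h2 : y ∈ Metric.closedBall z ρ := by
          rw [Metric.mem_closedBall, Real.dist_eq]
          exact h
        rw [indicator_of_mem h2]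
        refine ENNReal.rpow_le_one_of_one_le_of_neg ?_ (by linarith)
        rw [ENNReal.one_le_ofReal]
        exact not_lt.1 h1
    · exact bot_le
  refine le_trans (lintegral_mono key) ?_
  rw [lintegral_add_left (measurable_const.indicator measurableSet_closedBall), F1_comp γ hc e]
  gcongr
  rw [lintegral_indicator measurableSet_closedBall, lintegral_const, Measure.restrict_apply_univ,
    one_mul, Real.volume_closedBall]
  exact ENNReal.ofReal_le_ofReal (by linarith)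

/-! ## The integral over `Y` -/

theorem box_meas {n : ℕ} (z ρ : Fin n → ℝ) : MeasurableSet {Y : Fin n → ℝ | ∀ l, |Y l - z l| ≤ ρ l} := by
  have h : {Y : Fin n → ℝ | ∀ l, |Y l - z l| ≤ ρ l} = ⋂ l, {Y : Fin n → ℝ | |Y l - z l| ≤ ρ l} := by
    ext Y
    simp
  rw [h]
  refine MeasurableSet.iInter fun l => measurableSet_le ?_ measurable_const
  fun_prop

theorem box_vol {n : ℕ} (z ρ : Fin n → ℝ) :
    volume {Y : Fin n → ℝ | ∀ l, |Y l - z l| ≤ ρ l} = ∏ l, ENNReal.ofReal (2 * ρ l) := by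
  have h : {Y : Fin n → ℝ | ∀ l, |Y l - z l| ≤ ρ l} =
      Set.pi univ fun l => Metric.closedBall (z l) (ρ l) := by
    ext Y
    simp [Real.dist_eq]
  rw [h, volume_pi_pi]
  exact Finset.prod_congr rfl fun l _ => Real.volume_closedBall _ _

/-- the integrand over `Y` -/
noncomputable def FY {n : ℕ} (γ : ℝ) (z ρ b : Fin n → ℝ) (e : ℝ) (Y : Fin n → ℝ) : ℝ≥0∞ :=
  open Classical in
  if ∀ l, |Y l - z l| ≤ ρ l then ENNReal.ofReal |∑ l, b l * Y l + e| ^ (γ - 1) else 0

theorem FY_meas {n : ℕ} (γ : ℝ) (z ρ b : Fin n → ℝ) (e : ℝ) : Measurable (FY γ z ρ b e) := by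
  unfold FY
  refine Measurable.ite (box_meas z ρ) ?_ measurable_const
  fun_prop

theorem lint_Y {n : ℕ} (k : Fin (n + 1)) {γ : ℝ} (hγ : γ < 1) (z ρ b : Fin (n + 1) → ℝ)
    (e ρ0 : ℝ) (hb : b k ≠ 0) (hρ : ρ k ≤ ρ0) :
    ∫⁻ Y, FY γ z ρ b e Y ≤
      (ENNReal.ofReal (2 * ρ0) + ENNReal.ofReal |(b k)⁻¹| * ∫⁻ t, F1 γ t) *
        ∏ l : Fin n, ENNReal.ofReal (2 * ρ (k.succAbove l)) := by
  have hmp := (volume_preserving_piFinSuccAbove (fun _ : Fin (n + 1) => ℝ) k).symm
  have h1 := hmp.lintegral_comp (FY_meas γ z ρ b e)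
  rw [← h1]
  have h2 : ∀ (y : ℝ) (Y' : Fin n → ℝ),
      FY γ z ρ b e ((MeasurableEquiv.piFinSuccAbove (fun _ : Fin (n + 1) => ℝ) k).symm (y, Y')) =
      (if |y - z k| ≤ ρ k then ENNReal.ofReal |b k * y +
          (∑ l : Fin n, b (k.succAbove l) * Y' l + e)| ^ (γ - 1) else 0) *
        {Y' : Fin n → ℝ | ∀ l, |Y' l - z (k.succAbove l)| ≤ ρ (k.succAbove l)}.indicator
          (fun _ => (1 : ℝ≥0∞)) Y' := by
    intro y Y'
    have e1 : (MeasurableEquiv.piFinSuccAbove (fun _ : Fin (n + 1) => ℝ) k).symm (y, Y') k = y :=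
      Fin.insertNth_apply_same (α := fun _ => ℝ) k y Y'
    have e2 : ∀ l, (MeasurableEquiv.piFinSuccAbove (fun _ : Fin (n + 1) => ℝ) k).symm (y, Y')
        (k.succAbove l) = Y' l := fun l => Fin.insertNth_apply_succAbove (α := fun _ => ℝ) k y Y' l
    unfold FY
    rw [Fin.sum_univ_succAbove _ k]
    simp only [Fin.forall_iff_succAbove k, e1, e2]
    by_cases h3 : |y - z k| ≤ ρ k
    · by_cases h4 : ∀ l, |Y' l - z (k.succAbove l)| ≤ ρ (k.succAbove l)
      · rw [if_pos ⟨h3, h4⟩, if_pos h3, indicator_of_mem (by exact h4), mul_one, add_assoc]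
      · rw [if_neg (fun h => h4 h.2), indicator_of_notMem (by exact h4), mul_zero]
    · rw [if_neg (fun h => h3 h.1), if_neg h3, zero_mul]
  have h3 : Measurable fun a : ℝ × (Fin n → ℝ) =>
      FY γ z ρ b e ((MeasurableEquiv.piFinSuccAbove (fun _ : Fin (n + 1) => ℝ) k).symm a) :=
    (FY_meas γ z ρ b e).comp (MeasurableEquiv.measurable _)
  have h4 : (volume : Measure (ℝ × (Fin n → ℝ))) = (volume : Measure ℝ).prod volume := rfl
  rw [h4, lintegral_prod_symm _ h3.aemeasurable]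
  have h5 : ∀ Y' : Fin n → ℝ, ∫⁻ y : ℝ, FY γ z ρ b e
      ((MeasurableEquiv.piFinSuccAbove (fun _ : Fin (n + 1) => ℝ) k).symm (y, Y')) ≤
      (ENNReal.ofReal (2 * ρ0) + ENNReal.ofReal |(b k)⁻¹| * ∫⁻ t, F1 γ t) *
      {Y' : Fin n → ℝ | ∀ l, |Y' l - z (k.succAbove l)| ≤ ρ (k.succAbove l)}.indicator
          (fun _ => (1 : ℝ≥0∞)) Y' := by
    intro Y'
    simp only [h2]
    rw [lintegral_mul_const'' _ ?_]
    · gcongr
      exact lint_one hγ hb _ _ hρ
    · refine Measurable.aemeasurable (Measurable.ite ?_ ?_ measurable_const)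
      · exact measurableSet_le (by fun_prop) measurable_const
      · fun_prop
  refine le_trans (lintegral_mono h5) ?_
  have hm := box_meas (fun l => z (k.succAbove l)) (fun l => ρ (k.succAbove l))
  rw [lintegral_const_mul'' _ (measurable_const.indicator hm).aemeasurable,
    lintegral_indicator hm, lintegral_const, Measure.restrict_apply_univ, one_mul,
    box_vol (fun l => z (k.succAbove l)) (fun l => ρ (k.succAbove l))]

/-! ## Homogeneous function -/

theorem Fij_nonneg {N : ℕ} (γ : ℝ) (i j : Fin N) (y : Fin N → ℝ) : 0 ≤ Fij γ i j y := by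
  unfold Fij
  split_ifs with h
  · refine mul_nonneg (Real.rpow_nonneg (Finset.sum_nonneg fun k _ => inv_nonneg.2 (h k).le) _)
      (sq_nonneg _)
  · exact le_rfl

theorem Fij_le {N : ℕ} {γ : ℝ} (hγ : 0 < γ) {i j : Fin N} (hij : i ≠ j) (y : Fin N → ℝ) :
    Fij γ i j y ≤ if 0 < y i ∧ 0 < y j then (y i + y j) ^ (γ - 2) else 0 := by
  unfold Fij
  split_ifs with h1 h2 h2
  · have hi := h1 i
    have hj := h1 j
    have hs : 0 < y i + y j := by linarith
    have hp : 0 < y i * y j := mul_pos hi hj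
    have e1 : (y i)⁻¹ + (y j)⁻¹ = (y i + y j) / (y i * y j) := by
      field_simp
      ring
    have e2 : (y i + y j) / (y i * y j) ≤ ∑ k, (y k)⁻¹ := by
      rw [← e1]
      have := Finset.sum_le_sum_of_subset_of_nonneg (f := fun k => (y k)⁻¹)
        (Finset.subset_univ ({i, j} : Finset (Fin N)))
        (fun k _ _ => inv_nonneg.2 (h1 k).le)
      rwa [Finset.sum_pair hij] at this
    have e3 : 0 < (y i + y j) / (y i * y j) := div_pos hs hp
    have e4 : (∑ k, (y k)⁻¹) ^ (-γ - 2) ≤ ((y i + y j) / (y i * y j)) ^ (-γ - 2) :=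
      Real.rpow_le_rpow_of_nonpos e3 e2 (by linarith)
    calc (∑ k, (y k)⁻¹) ^ (-γ - 2) * ((y i)⁻¹ * (y j)⁻¹) ^ 2
        ≤ ((y i + y j) / (y i * y j)) ^ (-γ - 2) * ((y i)⁻¹ * (y j)⁻¹) ^ 2 :=
          mul_le_mul_of_nonneg_right e4 (sq_nonneg _)
      _ = (y i + y j) ^ (-γ - 2) * (y i * y j) ^ γ := by
          rw [Real.div_rpow hs.le hp.le, ← mul_inv, inv_pow, div_mul_eq_mul_div]
          rw [mul_div_assoc]
          congr 1
          rw [div_eq_iff (by positivity), ← Real.rpow_add hp, ← Real.rpow_natCast (y i * y j) 2,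
            ← Real.rpow_neg hp.le]
          congr 1
          push_cast
          ring
      _ ≤ (y i + y j) ^ (-γ - 2) * ((y i + y j) ^ 2) ^ γ := by
          gcongr
          nlinarith
      _ = (y i + y j) ^ (γ - 2) := by
          rw [← Real.rpow_natCast (y i + y j) 2, ← Real.rpow_mul hs.le, ← Real.rpow_add hs]
          congr 1
          push_cast
          ring
  · exact absurd ⟨h1 i, h1 j⟩ h2
  · exact Real.rpow_nonneg (by linarith [h2.1, h2.2]) _
  · exact le_rfl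

theorem Fij_meas {N : ℕ} (γ : ℝ) (i j : Fin N) : Measurable (Fij γ i j) := by
  have h : MeasurableSet {y : Fin N → ℝ | ∀ k, 0 < y k} := by
    have h1 : {y : Fin N → ℝ | ∀ k, 0 < y k} = ⋂ k, {y : Fin N → ℝ | 0 < y k} := by
      ext Y
      simp
    rw [h1]
    exact MeasurableSet.iInter fun k => measurableSet_lt measurable_const (measurable_pi_apply k)
  unfold Fij
  refine Measurable.ite h ?_ measurable_const
  fun_prop

/-! ## Modes -/

variable {m : ℕ}

theorem r_pos (M : Modes m) (k : Fin m) {a : ℝ} (h0 : 0 < a) (h1 : a < 1) : min a (1 - a) ≤ M.r k a ∧ 0 < M.r k a ∧ M.r k a ≤ 1 := by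
  have h2 := M.hμ k
  have h3 := M.hν k
  have h4 := M.hs k
  have h5 : min a (1 - a) ≤ M.r k a := by
    unfold Modes.r
    have h6 : min a (1 - a) * M.μ k ≤ (1 - a) * M.μ k :=
      mul_le_mul_of_nonneg_right (min_le_right _ _) h2
    have h7 : min a (1 - a) * M.ν k ≤ a * M.ν k := mul_le_mul_of_nonneg_right (min_le_left _ _) h3
    calc min a (1 - a) = min a (1 - a) * M.μ k + min a (1 - a) * M.ν k := by
          rw [← mul_add, h4, mul_one]
      _ ≤ _ := add_le_add h6 h7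
  refine ⟨h5, lt_of_lt_of_le (lt_min h0 (by linarith)) h5, ?_⟩
  unfold Modes.r
  have h6 : (1 - a) * M.μ k ≤ 1 * M.μ k := mul_le_mul_of_nonneg_right (by linarith) h2
  have h7 : a * M.ν k ≤ 1 * M.ν k := mul_le_mul_of_nonneg_right h1.le h3
  linarith

theorem W_meas (M : Modes m) : Measurable M.W := by
  unfold Modes.W Modes.r
  fun_prop

theorem W_nonneg (M : Modes m) {a : ℝ} (h0 : 0 < a) (h1 : a < 1) : 0 ≤ M.W a :=
  Finset.prod_nonneg fun k _ => Real.rpow_nonneg (r_pos M k h0 h1).2.1.le _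

theorem hh_meas {N : ℕ} (M : Modes m) (ζ : Fin N → Fin m → ℝ) (i : Fin N) :
    Measurable (hh M ζ i) := by
  unfold hh Modes.r
  fun_prop

/-- the difference of two of the functions `hh` is affine in `Y` -/
theorem hh_sub {N : ℕ} (M : Modes m) (ζ : Fin N → Fin m → ℝ) (i j : Fin N) (Y : Fin m → ℝ)
    {a v : ℝ} (h0 : 0 < a) (h1 : a < 1) : hh M ζ j (Y, (a, v)) - hh M ζ i (Y, (a, v)) =
      ∑ k, (2 * (ζ i k - ζ j k)) * Y k + ∑ k, M.r k a * (ζ j k ^ 2 - ζ i k ^ 2) := by
  unfold hh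
  simp only
  rw [add_sub_add_right_eq_sub, ← Finset.sum_sub_distrib, ← Finset.sum_add_distrib]
  refine Finset.sum_congr rfl fun k _ => ?_
  have h2 := (r_pos M k h0 h1).2.1
  field_simp
  ring

theorem hh_box {N : ℕ} (M : Modes m) (ζ : Fin N → Fin m → ℝ) (i : Fin N) (Y : Fin m → ℝ)
    {a v C : ℝ} (h0 : 0 < a) (h1 : a < 1) (hC : hh M ζ i (Y, (a, v)) ≤ C) :
    |v| ≤ √C ∧ ∀ l, |Y l - M.r l a * ζ i l| ≤ √(C * M.r l a) := by
  unfold hh at hC
  simp only at hC
  have h2 : ∀ k ∈ Finset.univ, 0 ≤ (Y k - M.r k a * ζ i k) ^ 2 / M.r k a := fun k _ =>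
    div_nonneg (sq_nonneg _) (r_pos M k h0 h1).2.1.le
  have h3 := Finset.sum_nonneg h2
  refine ⟨Real.abs_le_sqrt (by linarith), fun l => Real.abs_le_sqrt ?_⟩
  have h4 := Finset.single_le_sum h2 (Finset.mem_univ l)
  have h5 := sq_nonneg v
  have h6 := (r_pos M l h0 h1).2.1
  rw [← div_le_iff₀ h6]
  linarith

theorem step4 {n : ℕ} (M : Modes (n + 1)) (k : Fin (n + 1)) {γ : ℝ} (hγ : γ < 1) {a C : ℝ}
    (h0 : 0 < a) (h1 : a < 1) (hC : 0 ≤ C) (z b : Fin (n + 1) → ℝ) (e : ℝ) (hb : b k ≠ 0) :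
    ENNReal.ofReal (M.W a) * ∫⁻ Y, FY γ z (fun l => √(C * M.r l a)) b e Y ≤
      (ENNReal.ofReal (2 * √C) + ENNReal.ofReal |(b k)⁻¹| * ∫⁻ t, F1 γ t) *
        ENNReal.ofReal ((2 * √C) ^ n) * ENNReal.ofReal ((M.r k a) ^ (-(1 / 2) : ℝ)) := by
  have hr := fun l => r_pos M l h0 h1
  have h2 : √(C * M.r k a) ≤ √C := by
    apply Real.sqrt_le_sqrt
    have := mul_le_mul_of_nonneg_left (hr k).2.2 hC
    linarith
  have h3 := lint_Y k hγ z (fun l => √(C * M.r l a)) b e (√C) hb h2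
  refine le_trans (mul_le_mul_right h3 _) ?_
  have h4 : ENNReal.ofReal (M.W a) * ∏ l : Fin n, ENNReal.ofReal (2 * √(C * M.r (k.succAbove l) a)) =
      ENNReal.ofReal ((2 * √C) ^ n) * ENNReal.ofReal ((M.r k a) ^ (-(1 / 2) : ℝ)) := by
    rw [← ENNReal.ofReal_prod_of_nonneg (fun l _ => by positivity),
      ← ENNReal.ofReal_mul (W_nonneg M h0 h1), ← ENNReal.ofReal_mul (by positivity)]
    congr 1
    unfold Modes.W
    rw [Fin.prod_univ_succAbove _ k, mul_assoc, ← Finset.prod_mul_distrib]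
    have h5 : ∀ l : Fin n, (M.r (k.succAbove l) a) ^ (-(1 / 2) : ℝ) *
        (2 * √(C * M.r (k.succAbove l) a)) = 2 * √C := by
      intro l
      have h6 := (hr (k.succAbove l)).2.1
      have h7 : (M.r (k.succAbove l) a) ^ (-(1 / 2) : ℝ) * √(M.r (k.succAbove l) a) = 1 := by
        rw [Real.sqrt_eq_rpow, ← Real.rpow_add h6]
        norm_num
      rw [Real.sqrt_mul hC]
      linear_combination (2 * √C) * h7
    rw [Finset.prod_congr rfl fun l _ => h5 l, Finset.prod_const, Finset.card_univ,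
      Fintype.card_fin]
    ring
  calc ENNReal.ofReal (M.W a) * ((ENNReal.ofReal (2 * √C) + ENNReal.ofReal |(b k)⁻¹| *
        ∫⁻ t, F1 γ t) * ∏ l : Fin n, ENNReal.ofReal (2 * √(C * M.r (k.succAbove l) a)))
      = (ENNReal.ofReal (2 * √C) + ENNReal.ofReal |(b k)⁻¹| * ∫⁻ t, F1 γ t) *
        (ENNReal.ofReal (M.W a) *
          ∏ l : Fin n, ENNReal.ofReal (2 * √(C * M.r (k.succAbove l) a))) := by ring
    _ ≤ _ := by
        rw [h4, mul_assoc]

theorem step4' (M : Modes m) (k : Fin m) {γ : ℝ} (hγ : γ < 1) {a C : ℝ}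
    (h0 : 0 < a) (h1 : a < 1) (hC : 0 ≤ C) (z b : Fin m → ℝ) (e : ℝ) (hb : b k ≠ 0) :
    ENNReal.ofReal (M.W a) * ∫⁻ Y, FY γ z (fun l => √(C * M.r l a)) b e Y ≤
      (ENNReal.ofReal (2 * √C) + ENNReal.ofReal |(b k)⁻¹| * ∫⁻ t, F1 γ t) *
        ENNReal.ofReal ((2 * √C) ^ (m - 1)) * ENNReal.ofReal ((M.r k a) ^ (-(1 / 2) : ℝ)) := by
  cases m with
  | zero => exact k.elim0
  | succ n => exact step4 M k hγ h0 h1 hC z b e hb

theorem step6 (M : Modes m) (k : Fin m) :
    ∫⁻ a in Ioo (0 : ℝ) 1, ENNReal.ofReal ((M.r k a) ^ (-(1 / 2) : ℝ)) < ⊤ := by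
  have h1 : IntervalIntegrable (fun a : ℝ => a ^ (-(1 / 2) : ℝ)) volume 0 1 :=
    intervalIntegral.intervalIntegrable_rpow' (by norm_num)
  have h2 : IntervalIntegrable (fun a : ℝ => (1 - a) ^ (-(1 / 2) : ℝ)) volume 0 1 := by
    have h3 := (h1.comp_sub_left 1).symm
    simpa using h3
  have h3 : IntegrableOn (fun a : ℝ => a ^ (-(1 / 2) : ℝ) + (1 - a) ^ (-(1 / 2) : ℝ)) (Ioo 0 1) :=
    (intervalIntegrable_iff_integrableOn_Ioo_of_le zero_le_one).1 (h1.add h2)
  refine lt_of_le_of_lt ?_ (Integrable.lintegral_lt_top h3)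
  refine lintegral_mono_ae ((ae_restrict_iff' measurableSet_Ioo).2 (ae_of_all _ fun a ha => ?_))
  apply ENNReal.ofReal_le_ofReal
  obtain ⟨h4, h5, -⟩ := r_pos M k ha.1 ha.2
  have h6 : 0 < 1 - a := by linarith [ha.2]
  have h7 : (M.r k a) ^ (-(1 / 2) : ℝ) ≤ (min a (1 - a)) ^ (-(1 / 2) : ℝ) :=
    Real.rpow_le_rpow_of_nonpos (lt_min ha.1 h6) h4 (by norm_num)
  refine h7.trans ?_
  have h8 : 0 ≤ a ^ (-(1 / 2) : ℝ) := Real.rpow_nonneg ha.1.le _
  have h9 : 0 ≤ (1 - a) ^ (-(1 / 2) : ℝ) := Real.rpow_nonneg h6.le _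
  rcases min_choice a (1 - a) with h10 | h10 <;> rw [h10] <;> linarith

theorem kap_bd {κ κ1 : ℝ → ℝ} (h : Kap κ κ1) : ∃ S K : ℝ, 0 ≤ K ∧ (∀ s, |κ1 s| ≤ K) ∧
    ∀ s, S < |s| → κ1 s = 0 := by
  obtain ⟨h1, h2, S, h3⟩ := h
  have h4 : ∀ s, S < |s| → κ1 s = 0 := by
    intro s hs
    have h5 : ∀ᶠ t in 𝓝 s, S < |t| := (continuous_abs.tendsto s).eventually (lt_mem_nhds hs)
    have h6 : κ =ᶠ[𝓝 s] fun _ => (0 : ℝ) := h5.mono fun t ht => h3 t ht.le
    exact (h1 s).unique ((hasDerivAt_const s (0 : ℝ)).congr_of_eventuallyEq h6)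
  obtain ⟨K, hK⟩ := (isCompact_Icc (a := -S) (b := S)).exists_bound_of_continuousOn
    h2.continuousOn
  refine ⟨S, max K 0, le_max_right _ _, fun s => ?_, h4⟩
  by_cases hs : |s| ≤ S
  · exact le_trans (hK s (abs_le.1 hs)) (le_max_left _ _)
  · rw [h4 s (not_le.1 hs), abs_zero]
    exact le_max_right _ _

end BoundAux

open BoundAux

theorem boundStmt : BoundStmt := by
  intro m N M ζ τ κ κ1 hκ γ hγ0 hγ1 i j hij hζ
  obtain ⟨S, K, hK0, hK, hS⟩ := kap_bd hκ
  obtain ⟨k, hk⟩ : ∃ k, ζ i k ≠ ζ j k := by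
    by_contra h
    push Not at h
    exact hζ (funext h)
  have hκm : Measurable κ1 := hκ.2.1.measurable
  -- measurability
  have hfm : Measurable fun y : ℝ × ((Fin m → ℝ) × (ℝ × ℝ)) =>
      κ1 y.1 * (M.W y.2.2.1 * Fij γ i j (fun k => τ k + y.1 - hh M ζ k y.2)) := by
    refine (hκm.comp measurable_fst).mul (((W_meas M).comp (by fun_prop)).mul
      ((Fij_meas γ i j).comp (measurable_pi_lambda _ fun k => ?_)))
    exact (measurable_const.add measurable_fst).sub ((hh_meas M ζ k).comp measurable_snd)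
  refine ⟨hfm.aestronglyMeasurable, ?_⟩
  have : SFinite (mes m) := by
    unfold mes
    infer_instance
  unfold HasFiniteIntegral
  rw [lintegral_prod_symm _ hfm.enorm.aemeasurable]
  set C : ℝ := max (τ i + S) 0 with hCdef
  have hC0 : 0 ≤ C := le_max_right _ _
  set b : Fin m → ℝ := fun l => 2 * (ζ i l - ζ j l) with hbdef
  have hb : b k ≠ 0 := mul_ne_zero two_ne_zero (sub_ne_zero.2 hk)
  set e : ℝ → ℝ := fun a => ∑ k, M.r k a * (ζ j k ^ 2 - ζ i k ^ 2) + (τ i - τ j) with hedef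
  set H : (Fin m → ℝ) × (ℝ × ℝ) → ℝ≥0∞ := fun x =>
    (ENNReal.ofReal K * ENNReal.ofReal (1 / (1 - γ)) * (if |x.2.2| ≤ √C then 1 else 0)) *
      (ENNReal.ofReal (M.W x.2.1) * FY γ (fun l => M.r l x.2.1 * ζ i l)
        (fun l => √(C * M.r l x.2.1)) b (e x.2.1) x.1) with hH
  have hHm : Measurable H := by
    have h1 : Measurable fun x : (Fin m → ℝ) × (ℝ × ℝ) => FY γ (fun l => M.r l x.2.1 * ζ i l)
        (fun l => √(C * M.r l x.2.1)) b (e x.2.1) x.1 := by
      unfold FY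
      refine Measurable.ite ?_ ?_ measurable_const
      · have h2 : {x : (Fin m → ℝ) × (ℝ × ℝ) | ∀ l, |x.1 l - M.r l x.2.1 * ζ i l| ≤
            √(C * M.r l x.2.1)} = ⋂ l, {x : (Fin m → ℝ) × (ℝ × ℝ) |
              |x.1 l - M.r l x.2.1 * ζ i l| ≤ √(C * M.r l x.2.1)} := by
          ext x
          simp
        rw [h2]
        refine MeasurableSet.iInter fun l => measurableSet_le ?_ ?_
        · unfold Modes.r
          fun_prop
        · unfold Modes.r
          fun_prop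
      · rw [hedef]
        unfold Modes.r
        fun_prop
    refine (measurable_const.mul (Measurable.ite ?_ measurable_const measurable_const)).mul
      (((W_meas M).comp (by fun_prop)).ennreal_ofReal.mul h1)
    exact measurableSet_le (by fun_prop) measurable_const
  -- the integral over `s`
  have hs : ∀ x : (Fin m → ℝ) × (ℝ × ℝ), x.2 ∈ strip →
      ∫⁻ s : ℝ, ‖κ1 s * (M.W x.2.1 * Fij γ i j (fun k => τ k + s - hh M ζ k x))‖ₑ ≤ H x := by
    rintro ⟨Y, a, v⟩ ⟨⟨h0, h1⟩, -⟩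
    simp only at h0 h1
    have hW := W_nonneg M h0 h1
    by_cases hbox : hh M ζ i (Y, (a, v)) ≤ C
    · obtain ⟨hv, hY⟩ := hh_box M ζ i Y h0 h1 hbox
      have e1 : τ i - hh M ζ i (Y, (a, v)) - (τ j - hh M ζ j (Y, (a, v))) =
          ∑ l, b l * Y l + e a := by
        have := hh_sub M ζ i j Y (v := v) h0 h1
        rw [hedef]
        simp only
        rw [hbdef]
        simp only
        linarith
      have hval : H (Y, (a, v)) = (ENNReal.ofReal K * ENNReal.ofReal (M.W a)) *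
          (ENNReal.ofReal (1 / (1 - γ)) * ENNReal.ofReal |τ i - hh M ζ i (Y, (a, v)) -
            (τ j - hh M ζ j (Y, (a, v)))| ^ (γ - 1)) := by
        rw [hH]
        simp only
        unfold FY
        rw [if_pos hv, if_pos hY, e1]
        ring
      rw [hval]
      refine le_trans ?_ (mul_le_mul_right (lint_s (A := τ i - hh M ζ i (Y, (a, v)))
        (B := τ j - hh M ζ j (Y, (a, v))) hγ1) _)
      rw [← lintegral_const_mul' _ _ (by finiteness)]
      refine lintegral_mono fun s => ?_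
      simp only
      rw [enorm_mul, enorm_mul, Real.enorm_eq_ofReal_abs, Real.enorm_eq_ofReal_abs,
        Real.enorm_eq_ofReal_abs, abs_of_nonneg hW, abs_of_nonneg (Fij_nonneg _ _ _ _),
        ← mul_assoc]
      refine mul_le_mul' (mul_le_mul' (ENNReal.ofReal_le_ofReal (hK s)) le_rfl) ?_
      refine le_trans (ENNReal.ofReal_le_ofReal (Fij_le hγ0 hij _)) ?_
      have e2 : τ i + s - hh M ζ i (Y, (a, v)) = τ i - hh M ζ i (Y, (a, v)) + s := by ring
      have e3 : τ j + s - hh M ζ j (Y, (a, v)) = τ j - hh M ζ j (Y, (a, v)) + s := by ring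
      simp only [e2, e3]
      split_ifs
      · exact le_rfl
      · rw [ENNReal.ofReal_zero]
    · have hz : ∀ s : ℝ, κ1 s * (M.W a * Fij γ i j (fun k => τ k + s - hh M ζ k (Y, (a, v)))) =
          0 := by
        intro s
        by_cases h2 : S < |s|
        · rw [hS s h2, zero_mul]
        · have h3 : Fij γ i j (fun k => τ k + s - hh M ζ k (Y, (a, v))) = 0 := by
            unfold Fij
            rw [if_neg]
            intro h4
            have h5 := h4 i
            have h6 := le_abs_self s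
            have h7 : C < hh M ζ i (Y, (a, v)) := not_le.1 hbox
            have h8 : τ i + S ≤ C := le_max_left _ _
            linarith [not_lt.1 h2]
          rw [h3, mul_zero, mul_zero]
      simp only [hz, enorm_zero, lintegral_zero]
      exact bot_le
  have hstrip : MeasurableSet strip := measurableSet_Ioo.prod MeasurableSet.univ
  have hae : ∀ᵐ x ∂(mes m), x.2 ∈ strip := by
    have h1 : mes m = ((volume : Measure (Fin m → ℝ)).prod
        (volume : Measure (ℝ × ℝ))).restrict (univ ×ˢ strip) := by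
      unfold mes
      rw [← Measure.prod_restrict, Measure.restrict_univ]
    rw [h1]
    exact (ae_restrict_mem (MeasurableSet.univ.prod hstrip)).mono fun x hx => hx.2
  refine lt_of_le_of_lt (lintegral_mono_ae (hae.mono hs)) ?_
  -- the integral over `Y`
  have h1 : ∫⁻ x, H x ∂(mes m) = ∫⁻ w in strip, ∫⁻ Y : Fin m → ℝ, H (Y, w) := by
    unfold mes
    exact lintegral_prod_symm _ hHm.aemeasurable
  rw [h1]
  set Kc : ℝ≥0∞ := ENNReal.ofReal K * ENNReal.ofReal (1 / (1 - γ)) *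
    ((ENNReal.ofReal (2 * √C) + ENNReal.ofReal |(b k)⁻¹| * ∫⁻ t, F1 γ t) *
      ENNReal.ofReal ((2 * √C) ^ (m - 1))) with hKc
  have hKt : Kc ≠ ⊤ := by
    have h2 := (F1_lint hγ0).ne
    rw [hKc]
    finiteness
  have hY : ∀ w ∈ strip, ∫⁻ Y : Fin m → ℝ, H (Y, w) ≤
      (Kc * ENNReal.ofReal ((M.r k w.1) ^ (-(1 / 2) : ℝ))) *
        (if |w.2| ≤ √C then (1 : ℝ≥0∞) else 0) := by
    rintro ⟨a, v⟩ ⟨⟨h0, h1⟩, -⟩
    simp only at h0 h1
    rw [hH]
    simp only
    have hr1 : (ENNReal.ofReal K * ENNReal.ofReal (1 / (1 - γ)) *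
        if |v| ≤ √C then (1 : ℝ≥0∞) else 0) ≠ ⊤ := by
      split_ifs <;> finiteness
    rw [lintegral_const_mul' _ _ hr1, lintegral_const_mul' _ _ ENNReal.ofReal_ne_top]
    refine le_trans (mul_le_mul_right (step4' M k hγ1 h0 h1 hC0 _ b (e a) hb) _) ?_
    rw [hKc]
    apply le_of_eq
    ring
  refine lt_of_le_of_lt (lintegral_mono_ae ((ae_restrict_iff' hstrip).2 (ae_of_all _ hY))) ?_
  rw [strip, Measure.volume_eq_prod, ← Measure.prod_restrict, Measure.restrict_univ]
  have hm1 : Measurable fun a : ℝ => Kc * ENNReal.ofReal ((M.r k a) ^ (-(1 / 2) : ℝ)) := by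
    unfold Modes.r
    fun_prop
  have hm2 : Measurable fun v : ℝ => if |v| ≤ √C then (1 : ℝ≥0∞) else 0 :=
    Measurable.ite (measurableSet_le (by fun_prop) measurable_const) measurable_const
      measurable_const
  rw [lintegral_prod_mul hm1.aemeasurable hm2.aemeasurable]
  refine ENNReal.mul_lt_top ?_ ?_
  · rw [lintegral_const_mul' _ _ hKt]
    exact ENNReal.mul_lt_top hKt.lt_top (step6 M k)
  · have h2 : ∀ v : ℝ, (if |v| ≤ √C then (1 : ℝ≥0∞) else 0) =
        (Metric.closedBall (0 : ℝ) (√C)).indicator (fun _ => (1 : ℝ≥0∞)) v := by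
      intro v
      by_cases h3 : |v| ≤ √C
      · rw [if_pos h3, indicator_of_mem (by simpa using h3)]
      · rw [if_neg h3, indicator_of_notMem (by simpa using h3)]
    simp only [h2]
    rw [lintegral_indicator measurableSet_closedBall, lintegral_const,
      Measure.restrict_apply_univ, one_mul, Real.volume_closedBall]
    exact ENNReal.ofReal_lt_top

end Pool.Agent.Lib.MP_0c1c75_co.KA
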