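import Pool.Agent.Lib.MP_0c1c75_co.KA.Spec

set_option autoImplicit false

open MeasureTheory Filter Topology

namespace Pool.Agent.Lib.MP_0c1c75_co.KA

open Pool.Agent.Lib.MP_0c1c75_co.KG

private theorem Few5_full (hA : ThmAStmt) (hR : RelStmt) (hP : PertStmt) (d : ℕ)
    (p q : Fin (d + 5) → E d) (hd : 3 ≤ d) (hc : ∀ i j, dist (q i) (q j) ≤ dist (p i) (p j))
    (hf : Module.finrank ℝ (Submodule.span ℝ
      {w : E d × E d | ∃ i j, w = (p i - p j, q i - q j)}) ≤ d + 3)
    (r : Fin (d + 5) → ℝ) :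
    volume (⋂ i, Metric.closedBall (p i) (r i)) ≤ volume (⋂ i, Metric.closedBall (q i) (r i)) := by
  -- the inequality with a small error
  have key : ∀ n : ℕ, volume (⋂ i, Metric.closedBall (p i) (r i)) ≤
      volume (⋂ i, Metric.closedBall (q i) (r i + 2 * (1 / ((n : ℝ) + 1)))) := by
    intro n
    have he : 0 < 1 / ((n : ℝ) + 1) := by positivity
    obtain ⟨p', q', h1, h2, h3, h4⟩ := hP d p q hd hc hf _ he
    obtain ⟨lam, mu, c, α, β, h5, h6⟩ := hR d (d + 5) p' q'
      (fun i => r i + 1 / ((n : ℝ) + 1)) le_rfl h4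
    have h7 := hA d (d + 5) p' q' (fun i => r i + 1 / ((n : ℝ) + 1)) lam mu c α β hd h1 h4.le h5 h6
    refine le_trans (measure_mono ?_) (le_trans h7 (measure_mono ?_))
    · refine Set.iInter_mono fun i => Metric.closedBall_subset_closedBall' ?_
      have h8 := h2 i
      rw [← dist_eq_norm, dist_comm] at h8
      linarith
    · refine Set.iInter_mono fun i => Metric.closedBall_subset_closedBall' ?_
      have h8 := h3 i
      rw [← dist_eq_norm] at h8
      linarith
  -- the limit
  have hlim : Tendsto (fun n : ℕ =>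
      volume (⋂ i, Metric.closedBall (q i) (r i + 2 * (1 / ((n : ℝ) + 1))))) atTop
      (𝓝 (volume (⋂ n : ℕ, ⋂ i, Metric.closedBall (q i) (r i + 2 * (1 / ((n : ℝ) + 1)))))) := by
    refine tendsto_measure_iInter_atTop ?_ ?_ ?_
    · intro n
      exact (MeasurableSet.iInter fun i => Metric.isClosed_closedBall.measurableSet).nullMeasurableSet
    · intro m n hmn
      refine Set.iInter_mono fun i => Metric.closedBall_subset_closedBall ?_
      have h1 : 1 / ((n : ℝ) + 1) ≤ 1 / ((m : ℝ) + 1) :=
        one_div_le_one_div_of_le (by positivity) (by exact_mod_cast Nat.succ_le_succ hmn)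
      linarith
    · refine ⟨0, ne_of_lt (lt_of_le_of_lt (measure_mono (Set.iInter_subset _ 0)) ?_)⟩
      exact measure_closedBall_lt_top
  have heq : (⋂ n : ℕ, ⋂ i, Metric.closedBall (q i) (r i + 2 * (1 / ((n : ℝ) + 1)))) =
      ⋂ i, Metric.closedBall (q i) (r i) := by
    ext x
    simp only [Set.mem_iInter, Metric.mem_closedBall]
    constructor
    · intro h i
      have h1 : Tendsto (fun n : ℕ => r i + 2 * (1 / ((n : ℝ) + 1))) atTop (𝓝 (r i + 2 * 0)) :=
        tendsto_const_nhds.add (tendsto_one_div_add_atTop_nhds_zero_nat.const_mul 2)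
      rw [mul_zero, add_zero] at h1
      exact ge_of_tendsto' h1 fun n => h n i
    · intro h n i
      have he : 0 < 1 / ((n : ℝ) + 1) := by positivity
      have := h i
      linarith
  rw [heq] at hlim
  exact ge_of_tendsto' hlim key

theorem few5Stmt (hA : ThmAStmt) (hR : RelStmt) (hP : PertStmt) : Few5Stmt := by
  intro d N p q hd hN hc hf r
  rcases Nat.eq_zero_or_pos N with rfl | hN0
  · have h : ∀ s : Fin 0 → Set (E d), (⋂ i, s i) = Set.univ := fun s => Set.iInter_of_empty s
    rw [h, h]
  · let f : Fin (d + 5) → Fin N := fun i => ⟨min (i : ℕ) (N - 1), by omega⟩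
    have hfs : Function.Surjective f := by
      intro j
      refine ⟨⟨j, by omega⟩, ?_⟩
      apply Fin.ext
      change min (j : ℕ) (N - 1) = j
      omega
    have hset : {w : E d × E d | ∃ i j, w = ((p ∘ f) i - (p ∘ f) j, (q ∘ f) i - (q ∘ f) j)} =
        {w : E d × E d | ∃ i j, w = (p i - p j, q i - q j)} := by
      ext w
      constructor
      · rintro ⟨i, j, h⟩
        exact ⟨f i, f j, h⟩
      · rintro ⟨i, j, h⟩
        obtain ⟨i', rfl⟩ := hfs i
        obtain ⟨j', rfl⟩ := hfs j
        exact ⟨i', j', h⟩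
    have h1 := Few5_full hA hR hP d (p ∘ f) (q ∘ f) hd (fun i j => hc (f i) (f j))
      (by rw [hset]; exact hf) (r ∘ f)
    have h2 := hfs.iInter_comp (fun i => Metric.closedBall (p i) (r i))
    have h3 := hfs.iInter_comp (fun i => Metric.closedBall (q i) (r i))
    rw [← h2, ← h3]
    exact h1

end Pool.Agent.Lib.MP_0c1c75_co.KA
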