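import Pool.Agent.Lib.MP_0c1c75_co.KA.Spec

/-!
# Theorem A: the identity for `C¹` functions
-/

set_option autoImplicit false

open MeasureTheory Set Filter Topology
open scoped RealInnerProductSpace

namespace Pool.Agent.Lib.MP_0c1c75_co.KA

open Pool.Agent.Lib.MP_0c1c75_co.KG

namespace IdC1Aux

variable {d m N : ℕ}

/-! ## Positivity -/

private lemma rpos (M : Modes m) (k : Fin m) {a : ℝ} (ha : a ∈ Ioo (0 : ℝ) 1) : 0 < M.r k a := by
  have h1 := M.hμ k
  have h2 := M.hν k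
  have h3 := M.hs k
  unfold Modes.r
  rcases h1.eq_or_lt with h | h
  · have h4 : M.ν k = 1 := by linarith
    rw [← h, h4]
    have := ha.1
    linarith
  · have h5 : 0 < (1 - a) * M.μ k := mul_pos (by linarith [ha.2]) h
    have h6 : 0 ≤ a * M.ν k := mul_nonneg ha.1.le h2
    linarith

private lemma Wnonneg (M : Modes m) {a : ℝ} (ha : a ∈ Ioo (0 : ℝ) 1) : 0 ≤ M.W a :=
  Finset.prod_nonneg fun k _ => Real.rpow_nonneg (rpos M k ha).le _

private lemma hhnonneg (M : Modes m) (ζ : Fin N → Fin m → ℝ) (i : Fin N)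
    {x : (Fin m → ℝ) × (ℝ × ℝ)} (ha : x.2.1 ∈ Ioo (0 : ℝ) 1) : 0 ≤ hh M ζ i x :=
  add_nonneg (Finset.sum_nonneg fun k _ => div_nonneg (sq_nonneg _) (rpos M k ha).le)
    (sq_nonneg _)

private lemma ae_strip (m : ℕ) : ∀ᵐ x ∂(mes m), x.2.1 ∈ Ioo (0 : ℝ) 1 := by
  have h1 : ∀ᵐ y ∂((volume : Measure (ℝ × ℝ)).restrict strip), y.1 ∈ Ioo (0 : ℝ) 1 := by
    have hs : MeasurableSet strip := measurableSet_Ioo.prod MeasurableSet.univ
    filter_upwards [ae_restrict_mem hs] with y hy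
    exact hy.1
  exact Measure.quasiMeasurePreserving_snd.ae h1

private lemma ae_strip' (m : ℕ) : ∀ᵐ y ∂((volume : Measure ℝ).prod (mes m)),
    y.2.2.1 ∈ Ioo (0 : ℝ) 1 :=
  Measure.quasiMeasurePreserving_snd.ae (ae_strip m)

/-! ## Measurability -/

private lemma meas_W (M : Modes m) : Measurable M.W := by
  unfold Modes.W Modes.r
  refine Finset.measurable_prod _ fun k _ => ?_
  exact (((measurable_const.sub measurable_id).mul_const _).add
    (measurable_id.mul_const _)).pow_const _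

private lemma meas_hh (M : Modes m) (ζ : Fin N → Fin m → ℝ) (i : Fin N) :
    Measurable (hh M ζ i) := by
  unfold hh Modes.r
  fun_prop

/-! ## Products -/

private lemma Pij_bound {F F1 : Fin N → ℝ → ℝ} {C : ℝ} {i j : Fin N} (hij : i ≠ j)
    {h : Fin N → ℝ} (hF : ∀ k, |F k (h k)| ≤ C * Real.exp (-(h k)))
    (hF1 : ∀ k, |F1 k (h k)| ≤ C * Real.exp (-(h k))) (hC : 0 ≤ C) :
    |Pij F F1 i j h| ≤ ∏ k, (C * Real.exp (-(h k))) := by
  have hp : ∀ k, 0 ≤ C * Real.exp (-(h k)) := fun k => mul_nonneg hC (Real.exp_pos _).le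
  have hj : j ∈ Finset.univ.erase i := Finset.mem_erase.mpr ⟨hij.symm, Finset.mem_univ _⟩
  rw [← Finset.mul_prod_erase Finset.univ _ (Finset.mem_univ i),
    ← Finset.mul_prod_erase (Finset.univ.erase i) _ hj, ← mul_assoc]
  unfold Pij
  rw [abs_mul, abs_mul, Finset.abs_prod]
  refine mul_le_mul (mul_le_mul (hF1 i) (hF1 j) (abs_nonneg _) (hp i)) ?_
    (Finset.prod_nonneg fun k _ => abs_nonneg _) (mul_nonneg (hp i) (hp j))
  exact Finset.prod_le_prod (fun k _ => abs_nonneg _) fun k _ => hF k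

private lemma prod_exp (C s : ℝ) (h : Fin N → ℝ) :
    ∏ k, (C * Real.exp (-(h k - s))) =
      C ^ N * Real.exp s ^ N * Real.exp (-∑ k, h k) := by
  have e : ∀ k, C * Real.exp (-(h k - s)) = C * Real.exp s * Real.exp (-(h k)) := by
    intro k
    rw [mul_assoc, ← Real.exp_add]
    congr 2
    ring
  rw [Finset.prod_congr rfl fun k _ => e k, Finset.prod_mul_distrib, Finset.prod_const,
    Finset.card_univ, Fintype.card_fin, mul_pow, ← Real.exp_sum, Finset.sum_neg_distrib]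

/-! ## Integrable majorants -/

private lemma int_gauss (hg : GaussStmt) (hN : 0 < N) (p : Fin N → E d) :
    Integrable (fun x : E d => Real.exp (-∑ k, ‖x - p k‖ ^ 2)) := by
  have h0 : (∏ k : Fin N, (MvPolynomial.X k : MvPolynomial (Fin N) ℝ)).coeff 0 = 0 := by
    have h1 : (∏ k : Fin N, (MvPolynomial.X k : MvPolynomial (Fin N) ℝ)).coeff 0 =
        MvPolynomial.constantCoeff (∏ k : Fin N, (MvPolynomial.X k : MvPolynomial (Fin N) ℝ)) := rfl
    rw [h1, map_prod]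
    exact Finset.prod_eq_zero (Finset.mem_univ (⟨0, hN⟩ : Fin N)) (by simp)
  have h2 := (hg d N p _ h0).1
  refine h2.congr (Eventually.of_forall fun x => ?_)
  simp only [map_prod, MvPolynomial.eval_X]
  rw [← Finset.sum_neg_distrib, Real.exp_sum]
  rfl

private lemma int_kernel (hr : RepWStmt) (hN : 0 < N) {D D' : Fin N → Fin N → ℝ} (M : Modes m)
    (ζ : Fin N → Fin m → ℝ) (hR : Rep M ζ D D') :
    Integrable (fun x : (Fin m → ℝ) × (ℝ × ℝ) => M.W x.2.1 * Real.exp (-∑ k, hh M ζ k x))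
      (mes m) := by
  let l : Fin N →₀ ℕ := Finsupp.equivFunOnFinite.symm fun _ => 1
  have hl : ∀ i, l i = 1 := fun i => rfl
  have hl0 : l ≠ 0 := by
    intro h
    have h1 := hl ⟨0, hN⟩
    rw [h] at h1
    simp at h1
  have hn : nn l = N := by
    unfold nn
    simp [hl]
  have h1 := (hr m N D D' M ζ hR l hl0).1
  have hN' : (N : ℝ) ≠ 0 := by exact_mod_cast hN.ne'
  refine (h1.const_mul ((N : ℝ)⁻¹)).congr (Eventually.of_forall fun x => ?_)
  simp only [hn, hl, Nat.cast_one, one_mul]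
  field_simp

/-! ## Bounds of the functions -/

private lemma bnd1 {g : ℝ → ℝ} (hg : Continuous g) {H : ℝ} (hH : ∀ h, H < h → g h = 0) (S : ℝ) :
    ∃ C : ℝ, 0 ≤ C ∧ ∀ h, -S ≤ h → |g h| ≤ C * Real.exp (-h) := by
  obtain ⟨C, hC⟩ := (isCompact_Icc : IsCompact (Icc (-S) H)).exists_bound_of_continuousOn
    (f := fun h => g h * Real.exp h) (by fun_prop)
  refine ⟨max C 0, le_max_right _ _, fun h hh => ?_⟩
  rcases lt_or_ge H h with h1 | h1
  · rw [hH h h1, abs_zero]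
    exact mul_nonneg (le_max_right _ _) (Real.exp_pos _).le
  · have h2 := hC h ⟨hh, h1⟩
    rw [Real.norm_eq_abs, abs_mul, abs_of_pos (Real.exp_pos h)] at h2
    have h3 : |g h| * Real.exp h ≤ max C 0 := h2.trans (le_max_left _ _)
    calc |g h| = |g h| * Real.exp h * Real.exp (-h) := by
          rw [mul_assoc, ← Real.exp_add, add_neg_cancel, Real.exp_zero, mul_one]
      _ ≤ max C 0 * Real.exp (-h) := mul_le_mul_of_nonneg_right h3 (Real.exp_pos _).le

/-- common bound -/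
private lemma bnd {G : Fin N → ℝ → ℝ} (hc : ∀ k, Continuous (G k)) {H : ℝ}
    (hH : ∀ k h, H < h → G k h = 0) (S : ℝ) :
    ∃ C : ℝ, 0 ≤ C ∧ ∀ k h, -S ≤ h → |G k h| ≤ C * Real.exp (-h) := by
  choose C hC0 hC using fun k => bnd1 (hc k) (hH k) S
  refine ⟨∑ k, C k, Finset.sum_nonneg fun k _ => hC0 k, fun k h hh => (hC k h hh).trans ?_⟩
  exact mul_le_mul_of_nonneg_right
    (Finset.single_le_sum (fun k _ => hC0 k) (Finset.mem_univ k)) (Real.exp_pos _).le

/-! ## Integrability over the space -/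

private lemma prod_bound {F : Fin N → ℝ → ℝ} {C S : ℝ} (hC : 0 ≤ C)
    (hF : ∀ k h, -S ≤ h → |F k h| ≤ C * Real.exp (-h)) {s : ℝ} (hs : s ≤ S) {h : Fin N → ℝ}
    (hh : ∀ k, 0 ≤ h k) :
    |∏ k, F k (h k - s)| ≤ C ^ N * Real.exp S ^ N * Real.exp (-∑ k, h k) := by
  rw [Finset.abs_prod]
  refine (Finset.prod_le_prod (fun k _ => abs_nonneg _) fun k _ =>
    hF k (h k - s) (by have := hh k; linarith)).trans ?_
  rw [prod_exp]
  have h1 : Real.exp s ^ N ≤ Real.exp S ^ N :=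
    pow_le_pow_left₀ (Real.exp_pos _).le (Real.exp_le_exp.mpr hs) N
  exact mul_le_mul_of_nonneg_right (mul_le_mul_of_nonneg_left h1 (pow_nonneg hC N))
    (Real.exp_pos _).le

private lemma int_space (hg : GaussStmt) (hN : 0 < N) (p : Fin N → E d) {F : Fin N → ℝ → ℝ}
    (hFc : ∀ k, Continuous (F k)) {C S : ℝ} (hC : 0 ≤ C)
    (hF : ∀ k h, -S ≤ h → |F k h| ≤ C * Real.exp (-h)) {s : ℝ} (hs : s ≤ S) :
    Integrable (fun x : E d => ∏ k, F k (‖x - p k‖ ^ 2 - s)) := by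
  refine ((int_gauss hg hN p).const_mul (C ^ N * Real.exp S ^ N)).mono'
    (Continuous.aestronglyMeasurable (by fun_prop)) (Eventually.of_forall fun x => ?_)
  exact prod_bound hC hF hs fun k => sq_nonneg _

/-! ## Integrability of the kernel -/

/-- the integrand -/
private noncomputable def ker (M : Modes m) (ζ : Fin N → Fin m → ℝ) (F F1 : Fin N → ℝ → ℝ)
    (i j : Fin N) (y : ℝ × ((Fin m → ℝ) × (ℝ × ℝ))) : ℝ :=
  M.W y.2.2.1 * Pij F F1 i j (fun k => hh M ζ k y.2 - y.1)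

private lemma meas_ker (M : Modes m) (ζ : Fin N → Fin m → ℝ) {F F1 : Fin N → ℝ → ℝ}
    (hF : ∀ k, Continuous (F k)) (hF1 : ∀ k, Continuous (F1 k)) (i j : Fin N) :
    Measurable (ker M ζ F F1 i j) := by
  have h1 : ∀ k, Measurable fun y : ℝ × ((Fin m → ℝ) × (ℝ × ℝ)) => hh M ζ k y.2 - y.1 :=
    fun k => ((meas_hh M ζ k).comp measurable_snd).sub measurable_fst
  have h2 : ∀ k, Measurable fun y : ℝ × ((Fin m → ℝ) × (ℝ × ℝ)) => F k (hh M ζ k y.2 - y.1) :=
    fun k => (hF k).measurable.comp (h1 k)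
  have h3 : ∀ k, Measurable fun y : ℝ × ((Fin m → ℝ) × (ℝ × ℝ)) => F1 k (hh M ζ k y.2 - y.1) :=
    fun k => (hF1 k).measurable.comp (h1 k)
  have h4 : Measurable fun y : ℝ × ((Fin m → ℝ) × (ℝ × ℝ)) => M.W y.2.2.1 :=
    (meas_W M).comp (measurable_fst.comp (measurable_snd.comp measurable_snd))
  exact h4.mul (((h3 i).mul (h3 j)).mul (Finset.measurable_prod _ fun k _ => h2 k))

/-- majorant of the kernel -/
private noncomputable def maj (M : Modes m) (ζ : Fin N → Fin m → ℝ) (κ1 : ℝ → ℝ) (C S : ℝ)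
    (y : ℝ × ((Fin m → ℝ) × (ℝ × ℝ))) : ℝ :=
  |κ1 y.1| * (C ^ N * Real.exp S ^ N) * (M.W y.2.2.1 * Real.exp (-∑ k, hh M ζ k y.2))

private lemma ker_bound (M : Modes m) (ζ : Fin N → Fin m → ℝ) {F F1 : Fin N → ℝ → ℝ} {κ1 : ℝ → ℝ}
    {C S : ℝ} (hC : 0 ≤ C) (hF : ∀ k h, -S ≤ h → |F k h| ≤ C * Real.exp (-h))
    (hF1 : ∀ k h, -S ≤ h → |F1 k h| ≤ C * Real.exp (-h)) (hκ : ∀ s, S ≤ |s| → κ1 s = 0)
    {i j : Fin N} (hij : i ≠ j) {y : ℝ × ((Fin m → ℝ) × (ℝ × ℝ))}
    (hy : y.2.2.1 ∈ Ioo (0 : ℝ) 1) :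
    |κ1 y.1 * ker M ζ F F1 i j y| ≤ maj M ζ κ1 C S y := by
  unfold maj
  rcases le_or_gt S |y.1| with hs | hs
  · rw [hκ _ hs, zero_mul, abs_zero, zero_mul, zero_mul]
  · have hs' : y.1 ≤ S := (le_abs_self _).trans hs.le
    have hh0 := fun k => hhnonneg M ζ k hy
    have hW := Wnonneg M hy
    have h1 : |Pij F F1 i j (fun k => hh M ζ k y.2 - y.1)| ≤
        C ^ N * Real.exp S ^ N * Real.exp (-∑ k, hh M ζ k y.2) := by
      refine (Pij_bound hij (C := C) (fun k => hF k _ ?_) (fun k => hF1 k _ ?_) hC).trans ?_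
      · have := hh0 k; linarith
      · have := hh0 k; linarith
      · rw [prod_exp]
        have h2 : Real.exp y.1 ^ N ≤ Real.exp S ^ N :=
          pow_le_pow_left₀ (Real.exp_pos _).le (Real.exp_le_exp.mpr hs') N
        exact mul_le_mul_of_nonneg_right (mul_le_mul_of_nonneg_left h2 (pow_nonneg hC N))
          (Real.exp_pos _).le
    unfold ker
    rw [abs_mul, abs_mul, abs_of_nonneg hW]
    calc |κ1 y.1| * (M.W y.2.2.1 * |Pij F F1 i j (fun k => hh M ζ k y.2 - y.1)|)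
        ≤ |κ1 y.1| * (M.W y.2.2.1 *
          (C ^ N * Real.exp S ^ N * Real.exp (-∑ k, hh M ζ k y.2))) :=
          mul_le_mul_of_nonneg_left (mul_le_mul_of_nonneg_left h1 hW) (abs_nonneg _)
      _ = |κ1 y.1| * (C ^ N * Real.exp S ^ N) *
          (M.W y.2.2.1 * Real.exp (-∑ k, hh M ζ k y.2)) := by ring

private lemma maj_int (hr : RepWStmt) (hN : 0 < N) {D D' : Fin N → Fin N → ℝ} (M : Modes m)
    (ζ : Fin N → Fin m → ℝ) (hR : Rep M ζ D D') {κ1 : ℝ → ℝ} (hκ : Continuous κ1) {S : ℝ}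
    (hκ0 : ∀ s, S ≤ |s| → κ1 s = 0) (C : ℝ) :
    Integrable (maj M ζ κ1 C S) ((volume : Measure ℝ).prod (mes m)) := by
  have h1 : Integrable fun s => |κ1 s| * (C ^ N * Real.exp S ^ N) := by
    refine Integrable.mul_const (Integrable.abs ?_) _
    refine hκ.integrable_of_hasCompactSupport (HasCompactSupport.intro
      (isCompact_Icc : IsCompact (Icc (-S) S)) fun x hx => hκ0 x ?_)
    by_contra h
    exact hx (abs_le.mp (not_le.mp h).le)
  exact h1.mul_prod (int_kernel hr hN M ζ hR)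

private lemma ker_int (hr : RepWStmt) (hN : 0 < N) {D D' : Fin N → Fin N → ℝ} (M : Modes m)
    (ζ : Fin N → Fin m → ℝ) (hR : Rep M ζ D D') {F F1 : Fin N → ℝ → ℝ} {κ1 : ℝ → ℝ}
    (hκ : Continuous κ1) {C S : ℝ} (hC : 0 ≤ C)
    (hFc : ∀ k, Continuous (F k)) (hF1c : ∀ k, Continuous (F1 k))
    (hF : ∀ k h, -S ≤ h → |F k h| ≤ C * Real.exp (-h))
    (hF1 : ∀ k h, -S ≤ h → |F1 k h| ≤ C * Real.exp (-h)) (hκ0 : ∀ s, S ≤ |s| → κ1 s = 0)
    {i j : Fin N} (hij : i ≠ j) :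
    Integrable (fun y => κ1 y.1 * ker M ζ F F1 i j y) ((volume : Measure ℝ).prod (mes m)) := by
  refine (maj_int hr hN M ζ hR hκ hκ0 C).mono' ?_ ?_
  · exact ((hκ.measurable.comp measurable_fst).mul
      (meas_ker M ζ hFc hF1c i j)).aestronglyMeasurable
  · filter_upwards [ae_strip' m] with y hy
    exact ker_bound M ζ hC hF hF1 hκ0 hij hy

/-! ## Limits -/

private lemma lim_in (hg : GaussStmt) (hN : 0 < N) (p : Fin N → E d) {A : ℕ → Fin N → ℝ → ℝ}
    {G : Fin N → ℝ → ℝ} (hAc : ∀ n k, Continuous (A n k)) {C S : ℝ} (hC : 0 ≤ C)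
    (hA : ∀ n k h, -S ≤ h → |A n k h| ≤ C * Real.exp (-h))
    (hl : ∀ k h, -S ≤ h → Tendsto (fun n => A n k h) atTop (𝓝 (G k h))) {s : ℝ} (hs : s ≤ S) :
    Tendsto (fun n => ∫ x : E d, ∏ k, A n k (‖x - p k‖ ^ 2 - s)) atTop
      (𝓝 (∫ x : E d, ∏ k, G k (‖x - p k‖ ^ 2 - s))) := by
  refine tendsto_integral_of_dominated_convergence
    (fun x : E d => C ^ N * Real.exp S ^ N * Real.exp (-∑ k, ‖x - p k‖ ^ 2)) ?_
    ((int_gauss hg hN p).const_mul _) ?_ ?_
  · intro n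
    have := hAc n
    exact Continuous.aestronglyMeasurable (by fun_prop)
  · intro n
    exact Eventually.of_forall fun x => prod_bound hC (hA n) hs fun k => sq_nonneg _
  · refine Eventually.of_forall fun x => tendsto_finsetProd _ fun k _ => hl k _ ?_
    have := sq_nonneg ‖x - p k‖
    linarith

private lemma lim_space (hg : GaussStmt) (hN : 0 < N) (p : Fin N → E d)
    {A : ℕ → Fin N → ℝ → ℝ} {G : Fin N → ℝ → ℝ} {κ : ℝ → ℝ} (hκ : Continuous κ)
    (hAc : ∀ n k, Continuous (A n k)) {C S : ℝ} (hC : 0 ≤ C)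
    (hκ0 : ∀ s, S ≤ |s| → κ s = 0)
    (hA : ∀ n k h, -S ≤ h → |A n k h| ≤ C * Real.exp (-h))
    (hl : ∀ k h, -S ≤ h → Tendsto (fun n => A n k h) atTop (𝓝 (G k h))) :
    Tendsto (fun n => ∫ s, κ s * ∫ x : E d, ∏ k, A n k (‖x - p k‖ ^ 2 - s)) atTop
      (𝓝 (∫ s, κ s * ∫ x : E d, ∏ k, G k (‖x - p k‖ ^ 2 - s))) := by
  refine tendsto_integral_of_dominated_convergence
    (fun s => |κ s| * ∫ x : E d, C ^ N * Real.exp S ^ N * Real.exp (-∑ k, ‖x - p k‖ ^ 2))
    ?_ ?_ ?_ ?_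
  · intro n
    have h0 := hAc n
    have h1 : Continuous (Function.uncurry fun (s : ℝ) (x : E d) =>
        ∏ k, A n k (‖x - p k‖ ^ 2 - s)) := by
      unfold Function.uncurry
      fun_prop
    have h2 : StronglyMeasurable fun s : ℝ => ∫ x : E d, ∏ k, A n k (‖x - p k‖ ^ 2 - s) :=
      h1.stronglyMeasurable.integral_prod_right
    exact (hκ.stronglyMeasurable.mul h2).aestronglyMeasurable
  · refine Integrable.mul_const (Integrable.abs ?_) _
    refine hκ.integrable_of_hasCompactSupport (HasCompactSupport.intro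
      (isCompact_Icc : IsCompact (Icc (-S) S)) fun x hx => hκ0 x ?_)
    by_contra h
    exact hx (abs_le.mp (not_le.mp h).le)
  · intro n
    refine Eventually.of_forall fun s => ?_
    rcases le_or_gt S |s| with hs | hs
    · rw [hκ0 s hs, zero_mul, norm_zero, abs_zero, zero_mul]
    · have hs' : s ≤ S := (le_abs_self _).trans hs.le
      rw [norm_mul, Real.norm_eq_abs (κ s)]
      refine mul_le_mul_of_nonneg_left ?_ (abs_nonneg _)
      refine (norm_integral_le_integral_norm _).trans ?_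
      refine integral_mono_of_nonneg (Eventually.of_forall fun x => norm_nonneg _)
        ((int_gauss hg hN p).const_mul _) (Eventually.of_forall fun x => ?_)
      exact prod_bound hC (hA n) hs' fun k => sq_nonneg _
  · refine Eventually.of_forall fun s => ?_
    rcases le_or_gt S |s| with hs | hs
    · simp only [hκ0 s hs, zero_mul]
      exact tendsto_const_nhds
    · exact (lim_in hg hN p hAc hC hA hl ((le_abs_self _).trans hs.le)).const_mul _

private lemma lim_ker (hr : RepWStmt) (hN : 0 < N) {D D' : Fin N → Fin N → ℝ} (M : Modes m)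
    (ζ : Fin N → Fin m → ℝ) (hR : Rep M ζ D D') {A A1 : ℕ → Fin N → ℝ → ℝ}
    {G G1 : Fin N → ℝ → ℝ} {κ1 : ℝ → ℝ} (hκ : Continuous κ1)
    (hAc : ∀ n k, Continuous (A n k)) (hA1c : ∀ n k, Continuous (A1 n k)) {C S : ℝ} (hC : 0 ≤ C)
    (hκ0 : ∀ s, S ≤ |s| → κ1 s = 0)
    (hA : ∀ n k h, -S ≤ h → |A n k h| ≤ C * Real.exp (-h))
    (hA1 : ∀ n k h, -S ≤ h → |A1 n k h| ≤ C * Real.exp (-h))
    (hl : ∀ k h, -S ≤ h → Tendsto (fun n => A n k h) atTop (𝓝 (G k h)))
    (hl1 : ∀ k h, -S ≤ h → Tendsto (fun n => A1 n k h) atTop (𝓝 (G1 k h)))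
    {i j : Fin N} (hij : i ≠ j) :
    Tendsto (fun n => ∫ y, -(κ1 y.1) * ker M ζ (A n) (A1 n) i j y
      ∂((volume : Measure ℝ).prod (mes m))) atTop
      (𝓝 (∫ y, -(κ1 y.1) * ker M ζ G G1 i j y ∂((volume : Measure ℝ).prod (mes m)))) := by
  refine tendsto_integral_of_dominated_convergence (maj M ζ κ1 C S) ?_
    (maj_int hr hN M ζ hR hκ hκ0 C) ?_ ?_
  · intro n
    exact ((hκ.measurable.comp measurable_fst).neg.mul
      (meas_ker M ζ (hAc n) (hA1c n) i j)).aestronglyMeasurable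
  · intro n
    filter_upwards [ae_strip' m] with y hy
    rw [neg_mul, norm_neg, Real.norm_eq_abs]
    exact ker_bound M ζ hC (hA n) (hA1 n) hκ0 hij hy
  · filter_upwards [ae_strip' m] with y hy
    rcases le_or_gt S |y.1| with hs | hs
    · simp only [hκ0 _ hs, neg_zero, zero_mul]
      exact tendsto_const_nhds
    · have hs' : y.1 ≤ S := (le_abs_self _).trans hs.le
      have h0 : ∀ k, -S ≤ hh M ζ k y.2 - y.1 := fun k => by
        have := hhnonneg M ζ k hy
        linarith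
      refine Tendsto.const_mul _ (Tendsto.const_mul _ ?_)
      exact ((hl1 i _ (h0 i)).mul (hl1 j _ (h0 j))).mul
        (tendsto_finsetProd _ fun k _ => hl k _ (h0 k))

private lemma lim_of_bound {a : ℕ → ℝ} {b c : ℝ} (h : ∀ n : ℕ, |a n - b| ≤ 1 / ((n : ℝ) + 1) * c) :
    Tendsto a atTop (𝓝 b) := by
  have h1 : Tendsto (fun n : ℕ => 1 / ((n : ℝ) + 1) * c) atTop (𝓝 0) := by
    have := tendsto_one_div_add_atTop_nhds_zero_nat (𝕜 := ℝ) |>.mul_const c
    rwa [zero_mul] at this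
  rw [tendsto_iff_norm_sub_tendsto_zero]
  exact squeeze_zero (fun n => norm_nonneg _) h h1

end IdC1Aux

open IdC1Aux in
theorem idC1Stmt (hg : GaussStmt) (hr : RepWStmt) (happ : Approx1Stmt) (hpoly : IdPolyStmt) :
    IdC1Stmt := by
  intro d N p q M ζ κ κ1 hN hR hK G G1 H hG hG1c hH
  obtain ⟨hκd, hκ1c, S0, hS0⟩ := hK
  have hκc : Continuous κ := continuous_iff_continuousAt.mpr fun s => (hκd s).continuousAt
  have hGc : ∀ k, Continuous (G k) := fun k =>
    continuous_iff_continuousAt.mpr fun h => (hG k h).continuousAt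
  -- the radius
  set S : ℝ := S0 + 1 with hS
  have hκ0 : ∀ s, S ≤ |s| → κ s = 0 := fun s hs => hS0 s (by linarith)
  have hκ10 : ∀ s, S ≤ |s| → κ1 s = 0 := by
    intro s hs
    have h1 : κ =ᶠ[𝓝 s] fun _ => 0 := by
      have h2 : ∀ᶠ x in 𝓝 s, S0 < |x| :=
        continuous_abs.continuousAt.eventually_const_lt (by linarith)
      filter_upwards [h2] with x hx
      exact hS0 x hx.le
    exact ((hκd s).congr_of_eventuallyEq h1.symm).unique (hasDerivAt_const s (0 : ℝ))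
  -- values for large arguments
  have hG0 : ∀ k h, H < h → G k h = 0 := fun k h hh => hH k h hh.le
  have hG10 : ∀ k h, H < h → G1 k h = 0 := by
    intro k h hh
    have h1 : G k =ᶠ[𝓝 h] fun _ => 0 := by
      filter_upwards [Ioi_mem_nhds hh] with x hx
      exact hG0 k x hx
    exact ((hG k h).congr_of_eventuallyEq h1.symm).unique (hasDerivAt_const h (0 : ℝ))
  -- first claim
  have c1 : ∀ (r : Fin N → E d) (s : ℝ),
      Integrable (fun x : E d => ∏ k, G k (‖x - r k‖ ^ 2 - s)) := by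
    intro r s
    obtain ⟨C, hC, hb⟩ := bnd hGc hG0 s
    exact int_space hg hN r hGc hC hb le_rfl
  -- bounds
  obtain ⟨C0, hC0, hb0⟩ := bnd hGc hG0 S
  obtain ⟨C1, hC1, hb1⟩ := bnd hG1c hG10 S
  set C : ℝ := C0 + C1 + 1 with hCdef
  have hC : 0 ≤ C := by linarith
  have hGb : ∀ k h, -S ≤ h → |G k h| ≤ C * Real.exp (-h) := fun k h hh =>
    (hb0 k h hh).trans (mul_le_mul_of_nonneg_right (by linarith) (Real.exp_pos _).le)
  have hG1b : ∀ k h, -S ≤ h → |G1 k h| ≤ C * Real.exp (-h) := fun k h hh =>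
    (hb1 k h hh).trans (mul_le_mul_of_nonneg_right (by linarith) (Real.exp_pos _).le)
  -- approximation
  choose R hR0 hRb using fun (n : ℕ) (k : Fin N) => happ (G k) (G1 k) H S (hG k) (hG1c k) (hH k)
    (1 / ((n : ℝ) + 1)) (by positivity)
  let A : ℕ → Fin N → ℝ → ℝ := fun n k h => (R n k).eval (Real.exp (-h))
  let A1 : ℕ → Fin N → ℝ → ℝ := fun n k h =>
    -(Real.exp (-h) * (Polynomial.derivative (R n k)).eval (Real.exp (-h)))
  have hAc : ∀ n k, Continuous (A n k) := fun n k =>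
    (R n k).continuous.comp (Real.continuous_exp.comp continuous_neg)
  have hA1c : ∀ n k, Continuous (A1 n k) := fun n k =>
    ((Real.continuous_exp.comp continuous_neg).mul
      ((Polynomial.derivative (R n k)).continuous.comp (Real.continuous_exp.comp continuous_neg))).neg
  have hn1 : ∀ n : ℕ, 1 / ((n : ℝ) + 1) ≤ 1 := fun n => by
    rw [div_le_one (by positivity)]
    have : (0 : ℝ) ≤ n := Nat.cast_nonneg n
    linarith
  have hAb : ∀ n k h, -S ≤ h → |A n k h| ≤ C * Real.exp (-h) := by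
    intro n k h hh
    have h1 := (hRb n k h hh).1
    have h2 := hb0 k h hh
    have h3 : |A n k h| ≤ |A n k h - G k h| + |G k h| := by
      have := abs_add_le (A n k h - G k h) (G k h)
      rwa [sub_add_cancel] at this
    have h4 : 1 / ((n : ℝ) + 1) * Real.exp (-h) ≤ 1 * Real.exp (-h) :=
      mul_le_mul_of_nonneg_right (hn1 n) (Real.exp_pos _).le
    have h5 : 0 ≤ C1 * Real.exp (-h) := mul_nonneg hC1 (Real.exp_pos _).le
    calc |A n k h| ≤ |A n k h - G k h| + |G k h| := h3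
      _ ≤ 1 * Real.exp (-h) + C0 * Real.exp (-h) := add_le_add (h1.trans h4) h2
      _ ≤ C * Real.exp (-h) := by rw [hCdef]; nlinarith
  have hA1b : ∀ n k h, -S ≤ h → |A1 n k h| ≤ C * Real.exp (-h) := by
    intro n k h hh
    have h1 := (hRb n k h hh).2
    have h2 := hb1 k h hh
    have h3 : |A1 n k h| ≤ |A1 n k h - G1 k h| + |G1 k h| := by
      have := abs_add_le (A1 n k h - G1 k h) (G1 k h)
      rwa [sub_add_cancel] at this
    have h4 : 1 / ((n : ℝ) + 1) * Real.exp (-h) ≤ 1 * Real.exp (-h) :=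
      mul_le_mul_of_nonneg_right (hn1 n) (Real.exp_pos _).le
    have h5 : 0 ≤ C0 * Real.exp (-h) := mul_nonneg hC0 (Real.exp_pos _).le
    calc |A1 n k h| ≤ |A1 n k h - G1 k h| + |G1 k h| := h3
      _ ≤ 1 * Real.exp (-h) + C1 * Real.exp (-h) := add_le_add (h1.trans h4) h2
      _ ≤ C * Real.exp (-h) := by rw [hCdef]; nlinarith
  have hl : ∀ k h, -S ≤ h → Tendsto (fun n => A n k h) atTop (𝓝 (G k h)) := fun k h hh =>
    lim_of_bound fun n => (hRb n k h hh).1
  have hl1 : ∀ k h, -S ≤ h → Tendsto (fun n => A1 n k h) atTop (𝓝 (G1 k h)) := fun k h hh =>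
    lim_of_bound fun n => (hRb n k h hh).2
  refine ⟨fun s => ⟨c1 p s, c1 q s⟩, fun i j hij => ?_, ?_⟩
  · exact ker_int hr hN M ζ hR hκ1c hC hGc hG1c hGb hG1b hκ10 hij
  · have t1 := (lim_space hg hN q hκc hAc hC hκ0 hAb hl).sub
      (lim_space hg hN p hκc hAc hC hκ0 hAb hl)
    have t2 : Tendsto (fun n => (1 / Real.pi ^ 2) * ((1 / 2) * ∑ i, ∑ j ∈ Finset.univ.erase i,
        (DD p i j - DD q i j) * ∫ y, -(κ1 y.1) * ker M ζ (A n) (A1 n) i j y
          ∂((volume : Measure ℝ).prod (mes (d + 3))))) atTop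
        (𝓝 ((1 / Real.pi ^ 2) * ((1 / 2) * ∑ i, ∑ j ∈ Finset.univ.erase i,
          (DD p i j - DD q i j) * ∫ y, -(κ1 y.1) * ker M ζ G G1 i j y
            ∂((volume : Measure ℝ).prod (mes (d + 3)))))) := by
      refine Tendsto.const_mul _ (Tendsto.const_mul _ ?_)
      refine tendsto_finsetSum _ fun i _ => tendsto_finsetSum _ fun j hj => ?_
      exact Tendsto.const_mul _ (lim_ker hr hN M ζ hR hκ1c hAc hA1c hC hκ10 hAb hA1b hl hl1
        (Finset.ne_of_mem_erase hj).symm)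
    refine tendsto_nhds_unique t1 (t2.congr fun n => ?_)
    exact ((hpoly d N p q M ζ κ κ1 hN hR ⟨hκd, hκ1c, S0, hS0⟩ (R n) (hR0 n)).2.2).symm

end Pool.Agent.Lib.MP_0c1c75_co.KA
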