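import Pool.Agent.Lib.MP_0c1c75_co.KA.Spec

set_option autoImplicit false

open MeasureTheory Set Filter Topology
open scoped RealInnerProductSpace

namespace Pool.Agent.Lib.MP_0c1c75_co.KA

open Pool.Agent.Lib.MP_0c1c75_co.KG

namespace IdPolyAux

variable {N : ℕ}

/-! ### polynomials -/

/-- the polynomial `g (X k)` -/
noncomputable abbrev ev (k : Fin N) (p : Polynomial ℝ) : MvPolynomial (Fin N) ℝ :=
  Polynomial.aeval (MvPolynomial.X k : MvPolynomial (Fin N) ℝ) p

theorem pd_ev (i k : Fin N) (p : Polynomial ℝ) :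
    MvPolynomial.pderiv i (ev k p) =
      ev k (Polynomial.derivative p) * MvPolynomial.pderiv i (MvPolynomial.X k) := by
  induction p using Polynomial.induction_on' with
  | add p q hp hq => simp only [ev, map_add, add_mul] at hp hq ⊢; rw [hp, hq]
  | monomial n a =>
    simp only [ev, Polynomial.aeval_monomial, Polynomial.derivative_monomial]
    rw [Derivation.leibniz, Derivation.leibniz_pow, Derivation.map_algebraMap, smul_zero, add_zero,
      map_mul, map_natCast]
    simp only [smul_eq_mul, nsmul_eq_mul]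
    ring

theorem pd_ev_self (k : Fin N) (p : Polynomial ℝ) :
    MvPolynomial.pderiv k (ev k p) = ev k (Polynomial.derivative p) := by
  rw [pd_ev, MvPolynomial.pderiv_X_self, mul_one]

theorem pd_ev_ne {i k : Fin N} (h : i ≠ k) (p : Polynomial ℝ) :
    MvPolynomial.pderiv i (ev k p) = 0 := by
  rw [pd_ev, MvPolynomial.pderiv_X_of_ne h.symm, mul_zero]

theorem eval_ev (z : Fin N → ℝ) (k : Fin N) (p : Polynomial ℝ) :
    MvPolynomial.eval z (ev k p) = p.eval (z k) := by
  rw [ev, Polynomial.aeval_def, Polynomial.hom_eval₂, MvPolynomial.eval_X]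
  have h : (MvPolynomial.eval z).comp (algebraMap ℝ (MvPolynomial (Fin N) ℝ)) = RingHom.id ℝ := by
    ext r
    simp
  rw [h, Polynomial.eval₂_id]

theorem pd_prod (G : Fin N → Polynomial ℝ) (j : Fin N) (s : Finset (Fin N)) (hj : j ∈ s) :
    MvPolynomial.pderiv j (∏ k ∈ s, ev k (G k)) =
      (∏ k ∈ s.erase j, ev k (G k)) * ev j (Polynomial.derivative (G j)) := by
  have h0 : ∀ t : Finset (Fin N), j ∉ t →
      MvPolynomial.pderiv j (∏ k ∈ t, ev k (G k)) = 0 := by
    intro t
    induction t using Finset.induction_on with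
    | empty => intro _; simp
    | insert a t ha ih =>
      intro h
      rw [Finset.mem_insert, not_or] at h
      rw [Finset.prod_insert ha, Derivation.leibniz, ih h.2, pd_ev_ne h.1, smul_zero, smul_zero,
        add_zero]
  rw [← Finset.mul_prod_erase s _ hj, Derivation.leibniz, h0 _ (Finset.notMem_erase j s),
    pd_ev_self, smul_zero, zero_add, smul_eq_mul]

theorem eval_pd2 (G : Fin N → Polynomial ℝ) {i j : Fin N} (hij : i ≠ j) (z : Fin N → ℝ) :
    MvPolynomial.eval z (MvPolynomial.pderiv i (MvPolynomial.pderiv j (∏ k, ev k (G k)))) =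
      (∏ k ∈ (Finset.univ.erase j).erase i, (G k).eval (z k)) *
        ((Polynomial.derivative (G i)).eval (z i) * (Polynomial.derivative (G j)).eval (z j)) := by
  rw [pd_prod G j _ (Finset.mem_univ j), Derivation.leibniz, pd_ev_ne hij,
    pd_prod G i _ (Finset.mem_erase.2 ⟨hij, Finset.mem_univ i⟩), smul_zero, zero_add, smul_eq_mul,
    map_mul, map_mul, map_prod, eval_ev, eval_ev]
  simp only [eval_ev]
  ring

/-- the coefficients of the mixed derivative -/
theorem coeff_mixed (F : MvPolynomial (Fin N) ℝ) {i j : Fin N} (hij : i ≠ j)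
    (l : Fin N →₀ ℕ) :
    (MvPolynomial.X i * MvPolynomial.X j *
        MvPolynomial.pderiv i (MvPolynomial.pderiv j F)).coeff l = l i * l j * F.coeff l := by
  classical
  rw [mul_assoc, MvPolynomial.coeff_X_mul']
  by_cases h1 : i ∈ l.support
  · rw [if_pos h1, MvPolynomial.coeff_X_mul']
    have h1' : 1 ≤ l i := Nat.one_le_iff_ne_zero.2 (Finsupp.mem_support_iff.1 h1)
    have h3 : (l - Finsupp.single i 1 : Fin N →₀ ℕ) j = l j := by
      rw [Finsupp.tsub_apply, Finsupp.single_apply, if_neg hij, Nat.sub_zero]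
    by_cases h2 : j ∈ (l - Finsupp.single i 1).support
    · rw [if_pos h2, MvPolynomial.coeff_pderiv, MvPolynomial.coeff_pderiv]
      have h2' : 1 ≤ l j := by
        rw [Finsupp.mem_support_iff, h3] at h2
        exact Nat.one_le_iff_ne_zero.2 h2
      have e1 : l - Finsupp.single i 1 - Finsupp.single j 1 + Finsupp.single i 1 +
          Finsupp.single j 1 = l := by
        ext k
        simp only [Finsupp.add_apply, Finsupp.tsub_apply, Finsupp.single_apply]
        by_cases hk1 : i = k
        · subst hk1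
          rw [if_pos rfl, if_neg (Ne.symm hij)]
          omega
        · by_cases hk2 : j = k
          · subst hk2
            rw [if_pos rfl, if_neg hk1]
            omega
          · rw [if_neg hk1, if_neg hk2]
            omega
      have e2 : (l - Finsupp.single i 1 - Finsupp.single j 1 + Finsupp.single i 1 : Fin N →₀ ℕ) j + 1 =
          l j := by
        simp only [Finsupp.add_apply, Finsupp.tsub_apply, Finsupp.single_apply, if_true,
          if_neg hij]
        omega
      have e3 : (l - Finsupp.single i 1 - Finsupp.single j 1 : Fin N →₀ ℕ) i + 1 = l i := by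
        simp only [Finsupp.tsub_apply, Finsupp.single_apply, if_true, if_neg (Ne.symm hij)]
        omega
      have e2' : (((l - Finsupp.single i 1 - Finsupp.single j 1 + Finsupp.single i 1 :
          Fin N →₀ ℕ) j : ℕ) : ℝ) + 1 = l j := by exact_mod_cast e2
      have e3' : (((l - Finsupp.single i 1 - Finsupp.single j 1 : Fin N →₀ ℕ) i : ℕ) : ℝ) + 1 =
          l i := by
        exact_mod_cast e3
      rw [e1, e2', e3']
      ring
    · rw [if_neg h2]
      rw [Finsupp.mem_support_iff, h3, not_not] at h2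
      rw [h2]
      simp
  · rw [if_neg h1]
    rw [Finsupp.mem_support_iff, not_not] at h1
    rw [h1]
    simp

/-- multiply the coefficients by `c` -/
noncomputable def T (c : (Fin N →₀ ℕ) → ℝ) (F : MvPolynomial (Fin N) ℝ) :
    MvPolynomial (Fin N) ℝ :=
  ∑ l ∈ F.support, MvPolynomial.monomial l (F.coeff l * c l)

theorem coeff_T (c : (Fin N →₀ ℕ) → ℝ) (F : MvPolynomial (Fin N) ℝ) (l : Fin N →₀ ℕ) :
    (T c F).coeff l = F.coeff l * c l := by
  classical
  unfold T
  rw [MvPolynomial.coeff_sum]
  simp only [MvPolynomial.coeff_monomial]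
  rw [Finset.sum_ite_eq' F.support l]
  split_ifs with h
  · rfl
  · rw [MvPolynomial.mem_support_iff, not_not] at h
    rw [h, zero_mul]

theorem supp_T (c : (Fin N →₀ ℕ) → ℝ) (F : MvPolynomial (Fin N) ℝ) :
    (T c F).support ⊆ F.support := by
  intro l hl
  rw [MvPolynomial.mem_support_iff, coeff_T] at hl
  rw [MvPolynomial.mem_support_iff]
  exact left_ne_zero_of_mul hl

theorem val_T (d : ℕ) (D : Fin N → Fin N → ℝ) (c : (Fin N →₀ ℕ) → ℝ)
    (F : MvPolynomial (Fin N) ℝ) :
    val d D (T c F) = ∑ l ∈ F.support, F.coeff l * c l * gv d D l := by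
  unfold val
  rw [Finset.sum_subset (supp_T c F)]
  · exact Finset.sum_congr rfl fun l _ => by rw [coeff_T]
  · intro l _ hl
    rw [MvPolynomial.mem_support_iff, not_not] at hl
    rw [hl, zero_mul]

theorem LL_T (κ : ℝ) (D D' : Fin N → Fin N → ℝ) (c : (Fin N →₀ ℕ) → ℝ)
    (F : MvPolynomial (Fin N) ℝ) {i j : Fin N} (hij : i ≠ j) :
    LL κ D D' (MvPolynomial.X i * MvPolynomial.X j *
        MvPolynomial.pderiv i (MvPolynomial.pderiv j (T c F))) =
      ∑ l ∈ F.support, (l i * l j * F.coeff l) * (c l * mw κ D D' l) := by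
  unfold LL
  rw [Finset.sum_congr rfl fun l _ => by rw [coeff_mixed (T c F) hij l, coeff_T]]
  have hsub : (MvPolynomial.X i * MvPolynomial.X j *
        MvPolynomial.pderiv i (MvPolynomial.pderiv j (T c F))).support ⊆ F.support := by
    intro l hl
    rw [MvPolynomial.mem_support_iff, coeff_mixed (T c F) hij l, coeff_T] at hl
    rw [MvPolynomial.mem_support_iff]
    exact left_ne_zero_of_mul (right_ne_zero_of_mul hl)
  rw [Finset.sum_subset hsub]
  · exact Finset.sum_congr rfl fun l _ => by ring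
  · intro l _ hl
    rw [MvPolynomial.mem_support_iff, not_not, coeff_mixed (T c F) hij l, coeff_T] at hl
    rw [hl, zero_mul]

/-- the value at `exp (-(h - s))` -/
theorem eval_exp (F : MvPolynomial (Fin N) ℝ) (h : Fin N → ℝ) (s : ℝ) :
    MvPolynomial.eval (fun k => Real.exp (-(h k - s))) F =
      ∑ l ∈ F.support, F.coeff l * (Real.exp (s * nn l) *
        Real.exp (-∑ i, (l i : ℝ) * h i)) := by
  rw [MvPolynomial.eval_eq']
  refine Finset.sum_congr rfl fun l _ => ?_
  congr 1
  rw [← Real.exp_add]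
  have h1 : ∀ k, Real.exp (-(h k - s)) ^ l k = Real.exp ((l k : ℝ) * (-(h k - s))) := by
    intro k
    rw [← Real.exp_nat_mul]
  rw [Finset.prod_congr rfl fun k _ => h1 k, ← Real.exp_sum]
  congr 1
  unfold nn
  rw [Finset.mul_sum, ← Finset.sum_neg_distrib, ← Finset.sum_add_distrib]
  exact Finset.sum_congr rfl fun k _ => by ring

theorem eval_mixed (F : MvPolynomial (Fin N) ℝ) {i j : Fin N} (hij : i ≠ j)
    (h : Fin N → ℝ) (s : ℝ) :
    MvPolynomial.eval (fun k => Real.exp (-(h k - s))) (MvPolynomial.X i * MvPolynomial.X j *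
        MvPolynomial.pderiv i (MvPolynomial.pderiv j F)) =
      ∑ l ∈ F.support, (l i * l j * F.coeff l) * (Real.exp (s * nn l) *
        Real.exp (-∑ i, (l i : ℝ) * h i)) := by
  rw [eval_exp]
  rw [Finset.sum_congr rfl fun l _ => by rw [coeff_mixed F hij l]]
  refine Finset.sum_subset ?_ ?_
  · intro l hl
    rw [MvPolynomial.mem_support_iff, coeff_mixed F hij l] at hl
    rw [MvPolynomial.mem_support_iff]
    exact right_ne_zero_of_mul hl
  · intro l _ hl
    rw [MvPolynomial.mem_support_iff, not_not, coeff_mixed F hij l] at hl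
    rw [hl, zero_mul]

/-- `Pij` as a polynomial -/
theorem Pij_eq (R : Fin N → Polynomial ℝ) {i j : Fin N} (hij : i ≠ j) (h : Fin N → ℝ) (s : ℝ) :
    Pij (fun k h => (R k).eval (Real.exp (-h)))
      (fun k h => -(Real.exp (-h) * (Polynomial.derivative (R k)).eval (Real.exp (-h)))) i j
      (fun k => h k - s) =
    ∑ l ∈ (∏ k, ev k (R k)).support, (l i * l j * (∏ k, ev k (R k)).coeff l) *
      (Real.exp (s * nn l) * Real.exp (-∑ i, (l i : ℝ) * h i)) := by
  rw [← eval_mixed _ hij h s, map_mul, map_mul, MvPolynomial.eval_X, MvPolynomial.eval_X,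
    eval_pd2 R hij]
  unfold Pij
  rw [Finset.erase_right_comm]
  ring

theorem coeff_zero (F : MvPolynomial (Fin N) ℝ) : F.coeff 0 = MvPolynomial.eval 0 F := by
  rw [MvPolynomial.eval_zero, MvPolynomial.constantCoeff_eq]

theorem nn_pos {l : Fin N →₀ ℕ} (hl : l ≠ 0) : 0 < nn l := by
  unfold nn
  obtain ⟨i, hi⟩ : ∃ i, l i ≠ 0 := by
    by_contra h
    push Not at h
    exact hl (Finsupp.ext h)
  refine Finset.sum_pos' (fun i _ => Nat.cast_nonneg _) ⟨i, Finset.mem_univ i, ?_⟩
  exact_mod_cast Nat.pos_of_ne_zero hi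

/-! ### the shift function -/

theorem sfin (m : ℕ) : SFinite (mes m) := by
  unfold mes
  infer_instance

theorem kap_cont {κ κ1 : ℝ → ℝ} (h : Kap κ κ1) : Continuous κ :=
  continuous_iff_continuousAt.2 fun s => (h.1 s).continuousAt

theorem kap_comp {κ κ1 : ℝ → ℝ} (h : Kap κ κ1) : HasCompactSupport κ := by
  obtain ⟨-, -, S, hS⟩ := h
  refine HasCompactSupport.of_support_subset_isCompact (isCompact_Icc (a := -S) (b := S)) ?_
  intro s hs
  by_contra h1
  apply hs
  apply hS
  rw [mem_Icc, ← abs_le, not_le] at h1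
  exact h1.le

theorem kap_comp1 {κ κ1 : ℝ → ℝ} (h : Kap κ κ1) : HasCompactSupport κ1 := by
  have h1 : κ1 = deriv κ := funext fun s => (h.1 s).deriv.symm
  rw [h1]
  exact (kap_comp h).deriv

theorem kap_int {κ κ1 : ℝ → ℝ} (h : Kap κ κ1) {g : ℝ → ℝ} (hg : Continuous g) :
    Integrable (fun s => κ s * g s) :=
  ((kap_cont h).mul hg).integrable_of_hasCompactSupport (kap_comp h).mul_right

theorem kap_int1 {κ κ1 : ℝ → ℝ} (h : Kap κ κ1) {g : ℝ → ℝ} (hg : Continuous g) :
    Integrable (fun s => κ1 s * g s) :=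
  (h.2.1.mul hg).integrable_of_hasCompactSupport (kap_comp1 h).mul_right

theorem kap_parts {κ κ1 : ℝ → ℝ} (h : Kap κ κ1) (n : ℝ) :
    ∫ s, -(κ1 s) * Real.exp (s * n) = n * ∫ s, κ s * Real.exp (s * n) := by
  have hg : Continuous fun s : ℝ => Real.exp (s * n) := by fun_prop
  have hg1 : Continuous fun s : ℝ => Real.exp (s * n) * n := by fun_prop
  have hd : ∀ s : ℝ, HasDerivAt (fun s : ℝ => Real.exp (s * n)) (Real.exp (s * n) * n) s := by
    intro s
    have h1 : HasDerivAt (fun s : ℝ => s * n) n s := by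
      have h2 := (hasDerivAt_id s).mul_const n
      rw [one_mul] at h2
      exact h2
    exact h1.exp
  have h1 := MeasureTheory.integral_mul_deriv_eq_deriv_mul_of_integrable
    (u := κ) (v := fun s => Real.exp (s * n)) (u' := κ1) (v' := fun s => Real.exp (s * n) * n)
    (fun s _ => h.1 s) (fun s _ => hd s) (kap_int h hg1) (kap_int1 h hg) (kap_int h hg)
  have h2 : (fun s => -(κ1 s) * Real.exp (s * n)) = fun s => -(κ1 s * Real.exp (s * n)) := by
    funext s
    ring
  rw [h2, integral_neg, ← h1, ← integral_const_mul]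
  refine integral_congr_ae (Eventually.of_forall fun s => ?_)
  simp only []
  ring

end IdPolyAux


open IdPolyAux in
theorem idPolyStmt (hg : GaussStmt) (hd : DiffStmt) (hr : RepWStmt) : IdPolyStmt := by
  intro d N p q M ζ κ κ1 hN hR hK R hR0
  have := sfin (d + 3)
  -- the polynomial
  set F : MvPolynomial (Fin N) ℝ := ∏ k, ev k (R k) with hF
  have hF0 : F.coeff 0 = 0 := by
    rw [coeff_zero, hF, map_prod]
    exact Finset.prod_eq_zero (Finset.mem_univ ⟨0, hN⟩) ((eval_ev 0 _ _).trans (hR0 _))
  have hl0 : ∀ l ∈ F.support, l ≠ 0 := by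
    rintro l hl rfl
    exact (MvPolynomial.mem_support_iff.1 hl) hF0
  -- the shifted polynomials
  have hT : ∀ (s : ℝ) (z : Fin N → ℝ), MvPolynomial.eval (fun k => Real.exp (-(z k)))
      (T (fun l => Real.exp (s * nn l)) F) = ∏ k, (R k).eval (Real.exp (-(z k - s))) := by
    intro s z
    have h1 : ∏ k, (R k).eval (Real.exp (-(z k - s))) =
        MvPolynomial.eval (fun k => Real.exp (-(z k - s))) F := by
      rw [hF, map_prod]
      exact Finset.prod_congr rfl fun k _ =>
        (eval_ev (fun k => Real.exp (-(z k - s))) k (R k)).symm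
    rw [h1, eval_exp]
    have h2 : (fun k => Real.exp (-(z k))) = fun k => Real.exp (-(z k - 0)) := by
      funext k
      rw [sub_zero]
    rw [h2, eval_exp]
    rw [Finset.sum_subset (supp_T _ F)]
    · refine Finset.sum_congr rfl fun l _ => ?_
      rw [coeff_T, zero_mul, Real.exp_zero]
      ring
    · intro l _ hl
      rw [MvPolynomial.mem_support_iff, not_not] at hl
      rw [hl, zero_mul]
  have hTG : ∀ (s : ℝ) (p : Fin N → E d),
      Integrable (fun x : E d => ∏ k, (R k).eval (Real.exp (-(‖x - p k‖ ^ 2 - s)))) ∧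
      ∫ x : E d, ∏ k, (R k).eval (Real.exp (-(‖x - p k‖ ^ 2 - s))) =
        ∑ l ∈ F.support, F.coeff l * Real.exp (s * nn l) * gv d (DD p) l := by
    intro s p
    have h1 := hg d N p (T (fun l => Real.exp (s * nn l)) F) (by rw [coeff_T, hF0, zero_mul])
    have h2 : (fun x : E d => MvPolynomial.eval (zz p x) (T (fun l => Real.exp (s * nn l)) F)) =
        fun x : E d => ∏ k, (R k).eval (Real.exp (-(‖x - p k‖ ^ 2 - s))) := by
      funext x
      exact hT s fun k => ‖x - p k‖ ^ 2
    rw [h2, val_T] at h1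
    exact h1
  -- the kernel terms
  let A : (Fin N →₀ ℕ) → ((Fin (d + 3) → ℝ) × (ℝ × ℝ)) → ℝ := fun l x =>
    M.W x.2.1 * Real.exp (-∑ i, (l i : ℝ) * hh M ζ i x)
  have hRW := hr (d + 3) N (DD p) (DD q) M ζ hR
  have hA : ∀ l ∈ F.support, Integrable (A l) (mes (d + 3)) := by
    intro l hl
    have h1 := (hRW l (hl0 l hl)).1
    have h2 := h1.const_mul (nn l)⁻¹
    have h3 : (fun x => (nn l)⁻¹ * (M.W x.2.1 * (nn l * Real.exp (-∑ i, (l i : ℝ) *
        hh M ζ i x)))) = A l := by
      funext x
      have h4 := (nn_pos (hl0 l hl)).ne'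
      simp only [A]
      field_simp
    rw [h3] at h2
    exact h2
  have hmw : ∀ l ∈ F.support, mw (1 + (d : ℝ) / 2) (DD p) (DD q) l =
      Real.pi ^ (-((d : ℝ) / 2 + 2)) * (nn l * ∫ x, A l x ∂(mes (d + 3))) := by
    intro l hl
    have h1 := (hRW l (hl0 l hl)).2
    have e1 : ((((d + 3 : ℕ) : ℝ)) - 1) / 2 = 1 + (d : ℝ) / 2 := by
      push_cast
      ring
    have e2 : ((((d + 3 : ℕ) : ℝ)) + 1) / 2 = (d : ℝ) / 2 + 2 := by
      push_cast
      ring
    rw [e1, e2] at h1
    rw [h1]
    congr 1
    rw [← integral_const_mul]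
    refine integral_congr_ae (Eventually.of_forall fun x => ?_)
    simp only [A]
    ring
  -- the kernel integrand
  have hP : ∀ i j, i ≠ j → ∀ y : ℝ × ((Fin (d + 3) → ℝ) × (ℝ × ℝ)),
      M.W y.2.2.1 * Pij (fun k h => (R k).eval (Real.exp (-h)))
        (fun k h => -(Real.exp (-h) * (Polynomial.derivative (R k)).eval (Real.exp (-h)))) i j
        (fun k => hh M ζ k y.2 - y.1) =
      ∑ l ∈ F.support, (l i * l j * F.coeff l) * (Real.exp (y.1 * nn l) * A l y.2) := by
    intro i j hij y
    rw [Pij_eq R hij (fun k => hh M ζ k y.2) y.1, Finset.mul_sum]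
    refine Finset.sum_congr rfl fun l _ => ?_
    simp only [A]
    ring
  have hI : ∀ l ∈ F.support, ∀ (a : ℝ → ℝ), Integrable (fun s => a s * Real.exp (s * nn l)) →
      Integrable (fun y : ℝ × ((Fin (d + 3) → ℝ) × (ℝ × ℝ)) =>
        (a y.1 * Real.exp (y.1 * nn l)) * A l y.2)
        ((volume : Measure ℝ).prod (mes (d + 3))) := by
    intro l hl a ha
    exact ha.mul_prod (hA l hl)
  have hce : ∀ n : ℝ, Continuous fun s : ℝ => Real.exp (s * n) := by
    intro n
    fun_prop
  refine ⟨fun s => ⟨(hTG s p).1, (hTG s q).1⟩, ?_, ?_⟩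
  · intro i j hij
    have h1 : (fun y : ℝ × ((Fin (d + 3) → ℝ) × (ℝ × ℝ)) =>
        κ1 y.1 * (M.W y.2.2.1 * Pij (fun k h => (R k).eval (Real.exp (-h)))
        (fun k h => -(Real.exp (-h) * (Polynomial.derivative (R k)).eval (Real.exp (-h)))) i j
        (fun k => hh M ζ k y.2 - y.1))) =
        fun y => ∑ l ∈ F.support, (l i * l j * F.coeff l) *
          ((κ1 y.1 * Real.exp (y.1 * nn l)) * A l y.2) := by
      funext y
      rw [hP i j hij y, Finset.mul_sum]
      exact Finset.sum_congr rfl fun l _ => by ring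
    rw [h1]
    refine integrable_finsetSum _ fun l hl => ?_
    exact (hI l hl κ1 (kap_int1 hK (hce _))).const_mul _
  · -- the identity
    let K : (Fin N →₀ ℕ) → ℝ := fun l => ∫ s, κ s * Real.exp (s * nn l)
    have hleft : ∀ p : Fin N → E d, ∫ s, κ s * ∫ x : E d, ∏ k, (R k).eval
        (Real.exp (-(‖x - p k‖ ^ 2 - s))) = val d (DD p) (T K F) := by
      intro p
      rw [val_T]
      have h1 : (fun s => κ s * ∫ x : E d, ∏ k, (R k).eval
          (Real.exp (-(‖x - p k‖ ^ 2 - s)))) = fun s => ∑ l ∈ F.support,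
            (F.coeff l * gv d (DD p) l) * (κ s * Real.exp (s * nn l)) := by
        funext s
        rw [(hTG s p).2, Finset.mul_sum]
        exact Finset.sum_congr rfl fun l _ => by ring
      rw [h1, integral_finsetSum]
      · refine Finset.sum_congr rfl fun l _ => ?_
        rw [integral_const_mul]
        simp only [K]
        ring
      · intro l _
        exact (kap_int hK (hce _)).const_mul _
    have hright : ∀ i j, i ≠ j → ∫ y, -(κ1 y.1) * (M.W y.2.2.1 *
        Pij (fun k h => (R k).eval (Real.exp (-h)))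
        (fun k h => -(Real.exp (-h) * (Polynomial.derivative (R k)).eval (Real.exp (-h)))) i j
        (fun k => hh M ζ k y.2 - y.1)) ∂((volume : Measure ℝ).prod (mes (d + 3))) =
        Real.pi ^ ((d : ℝ) / 2 + 2) * LL (1 + (d : ℝ) / 2) (DD p) (DD q)
          (MvPolynomial.X i * MvPolynomial.X j *
            MvPolynomial.pderiv i (MvPolynomial.pderiv j (T K F))) := by
      intro i j hij
      have h1 : (fun y : ℝ × ((Fin (d + 3) → ℝ) × (ℝ × ℝ)) =>
          -(κ1 y.1) * (M.W y.2.2.1 * Pij (fun k h => (R k).eval (Real.exp (-h)))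
          (fun k h => -(Real.exp (-h) * (Polynomial.derivative (R k)).eval (Real.exp (-h)))) i j
          (fun k => hh M ζ k y.2 - y.1))) =
          fun y => ∑ l ∈ F.support, (l i * l j * F.coeff l) *
            ((-(κ1 y.1) * Real.exp (y.1 * nn l)) * A l y.2) := by
        funext y
        rw [hP i j hij y, Finset.mul_sum]
        exact Finset.sum_congr rfl fun l _ => by ring
      have hneg : ∀ l : Fin N →₀ ℕ, Integrable (fun s => -(κ1 s) * Real.exp (s * nn l)) := by
        intro l
        have h2 := (kap_int1 hK (hce (nn l))).neg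
        refine h2.congr (Eventually.of_forall fun s => ?_)
        simp only [Pi.neg_apply]
        ring
      rw [h1, integral_finsetSum, LL_T _ _ _ K F hij, Finset.mul_sum]
      · refine Finset.sum_congr rfl fun l hl => ?_
        rw [integral_const_mul, integral_prod_mul (fun s => -(κ1 s) * Real.exp (s * nn l)) (A l),
          kap_parts hK, hmw l hl]
        have h3 : Real.pi ^ ((d : ℝ) / 2 + 2) * Real.pi ^ (-((d : ℝ) / 2 + 2)) = 1 := by
          rw [← Real.rpow_add Real.pi_pos, add_neg_cancel, Real.rpow_zero]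
        calc _ = (l i * l j * F.coeff l) * (K l * (1 * (nn l * ∫ x, A l x ∂(mes (d + 3))))) := by
              simp only [K]
              ring
          _ = _ := by
              rw [← h3]
              ring
      · intro l hl
        exact (hI l hl (fun s => -(κ1 s)) (hneg l)).const_mul _
    have hdiff := hd d N (DD p) (DD q) (fun i => by simp [DD]) (fun i => by simp [DD]) (T K F)
      (by rw [coeff_T, hF0, zero_mul])
    have h5 : (∫ s, κ s * ∫ x : E d, ∏ k, (R k).eval (Real.exp (-(‖x - q k‖ ^ 2 - s)))) -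
        (∫ s, κ s * ∫ x : E d, ∏ k, (R k).eval (Real.exp (-(‖x - p k‖ ^ 2 - s)))) =
        (1 / Real.pi ^ 2) * ((1 / 2) * ∑ i, ∑ j ∈ Finset.univ.erase i, (DD p i j - DD q i j) *
        ∫ y, -(κ1 y.1) * (M.W y.2.2.1 *
        Pij (fun k h => (R k).eval (Real.exp (-h)))
        (fun k h => -(Real.exp (-h) * (Polynomial.derivative (R k)).eval (Real.exp (-h)))) i j
        (fun k => hh M ζ k y.2 - y.1)) ∂((volume : Measure ℝ).prod (mes (d + 3)))) := by
      rw [hleft p, hleft q, hdiff]
      have h6 : ∀ i, ∑ j, (DD p i j - DD q i j) * LL (1 + (d : ℝ) / 2) (DD p) (DD q)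
          (MvPolynomial.X i * MvPolynomial.X j *
            MvPolynomial.pderiv i (MvPolynomial.pderiv j (T K F))) =
          ∑ j ∈ Finset.univ.erase i, (DD p i j - DD q i j) * LL (1 + (d : ℝ) / 2) (DD p) (DD q)
          (MvPolynomial.X i * MvPolynomial.X j *
            MvPolynomial.pderiv i (MvPolynomial.pderiv j (T K F))) := by
        intro i
        rw [← Finset.add_sum_erase _ _ (Finset.mem_univ i)]
        have h7 : DD p i i - DD q i i = 0 := by simp [DD]
        rw [h7, zero_mul, zero_add]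
      have h8 : ∀ i, ∑ j ∈ Finset.univ.erase i, (DD p i j - DD q i j) *
          (∫ y, -(κ1 y.1) * (M.W y.2.2.1 *
          Pij (fun k h => (R k).eval (Real.exp (-h)))
          (fun k h => -(Real.exp (-h) * (Polynomial.derivative (R k)).eval (Real.exp (-h)))) i j
          (fun k => hh M ζ k y.2 - y.1)) ∂((volume : Measure ℝ).prod (mes (d + 3)))) =
          Real.pi ^ ((d : ℝ) / 2 + 2) * ∑ j ∈ Finset.univ.erase i, (DD p i j - DD q i j) *
            LL (1 + (d : ℝ) / 2) (DD p) (DD q) (MvPolynomial.X i * MvPolynomial.X j *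
              MvPolynomial.pderiv i (MvPolynomial.pderiv j (T K F))) := by
        intro i
        rw [Finset.mul_sum]
        refine Finset.sum_congr rfl fun j hj => ?_
        rw [hright i j (Finset.ne_of_mem_erase hj).symm]
        ring
      rw [Finset.sum_congr rfl fun i _ => h6 i, Finset.sum_congr rfl fun i _ => h8 i,
        ← Finset.mul_sum]
      have h9 : Real.pi ^ ((d : ℝ) / 2 + 2) = Real.pi ^ ((d : ℝ) / 2) * Real.pi ^ 2 := by
        rw [Real.rpow_add Real.pi_pos]
        norm_num
      rw [h9]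
      have h10 : Real.pi ^ 2 ≠ 0 := pow_ne_zero 2 Real.pi_pos.ne'
      field_simp
    exact h5

end Pool.Agent.Lib.MP_0c1c75_co.KA
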