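import Pool.Agent.Lib.MP_0c1c75_co.KA.Spec

set_option autoImplicit false

/-!
# Theorem A, module Level: the inequality for the level sets, `a* ≠ 0, 1`
-/

open MeasureTheory Set Filter Topology
open scoped RealInnerProductSpace

namespace Pool.Agent.Lib.MP_0c1c75_co.KA

open Pool.Agent.Lib.MP_0c1c75_co.KG

namespace LevelAux

variable {d N : ℕ}

/-- open level sets -/
def A (p : Fin N → E d) (τ : Fin N → ℝ) (s : ℝ) : Set (E d) :=
  {x | ∀ k, ‖x - p k‖ ^ 2 < τ k + s}

/-- closed level sets -/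
def B (p : Fin N → E d) (τ : Fin N → ℝ) (s : ℝ) : Set (E d) :=
  {x | ∀ k, ‖x - p k‖ ^ 2 ≤ τ k + s}

/-- the exponents -/
noncomputable def gam (n : ℕ) : ℝ := 1 / (((n + 1 : ℕ) : ℝ) + 1)

theorem gam_pos (n : ℕ) : 0 < gam n := by
  unfold gam; positivity

theorem gam_lt (n : ℕ) : gam n < 1 := by
  unfold gam
  rw [div_lt_one (by positivity)]
  have : (0 : ℝ) < ((n + 1 : ℕ) : ℝ) := by positivity
  linarith

theorem gam_lim : Tendsto gam atTop (𝓝 0) :=
  (tendsto_one_div_add_atTop_nhds_zero_nat (𝕜 := ℝ)).comp (tendsto_add_atTop_nat 1)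

theorem fg_nonneg (γ : ℝ) (y : Fin N → ℝ) : 0 ≤ Fg γ y := by
  unfold Fg
  split_ifs with h
  · exact Real.rpow_nonneg (Finset.sum_nonneg fun k _ => (inv_pos.2 (h k)).le) _
  · exact le_rfl

theorem fg_zero (γ : ℝ) (y : Fin N → ℝ) (k : Fin N) (h : ¬ 0 < y k) : Fg γ y = 0 := by
  unfold Fg
  rw [if_neg]
  exact fun h' => h (h' k)

theorem fg_le (γ : ℝ) (h0 : 0 < γ) (h1 : γ < 1) (y : Fin N → ℝ) (k0 : Fin N) :
    Fg γ y ≤ max 1 (y k0) := by
  by_cases h : ∀ k, 0 < y k
  · unfold Fg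
    rw [if_pos h]
    have hS : (y k0)⁻¹ ≤ ∑ k, (y k)⁻¹ :=
      Finset.single_le_sum (f := fun k => (y k)⁻¹) (fun k _ => (inv_pos.2 (h k)).le)
        (Finset.mem_univ k0)
    calc (∑ k, (y k)⁻¹) ^ (-γ) ≤ ((y k0)⁻¹) ^ (-γ) :=
          Real.rpow_le_rpow_of_nonpos (inv_pos.2 (h k0)) hS (by linarith)
      _ = (y k0) ^ γ := by
          rw [Real.inv_rpow (h k0).le, Real.rpow_neg (h k0).le, inv_inv]
      _ ≤ max 1 (y k0) := by
          rcases le_total (y k0) 1 with h' | h'
          · exact (Real.rpow_le_one (h k0).le h' h0.le).trans (le_max_left _ _)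
          · have h2 := Real.rpow_le_rpow_of_exponent_le h' h1.le
            rw [Real.rpow_one] at h2
            exact h2.trans (le_max_right _ _)
  · unfold Fg
    rw [if_neg h]
    exact le_trans zero_le_one (le_max_left _ _)

open Classical in
theorem fg_lim (hN : 0 < N) (y : Fin N → ℝ) :
    Tendsto (fun n : ℕ => Fg (gam n) y) atTop (𝓝 (if ∀ k, 0 < y k then (1 : ℝ) else 0)) := by
  by_cases h : ∀ k, 0 < y k
  · rw [if_pos h]
    have e : (fun n : ℕ => Fg (gam n) y) = fun n => (∑ k, (y k)⁻¹) ^ (-(gam n)) := by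
      funext n
      unfold Fg
      rw [if_pos h]
    rw [e]
    have hS : (0 : ℝ) < ∑ k, (y k)⁻¹ :=
      Finset.sum_pos (fun k _ => inv_pos.2 (h k)) ⟨⟨0, hN⟩, Finset.mem_univ _⟩
    have h1 := (tendsto_const_nhds (x := ∑ k, (y k)⁻¹)).rpow gam_lim.neg (Or.inl hS.ne')
    rwa [neg_zero, Real.rpow_zero] at h1
  · rw [if_neg h]
    have e : (fun n : ℕ => Fg (gam n) y) = fun _ => (0 : ℝ) := by
      funext n
      unfold Fg
      rw [if_neg h]
    rw [e]
    exact tendsto_const_nhds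

theorem fg_meas (γ : ℝ) : Measurable (fun y : Fin N → ℝ => Fg γ y) := by
  unfold Fg
  refine Measurable.ite ?_ ?_ measurable_const
  · have e : {y : Fin N → ℝ | ∀ k, 0 < y k} = ⋂ k, {y : Fin N → ℝ | 0 < y k} := by
      ext y; simp
    rw [e]
    exact MeasurableSet.iInter fun k => measurableSet_lt measurable_const (measurable_pi_apply k)
  · exact (Finset.measurable_sum _ fun k _ => (measurable_pi_apply k).inv).pow_const _

theorem fg_meas2 (γ : ℝ) (p : Fin N → E d) (τ : Fin N → ℝ) :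
    Measurable (fun y : ℝ × E d => Fg γ (fun k => τ k + y.1 - ‖y.2 - p k‖ ^ 2)) := by
  refine (fg_meas γ).comp (measurable_pi_iff.2 fun k => ?_)
  have hc : Continuous fun y : ℝ × E d => τ k + y.1 - ‖y.2 - p k‖ ^ 2 := by fun_prop
  exact hc.measurable

/-- the dominating function -/
noncomputable def gg (p : Fin N → E d) (τ : Fin N → ℝ) (k0 : Fin N) (S : ℝ) : E d → ℝ :=
  (Metric.closedBall (p k0) (Real.sqrt (τ k0 + S))).indicator fun _ => max 1 (τ k0 + S)

theorem gg_int (p : Fin N → E d) (τ : Fin N → ℝ) (k0 : Fin N) (S : ℝ) :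
    Integrable (gg p τ k0 S) := by
  unfold gg
  rw [integrable_indicator_iff Metric.isClosed_closedBall.measurableSet]
  exact integrableOn_const (measure_closedBall_lt_top).ne

theorem mem_ball (p : Fin N → E d) (τ : Fin N → ℝ) (k0 : Fin N) {s S : ℝ} (hs : s ≤ S) (x : E d)
    (hx : 0 < τ k0 + s - ‖x - p k0‖ ^ 2) :
    x ∈ Metric.closedBall (p k0) (Real.sqrt (τ k0 + S)) := by
  rw [mem_closedBall_iff_norm]
  exact Real.le_sqrt_of_sq_le (by linarith)

theorem fg_bd (p : Fin N → E d) (τ : Fin N → ℝ) (k0 : Fin N) {s S : ℝ} (hs : s ≤ S) (n : ℕ)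
    (x : E d) :
    ‖Fg (gam n) (fun k => τ k + s - ‖x - p k‖ ^ 2)‖ ≤ gg p τ k0 S x := by
  rw [Real.norm_of_nonneg (fg_nonneg _ _)]
  by_cases hx : 0 < τ k0 + s - ‖x - p k0‖ ^ 2
  · unfold gg
    rw [indicator_of_mem (mem_ball p τ k0 hs x hx)]
    refine (fg_le _ (gam_pos n) (gam_lt n) _ k0).trans ?_
    refine max_le_max le_rfl ?_
    have := sq_nonneg ‖x - p k0‖
    show τ k0 + s - ‖x - p k0‖ ^ 2 ≤ τ k0 + S
    linarith
  · rw [fg_zero _ _ k0 hx]
    unfold gg
    exact indicator_nonneg (fun _ _ => le_trans zero_le_one (le_max_left _ _)) x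

theorem A_meas (p : Fin N → E d) (τ : Fin N → ℝ) (s : ℝ) : MeasurableSet (A p τ s) := by
  have e : A p τ s = ⋂ k, {x : E d | ‖x - p k‖ ^ 2 < τ k + s} := by
    ext x; simp [A]
  rw [e]
  refine MeasurableSet.iInter fun k => measurableSet_lt ?_ measurable_const
  have hc : Continuous fun x : E d => ‖x - p k‖ ^ 2 := by fun_prop
  exact hc.measurable

theorem B_meas (p : Fin N → E d) (τ : Fin N → ℝ) (s : ℝ) : MeasurableSet (B p τ s) := by
  have e : B p τ s = ⋂ k, {x : E d | ‖x - p k‖ ^ 2 ≤ τ k + s} := by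
    ext x; simp [B]
  rw [e]
  refine MeasurableSet.iInter fun k => measurableSet_le ?_ measurable_const
  have hc : Continuous fun x : E d => ‖x - p k‖ ^ 2 := by fun_prop
  exact hc.measurable

theorem A_sub_B (p : Fin N → E d) (τ : Fin N → ℝ) {s t : ℝ} (h : s ≤ t) :
    A p τ s ⊆ B p τ t := fun x hx k => by
  have := hx k
  linarith

theorem B_sub_A (p : Fin N → E d) (τ : Fin N → ℝ) {s t : ℝ} (h : s < t) :
    B p τ s ⊆ A p τ t := fun x hx k => by
  have := hx k
  show ‖x - p k‖ ^ 2 < τ k + t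
  linarith

theorem B_fin (p : Fin N → E d) (τ : Fin N → ℝ) (k0 : Fin N) (s : ℝ) :
    volume (B p τ s) < ⊤ := by
  have h1 : B p τ s ⊆ Metric.closedBall (p k0) (Real.sqrt (τ k0 + s)) := fun x hx => by
    rw [mem_closedBall_iff_norm]
    exact Real.le_sqrt_of_sq_le (hx k0)
  exact lt_of_le_of_lt (measure_mono h1) measure_closedBall_lt_top

theorem A_fin (p : Fin N → E d) (τ : Fin N → ℝ) (k0 : Fin N) (s : ℝ) :
    volume (A p τ s) < ⊤ :=
  lt_of_le_of_lt (measure_mono (A_sub_B p τ le_rfl)) (B_fin p τ k0 s)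

theorem A_mono (p : Fin N → E d) (τ : Fin N → ℝ) (k0 : Fin N) :
    Monotone fun s => (volume (A p τ s)).toReal := fun s t hst => by
  refine ENNReal.toReal_mono (A_fin p τ k0 t).ne (measure_mono fun x hx k => ?_)
  have := hx k
  show ‖x - p k‖ ^ 2 < τ k + t
  linarith

theorem inner_lim (hN : 0 < N) (p : Fin N → E d) (τ : Fin N → ℝ) (s : ℝ) :
    Tendsto (fun n : ℕ => ∫ x : E d, Fg (gam n) (fun k => τ k + s - ‖x - p k‖ ^ 2)) atTop
      (𝓝 (volume (A p τ s)).toReal) := by
  classical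
  have e : (volume (A p τ s)).toReal = ∫ x, (A p τ s).indicator (fun _ => (1 : ℝ)) x := by
    rw [integral_indicator (A_meas p τ s)]
    simp [Measure.real]
  rw [e]
  refine tendsto_integral_of_dominated_convergence (gg p τ ⟨0, hN⟩ s) ?_
    (gg_int p τ ⟨0, hN⟩ s) ?_ ?_
  · intro n
    exact ((fg_meas2 (gam n) p τ).comp measurable_prodMk_left).aestronglyMeasurable
  · intro n
    exact Eventually.of_forall fun x => fg_bd p τ ⟨0, hN⟩ le_rfl n x
  · refine Eventually.of_forall fun x => ?_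
    have h := fg_lim hN (fun k => τ k + s - ‖x - p k‖ ^ 2)
    have e2 : (A p τ s).indicator (fun _ => (1 : ℝ)) x =
        if ∀ k, 0 < τ k + s - ‖x - p k‖ ^ 2 then (1 : ℝ) else 0 := by
      rw [indicator_apply]
      refine if_congr ?_ rfl rfl
      exact forall_congr' fun k => sub_pos.symm
    rw [e2]
    convert h using 2

theorem kap_int {κ κ1 : ℝ → ℝ} (hκ : Kap κ κ1) : Integrable κ := by
  obtain ⟨hd, -, S, hS⟩ := hκ
  have hc : Continuous κ := continuous_iff_continuousAt.2 fun s => (hd s).continuousAt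
  refine hc.integrable_of_hasCompactSupport
    (HasCompactSupport.intro (isCompact_Icc (a := -S) (b := S)) fun s hs => hS s ?_)
  by_contra h
  push Not at h
  exact hs ⟨(abs_lt.1 h).1.le, (abs_lt.1 h).2.le⟩

theorem outer_lim (hN : 0 < N) (p : Fin N → E d) (τ : Fin N → ℝ) {κ κ1 : ℝ → ℝ}
    (hκ : Kap κ κ1) :
    Tendsto (fun n : ℕ => ∫ s, κ s * ∫ x : E d, Fg (gam n) (fun k => τ k + s - ‖x - p k‖ ^ 2))
      atTop (𝓝 (∫ s, κ s * (volume (A p τ s)).toReal)) := by
  have hi := kap_int hκ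
  obtain ⟨hd, -, S, hS⟩ := hκ
  refine tendsto_integral_of_dominated_convergence
    (fun s => ‖κ s‖ * ∫ x, gg p τ ⟨0, hN⟩ S x) ?_ (hi.norm.mul_const _) ?_ ?_
  · intro n
    refine hi.aestronglyMeasurable.mul ?_
    exact ((fg_meas2 (gam n) p τ).stronglyMeasurable.integral_prod_right).aestronglyMeasurable
  · intro n
    refine Eventually.of_forall fun s => ?_
    by_cases h : S ≤ |s|
    · rw [hS s h, zero_mul, norm_zero, zero_mul]
    · rw [norm_mul]
      refine mul_le_mul_of_nonneg_left ?_ (norm_nonneg _)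
      exact norm_integral_le_of_norm_le (gg_int p τ ⟨0, hN⟩ S)
        (Eventually.of_forall fun x =>
          fg_bd p τ ⟨0, hN⟩ ((le_abs_self s).trans (not_le.1 h).le) n x)
  · exact Eventually.of_forall fun s => (inner_lim hN p τ s).const_mul _

theorem vol_int (p : Fin N → E d) (τ : Fin N → ℝ) (k0 : Fin N) {κ κ1 : ℝ → ℝ}
    (hκ : Kap κ κ1) : Integrable fun s => κ s * (volume (A p τ s)).toReal := by
  have hi := kap_int hκ
  obtain ⟨hd, -, S, hS⟩ := hκ
  refine (hi.norm.mul_const (volume (A p τ S)).toReal).mono' ?_ ?_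
  · exact hi.aestronglyMeasurable.mul (A_mono p τ k0).measurable.aestronglyMeasurable
  · refine Eventually.of_forall fun s => ?_
    by_cases h : S ≤ |s|
    · rw [hS s h, zero_mul, norm_zero, zero_mul]
    · rw [norm_mul, Real.norm_of_nonneg ENNReal.toReal_nonneg]
      exact mul_le_mul_of_nonneg_left
        (A_mono p τ k0 ((le_abs_self s).trans (not_le.1 h).le)) (norm_nonneg _)

end LevelAux

open LevelAux

/-- Module Level. -/
theorem levelStmt (hb : BoundStmt) (hmel : MellinStmt) (hray : RayStmt) : LevelStmt := by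
  intro d N p q M ζ Ys as hs hC hR h0 h1
  have _ := hb
  rcases Nat.eq_zero_or_pos N with hN | hN
  · subst hN
    have e : ∀ u : Fin 0 → E d, {x : E d | ∀ k, ‖x - u k‖ ^ 2 ≤ lev M ζ Ys as hs k} = univ := by
      intro u
      ext x
      simp
    rw [e p, e q]
  set τ := lev M ζ Ys as hs with hτ
  -- the averaged inequality
  have key : ∀ κ κ1 : ℝ → ℝ, Kap κ κ1 → (∀ s, 0 ≤ κ s) →
      ∫ s, κ s * (volume (A p τ s)).toReal ≤ ∫ s, κ s * (volume (A q τ s)).toReal := by
    intro κ κ1 hκ hκ0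
    refine le_of_tendsto_of_tendsto' (outer_lim hN p τ hκ) (outer_lim hN q τ hκ) fun n => ?_
    have hm := hmel d N p q M ζ κ κ1 hN hR hκ τ (gam n) (gam_pos n) (gam_lt n)
    rw [← sub_nonneg, hm]
    have hg := gam_pos n
    refine mul_nonneg (by positivity) (mul_nonneg (by norm_num) ?_)
    refine Finset.sum_nonneg fun i _ => Finset.sum_nonneg fun j hj => ?_
    have hij : i ≠ j := (Finset.ne_of_mem_erase hj).symm
    have hD : 0 ≤ DD p i j - DD q i j := by
      have h2 := hC i j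
      rw [dist_eq_norm, dist_eq_norm] at h2
      unfold DD
      have := pow_le_pow_left₀ (norm_nonneg _) h2 2
      linarith
    rcases hD.lt_or_eq with h2 | h2
    · refine mul_nonneg hD (hray (d + 3) N M ζ Ys as hs h0 h1 κ κ1 hκ hκ0 (gam n) (gam_pos n)
        (gam_lt n) i j hij ?_)
      intro hζ
      rw [hR.1 i j, hR.2 i j, hζ] at h2
      simp at h2
    · rw [← h2, zero_mul]
  -- one shift
  have step : ∀ δ : ℝ, 0 < δ → (volume (B p τ 0)).toReal ≤ (volume (B q τ δ)).toReal := by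
    intro δ hδ
    let f : ContDiffBump (δ / 2 : ℝ) := ⟨δ / 8, δ / 4, by positivity, by linarith⟩
    have hf0 : ∀ s, f s ≠ 0 → 0 < s ∧ s < δ := by
      intro s hs
      by_contra hcon
      apply hs
      refine f.zero_of_le_dist ?_
      show δ / 4 ≤ dist s (δ / 2)
      rw [Real.dist_eq]
      by_contra h3
      push Not at h3
      rw [abs_lt] at h3
      exact hcon ⟨by linarith, by linarith⟩
    have hK : Kap f (deriv f) := by
      refine ⟨fun s => ?_, ?_, δ, fun s hs => ?_⟩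
      · exact ((f.contDiff (n := 1)).differentiable (by norm_num) s).hasDerivAt
      · exact (f.contDiff (n := 1)).continuous_deriv (by norm_num)
      · by_contra h3
        have h4 := hf0 s h3
        rw [abs_of_pos h4.1] at hs
        linarith
    have hfn : ∀ s, 0 ≤ f s := fun s => f.nonneg
    have hfi : 0 < ∫ s, f s := f.integral_pos
    have hk := key f (deriv f) hK hfn
    have hlow : (∫ s, f s) * (volume (B p τ 0)).toReal ≤
        ∫ s, f s * (volume (A p τ s)).toReal := by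
      rw [← integral_mul_const]
      refine integral_mono ((kap_int hK).mul_const _) (vol_int p τ ⟨0, hN⟩ hK) fun s => ?_
      show f s * (volume (B p τ 0)).toReal ≤ f s * (volume (A p τ s)).toReal
      by_cases h3 : f s = 0
      · rw [h3, zero_mul, zero_mul]
      · exact mul_le_mul_of_nonneg_left (ENNReal.toReal_mono (A_fin p τ ⟨0, hN⟩ s).ne
          (measure_mono (B_sub_A p τ (hf0 s h3).1))) (hfn s)
    have hup : ∫ s, f s * (volume (A q τ s)).toReal ≤
        (∫ s, f s) * (volume (B q τ δ)).toReal := by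
      rw [← integral_mul_const]
      refine integral_mono (vol_int q τ ⟨0, hN⟩ hK) ((kap_int hK).mul_const _) fun s => ?_
      show f s * (volume (A q τ s)).toReal ≤ f s * (volume (B q τ δ)).toReal
      by_cases h3 : f s = 0
      · rw [h3, zero_mul, zero_mul]
      · exact mul_le_mul_of_nonneg_left (ENNReal.toReal_mono (B_fin q τ ⟨0, hN⟩ δ).ne
          (measure_mono (A_sub_B q τ (hf0 s h3).2.le))) (hfn s)
    exact le_of_mul_le_mul_left ((hlow.trans hk).trans hup) hfi
  have e : ∀ u : Fin N → E d, {x : E d | ∀ k, ‖x - u k‖ ^ 2 ≤ τ k} = B u τ 0 := by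
    intro u
    ext x
    simp [B]
  rw [e p, e q]
  -- the limit
  have hB : B q τ 0 = ⋂ n : ℕ, B q τ (1 / ((n : ℝ) + 1)) := by
    ext x
    rw [mem_iInter]
    constructor
    · intro hx n k
      have h2 := hx k
      have h3 : (0 : ℝ) ≤ 1 / ((n : ℝ) + 1) := by positivity
      show ‖x - q k‖ ^ 2 ≤ τ k + 1 / ((n : ℝ) + 1)
      linarith
    · intro hx k
      have h2 : Tendsto (fun n : ℕ => τ k + 1 / ((n : ℝ) + 1)) atTop (𝓝 (τ k + 0)) :=
        tendsto_const_nhds.add (tendsto_one_div_add_atTop_nhds_zero_nat (𝕜 := ℝ))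
      exact ge_of_tendsto' h2 fun n => hx n k
  have hanti : Antitone fun n : ℕ => B q τ (1 / ((n : ℝ) + 1)) := by
    intro m n hmn x hx k
    have h2 := hx k
    have h3 : (1 : ℝ) / ((n : ℝ) + 1) ≤ 1 / ((m : ℝ) + 1) :=
      one_div_le_one_div_of_le (by positivity) (by
        have : (m : ℝ) ≤ n := by exact_mod_cast hmn
        linarith)
    show ‖x - q k‖ ^ 2 ≤ τ k + 1 / ((m : ℝ) + 1)
    linarith
  have hlim : Tendsto (fun n : ℕ => volume (B q τ (1 / ((n : ℝ) + 1)))) atTop
      (𝓝 (volume (B q τ 0))) := by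
    rw [hB]
    exact tendsto_measure_iInter_atTop (fun n => (B_meas q τ _).nullMeasurableSet) hanti
      ⟨0, (B_fin q τ ⟨0, hN⟩ _).ne⟩
  refine ge_of_tendsto' hlim fun n => ?_
  rw [← ENNReal.toReal_le_toReal (B_fin p τ ⟨0, hN⟩ 0).ne (B_fin q τ ⟨0, hN⟩ _).ne]
  exact step _ (by positivity)

end Pool.Agent.Lib.MP_0c1c75_co.KA
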