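import Pool.Agent.Lib.MP_0c1c75_co.KA.Spec

/-!
# Theorem A, module Mellin: from `C¹` functions to the homogeneous function `F`
-/

set_option autoImplicit false

open MeasureTheory Set Filter Topology

namespace Pool.Agent.Lib.MP_0c1c75_co.KA

open Pool.Agent.Lib.MP_0c1c75_co.KG

namespace MellinAux

private instance mes_sfinite (m : ℕ) : SFinite (mes m) := by
  unfold mes
  infer_instance

/-- Gamma integral -/
private lemma gam (α S : ℝ) (hα : 0 < α) (hS : 0 < S) :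
    IntegrableOn (fun ε : ℝ => ε ^ (α - 1) * Real.exp (-(ε * S))) (Ioi 0) ∧
    ∫ ε in Ioi (0 : ℝ), ε ^ (α - 1) * Real.exp (-(ε * S)) = Real.Gamma α * S ^ (-α) := by
  constructor
  · have h1 := integrableOn_rpow_mul_exp_neg_mul_rpow (s := α - 1) (p := 1) (b := S)
      (by linarith) one_pos hS
    refine h1.congr_fun ?_ measurableSet_Ioi
    intro x _
    simp only [Real.rpow_one]
    congr 2
    ring
  · have h1 := Real.integral_rpow_mul_exp_neg_mul_Ioi hα hS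
    rw [one_div, Real.inv_rpow hS.le, ← Real.rpow_neg hS.le, mul_comm (S ^ (-α))] at h1
    rw [← h1]
    refine setIntegral_congr_fun measurableSet_Ioi fun x _ => ?_
    simp only [mul_comm x S]

/-- Mellin transform under an integral -/
private lemma mel {Z : Type*} [MeasurableSpace Z] (μ : Measure Z) [SFinite μ] (α : ℝ)
    (hα : 0 < α) (A S : Z → ℝ) (hA : Measurable A) (hS : Measurable S)
    (hAS : ∀ z, A z ≠ 0 → 0 < S z) (hB : Integrable (fun z => A z * S z ^ (-α)) μ) :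
    Integrable (fun w : ℝ × Z => w.1 ^ (α - 1) * (A w.2 * Real.exp (-(w.1 * S w.2))))
      ((volume.restrict (Ioi (0 : ℝ))).prod μ) ∧
    Integrable (fun ε : ℝ => ε ^ (α - 1) * ∫ z, A z * Real.exp (-(ε * S z)) ∂μ)
      (volume.restrict (Ioi (0 : ℝ))) ∧
    ∫ ε in Ioi (0 : ℝ), ε ^ (α - 1) * ∫ z, A z * Real.exp (-(ε * S z)) ∂μ =
      Real.Gamma α * ∫ z, A z * S z ^ (-α) ∂μ := by
  have hmeas : AEStronglyMeasurable
      (fun w : ℝ × Z => w.1 ^ (α - 1) * (A w.2 * Real.exp (-(w.1 * S w.2))))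
      ((volume.restrict (Ioi (0 : ℝ))).prod μ) :=
    ((measurable_fst.pow_const (α - 1)).mul ((hA.comp measurable_snd).mul
      (Real.measurable_exp.comp
        (measurable_fst.mul (hS.comp measurable_snd)).neg))).aestronglyMeasurable
  have hin : ∀ z, Integrable (fun ε : ℝ => ε ^ (α - 1) * (A z * Real.exp (-(ε * S z))))
      (volume.restrict (Ioi (0 : ℝ))) ∧
      ∫ ε in Ioi (0 : ℝ), ε ^ (α - 1) * (A z * Real.exp (-(ε * S z))) =
        Real.Gamma α * (A z * S z ^ (-α)) ∧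
      ∫ ε in Ioi (0 : ℝ), ‖ε ^ (α - 1) * (A z * Real.exp (-(ε * S z)))‖ =
        Real.Gamma α * ‖A z * S z ^ (-α)‖ := by
    intro z
    by_cases hz : A z = 0
    · simp [hz]
    · have hSz := hAS z hz
      obtain ⟨g1, g2⟩ := gam α (S z) hα hSz
      have e1 : (fun ε : ℝ => ε ^ (α - 1) * (A z * Real.exp (-(ε * S z)))) =
          fun ε : ℝ => A z * (ε ^ (α - 1) * Real.exp (-(ε * S z))) := by
        funext ε
        ring
      refine ⟨?_, ?_, ?_⟩
      · rw [e1]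
        exact g1.const_mul (A z)
      · rw [e1, integral_const_mul, g2]
        ring
      · have e2 : ∀ ε ∈ Ioi (0 : ℝ), ‖ε ^ (α - 1) * (A z * Real.exp (-(ε * S z)))‖ =
            |A z| * (ε ^ (α - 1) * Real.exp (-(ε * S z))) := by
          intro ε hε
          have h1 : (0 : ℝ) ≤ ε ^ (α - 1) := Real.rpow_nonneg (le_of_lt hε) _
          rw [Real.norm_eq_abs, abs_mul, abs_mul, abs_of_nonneg h1, Real.abs_exp]
          ring
        rw [setIntegral_congr_fun measurableSet_Ioi e2, integral_const_mul, g2,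
          Real.norm_eq_abs, abs_mul, abs_of_nonneg (Real.rpow_nonneg hSz.le (-α))]
        ring
  have hint : Integrable
      (fun w : ℝ × Z => w.1 ^ (α - 1) * (A w.2 * Real.exp (-(w.1 * S w.2))))
      ((volume.restrict (Ioi (0 : ℝ))).prod μ) := by
    rw [integrable_prod_iff' hmeas]
    refine ⟨Eventually.of_forall fun z => (hin z).1, ?_⟩
    have e : (fun z => ∫ ε in Ioi (0 : ℝ), ‖ε ^ (α - 1) * (A z * Real.exp (-(ε * S z)))‖) =
        fun z => Real.Gamma α * ‖A z * S z ^ (-α)‖ := by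
      funext z
      exact (hin z).2.2
    show Integrable (fun z => ∫ ε in Ioi (0 : ℝ),
      ‖ε ^ (α - 1) * (A z * Real.exp (-(ε * S z)))‖) μ
    rw [e]
    exact hB.norm.const_mul _
  have e3 : ∀ ε : ℝ, ∫ z, ε ^ (α - 1) * (A z * Real.exp (-(ε * S z))) ∂μ =
      ε ^ (α - 1) * ∫ z, A z * Real.exp (-(ε * S z)) ∂μ := fun ε => integral_const_mul _ _
  refine ⟨hint, ?_, ?_⟩
  · have h1 := hint.integral_prod_left
    refine h1.congr (Eventually.of_forall fun ε => ?_)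
    exact e3 ε
  · calc ∫ ε in Ioi (0 : ℝ), ε ^ (α - 1) * ∫ z, A z * Real.exp (-(ε * S z)) ∂μ
        = ∫ ε in Ioi (0 : ℝ), ∫ z, ε ^ (α - 1) * (A z * Real.exp (-(ε * S z))) ∂μ := by
          refine integral_congr_ae (Eventually.of_forall fun ε => ?_)
          exact (e3 ε).symm
      _ = ∫ z, (∫ ε in Ioi (0 : ℝ), ε ^ (α - 1) * (A z * Real.exp (-(ε * S z)))) ∂μ :=
          integral_integral_swap hint
      _ = ∫ z, Real.Gamma α * (A z * S z ^ (-α)) ∂μ := by
          refine integral_congr_ae (Eventually.of_forall fun z => ?_)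
          exact (hin z).2.1
      _ = Real.Gamma α * ∫ z, A z * S z ^ (-α) ∂μ := integral_const_mul _ _

/-! ## The indicator -/

/-- indicator of the positive orthant -/
private noncomputable def chi {N : ℕ} (y : Fin N → ℝ) : ℝ :=
  open Classical in if ∀ k, 0 < y k then 1 else 0

private lemma chi_pos {N : ℕ} {y : Fin N → ℝ} (h : chi y ≠ 0) : ∀ k, 0 < y k := by
  by_contra hc
  apply h
  unfold chi
  rw [if_neg hc]

private lemma chi_meas (N : ℕ) : Measurable (chi : (Fin N → ℝ) → ℝ) := by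
  unfold chi
  refine Measurable.ite ?_ measurable_const measurable_const
  rw [setOf_forall]
  exact MeasurableSet.iInter fun k => measurableSet_lt measurable_const (measurable_pi_apply k)

private lemma chi_le {N : ℕ} (y : Fin N → ℝ) : 0 ≤ chi y ∧ chi y ≤ 1 := by
  unfold chi
  split_ifs <;> norm_num

private lemma fg_eq {N : ℕ} (γ : ℝ) (y : Fin N → ℝ) :
    Fg γ y = chi y * (∑ k, (y k)⁻¹) ^ (-γ) := by
  unfold Fg chi
  split_ifs <;> simp

private lemma fij_eq {N : ℕ} (γ : ℝ) (i j : Fin N) (y : Fin N → ℝ) :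
    Fij γ i j y = chi y * ((y i)⁻¹ * (y j)⁻¹) ^ 2 * (∑ k, (y k)⁻¹) ^ (-(γ + 2)) := by
  unfold Fij chi
  have e : -γ - 2 = -(γ + 2) := by ring
  split_ifs
  · rw [e, one_mul, mul_comm]
  · simp

private lemma prod_glue {N : ℕ} (ε : ℝ) (hε : 0 < ε) (y : Fin N → ℝ) :
    ∏ k, expNegInvGlue (y k / ε) = chi y * Real.exp (-(ε * ∑ k, (y k)⁻¹)) := by
  unfold chi
  split_ifs with h
  · rw [one_mul, Finset.mul_sum, ← Finset.sum_neg_distrib, Real.exp_sum]
    refine Finset.prod_congr rfl fun k _ => ?_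
    have h1 : 0 < y k / ε := div_pos (h k) hε
    rw [expNegInvGlue, if_neg (not_le.mpr h1), inv_div]
    rfl
  · rw [zero_mul]
    push Not at h
    obtain ⟨k, hk⟩ := h
    exact Finset.prod_eq_zero (Finset.mem_univ k)
      (expNegInvGlue.zero_of_nonpos (div_nonpos_of_nonpos_of_nonneg hk hε.le))

/-! ## The test functions -/

private lemma glue_der (τ ε h : ℝ) :
    HasDerivAt (fun h : ℝ => expNegInvGlue ((τ - h) / ε))
      (-(1 / ε) * ((((τ - h) / ε)⁻¹) ^ 2 * expNegInvGlue ((τ - h) / ε))) h := by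
  have h1 : HasDerivAt (fun h : ℝ => (τ - h) / ε) (-(1 / ε)) h := by
    have h2 := ((hasDerivAt_id h).const_sub τ).div_const ε
    refine h2.congr_deriv ?_
    ring
  have h2 := expNegInvGlue.hasDerivAt_polynomial_eval_inv_mul 1 ((τ - h) / ε)
  simp only [Polynomial.eval_one, one_mul, Polynomial.derivative_one, sub_zero, mul_one,
    Polynomial.eval_pow, Polynomial.eval_X] at h2
  have h3 := h2.comp h h1
  refine h3.congr_deriv ?_
  ring

private lemma glue_cont (τ ε : ℝ) :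
    Continuous fun h : ℝ =>
      -(1 / ε) * ((((τ - h) / ε)⁻¹) ^ 2 * expNegInvGlue ((τ - h) / ε)) := by
  have h1 : Continuous fun x : ℝ => (x⁻¹) ^ 2 * expNegInvGlue x := by
    have h2 := (expNegInvGlue.contDiff_polynomial_eval_inv_mul (n := 0)
      (Polynomial.X ^ 2 : Polynomial ℝ)).continuous
    simpa only [Polynomial.eval_pow, Polynomial.eval_X] using h2
  exact continuous_const.mul (h1.comp ((continuous_const.sub continuous_id).div_const ε))

/-! ## Left side -/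

private lemma left_int {d N : ℕ} (q : Fin N → E d) (κ : ℝ → ℝ) (hκ : Continuous κ) (S : ℝ)
    (hS : ∀ s, S ≤ |s| → κ s = 0) (k0 : Fin N) (τ : Fin N → ℝ) (γ : ℝ) (hγ : 0 < γ)
    (hm : Measurable fun z : ℝ × E d => κ z.1 * Fg γ (fun k => τ k + z.1 - ‖z.2 - q k‖ ^ 2)) :
    Integrable (fun z : ℝ × E d => κ z.1 * Fg γ (fun k => τ k + z.1 - ‖z.2 - q k‖ ^ 2)) := by
  obtain ⟨C, hC⟩ : ∃ C, ∀ s ∈ Icc (-|S|) |S|, ‖κ s‖ ≤ C :=
    isCompact_Icc.exists_bound_of_continuousOn hκ.continuousOn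
  have hS' : ∀ s, s ∉ Icc (-|S|) |S| → κ s = 0 := by
    intro s hs
    apply hS
    by_contra hc
    push Not at hc
    apply hs
    rw [mem_Icc, ← abs_le]
    exact hc.le.trans (le_abs_self S)
  obtain ⟨R, hR⟩ : ∃ R, R = |τ k0| + |S| := ⟨_, rfl⟩
  have hR0 : 0 ≤ R := by rw [hR]; positivity
  obtain ⟨K, hK⟩ : ∃ K : Set (ℝ × E d), K = Icc (-|S|) |S| ×ˢ
    Metric.closedBall (q k0) (Real.sqrt R) := ⟨_, rfl⟩
  have hKc : IsCompact K := by
    rw [hK]
    exact isCompact_Icc.prod (isCompact_closedBall _ _)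
  have hy : ∀ z : ℝ × E d, z.1 ∈ Icc (-|S|) |S| → τ k0 + z.1 ≤ R := by
    intro z hz
    rw [hR]
    exact add_le_add (le_abs_self _) hz.2
  have hzero : ∀ z : ℝ × E d, z ∉ K →
      κ z.1 * Fg γ (fun k => τ k + z.1 - ‖z.2 - q k‖ ^ 2) = 0 := by
    intro z hz
    by_cases h1 : z.1 ∈ Icc (-|S|) |S|
    · have h2 : Fg γ (fun k => τ k + z.1 - ‖z.2 - q k‖ ^ 2) = 0 := by
        unfold Fg
        rw [if_neg]
        intro h3
        apply hz
        rw [hK]
        refine ⟨h1, ?_⟩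
        rw [Metric.mem_closedBall, dist_eq_norm]
        apply Real.le_sqrt_of_sq_le
        have h4 := h3 k0
        have h5 := hy z h1
        linarith
      rw [h2, mul_zero]
    · rw [hS' _ h1, zero_mul]
  have hbd : ∀ z : ℝ × E d, ‖κ z.1 * Fg γ (fun k => τ k + z.1 - ‖z.2 - q k‖ ^ 2)‖ ≤
      |C| * R ^ γ := by
    intro z
    by_cases h1 : z.1 ∈ Icc (-|S|) |S|
    · have h2 : 0 ≤ Fg γ (fun k => τ k + z.1 - ‖z.2 - q k‖ ^ 2) ∧
          Fg γ (fun k => τ k + z.1 - ‖z.2 - q k‖ ^ 2) ≤ R ^ γ := by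
        unfold Fg
        split_ifs with h3
        · have h4 : 0 < (τ k0 + z.1 - ‖z.2 - q k0‖ ^ 2)⁻¹ := inv_pos.mpr (h3 k0)
          have h5 : (τ k0 + z.1 - ‖z.2 - q k0‖ ^ 2)⁻¹ ≤
              ∑ k, (τ k + z.1 - ‖z.2 - q k‖ ^ 2)⁻¹ :=
            Finset.single_le_sum (f := fun k => (τ k + z.1 - ‖z.2 - q k‖ ^ 2)⁻¹)
              (fun k _ => (inv_pos.mpr (h3 k)).le) (Finset.mem_univ k0)
          refine ⟨Real.rpow_nonneg (h4.le.trans h5) _, ?_⟩
          have h6 := Real.rpow_le_rpow_of_nonpos h4 h5 (by linarith : -γ ≤ 0)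
          refine h6.trans ?_
          rw [Real.inv_rpow (h3 k0).le, ← Real.rpow_neg (h3 k0).le, neg_neg]
          apply Real.rpow_le_rpow (h3 k0).le _ hγ.le
          have h7 := hy z h1
          have h8 : 0 ≤ ‖z.2 - q k0‖ ^ 2 := by positivity
          linarith
        · exact ⟨le_rfl, Real.rpow_nonneg hR0 _⟩
      rw [norm_mul, Real.norm_eq_abs (Fg _ _), abs_of_nonneg h2.1]
      exact mul_le_mul ((hC _ h1).trans (le_abs_self C)) h2.2 h2.1 (abs_nonneg C)
    · rw [hS' _ h1, zero_mul, norm_zero]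
      exact mul_nonneg (abs_nonneg C) (Real.rpow_nonneg hR0 _)
  have hon : IntegrableOn
      (fun z : ℝ × E d => κ z.1 * Fg γ (fun k => τ k + z.1 - ‖z.2 - q k‖ ^ 2)) K :=
    Measure.integrableOn_of_bounded hKc.measure_lt_top.ne hm.aestronglyMeasurable
      (Eventually.of_forall hbd)
  exact hon.integrable_of_forall_notMem_eq_zero hzero

private lemma left {d N : ℕ} (q : Fin N → E d) (κ : ℝ → ℝ) (hκ : Continuous κ) (S : ℝ)
    (hS : ∀ s, S ≤ |s| → κ s = 0) (hN : 0 < N) (τ : Fin N → ℝ) (γ : ℝ) (hγ : 0 < γ) :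
    Integrable (fun ε : ℝ => ε ^ (γ - 1) * ∫ s, κ s * ∫ x : E d,
      ∏ k, expNegInvGlue ((τ k - (‖x - q k‖ ^ 2 - s)) / ε)) (volume.restrict (Ioi (0 : ℝ))) ∧
    ∫ ε in Ioi (0 : ℝ), ε ^ (γ - 1) * ∫ s, κ s * ∫ x : E d,
      ∏ k, expNegInvGlue ((τ k - (‖x - q k‖ ^ 2 - s)) / ε) =
      Real.Gamma γ * ∫ s, κ s * ∫ x : E d, Fg γ (fun k => τ k + s - ‖x - q k‖ ^ 2) := by
  obtain ⟨y, hy⟩ : ∃ y : ℝ × E d → Fin N → ℝ,
      y = fun z k => τ k + z.1 - ‖z.2 - q k‖ ^ 2 := ⟨_, rfl⟩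
  have hyk : ∀ k, Measurable fun z => y z k := by
    intro k
    rw [hy]
    fun_prop
  have hym : Measurable y := measurable_pi_lambda _ hyk
  obtain ⟨A, hA⟩ : ∃ A : ℝ × E d → ℝ, A = fun z => κ z.1 * chi (y z) := ⟨_, rfl⟩
  obtain ⟨T, hT⟩ : ∃ T : ℝ × E d → ℝ, T = fun z => ∑ k, (y z k)⁻¹ := ⟨_, rfl⟩
  have hAm : Measurable A := by
    rw [hA]
    exact (hκ.measurable.comp measurable_fst).mul ((chi_meas N).comp hym)
  have hTm : Measurable T := by
    rw [hT]
    exact Finset.measurable_sum _ fun k _ => (hyk k).inv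
  have hAT : ∀ z, A z ≠ 0 → 0 < T z := by
    intro z hz
    rw [hA] at hz
    have h1 := chi_pos (right_ne_zero_of_mul hz)
    rw [hT]
    exact Finset.sum_pos (fun k _ => inv_pos.mpr (h1 k)) ⟨⟨0, hN⟩, Finset.mem_univ _⟩
  have hAB : ∀ z, A z * T z ^ (-γ) = κ z.1 * Fg γ (fun k => τ k + z.1 - ‖z.2 - q k‖ ^ 2) := by
    intro z
    rw [fg_eq, hA, hT, hy]
    ring
  have hBm : Measurable fun z : ℝ × E d =>
      κ z.1 * Fg γ (fun k => τ k + z.1 - ‖z.2 - q k‖ ^ 2) := by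
    have h1 : Measurable fun z => A z * T z ^ (-γ) := hAm.mul (hTm.pow_const _)
    rwa [funext hAB] at h1
  have hBI := left_int q κ hκ S hS ⟨0, hN⟩ τ γ hγ hBm
  have hB : Integrable (fun z => A z * T z ^ (-γ)) (volume.prod volume) := by
    rw [funext hAB]
    exact hBI
  obtain ⟨m1, m2, m3⟩ := mel (volume.prod volume : Measure (ℝ × E d)) γ hγ A T hAm hTm hAT hB
  have hcon : ∀ ε : ℝ, 0 < ε → ∀ z : ℝ × E d, A z * Real.exp (-(ε * T z)) =
      κ z.1 * ∏ k, expNegInvGlue ((τ k - (‖z.2 - q k‖ ^ 2 - z.1)) / ε) := by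
    intro ε hε z
    have h1 := prod_glue ε hε (y z)
    have h2 : ∏ k, expNegInvGlue ((τ k - (‖z.2 - q k‖ ^ 2 - z.1)) / ε) =
        ∏ k, expNegInvGlue (y z k / ε) := by
      refine Finset.prod_congr rfl fun k _ => ?_
      rw [hy]
      congr 2
      ring
    rw [h2, h1, hA, hT]
    ring
  have hae : ∀ᵐ ε ∂(volume.restrict (Ioi (0 : ℝ))),
      ε ^ (γ - 1) * ∫ z, A z * Real.exp (-(ε * T z)) ∂(volume.prod volume) =
      ε ^ (γ - 1) * ∫ s, κ s * ∫ x : E d,
        ∏ k, expNegInvGlue ((τ k - (‖x - q k‖ ^ 2 - s)) / ε) := by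
    have h1 := m1.prod_right_ae
    filter_upwards [h1, self_mem_ae_restrict measurableSet_Ioi] with ε h2 hε
    have hε0 : (0 : ℝ) < ε := hε
    have h3 : Integrable (fun z : ℝ × E d => A z * Real.exp (-(ε * T z)))
        (volume.prod volume) := by
      have h4 := h2.const_mul ((ε ^ (γ - 1))⁻¹)
      refine h4.congr (Eventually.of_forall fun z => ?_)
      have h5 : ε ^ (γ - 1) ≠ 0 := (Real.rpow_pos_of_pos hε0 _).ne'
      show (ε ^ (γ - 1))⁻¹ * (ε ^ (γ - 1) * (A z * Real.exp (-(ε * T z)))) = _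
      rw [inv_mul_cancel_left₀ h5]
    rw [integral_prod _ h3]
    congr 1
    refine integral_congr_ae (Eventually.of_forall fun s => ?_)
    show ∫ x : E d, A (s, x) * Real.exp (-(ε * T (s, x))) = κ s * ∫ x : E d,
      ∏ k, expNegInvGlue ((τ k - (‖x - q k‖ ^ 2 - s)) / ε)
    rw [← integral_const_mul]
    refine integral_congr_ae (Eventually.of_forall fun x => ?_)
    exact hcon ε hε0 (s, x)
  refine ⟨m2.congr hae, ?_⟩
  rw [← integral_congr_ae hae, m3]
  congr 1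
  rw [integral_prod _ hB]
  refine integral_congr_ae (Eventually.of_forall fun s => ?_)
  show ∫ x : E d, A (s, x) * T (s, x) ^ (-γ) = κ s * ∫ x : E d,
    Fg γ (fun k => τ k + s - ‖x - q k‖ ^ 2)
  rw [← integral_const_mul]
  refine integral_congr_ae (Eventually.of_forall fun x => ?_)
  exact hAB (s, x)

/-! ## Right side -/

private lemma hh_meas {m N : ℕ} (M : Modes m) (ζ : Fin N → Fin m → ℝ) (i : Fin N) :
    Measurable (hh M ζ i) := by
  have hr : ∀ k, Measurable fun x : (Fin m → ℝ) × (ℝ × ℝ) => M.r k x.2.1 := by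
    intro k
    unfold Modes.r
    fun_prop
  unfold hh
  refine Measurable.add (Finset.measurable_sum _ fun k _ => ?_)
    ((measurable_snd.comp measurable_snd).pow_const 2)
  exact ((((measurable_pi_apply k).comp measurable_fst).sub ((hr k).mul_const _)).pow_const
    2).div (hr k)

private lemma w_meas {m : ℕ} (M : Modes m) : Measurable M.W := by
  unfold Modes.W
  refine Finset.measurable_prod _ fun k _ => Measurable.pow_const ?_ _
  unfold Modes.r
  fun_prop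

private lemma pij_eq {N : ℕ} (τ : Fin N → ℝ) (ε : ℝ) (hε : 0 < ε) (i j : Fin N) (hij : i ≠ j)
    (h : Fin N → ℝ) (s : ℝ) :
    Pij (fun k h => expNegInvGlue ((τ k - h) / ε))
      (fun k h => -(1 / ε) * ((((τ k - h) / ε)⁻¹) ^ 2 * expNegInvGlue ((τ k - h) / ε))) i j
      (fun k => h k - s) =
    ε ^ 2 * (chi (fun k => τ k + s - h k) *
      ((τ i + s - h i)⁻¹ * (τ j + s - h j)⁻¹) ^ 2 *
      Real.exp (-(ε * ∑ k, (τ k + s - h k)⁻¹))) := by
  have e : ∀ k, τ k - (h k - s) = τ k + s - h k := fun k => by ring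
  have h1 := prod_glue ε hε (fun k => τ k + s - h k)
  have h2 : ∏ k, expNegInvGlue ((τ k + s - h k) / ε) = expNegInvGlue ((τ i + s - h i) / ε) *
      (expNegInvGlue ((τ j + s - h j) / ε) *
      ∏ k ∈ (Finset.univ.erase i).erase j, expNegInvGlue ((τ k + s - h k) / ε)) := by
    rw [Finset.mul_prod_erase _ (fun k => expNegInvGlue ((τ k + s - h k) / ε))
      (Finset.mem_erase.mpr ⟨hij.symm, Finset.mem_univ j⟩),
      Finset.mul_prod_erase _ (fun k => expNegInvGlue ((τ k + s - h k) / ε))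
      (Finset.mem_univ i)]
  have h3 : ε ^ 2 * (chi (fun k => τ k + s - h k) *
      ((τ i + s - h i)⁻¹ * (τ j + s - h j)⁻¹) ^ 2 *
      Real.exp (-(ε * ∑ k, (τ k + s - h k)⁻¹))) =
      ε ^ 2 * (((τ i + s - h i)⁻¹ * (τ j + s - h j)⁻¹) ^ 2 *
      ∏ k, expNegInvGlue ((τ k + s - h k) / ε)) := by
    rw [h1]
    ring
  rw [h3, h2]
  unfold Pij
  simp only [e, inv_div]
  rw [div_eq_mul_inv ε (τ i + s - h i), div_eq_mul_inv ε (τ j + s - h j)]
  have hε' : ε ≠ 0 := hε.ne'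
  field_simp

private lemma right {m N : ℕ} (hb : BoundStmt) (M : Modes m) (ζ : Fin N → Fin m → ℝ)
    (κ κ1 : ℝ → ℝ) (hN : 0 < N) (hK : Kap κ κ1) (τ : Fin N → ℝ) (γ : ℝ) (hγ0 : 0 < γ)
    (hγ1 : γ < 1) (i j : Fin N) (hij : i ≠ j) (hζ : ζ i ≠ ζ j) :
    Integrable (fun ε : ℝ => ε ^ (γ - 1) * ∫ y, -(κ1 y.1) * (M.W y.2.2.1 *
      Pij (fun k h => expNegInvGlue ((τ k - h) / ε))
      (fun k h => -(1 / ε) * ((((τ k - h) / ε)⁻¹) ^ 2 * expNegInvGlue ((τ k - h) / ε))) i j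
      (fun k => hh M ζ k y.2 - y.1)) ∂((volume : Measure ℝ).prod (mes m)))
      (volume.restrict (Ioi (0 : ℝ))) ∧
    ∫ ε in Ioi (0 : ℝ), ε ^ (γ - 1) * ∫ y, -(κ1 y.1) * (M.W y.2.2.1 *
      Pij (fun k h => expNegInvGlue ((τ k - h) / ε))
      (fun k h => -(1 / ε) * ((((τ k - h) / ε)⁻¹) ^ 2 * expNegInvGlue ((τ k - h) / ε))) i j
      (fun k => hh M ζ k y.2 - y.1)) ∂((volume : Measure ℝ).prod (mes m)) =
      Real.Gamma (γ + 2) * Jij M ζ τ κ1 γ i j := by
  obtain ⟨y, hy⟩ : ∃ y : ℝ × ((Fin m → ℝ) × (ℝ × ℝ)) → Fin N → ℝ,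
      y = fun z k => τ k + z.1 - hh M ζ k z.2 := ⟨_, rfl⟩
  have hyk : ∀ k, Measurable fun z => y z k := by
    intro k
    rw [hy]
    exact (measurable_const.add measurable_fst).sub ((hh_meas M ζ k).comp measurable_snd)
  have hym : Measurable y := measurable_pi_lambda _ hyk
  obtain ⟨A, hA⟩ : ∃ A : ℝ × ((Fin m → ℝ) × (ℝ × ℝ)) → ℝ, A = fun z =>
    -(κ1 z.1) * (M.W z.2.2.1 * (chi (y z) * ((y z i)⁻¹ * (y z j)⁻¹) ^ 2)) := ⟨_, rfl⟩
  obtain ⟨T, hT⟩ : ∃ T : ℝ × ((Fin m → ℝ) × (ℝ × ℝ)) → ℝ, T = fun z => ∑ k, (y z k)⁻¹ :=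
    ⟨_, rfl⟩
  have hAm : Measurable A := by
    rw [hA]
    exact (hK.2.1.measurable.comp measurable_fst).neg.mul
      (((w_meas M).comp (measurable_fst.comp (measurable_snd.comp measurable_snd))).mul
      (((chi_meas N).comp hym).mul (((hyk i).inv.mul (hyk j).inv).pow_const 2)))
  have hTm : Measurable T := by
    rw [hT]
    exact Finset.measurable_sum _ fun k _ => (hyk k).inv
  have hAT : ∀ z, A z ≠ 0 → 0 < T z := by
    intro z hz
    rw [hA] at hz
    have h1 := chi_pos (left_ne_zero_of_mul (right_ne_zero_of_mul (right_ne_zero_of_mul hz)))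
    rw [hT]
    exact Finset.sum_pos (fun k _ => inv_pos.mpr (h1 k)) ⟨⟨0, hN⟩, Finset.mem_univ _⟩
  have hAB : ∀ z, A z * T z ^ (-(γ + 2)) = -(κ1 z.1) * (M.W z.2.2.1 *
      Fij γ i j (fun k => τ k + z.1 - hh M ζ k z.2)) := by
    intro z
    rw [fij_eq, hA, hT, hy]
    ring
  have hB : Integrable (fun z => A z * T z ^ (-(γ + 2))) ((volume : Measure ℝ).prod (mes m)) := by
    have h1 := (hb m N M ζ τ κ κ1 hK γ hγ0 hγ1 i j hij hζ).neg
    refine h1.congr (Eventually.of_forall fun z => ?_)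
    show -(κ1 z.1 * (M.W z.2.2.1 * Fij γ i j (fun k => τ k + z.1 - hh M ζ k z.2))) =
      A z * T z ^ (-(γ + 2))
    rw [hAB z]
    ring
  obtain ⟨-, m2, m3⟩ := mel ((volume : Measure ℝ).prod (mes m)) (γ + 2) (by linarith) A T hAm
    hTm hAT hB
  have hcon : ∀ ε ∈ Ioi (0 : ℝ), ε ^ (γ + 2 - 1) * ∫ z, A z * Real.exp (-(ε * T z))
      ∂((volume : Measure ℝ).prod (mes m)) =
      ε ^ (γ - 1) * ∫ y, -(κ1 y.1) * (M.W y.2.2.1 *
      Pij (fun k h => expNegInvGlue ((τ k - h) / ε))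
      (fun k h => -(1 / ε) * ((((τ k - h) / ε)⁻¹) ^ 2 * expNegInvGlue ((τ k - h) / ε))) i j
      (fun k => hh M ζ k y.2 - y.1)) ∂((volume : Measure ℝ).prod (mes m)) := by
    intro ε hε
    have hε0 : (0 : ℝ) < ε := hε
    have h1 : ε ^ (γ + 2 - 1) = ε ^ (γ - 1) * ε ^ 2 := by
      have h2 : γ + 2 - 1 = (γ - 1) + 2 := by ring
      rw [h2, Real.rpow_add hε0, Real.rpow_two]
    rw [h1, mul_assoc, ← integral_const_mul]
    congr 1
    refine integral_congr_ae (Eventually.of_forall fun z => ?_)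
    have h3 := pij_eq τ ε hε0 i j hij (fun k => hh M ζ k z.2) z.1
    show ε ^ 2 * (A z * Real.exp (-(ε * T z))) = -(κ1 z.1) * (M.W z.2.2.1 *
      Pij (fun k h => expNegInvGlue ((τ k - h) / ε))
      (fun k h => -(1 / ε) * ((((τ k - h) / ε)⁻¹) ^ 2 * expNegInvGlue ((τ k - h) / ε))) i j
      (fun k => hh M ζ k z.2 - z.1))
    rw [h3, hA, hT, hy]
    ring
  refine ⟨m2.congr ?_, ?_⟩
  · filter_upwards [self_mem_ae_restrict measurableSet_Ioi] with ε hε
    exact hcon ε hε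
  · rw [← setIntegral_congr_fun measurableSet_Ioi hcon, m3]
    congr 1
    unfold Jij
    refine integral_congr_ae (Eventually.of_forall fun z => ?_)
    exact hAB z

end MellinAux

open MellinAux

/-- the identity for the homogeneous functions -/
theorem mellinStmt (hid : IdC1Stmt) (hb : BoundStmt) : MellinStmt := by
  intro d N p q M ζ κ κ1 hN hRep hK τ γ hγ0 hγ1
  have hGam : 0 < Real.Gamma γ := Real.Gamma_pos_of_pos hγ0
  have hκc : Continuous κ := continuous_iff_continuousAt.2 fun s => (hK.1 s).continuousAt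
  obtain ⟨S, hS⟩ := hK.2.2
  obtain ⟨hqI, hq⟩ := left q κ hκc S hS hN τ γ hγ0
  obtain ⟨hpI, hp⟩ := left p κ hκc S hS hN τ γ hγ0
  obtain ⟨G, hG⟩ : ∃ G : ℝ → Fin N → ℝ → ℝ,
      G = fun ε k h => expNegInvGlue ((τ k - h) / ε) := ⟨_, rfl⟩
  obtain ⟨G1, hG1⟩ : ∃ G1 : ℝ → Fin N → ℝ → ℝ, G1 = fun ε k h =>
      -(1 / ε) * ((((τ k - h) / ε)⁻¹) ^ 2 * expNegInvGlue ((τ k - h) / ε)) := ⟨_, rfl⟩
  obtain ⟨R, hR⟩ : ∃ R : Fin N → Fin N → ℝ → ℝ, R = fun i j ε =>
      ∫ y, -(κ1 y.1) * (M.W y.2.2.1 * Pij (G ε) (G1 ε) i j (fun k => hh M ζ k y.2 - y.1))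
        ∂((volume : Measure ℝ).prod (mes (d + 3))) := ⟨_, rfl⟩
  have hRI : ∀ i j, i ≠ j →
      Integrable (fun ε : ℝ => (DD p i j - DD q i j) * (ε ^ (γ - 1) * R i j ε))
        (volume.restrict (Ioi (0 : ℝ))) ∧
      ∫ ε in Ioi (0 : ℝ), (DD p i j - DD q i j) * (ε ^ (γ - 1) * R i j ε) =
        (DD p i j - DD q i j) * (Real.Gamma (γ + 2) * Jij M ζ τ κ1 γ i j) := by
    intro i j hij
    by_cases hζ : ζ i = ζ j
    · have h1 : DD p i j = 0 := by
        rw [hRep.1 i j]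
        refine Finset.sum_eq_zero fun k _ => ?_
        rw [hζ, sub_self]
        ring
      have h2 : DD q i j = 0 := by
        rw [hRep.2 i j]
        refine Finset.sum_eq_zero fun k _ => ?_
        rw [hζ, sub_self]
        ring
      simp [h1, h2]
    · obtain ⟨r1, r2⟩ := right hb M ζ κ κ1 hN hK τ γ hγ0 hγ1 i j hij hζ
      rw [hR, hG, hG1]
      refine ⟨r1.const_mul _, ?_⟩
      rw [integral_const_mul]
      exact congrArg _ r2
  have hid' : ∀ ε ∈ Ioi (0 : ℝ),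
      (ε ^ (γ - 1) * ∫ s, κ s * ∫ x : E d,
        ∏ k, expNegInvGlue ((τ k - (‖x - q k‖ ^ 2 - s)) / ε)) -
      (ε ^ (γ - 1) * ∫ s, κ s * ∫ x : E d,
        ∏ k, expNegInvGlue ((τ k - (‖x - p k‖ ^ 2 - s)) / ε)) =
      (1 / Real.pi ^ 2) * ((1 / 2) * ∑ i, ∑ j ∈ Finset.univ.erase i,
        (DD p i j - DD q i j) * (ε ^ (γ - 1) * R i j ε)) := by
    intro ε hε
    have hε0 : (0 : ℝ) < ε := hε
    have h1 := hid d N p q M ζ κ κ1 hN hRep hK (G ε) (G1 ε) (∑ k, |τ k|)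
      (fun k h => by
        rw [hG, hG1]
        exact glue_der (τ k) ε h)
      (fun k => by
        rw [hG1]
        exact glue_cont (τ k) ε)
      (fun k h hh => by
        rw [hG]
        apply expNegInvGlue.zero_of_nonpos
        apply div_nonpos_of_nonpos_of_nonneg _ hε0.le
        have h2 : |τ k| ≤ ∑ k, |τ k| :=
          Finset.single_le_sum (f := fun k => |τ k|) (fun k _ => abs_nonneg _)
            (Finset.mem_univ k)
        have h3 := le_abs_self (τ k)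
        linarith)
    obtain ⟨-, -, h2⟩ := h1
    have h3 : (∫ s, κ s * ∫ x : E d,
        ∏ k, expNegInvGlue ((τ k - (‖x - q k‖ ^ 2 - s)) / ε)) -
        (∫ s, κ s * ∫ x : E d,
        ∏ k, expNegInvGlue ((τ k - (‖x - p k‖ ^ 2 - s)) / ε)) =
        (1 / Real.pi ^ 2) * ((1 / 2) * ∑ i, ∑ j ∈ Finset.univ.erase i,
        (DD p i j - DD q i j) * R i j ε) := by
      rw [hG] at h2
      rw [hR, hG]
      exact h2
    rw [← mul_sub, h3]
    have h4 : ∑ i, ∑ j ∈ Finset.univ.erase i, (DD p i j - DD q i j) *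
        (ε ^ (γ - 1) * R i j ε) = ε ^ (γ - 1) * ∑ i, ∑ j ∈ Finset.univ.erase i,
        (DD p i j - DD q i j) * R i j ε := by
      rw [Finset.mul_sum]
      refine Finset.sum_congr rfl fun i _ => ?_
      rw [Finset.mul_sum]
      refine Finset.sum_congr rfl fun j _ => ?_
      ring
    rw [h4]
    ring
  have h1 := integral_sub hqI hpI
  rw [hq, hp] at h1
  have h2 := setIntegral_congr_fun (μ := volume) measurableSet_Ioi hid'
  have h3 : ∫ ε in Ioi (0 : ℝ), (1 / Real.pi ^ 2) * ((1 / 2) *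
      ∑ i, ∑ j ∈ Finset.univ.erase i, (DD p i j - DD q i j) * (ε ^ (γ - 1) * R i j ε)) =
      (1 / Real.pi ^ 2) * ((1 / 2) * ∑ i, ∑ j ∈ Finset.univ.erase i,
        (DD p i j - DD q i j) * (Real.Gamma (γ + 2) * Jij M ζ τ κ1 γ i j)) := by
    rw [integral_const_mul, integral_const_mul, integral_finset_sum]
    · congr 2
      refine Finset.sum_congr rfl fun i _ => ?_
      rw [integral_finset_sum]
      · refine Finset.sum_congr rfl fun j hj => ?_
        exact (hRI i j (Finset.ne_of_mem_erase hj).symm).2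
      · intro j hj
        exact (hRI i j (Finset.ne_of_mem_erase hj).symm).1
    · intro i _
      refine integrable_finset_sum _ fun j hj => ?_
      exact (hRI i j (Finset.ne_of_mem_erase hj).symm).1
  have h4 : Real.Gamma (γ + 2) = (γ + 1) * (γ * Real.Gamma γ) := by
    have h5 : γ + 2 = (γ + 1) + 1 := by ring
    rw [h5, Real.Gamma_add_one (by linarith), Real.Gamma_add_one hγ0.ne']
  have h6 : Real.Gamma γ * ((∫ s, κ s * ∫ x : E d,
      Fg γ (fun k => τ k + s - ‖x - q k‖ ^ 2)) -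
      ∫ s, κ s * ∫ x : E d, Fg γ (fun k => τ k + s - ‖x - p k‖ ^ 2)) =
      Real.Gamma γ * ((γ * (γ + 1) / Real.pi ^ 2) * ((1 / 2) *
        ∑ i, ∑ j ∈ Finset.univ.erase i, (DD p i j - DD q i j) * Jij M ζ τ κ1 γ i j)) := by
    rw [mul_sub, ← h1, h2, h3, h4]
    have h7 : ∑ i, ∑ j ∈ Finset.univ.erase i, (DD p i j - DD q i j) *
        ((γ + 1) * (γ * Real.Gamma γ) * Jij M ζ τ κ1 γ i j) =
        (γ + 1) * (γ * Real.Gamma γ) * ∑ i, ∑ j ∈ Finset.univ.erase i,
        (DD p i j - DD q i j) * Jij M ζ τ κ1 γ i j := by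
      rw [Finset.mul_sum]
      refine Finset.sum_congr rfl fun i _ => ?_
      rw [Finset.mul_sum]
      refine Finset.sum_congr rfl fun j _ => ?_
      ring
    rw [h7]
    ring
  exact mul_left_cancel₀ hGam.ne' h6

end Pool.Agent.Lib.MP_0c1c75_co.KA
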