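import Pool.Agent.Lib.MP_0c1c75_co.KA.Spec

/-!
# Module NfA: the normal form for theorem A
-/

set_option autoImplicit false

namespace Pool.Agent.Lib.MP_0c1c75_co.KA

open Pool.Agent.Lib.MP_0c1c75_co.KG

open Module

open scoped RealInnerProductSpace

namespace NfAAux

private lemma ext {V : Type} [AddCommGroup V] [Module ℝ V] [FiniteDimensional ℝ V] (k : ℕ)
    (hk : k ≤ finrank ℝ V) : ∀ (n : ℕ) (S : Submodule ℝ V), finrank ℝ S ≤ k →
      k - finrank ℝ S ≤ n → ∃ T : Submodule ℝ V, S ≤ T ∧ finrank ℝ T = k := by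
  intro n
  induction n with
  | zero =>
    intro S h1 h2
    exact ⟨S, le_rfl, by omega⟩
  | succ n ih =>
    intro S h1 h2
    rcases Nat.lt_or_ge (finrank ℝ S) k with h3 | h3
    · obtain ⟨x, hx⟩ : ∃ x, x ∉ S := by
        by_contra hcon
        push Not at hcon
        have : S = ⊤ := Submodule.eq_top_iff'.mpr hcon
        rw [this, finrank_top] at h3
        omega
      have hlt : S < S ⊔ Submodule.span ℝ {x} := by
        refine lt_of_le_of_ne le_sup_left fun h => hx ?_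
        rw [h]
        exact Submodule.mem_sup_right (Submodule.mem_span_singleton_self x)
      have h4 := Submodule.finrank_lt_finrank_of_lt hlt
      have h5 := Submodule.finrank_add_le_finrank_add_finrank S (Submodule.span ℝ {x})
      have h6 : finrank ℝ (Submodule.span ℝ {x}) ≤ 1 := by
        have := finrank_span_le_card (R := ℝ) ({x} : Set V)
        simpa using this
      obtain ⟨T, hT, hT2⟩ := ih (S ⊔ Submodule.span ℝ {x}) (by omega) (by omega)
      exact ⟨T, le_sup_left.trans hT, hT2⟩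
    · exact ⟨S, le_rfl, by omega⟩

private lemma card3 {d : ℕ} (e : Fin (d + 3) → E d) (μ : Fin (d + 3) → ℝ)
    (h : ∀ k l, ⟪e k, e l⟫ = if k = l then μ k else 0) :
    3 ≤ (Finset.univ.filter (fun k => μ k = 0)).card := by
  have hli : LinearIndependent ℝ (fun k : {k // μ k ≠ 0} => e k.1) := by
    apply linearIndependent_of_ne_zero_of_inner_eq_zero (𝕜 := ℝ)
    · rintro ⟨k, hk⟩ h0
      apply hk
      have h1 := h k k
      simp only at h0
      rw [h0, inner_zero_left, if_pos rfl] at h1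
      exact h1.symm
    · rintro ⟨k, hk⟩ ⟨l, hl⟩ hkl
      simp only
      rw [h k l, if_neg (fun hh => hkl (Subtype.ext hh))]
  have h1 := hli.fintype_card_le_finrank
  rw [finrank_euclideanSpace_fin, Fintype.card_subtype] at h1
  have h2 := Finset.card_filter_add_card_filter_not (s := (Finset.univ : Finset (Fin (d + 3))))
    (fun k => μ k = 0)
  rw [Finset.card_univ, Fintype.card_fin] at h2
  have h3 : (Finset.univ.filter (fun k => ¬ μ k = 0)).card =
    (Finset.univ.filter (fun k => μ k ≠ 0)).card := rfl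
  omega

private lemma basis (d : ℕ) (hd : 3 ≤ d) (S : Submodule ℝ (E d × E d))
    (hS : finrank ℝ S ≤ d + 3) :
    ∃ (e1 e2 : Fin (d + 3) → E d) (μ : Fin (d + 3) → ℝ),
      (∀ k l, ⟪e1 k, e1 l⟫ = if k = l then μ k else 0) ∧
      (∀ k l, ⟪e2 k, e2 l⟫ = if k = l then 1 - μ k else 0) ∧
      ∀ w ∈ S, w.1 = ∑ k, (⟪e1 k, w.1⟫ + ⟪e2 k, w.2⟫) • e1 k ∧
        w.2 = ∑ k, (⟪e1 k, w.1⟫ + ⟪e2 k, w.2⟫) • e2 k := by
  let L : (E d × E d) ≃ₗ[ℝ] WithLp 2 (E d × E d) := (WithLp.linearEquiv 2 ℝ (E d × E d)).symm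
  have hfr : finrank ℝ (WithLp 2 (E d × E d)) = d + d := by
    rw [← L.finrank_eq, finrank_prod, finrank_euclideanSpace_fin]
  have hS' : finrank ℝ (S.map L.toLinearMap) = finrank ℝ S := LinearEquiv.finrank_map_eq L S
  obtain ⟨V, hSV, hV⟩ := ext (V := WithLp 2 (E d × E d)) (d + 3) (by omega) (d + 3)
    (S.map L.toLinearMap) (by omega) (by omega)
  let A : WithLp 2 (E d × E d) →ₗ[ℝ] WithLp 2 (E d × E d) :=
    L.toLinearMap ∘ₗ (LinearMap.inl ℝ (E d) (E d) ∘ₗ LinearMap.fst ℝ (E d) (E d)) ∘ₗ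
      L.symm.toLinearMap
  have hA1 : ∀ x, (A x).fst = x.fst := fun x => rfl
  have hA2 : ∀ x, (A x).snd = 0 := fun x => rfl
  let T : V →ₗ[ℝ] V := (V.orthogonalProjectionOnto).toLinearMap ∘ₗ A ∘ₗ V.subtype
  have hT0 : ∀ x y : V, ⟪x, T y⟫ = ⟪(x : WithLp 2 (E d × E d)).fst, (y : WithLp 2 (E d × E d)).fst⟫ := by
    intro x y
    have : ⟪x, T y⟫ = ⟪(x : WithLp 2 (E d × E d)), A y⟫ :=
      Submodule.inner_orthogonalProjectionOnto_eq_of_mem_left x (A y)
    rw [this, WithLp.prod_inner_apply]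
    change ⟪(x : WithLp 2 (E d × E d)).fst, (y : WithLp 2 (E d × E d)).fst⟫ +
      ⟪(x : WithLp 2 (E d × E d)).snd, (0 : E d)⟫ = _
    rw [inner_zero_right, add_zero]
  have hT : LinearMap.IsSymmetric (𝕜 := ℝ) (E := V) T := by
    intro x y
    rw [real_inner_comm, hT0, hT0, real_inner_comm]
  let B := hT.eigenvectorBasis hV
  let μ := hT.eigenvalues hV
  have hB : ∀ k, T (B k) = μ k • B k := fun k => hT.apply_eigenvectorBasis hV k
  have hBo : ∀ k l, ⟪B k, B l⟫ = if k = l then 1 else 0 := by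
    intro k l
    exact orthonormal_iff_ite.mp B.orthonormal k l
  have h1 : ∀ k l, ⟪(B k : WithLp 2 (E d × E d)).fst, (B l : WithLp 2 (E d × E d)).fst⟫ =
      if k = l then μ k else 0 := by
    intro k l
    rw [← hT0, hB]
    have hh : ⟪B k, μ l • B l⟫ = μ l * ⟪B k, B l⟫ :=
      real_inner_smul_right (B k : WithLp 2 (E d × E d)) (B l : WithLp 2 (E d × E d)) (μ l)
    rw [hh, hBo]
    split_ifs with h
    · rw [h, mul_one]
    · rw [mul_zero]
  have h2 : ∀ k l, ⟪(B k : WithLp 2 (E d × E d)).snd, (B l : WithLp 2 (E d × E d)).snd⟫ =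
      if k = l then 1 - μ k else 0 := by
    intro k l
    have h3 : ⟪B k, B l⟫ = ⟪(B k : WithLp 2 (E d × E d)).fst, (B l : WithLp 2 (E d × E d)).fst⟫ +
      ⟪(B k : WithLp 2 (E d × E d)).snd, (B l : WithLp 2 (E d × E d)).snd⟫ := rfl
    rw [hBo, h1] at h3
    split_ifs at h3 ⊢ <;> linarith
  refine ⟨fun k => (B k : WithLp 2 (E d × E d)).fst, fun k => (B k : WithLp 2 (E d × E d)).snd, μ,
    h1, h2, ?_⟩
  intro w hw
  have hwV : L w ∈ V := hSV (Submodule.mem_map_of_mem hw)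
  have h3 := B.sum_repr' ⟨L w, hwV⟩
  have h4 : ∀ k, ⟪B k, (⟨L w, hwV⟩ : V)⟫ = ⟪(B k : WithLp 2 (E d × E d)).fst, w.1⟫ +
    ⟪(B k : WithLp 2 (E d × E d)).snd, w.2⟫ := fun k => rfl
  simp only [h4] at h3
  have h5 := congrArg Subtype.val h3
  rw [Submodule.coe_sum] at h5
  simp only [Submodule.coe_smul] at h5
  have h6 := congrArg L.symm h5
  rw [map_sum] at h6
  simp only [map_smul] at h6
  rw [L.symm_apply_apply] at h6
  have h7 : w.1 = (∑ k, (⟪(B k : WithLp 2 (E d × E d)).fst, w.1⟫ +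
    ⟪(B k : WithLp 2 (E d × E d)).snd, w.2⟫) • L.symm (B k : WithLp 2 (E d × E d))).1 := by
    rw [h6]
  have h8 : w.2 = (∑ k, (⟪(B k : WithLp 2 (E d × E d)).fst, w.1⟫ +
    ⟪(B k : WithLp 2 (E d × E d)).snd, w.2⟫) • L.symm (B k : WithLp 2 (E d × E d))).2 := by
    rw [h6]
  rw [Prod.fst_sum] at h7
  rw [Prod.snd_sum] at h8
  exact ⟨h7, h8⟩

private lemma norm_comb {d : ℕ} (e : Fin (d + 3) → E d) (μ : Fin (d + 3) → ℝ)
    (h : ∀ k l, ⟪e k, e l⟫ = if k = l then μ k else 0) (c : Fin (d + 3) → ℝ) :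
    ‖∑ k, c k • e k‖ ^ 2 = ∑ k, μ k * c k ^ 2 := by
  rw [← real_inner_self_eq_norm_sq, sum_inner]
  refine Finset.sum_congr rfl fun k _ => ?_
  rw [inner_sum, Finset.sum_eq_single k]
  · rw [inner_smul_left, inner_smul_right, h, if_pos rfl]
    simp only [conj_trivial]
    ring
  · intro l _ hl
    rw [inner_smul_left, inner_smul_right, h, if_neg (Ne.symm hl)]
    ring
  · intro hk
    exact absurd (Finset.mem_univ k) hk

end NfAAux

open NfAAux in
theorem nfAStmt : NfAStmt := by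
  intro d N p q r lam mu c α β hd hfin hlm hq
  obtain ⟨e1, e2, μ, h1, h2, h3⟩ := basis d hd _ hfin
  have hμ : ∀ k, 0 ≤ μ k := by
    intro k
    have h := h1 k k
    rw [if_pos rfl] at h
    rw [← h]
    exact real_inner_self_nonneg
  have hν : ∀ k, 0 ≤ 1 - μ k := by
    intro k
    have h := h2 k k
    rw [if_pos rfl] at h
    rw [← h]
    exact real_inner_self_nonneg
  let M : Modes (d + 3) :=
    { μ := μ
      ν := fun k => 1 - μ k
      hμ := hμ
      hν := hν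
      hs := fun k => by ring
      hμ3 := card3 e1 μ h1
      hν3 := card3 e2 (fun k => 1 - μ k) h2 }
  rcases Nat.eq_zero_or_pos N with hN | hN
  · subst hN
    exact ⟨M, fun i => i.elim0, fun _ => 0, 0, 0, ⟨fun i => i.elim0, fun i => i.elim0⟩,
      fun i => i.elim0⟩
  let o : Fin N := ⟨0, hN⟩
  let ζ : Fin N → Fin (d + 3) → ℝ := fun i k => ⟪e1 k, p i - p o⟫ + ⟪e2 k, q i - q o⟫
  have hz : ∀ i j k, ζ i k - ζ j k = ⟪e1 k, p i - p j⟫ + ⟪e2 k, q i - q j⟫ := by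
    intro i j k
    have e3 : p i - p j = (p i - p o) - (p j - p o) := by abel
    have e4 : q i - q j = (q i - q o) - (q j - q o) := by abel
    rw [e3, e4, inner_sub_right (e1 k) (p i - p o), inner_sub_right (e2 k) (q i - q o)]
    simp only [ζ]
    ring
  have hw : ∀ i j, p i - p j = ∑ k, (ζ i k - ζ j k) • e1 k ∧
      q i - q j = ∑ k, (ζ i k - ζ j k) • e2 k := by
    intro i j
    have h := h3 (p i - p j, q i - q j) (Submodule.subset_span ⟨i, j, rfl⟩)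
    simp only [hz]
    exact h
  have hD : ∀ i j, DD p i j = ∑ k, μ k * (ζ i k - ζ j k) ^ 2 := by
    intro i j
    unfold DD
    rw [(hw i j).1]
    exact norm_comb e1 μ h1 _
  have hD' : ∀ i j, DD q i j = ∑ k, (1 - μ k) * (ζ i k - ζ j k) ^ 2 := by
    intro i j
    unfold DD
    rw [(hw i j).2]
    exact norm_comb e2 (fun k => 1 - μ k) h2 _
  have hzo : ∀ k, ζ o k = 0 := by
    intro k
    simp only [ζ, sub_self, inner_zero_right, add_zero]
  set as : ℝ := mu / (lam + mu) with has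
  have hs1 : (lam + mu) * as = mu := by
    rw [has]
    field_simp
  refine ⟨M, ζ, fun k => -((1 - as) * ⟪e1 k, p o⟫ + as * ⟪e2 k, q o⟫ -
    (⟪e1 k, α⟫ + ⟪e2 k, β⟫) / (2 * (lam + mu))), as, r o ^ 2, ⟨hD, hD'⟩, ?_⟩
  intro i
  have hi := hq i
  have ho := hq o
  have e1' : p i = (p i - p o) + p o := by abel
  have e2' : q i = (q i - q o) + q o := by abel
  have f1 : ‖p i‖ ^ 2 = ‖p i - p o‖ ^ 2 + 2 * ⟪p i - p o, p o⟫ + ‖p o‖ ^ 2 := by
    conv_lhs => rw [e1']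
    rw [norm_add_sq_real]
  have f2 : ‖q i‖ ^ 2 = ‖q i - q o‖ ^ 2 + 2 * ⟪q i - q o, q o⟫ + ‖q o‖ ^ 2 := by
    conv_lhs => rw [e2']
    rw [norm_add_sq_real]
  have f3 : ⟪α, p i⟫ = ⟪p i - p o, α⟫ + ⟪α, p o⟫ := by
    rw [real_inner_comm α (p i - p o), ← inner_add_right, ← e1']
  have f4 : ⟪β, q i⟫ = ⟪q i - q o, β⟫ + ⟪β, q o⟫ := by
    rw [real_inner_comm β (q i - q o), ← inner_add_right, ← e2']
  have g1 : ‖p i - p o‖ ^ 2 = ∑ k, μ k * ζ i k ^ 2 := by
    have h := hD i o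
    unfold DD at h
    rw [h]
    refine Finset.sum_congr rfl fun k _ => ?_
    rw [hzo, sub_zero]
  have g2 : ‖q i - q o‖ ^ 2 = ∑ k, (1 - μ k) * ζ i k ^ 2 := by
    have h := hD' i o
    unfold DD at h
    rw [h]
    refine Finset.sum_congr rfl fun k _ => ?_
    rw [hzo, sub_zero]
  have g3 : ∀ x : E d, ⟪p i - p o, x⟫ = ∑ k, ζ i k * ⟪e1 k, x⟫ := by
    intro x
    have h := (hw i o).1
    conv_lhs => rw [h]
    rw [sum_inner]
    refine Finset.sum_congr rfl fun k _ => ?_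
    rw [inner_smul_left, hzo, sub_zero]
    simp only [conj_trivial]
  have g4 : ∀ x : E d, ⟪q i - q o, x⟫ = ∑ k, ζ i k * ⟪e2 k, x⟫ := by
    intro x
    have h := (hw i o).2
    conv_lhs => rw [h]
    rw [sum_inner]
    refine Finset.sum_congr rfl fun k _ => ?_
    rw [inner_smul_left, hzo, sub_zero]
    simp only [conj_trivial]
  have g5 : ∑ k, M.r k as * ζ i k ^ 2 =
      (1 - as) * ‖p i - p o‖ ^ 2 + as * ‖q i - q o‖ ^ 2 := by
    rw [g1, g2, Finset.mul_sum, Finset.mul_sum, ← Finset.sum_add_distrib]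
    refine Finset.sum_congr rfl fun k _ => ?_
    simp only [M, Modes.r]
    ring
  have g6 : ∑ k, -((1 - as) * ⟪e1 k, p o⟫ + as * ⟪e2 k, q o⟫ -
      (⟪e1 k, α⟫ + ⟪e2 k, β⟫) / (2 * (lam + mu))) * ζ i k =
      -((1 - as) * ⟪p i - p o, p o⟫ + as * ⟪q i - q o, q o⟫ -
      (⟪p i - p o, α⟫ + ⟪q i - q o, β⟫) / (2 * (lam + mu))) := by
    rw [g3, g4, g3, g4, Finset.mul_sum, Finset.mul_sum, ← Finset.sum_add_distrib,
      ← Finset.sum_add_distrib, Finset.sum_div, ← Finset.sum_sub_distrib,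
      ← Finset.sum_neg_distrib]
    refine Finset.sum_congr rfl fun k _ => ?_
    ring
  unfold lev
  rw [g6, g5]
  have h5 : (⟪p i - p o, α⟫ + ⟪q i - q o, β⟫) / (2 * (lam + mu)) * (2 * (lam + mu)) =
      ⟪p i - p o, α⟫ + ⟪q i - q o, β⟫ := by
    have h2s : (2 : ℝ) * (lam + mu) ≠ 0 := mul_ne_zero two_ne_zero hlm
    exact div_mul_cancel₀ _ h2s
  set Z : ℝ := (⟪p i - p o, α⟫ + ⟪q i - q o, β⟫) / (2 * (lam + mu)) with hZ
  have hlam : (lam + mu) * (1 - as) = lam := by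
    rw [mul_sub, hs1]
    ring
  apply mul_left_cancel₀ hlm
  rw [f1, f2, f3, f4] at hi
  have k1 : (lam + mu) * r i ^ 2 = lam * (‖p i - p o‖ ^ 2 + 2 * ⟪p i - p o, p o⟫ + ‖p o‖ ^ 2) +
      mu * (‖q i - q o‖ ^ 2 + 2 * ⟪q i - q o, q o⟫ + ‖q o‖ ^ 2) -
      (⟪p i - p o, α⟫ + ⟪α, p o⟫ + (⟪q i - q o, β⟫ + ⟪β, q o⟫) + c) := by linarith
  have k2 : (lam + mu) * r o ^ 2 = lam * ‖p o‖ ^ 2 + mu * ‖q o‖ ^ 2 -
      (⟪α, p o⟫ + ⟪β, q o⟫ + c) := by linarith
  have k3 : (lam + mu) * (r o ^ 2 -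
      2 * -((1 - as) * ⟪p i - p o, p o⟫ + as * ⟪q i - q o, q o⟫ - Z) +
      ((1 - as) * ‖p i - p o‖ ^ 2 + as * ‖q i - q o‖ ^ 2)) =
      (lam + mu) * r o ^ 2 + 2 * (((lam + mu) * (1 - as)) * ⟪p i - p o, p o⟫ +
        ((lam + mu) * as) * ⟪q i - q o, q o⟫) - Z * (2 * (lam + mu)) +
      (((lam + mu) * (1 - as)) * ‖p i - p o‖ ^ 2 + ((lam + mu) * as) * ‖q i - q o‖ ^ 2) := by
    ring
  rw [k3, hlam, hs1, h5, k1, k2]
  ring

end Pool.Agent.Lib.MP_0c1c75_co.KA
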