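import Pool.Agent.Lib.MP_0c1c75_co.KA.Spec

/-!
# Module PERT: perturbation to the full dimension
-/

set_option autoImplicit false

open MeasureTheory Set Filter Topology Module

namespace Pool.Agent.Lib.MP_0c1c75_co.KA

open Pool.Agent.Lib.MP_0c1c75_co.KG

namespace PertAux

private lemma ext {V : Type} [AddCommGroup V] [Module ℝ V] [FiniteDimensional ℝ V] (k : ℕ)
    (hk : k ≤ finrank ℝ V) : ∀ (n : ℕ) (S : Submodule ℝ V), finrank ℝ S ≤ k →
      k - finrank ℝ S ≤ n → ∃ T : Submodule ℝ V, S ≤ T ∧ finrank ℝ T = k := by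
  intro n
  induction n with
  | zero =>
    intro S h1 h2
    exact ⟨S, le_rfl, by omega⟩
  | succ n ih =>
    intro S h1 h2
    rcases Nat.lt_or_ge (finrank ℝ S) k with h3 | h3
    · obtain ⟨x, hx⟩ : ∃ x, x ∉ S := by
        by_contra hcon
        push Not at hcon
        have : S = ⊤ := Submodule.eq_top_iff'.mpr hcon
        rw [this, finrank_top] at h3
        omega
      have hlt : S < S ⊔ Submodule.span ℝ {x} := by
        refine lt_of_le_of_ne le_sup_left fun h => hx ?_
        rw [h]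
        exact Submodule.mem_sup_right (Submodule.mem_span_singleton_self x)
      have h4 := Submodule.finrank_lt_finrank_of_lt hlt
      have h5 := Submodule.finrank_add_le_finrank_add_finrank S (Submodule.span ℝ {x})
      have h6 : finrank ℝ (Submodule.span ℝ {x}) ≤ 1 := by
        have := finrank_span_le_card (R := ℝ) ({x} : Set V)
        simpa using this
      obtain ⟨T, hT, hT2⟩ := ih (S ⊔ Submodule.span ℝ {x}) (by omega) (by omega)
      exact ⟨T, le_sup_left.trans hT, hT2⟩
    · exact ⟨S, le_rfl, by omega⟩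

/-- the quadratic form -/
private noncomputable def Q {d : ℕ} (w : E d × E d) : ℝ := ‖w.1‖ ^ 2 - ‖w.2‖ ^ 2

private lemma Q_cont {d : ℕ} : Continuous (Q (d := d)) := by
  unfold Q
  fun_prop

private lemma Q_smul {d : ℕ} (c : ℝ) (w : E d × E d) : Q (c • w) = c ^ 2 * Q w := by
  unfold Q
  rw [Prod.smul_fst, Prod.smul_snd, norm_smul, norm_smul, mul_pow, mul_pow, Real.norm_eq_abs,
    sq_abs]
  ring

private lemma contr_of {d N : ℕ} (w : Fin N → E d × E d)
    (h : ∀ i j, i ≠ j → 0 < Q (w i - w j)) :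
    Contr (fun i => (w i).1) (fun i => (w i).2) := by
  intro i j
  by_cases hij : i = j
  · subst hij
    simp
  · have h1 := h i j hij
    unfold Q at h1
    rw [Prod.fst_sub, Prod.snd_sub] at h1
    rw [dist_eq_norm, dist_eq_norm]
    by_contra hc
    push Not at hc
    nlinarith [norm_nonneg ((w i).1 - (w j).1)]

private lemma ev_fin {F : Set ℝ} (hF : F.Finite) : ∀ᶠ t in 𝓝[≠] (0 : ℝ), t ∉ F := by
  have h1 : (F \ {0})ᶜ ∈ 𝓝 (0 : ℝ) :=
    (hF.subset sdiff_subset).isClosed.isOpen_compl.mem_nhds (by simp)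
  filter_upwards [mem_nhdsWithin_of_mem_nhds h1, self_mem_nhdsWithin] with t ht h0 hF'
  exact ht ⟨hF', h0⟩

private lemma span_full {W : Type} [AddCommGroup W] [Module ℝ W] (V : Submodule ℝ W) (n : ℕ)
    (b : Basis (Fin n) ℝ V) (a : Fin n → V) :
    ∀ᶠ t in 𝓝[≠] (0 : ℝ),
      V ≤ Submodule.span ℝ (Set.range fun i => ((a i + t • b i : V) : W)) := by
  have : Module.Finite ℝ V := Module.Finite.of_basis b
  let A : Module.End ℝ V := b.constr ℝ a
  have hA : ∀ i, A (b i) = a i := fun i => b.constr_basis ℝ a i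
  have hfin : {t : ℝ | A.HasEigenvalue (-t)}.Finite :=
    (Module.End.finite_hasEigenvalue A).preimage (neg_injective.injOn)
  filter_upwards [ev_fin hfin] with t ht
  let L : V →ₗ[ℝ] V := A + t • LinearMap.id
  have hLx : ∀ x, L x = A x + t • x := fun x => by simp [L]
  have hinj : Function.Injective L := by
    rw [injective_iff_map_eq_zero]
    intro x hx
    by_contra hne
    apply ht
    have h1 : A x = (-t) • x := by
      rw [hLx] at hx
      rw [neg_smul]
      exact eq_neg_of_add_eq_zero_left hx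
    exact Module.End.hasEigenvalue_of_hasEigenvector
      ⟨Module.End.mem_eigenspace_iff.mpr h1, hne⟩
  have hsurj : Function.Surjective L := LinearMap.injective_iff_surjective.mp hinj
  intro x hx
  obtain ⟨u, hu⟩ := hsurj ⟨x, hx⟩
  have h4 : L u = ∑ i, b.repr u i • (a i + t • b i) := by
    conv_lhs => rw [← b.sum_repr u]
    rw [map_sum]
    refine Finset.sum_congr rfl fun i _ => ?_
    rw [map_smul, hLx, hA]
  have h5 : x = ∑ i, b.repr u i • ((a i + t • b i : V) : W) := by
    have h6 := congrArg (Subtype.val) (hu.symm.trans h4)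
    simpa using h6
  rw [h5]
  exact Submodule.sum_mem _ fun i _ =>
    Submodule.smul_mem _ _ (Submodule.subset_span ⟨i, rfl⟩)

private lemma ev_lt {f : ℝ → ℝ} (hf : Continuous f) {c : ℝ} (h : f 0 < c) :
    ∀ᶠ t in 𝓝 (0 : ℝ), f t < c := (hf.tendsto 0).eventually (gt_mem_nhds h)

private lemma ev_gt {f : ℝ → ℝ} (hf : Continuous f) {c : ℝ} (h : c < f 0) :
    ∀ᶠ t in 𝓝 (0 : ℝ), c < f t := (hf.tendsto 0).eventually (lt_mem_nhds h)

end PertAux

open PertAux

theorem pertStmt : PertStmt := by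
  intro d p q hd hC hS ε hε
  -- the first step
  obtain ⟨δ, hδ1, hδ⟩ : ∃ δ : ℝ, (∀ i, ‖(((1 + δ) • p i, q i) : E d × E d) - (p i, q i)‖ < ε) ∧
      0 < δ := by
    have h1 : ∀ᶠ δ in 𝓝[>] (0 : ℝ),
        ∀ i, ‖(((1 + δ) • p i, q i) : E d × E d) - (p i, q i)‖ < ε := by
      apply nhdsWithin_le_nhds
      refine Filter.eventually_all.mpr fun i => ev_lt (by fun_prop) ?_
      simpa using hε
    exact (h1.and self_mem_nhdsWithin).exists
  set w : Fin (d + 5) → E d × E d := fun i => ((1 + δ) • p i, q i) with hw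
  have hQ : ∀ i j, w i ≠ w j → 0 < Q (w i - w j) := by
    intro i j hij
    have h1 := hC i j
    rw [dist_eq_norm, dist_eq_norm] at h1
    have h2 : 0 < ‖p i - p j‖ := by
      rw [norm_pos_iff]
      intro h0
      rw [h0, norm_zero] at h1
      have h3 : q i - q j = 0 := norm_le_zero_iff.mp h1
      apply hij
      simp only [hw]
      rw [sub_eq_zero.mp h0, sub_eq_zero.mp h3]
    have h3 : Q (w i - w j) = (1 + δ) ^ 2 * ‖p i - p j‖ ^ 2 - ‖q i - q j‖ ^ 2 := by
      unfold Q
      simp only [hw]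
      rw [Prod.fst_sub, Prod.snd_sub]
      simp only
      rw [← smul_sub, norm_smul, mul_pow, Real.norm_eq_abs, sq_abs]
    rw [h3]
    have h4 : ‖q i - q j‖ ^ 2 ≤ ‖p i - p j‖ ^ 2 := pow_le_pow_left₀ (norm_nonneg _) h1 2
    have h5 : 0 < ‖p i - p j‖ ^ 2 := by positivity
    nlinarith [mul_pos hδ h5, mul_pos (mul_pos hδ hδ) h5]
  have hW : finrank ℝ (E d × E d) = d + d := by
    rw [Module.finrank_prod, finrank_euclideanSpace_fin]
  -- the space `V`
  obtain ⟨V, hV, hwV, e, heV, he⟩ : ∃ V : Submodule ℝ (E d × E d), finrank ℝ V = d + 3 ∧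
      (∀ i j, w i - w j ∈ V) ∧ ∃ e ∈ V, 0 < Q e := by
    by_cases hex : ∃ i j, w i ≠ w j
    · obtain ⟨i0, j0, hij0⟩ := hex
      let T : (E d × E d) →ₗ[ℝ] (E d × E d) :=
        LinearMap.prodMap ((1 + δ) • LinearMap.id) LinearMap.id
      have hT : finrank ℝ ((Submodule.span ℝ
          {w : E d × E d | ∃ i j, w = (p i - p j, q i - q j)}).map T) ≤ d + 3 :=
        (Submodule.finrank_map_le T _).trans hS
      obtain ⟨V, hV1, hV2⟩ := ext (V := E d × E d) (d + 3) (by omega) _ _ hT le_rfl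
      have hwV : ∀ i j, w i - w j ∈ V := by
        intro i j
        apply hV1
        refine Submodule.mem_map.mpr ⟨(p i - p j, q i - q j), Submodule.subset_span ⟨i, j, rfl⟩, ?_⟩
        simp [T, hw, smul_sub]
      exact ⟨V, hV2, hwV, w i0 - w j0, hwV i0 j0, hQ i0 j0 hij0⟩
    · push Not at hex
      have hx : ∃ x : E d, x ≠ 0 := by
        have : Nonempty (Fin d) := ⟨⟨0, by omega⟩⟩
        exact exists_ne 0
      obtain ⟨x, hx⟩ := hx
      have h1 : finrank ℝ (Submodule.span ℝ {((x, 0) : E d × E d)}) ≤ d + 3 := by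
        have := finrank_span_le_card (R := ℝ) ({((x, 0) : E d × E d)} : Set (E d × E d))
        have h2 : finrank ℝ (Submodule.span ℝ {((x, 0) : E d × E d)}) ≤ 1 := by simpa using this
        omega
      obtain ⟨V, hV1, hV2⟩ := ext (V := E d × E d) (d + 3) (by omega) _ _ h1 le_rfl
      refine ⟨V, hV2, fun i j => ?_, (x, 0), hV1 (Submodule.mem_span_singleton_self _), ?_⟩
      · rw [hex i j, sub_self]
        exact V.zero_mem
      · unfold Q
        have : 0 < ‖x‖ := norm_pos_iff.mpr hx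
        rw [norm_zero, zero_pow two_ne_zero, sub_zero]
        positivity
  -- the second step
  obtain ⟨s, ⟨hs1, hs2⟩, hs⟩ : ∃ s : ℝ, ((∀ i, ‖(w i + (s * (i.1 : ℝ)) • e) - (p i, q i)‖ < ε) ∧
      (∀ i j, i ≠ j → 0 < Q ((w i + (s * (i.1 : ℝ)) • e) - (w j + (s * (j.1 : ℝ)) • e)))) ∧
      0 < s := by
    have h1 : ∀ᶠ s in 𝓝[>] (0 : ℝ), ∀ i, ‖(w i + (s * (i.1 : ℝ)) • e) - (p i, q i)‖ < ε := by
      apply nhdsWithin_le_nhds
      refine Filter.eventually_all.mpr fun i => ev_lt (by fun_prop) ?_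
      rw [zero_mul, zero_smul, add_zero]
      exact hδ1 i
    have h2 : ∀ᶠ s in 𝓝[>] (0 : ℝ), ∀ i j, i ≠ j →
        0 < Q ((w i + (s * (i.1 : ℝ)) • e) - (w j + (s * (j.1 : ℝ)) • e)) := by
      refine Filter.eventually_all.mpr fun i => Filter.eventually_all.mpr fun j => ?_
      by_cases hij : w i = w j
      · filter_upwards [self_mem_nhdsWithin] with s hs hne
        have h3 : (w i + (s * (i.1 : ℝ)) • e) - (w j + (s * (j.1 : ℝ)) • e) =
            (s * ((i.1 : ℝ) - (j.1 : ℝ))) • e := by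
          rw [hij, add_sub_add_left_eq_sub, ← sub_smul, mul_sub]
        rw [h3, Q_smul]
        have h4 : (i.1 : ℝ) - (j.1 : ℝ) ≠ 0 := by
          rw [sub_ne_zero]
          intro h5
          exact hne (Fin.ext (by exact_mod_cast h5))
        have h6 : s * ((i.1 : ℝ) - (j.1 : ℝ)) ≠ 0 := mul_ne_zero (ne_of_gt hs) h4
        positivity
      · have h3 : Continuous fun s : ℝ =>
            Q ((w i + (s * (i.1 : ℝ)) • e) - (w j + (s * (j.1 : ℝ)) • e)) :=
          Q_cont.comp (by fun_prop)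
        have h4 := ev_gt h3 (c := 0) (by simpa using hQ i j hij)
        filter_upwards [nhdsWithin_le_nhds h4] with s hs _
        exact hs
    exact ((h1.and h2).and self_mem_nhdsWithin).exists
  set a : Fin (d + 5) → E d × E d := fun i => w i + (s * (i.1 : ℝ)) • e with ha
  have haV : ∀ i j, a i - a j ∈ V := by
    intro i j
    have h1 : a i - a j = (w i - w j) + (s * (i.1 : ℝ) - s * (j.1 : ℝ)) • e := by
      simp only [ha]
      rw [sub_smul]
      abel
    rw [h1]
    exact V.add_mem (hwV i j) (V.smul_mem _ heV)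
  -- the third step
  let b : Basis (Fin (d + 3)) ℝ V := (Module.finBasis ℝ V).reindex (finCongr hV)
  let g : Fin (d + 5) → V := fun i =>
    if h : 0 < i.1 ∧ i.1 - 1 < d + 3 then b ⟨i.1 - 1, h.2⟩ else 0
  let κ : Fin (d + 3) → Fin (d + 5) := fun i => ⟨i.1 + 1, by omega⟩
  have hg0 : g ⟨0, by omega⟩ = 0 := by simp [g]
  have hgκ : ∀ i, g (κ i) = b i := by
    intro i
    have h1 : 0 < (κ i).1 ∧ (κ i).1 - 1 < d + 3 := ⟨Nat.succ_pos _, by simp [κ]⟩
    simp only [g]
    rw [dif_pos h1]
    congr 1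
  obtain ⟨t, ht1, ht2, ht3⟩ : ∃ t : ℝ,
      (∀ i, ‖(a i + t • (g i : E d × E d)) - (p i, q i)‖ < ε) ∧
      (∀ i j, i ≠ j → 0 < Q ((a i + t • (g i : E d × E d)) - (a j + t • (g j : E d × E d)))) ∧
      V ≤ Submodule.span ℝ (Set.range fun i =>
        (((⟨a (κ i) - a ⟨0, by omega⟩, haV _ _⟩ : V) + t • b i : V) : E d × E d)) := by
    have h1 : ∀ᶠ t in 𝓝[≠] (0 : ℝ), ∀ i,
        ‖(a i + t • (g i : E d × E d)) - (p i, q i)‖ < ε := by
      apply nhdsWithin_le_nhds
      refine Filter.eventually_all.mpr fun i => ev_lt (by fun_prop) ?_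
      rw [zero_smul, add_zero]
      exact hs1 i
    have h2 : ∀ᶠ t in 𝓝[≠] (0 : ℝ), ∀ i j, i ≠ j →
        0 < Q ((a i + t • (g i : E d × E d)) - (a j + t • (g j : E d × E d))) := by
      apply nhdsWithin_le_nhds
      refine Filter.eventually_all.mpr fun i => Filter.eventually_all.mpr fun j => ?_
      by_cases hij : i = j
      · exact Filter.Eventually.of_forall fun t h => absurd hij h
      · have h3 : Continuous fun t : ℝ =>
            Q ((a i + t • (g i : E d × E d)) - (a j + t • (g j : E d × E d))) :=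
          Q_cont.comp (by fun_prop)
        have h4 := ev_gt h3 (c := 0) (by simpa using hs2 i j hij)
        filter_upwards [h4] with t ht _
        exact ht
    have h3 := span_full V (d + 3) b (fun i => (⟨a (κ i) - a ⟨0, by omega⟩, haV _ _⟩ : V))
    obtain ⟨t, ⟨ht1, ht2⟩, ht3⟩ := ((h1.and h2).and h3).exists
    exact ⟨t, ht1, ht2, ht3⟩
  set w' : Fin (d + 5) → E d × E d := fun i => a i + t • (g i : E d × E d) with hw'
  refine ⟨fun i => (w' i).1, fun i => (w' i).2, contr_of w' ht2, fun i => ?_, fun i => ?_, ?_⟩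
  · exact ((norm_fst_le (w' i - (p i, q i))).trans (ht1 i).le)
  · exact ((norm_snd_le (w' i - (p i, q i))).trans (ht1 i).le)
  · have hspan : Submodule.span ℝ {w : E d × E d | ∃ i j,
        w = ((w' i).1 - (w' j).1, (w' i).2 - (w' j).2)} = V := by
      apply le_antisymm
      · rw [Submodule.span_le]
        rintro _ ⟨i, j, rfl⟩
        have h1 : (((w' i).1 - (w' j).1, (w' i).2 - (w' j).2) : E d × E d) =
            (a i - a j) + t • ((g i : E d × E d) - (g j : E d × E d)) := by
          have h2 : (((w' i).1 - (w' j).1, (w' i).2 - (w' j).2) : E d × E d) = w' i - w' j := rfl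
          rw [h2, hw', smul_sub]
          simp only
          abel
        rw [h1]
        exact V.add_mem (haV i j) (V.smul_mem _ (V.sub_mem (g i).2 (g j).2))
      · refine ht3.trans (Submodule.span_mono ?_)
        rintro _ ⟨i, rfl⟩
        refine ⟨κ i, ⟨0, by omega⟩, ?_⟩
        have h2 : (((w' (κ i)).1 - (w' ⟨0, by omega⟩).1,
          (w' (κ i)).2 - (w' ⟨0, by omega⟩).2) : E d × E d) = w' (κ i) - w' ⟨0, by omega⟩ := rfl
        rw [h2, hw']
        simp only
        rw [hg0, hgκ]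
        simp only [Submodule.coe_add, Submodule.coe_smul, Submodule.coe_zero, smul_zero, add_zero]
        abel
    rw [hspan, hV]

end Pool.Agent.Lib.MP_0c1c75_co.KA
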