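import Pool.Agent.Lib.MP_0c1c75_co.KA.Spec

/-!
# Module Ray: the kernel integrals of a configuration whose levels pass through one point
-/

set_option autoImplicit false

open MeasureTheory Set Filter Topology

namespace Pool.Agent.Lib.MP_0c1c75_co.KA

open Pool.Agent.Lib.MP_0c1c75_co.KG

namespace RayAux

/-! ## Measurability -/

theorem meas_Fij {N : ℕ} (γ : ℝ) (i j : Fin N) : Measurable (Fij γ i j) := by
  classical
  unfold Fij
  refine Measurable.ite ?_ ?_ measurable_const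
  · have : {y : Fin N → ℝ | ∀ k, 0 < y k} = ⋂ k, {y : Fin N → ℝ | 0 < y k} := by
      ext y; simp
    rw [this]
    exact MeasurableSet.iInter fun k => measurableSet_lt measurable_const (measurable_pi_apply k)
  · refine Measurable.mul (Measurable.pow_const ?_ _) (Measurable.pow_const ?_ _)
    · exact Finset.measurable_sum _ fun k _ => (measurable_pi_apply k).inv
    · exact (measurable_pi_apply i).inv.mul (measurable_pi_apply j).inv

theorem meas_r {m : ℕ} (M : Modes m) (k : Fin m) : Measurable (M.r k) := by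
  unfold Modes.r
  fun_prop

theorem meas_W {m : ℕ} (M : Modes m) : Measurable M.W := by
  unfold Modes.W
  exact Finset.measurable_prod _ fun k _ => (meas_r M k).pow_const _

theorem meas_hh {m N : ℕ} (M : Modes m) (ζ : Fin N → Fin m → ℝ) (i : Fin N) :
    Measurable (hh M ζ i) := by
  unfold hh
  refine Measurable.add (Finset.measurable_sum _ fun k _ => ?_) ?_
  · have h1 : Measurable fun x : (Fin m → ℝ) × (ℝ × ℝ) => M.r k x.2.1 :=
      (meas_r M k).comp (measurable_fst.comp measurable_snd)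
    have h2 : Measurable fun x : (Fin m → ℝ) × (ℝ × ℝ) => x.1 k :=
      (measurable_pi_apply k).comp measurable_fst
    exact ((h2.sub (h1.mul_const _)).pow_const _).div h1
  · exact (measurable_snd.comp measurable_snd).pow_const _

/-- the integrand of `Jij` -/
noncomputable def ff {m N : ℕ} (M : Modes m) (ζ : Fin N → Fin m → ℝ) (τ : Fin N → ℝ)
    (κ1 : ℝ → ℝ) (γ : ℝ) (i j : Fin N) (y : ℝ × ((Fin m → ℝ) × (ℝ × ℝ))) : ℝ :=
  -(κ1 y.1) * (M.W y.2.2.1 * Fij γ i j (fun k => τ k + y.1 - hh M ζ k y.2))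

theorem meas_ff {m N : ℕ} (M : Modes m) (ζ : Fin N → Fin m → ℝ) (τ : Fin N → ℝ)
    (κ1 : ℝ → ℝ) (hκ : Measurable κ1) (γ : ℝ) (i j : Fin N) : Measurable (ff M ζ τ κ1 γ i j) := by
  unfold ff
  refine Measurable.mul (hκ.comp measurable_fst).neg (Measurable.mul ?_ ?_)
  · exact (meas_W M).comp (measurable_fst.comp (measurable_snd.comp measurable_snd))
  · refine (meas_Fij γ i j).comp (measurable_pi_lambda _ fun k => ?_)
    exact (measurable_const.add measurable_fst).sub ((meas_hh M ζ k).comp measurable_snd)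

/-! ## The change of variables for fixed `(a, v)` -/

/-- the shear -/
def sh {m : ℕ} (φ : (Fin m → ℝ) → ℝ) (Y0 : Fin m → ℝ) (x : ℝ × (Fin m → ℝ)) :
    ℝ × (Fin m → ℝ) := (φ (Y0 + x.2) + x.1, Y0 + x.2)

theorem sh_mp {m : ℕ} (φ : (Fin m → ℝ) → ℝ) (hφ : Measurable φ) (Y0 : Fin m → ℝ) :
    MeasurePreserving (sh φ Y0) ((volume : Measure ℝ).prod (volume : Measure (Fin m → ℝ)))
      ((volume : Measure ℝ).prod (volume : Measure (Fin m → ℝ))) := by
  have h1 : MeasurePreserving (fun Y : Fin m → ℝ => Y0 + Y) volume volume :=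
    measurePreserving_add_left volume Y0
  have h2 : MeasurePreserving
      (fun p : (Fin m → ℝ) × ℝ => (Y0 + p.1, φ (Y0 + p.1) + p.2))
      ((volume : Measure (Fin m → ℝ)).prod (volume : Measure ℝ))
      ((volume : Measure (Fin m → ℝ)).prod (volume : Measure ℝ)) := by
    refine h1.skew_product (g := fun Y σ => φ (Y0 + Y) + σ) ?_ ?_
    · exact (hφ.comp (measurable_const.add measurable_fst)).add measurable_snd
    · exact ae_of_all _ fun Y => map_add_left_eq_self _ _
  have h3 := (Measure.measurePreserving_swap (μ := (volume : Measure (Fin m → ℝ)))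
    (ν := (volume : Measure ℝ))).comp (h2.comp (Measure.measurePreserving_swap
      (μ := (volume : Measure ℝ)) (ν := (volume : Measure (Fin m → ℝ)))))
  exact h3

theorem cov {m : ℕ} (φ : (Fin m → ℝ) → ℝ) (hφ : Measurable φ) (Y0 : Fin m → ℝ) (t : ℝ)
    (ht : t ≠ 0) (F : ℝ × (Fin m → ℝ) → ℝ) (hF : Measurable F) :
    ∫ x, |t| ^ (m + 1) * F (sh φ Y0 (t • x))
        ∂((volume : Measure ℝ).prod (volume : Measure (Fin m → ℝ))) =
      ∫ x, F x ∂((volume : Measure ℝ).prod (volume : Measure (Fin m → ℝ))) := by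
  rw [integral_const_mul, Measure.integral_comp_smul
    ((volume : Measure ℝ).prod (volume : Measure (Fin m → ℝ))) (fun x => F (sh φ Y0 x)) t]
  have h1 : Module.finrank ℝ (ℝ × (Fin m → ℝ)) = m + 1 := by
    rw [Module.finrank_prod, Module.finrank_self, Module.finrank_fin_fun, add_comm]
  have h2 : ∫ x, F (sh φ Y0 x) ∂((volume : Measure ℝ).prod (volume : Measure (Fin m → ℝ))) =
      ∫ x, F x ∂((volume : Measure ℝ).prod (volume : Measure (Fin m → ℝ))) := by
    have h3 := sh_mp φ hφ Y0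
    conv_rhs => rw [← h3.map_eq]
    rw [integral_map h3.measurable.aemeasurable hF.stronglyMeasurable.aestronglyMeasurable]
  rw [h1, h2, smul_eq_mul, ← mul_assoc, abs_inv, abs_pow, mul_inv_cancel₀, one_mul]
  exact pow_ne_zero _ (abs_ne_zero.2 ht)

theorem cov_int {m : ℕ} (φ : (Fin m → ℝ) → ℝ) (hφ : Measurable φ) (Y0 : Fin m → ℝ) (t : ℝ)
    (ht : t ≠ 0) (F : ℝ × (Fin m → ℝ) → ℝ)
    (hI : Integrable F ((volume : Measure ℝ).prod (volume : Measure (Fin m → ℝ)))) :
    Integrable (fun x => |t| ^ (m + 1) * F (sh φ Y0 (t • x)))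
      ((volume : Measure ℝ).prod (volume : Measure (Fin m → ℝ))) := by
  refine Integrable.const_mul ?_ _
  have h3 := sh_mp φ hφ Y0
  have h4 : Integrable (F ∘ sh φ Y0)
      ((volume : Measure ℝ).prod (volume : Measure (Fin m → ℝ))) := h3.integrable_comp_of_integrable hI
  exact h4.comp_smul ht

/-! ## Homogeneity -/

theorem Fij_hom {N : ℕ} (γ : ℝ) (i j : Fin N) (t : ℝ) (ht : 0 < t) (u : Fin N → ℝ) :
    Fij γ i j (fun k => t * u k) = t ^ (γ - 2) * Fij γ i j u := by
  classical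
  unfold Fij
  by_cases h : ∀ k, 0 < u k
  · have h1 : ∀ k, 0 < t * u k := fun k => mul_pos ht (h k)
    rw [if_pos h, if_pos h1]
    have h2 : ∑ k, (t * u k)⁻¹ = t⁻¹ * ∑ k, (u k)⁻¹ := by
      rw [Finset.mul_sum]
      exact Finset.sum_congr rfl fun k _ => by rw [mul_inv]
    have h3 : 0 ≤ ∑ k, (u k)⁻¹ := Finset.sum_nonneg fun k _ => (inv_pos.2 (h k)).le
    rw [h2, Real.mul_rpow (inv_pos.2 ht).le h3, Real.inv_rpow ht.le, ← Real.rpow_neg ht.le,
      mul_inv, mul_inv]
    have h4 : t ^ (γ - 2) = t ^ (-(-γ - 2)) * (t⁻¹ * t⁻¹) ^ 2 := by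
      have h5 : (t⁻¹ * t⁻¹) ^ 2 = t ^ (-4 : ℝ) := by
        rw [Real.rpow_neg ht.le, show (4 : ℝ) = ((4 : ℕ) : ℝ) by norm_num, Real.rpow_natCast]
        rw [← mul_inv, inv_pow]
        congr 1
        ring
      rw [h5, ← Real.rpow_add ht]
      congr 1
      ring
    rw [h4]
    ring
  · have h1 : ¬ ∀ k, 0 < t * u k := by
      intro h2
      exact h fun k => (mul_pos_iff_of_pos_left ht).1 (h2 k)
    rw [if_neg h, if_neg h1, mul_zero]

theorem Fij_zero {N : ℕ} (γ : ℝ) (i j : Fin N) (u : Fin N → ℝ) (h : ¬ ∀ k, 0 < u k) :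
    Fij γ i j u = 0 := by
  unfold Fij
  rw [if_neg h]

theorem Fij_nonneg {N : ℕ} (γ : ℝ) (i j : Fin N) (u : Fin N → ℝ) : 0 ≤ Fij γ i j u := by
  classical
  unfold Fij
  split_ifs with h
  · exact mul_nonneg (Real.rpow_nonneg (Finset.sum_nonneg fun k _ => (inv_pos.2 (h k)).le) _)
      (sq_nonneg _)
  · exact le_refl _

theorem pow_rpow {m : ℕ} {γ t : ℝ} (ht : 0 < t) :
    t ^ (m + 1) * t ^ (γ - 2) = t ^ ((m : ℝ) - 1 + γ) := by
  rw [← Real.rpow_natCast, ← Real.rpow_add ht]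
  congr 1
  push_cast
  ring

/-! ## The computation -/

theorem r_pos {m : ℕ} (M : Modes m) (k : Fin m) {a : ℝ} (ha : a ∈ Ioo (0 : ℝ) 1) :
    0 < M.r k a := by
  unfold Modes.r
  have h1 := M.hμ k
  have h2 := M.hν k
  have h3 := M.hs k
  have h4 : 0 ≤ (1 - a) * M.μ k := mul_nonneg (by linarith [ha.2]) h1
  have h5 : 0 ≤ a * M.ν k := mul_nonneg ha.1.le h2
  rcases eq_or_lt_of_le h1 with h | h
  · have : M.ν k = 1 := by linarith
    rw [this]
    linarith [ha.1]
  · have : 0 < (1 - a) * M.μ k := mul_pos (by linarith [ha.2]) h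
    linarith

/-- `∑ Y_k² / r_k + v² - h*` -/
noncomputable def SS {m : ℕ} (M : Modes m) (hs : ℝ) (A : ℝ × ℝ) (Y : Fin m → ℝ) : ℝ :=
  ∑ k, Y k ^ 2 / M.r k A.1 + A.2 ^ 2 - hs

/-- `η + l_k(Z)` -/
noncomputable def uu {m N : ℕ} (M : Modes m) (ζ : Fin N → Fin m → ℝ) (x : ℝ × (Fin m → ℝ))
    (k : Fin N) : ℝ :=
  x.1 + ∑ j, (2 * x.2 j * ζ k j + (M.μ j - M.ν j) * ζ k j ^ 2)

theorem y_eq {m N : ℕ} (M : Modes m) (ζ : Fin N → Fin m → ℝ) (Ys : Fin m → ℝ) (as hs : ℝ)
    (x : ℝ × (Fin m → ℝ)) (A : ℝ × ℝ) (hA : A.1 ∈ Ioo (0 : ℝ) 1) (k : Fin N) :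
    lev M ζ Ys as hs k + (sh (SS M hs A) Ys ((A.1 - as) • x)).1 -
      hh M ζ k ((sh (SS M hs A) Ys ((A.1 - as) • x)).2, A) = (A.1 - as) * uu M ζ x k := by
  obtain ⟨Y, hY⟩ : ∃ Y : Fin m → ℝ, Y = Ys + (A.1 - as) • x.2 := ⟨_, rfl⟩
  have e1 : sh (SS M hs A) Ys ((A.1 - as) • x) = (SS M hs A Y + (A.1 - as) * x.1, Y) := by
    unfold sh
    rw [hY]
    rfl
  rw [e1]
  have e2 : hh M ζ k (Y, A) = ∑ j, Y j ^ 2 / M.r j A.1 + A.2 ^ 2 +
      ∑ j, (-(2 * Y j * ζ k j) + M.r j A.1 * ζ k j ^ 2) := by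
    unfold hh
    rw [add_right_comm, ← Finset.sum_add_distrib]
    congr 1
    refine Finset.sum_congr rfl fun j _ => ?_
    have h1 := (r_pos M j hA).ne'
    simp only
    field_simp
    ring
  have e3 : lev M ζ Ys as hs k = hs + ∑ j, (-(2 * Ys j * ζ k j) + M.r j as * ζ k j ^ 2) := by
    unfold lev
    rw [Finset.sum_add_distrib, Finset.mul_sum, Finset.sum_neg_distrib]
    have h1 : ∀ j, 2 * (Ys j * ζ k j) = 2 * Ys j * ζ k j := fun j => by ring
    simp only [h1]
    ring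
  have e4 : ∑ j, (-(2 * Ys j * ζ k j) + M.r j as * ζ k j ^ 2) -
      ∑ j, (-(2 * Y j * ζ k j) + M.r j A.1 * ζ k j ^ 2) =
      (A.1 - as) * ∑ j, (2 * x.2 j * ζ k j + (M.μ j - M.ν j) * ζ k j ^ 2) := by
    rw [← Finset.sum_sub_distrib, Finset.mul_sum]
    refine Finset.sum_congr rfl fun j _ => ?_
    rw [hY]
    simp only [Pi.add_apply, Pi.smul_apply, smul_eq_mul, Modes.r]
    ring
  rw [e2, e3]
  unfold SS uu
  rw [mul_add, ← e4]
  ring

/-- the value of `s` in terms of `ψ` -/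
theorem s_eq {m : ℕ} (M : Modes m) (Ys : Fin m → ℝ) (as hs : ℝ) (x : ℝ × (Fin m → ℝ))
    (A : ℝ × ℝ) : (sh (SS M hs A) Ys ((A.1 - as) • x)).1 =
      M.psi (-x.2) (-x.1) (Ys - as • x.2) A.1 + A.2 ^ 2 + (-hs - as * x.1) := by
  unfold sh SS Modes.psi
  have h1 : ∀ k, (Ys + ((A.1 - as) • x).2) k = (Ys - as • x.2) k - A.1 * (-x.2) k := by
    intro k
    simp only [Pi.add_apply, Pi.sub_apply, Pi.neg_apply, Prod.smul_snd, Pi.smul_apply, smul_eq_mul]
    ring
  simp only [h1, Prod.smul_fst, smul_eq_mul]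
  ring

theorem meas_SS {m : ℕ} (M : Modes m) (hs : ℝ) :
    Measurable fun z : (Fin m → ℝ) × (ℝ × ℝ) => SS M hs z.2 z.1 := by
  unfold SS
  refine Measurable.sub (Measurable.add (Finset.measurable_sum _ fun k _ => ?_) ?_)
    measurable_const
  · exact (((measurable_pi_apply k).comp measurable_fst).pow_const 2).div
      ((meas_r M k).comp (measurable_fst.comp measurable_snd))
  · exact (measurable_snd.comp measurable_snd).pow_const 2

theorem meas_SA {m : ℕ} (M : Modes m) (hs : ℝ) (A : ℝ × ℝ) : Measurable (SS M hs A) := by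
  unfold SS
  refine Measurable.sub (Measurable.add (Finset.measurable_sum _ fun k _ => ?_) measurable_const)
    measurable_const
  exact ((measurable_pi_apply k).pow_const 2).div_const _

theorem meas_sh {m : ℕ} (M : Modes m) (hs : ℝ) (Ys : Fin m → ℝ) (as : ℝ) :
    Measurable fun z : (ℝ × (Fin m → ℝ)) × (ℝ × ℝ) =>
      sh (SS M hs z.2) Ys ((z.2.1 - as) • z.1) := by
  have a1 : Measurable fun z : (ℝ × (Fin m → ℝ)) × (ℝ × ℝ) => z.2.1 - as :=
    (measurable_fst.comp measurable_snd).sub measurable_const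
  have a2 : Measurable fun z : (ℝ × (Fin m → ℝ)) × (ℝ × ℝ) => (z.2.1 - as) * z.1.1 :=
    a1.mul (measurable_fst.comp measurable_fst)
  have a3 : Measurable fun z : (ℝ × (Fin m → ℝ)) × (ℝ × ℝ) => Ys + (z.2.1 - as) • z.1.2 :=
    measurable_const.add (a1.smul (measurable_snd.comp measurable_fst))
  have a4 : Measurable fun z : (ℝ × (Fin m → ℝ)) × (ℝ × ℝ) =>
      (Ys + (z.2.1 - as) • z.1.2, z.2) := a3.prodMk measurable_snd
  have a5 := (meas_SS M hs).comp a4
  exact (a5.add a2).prodMk a3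

end RayAux

open RayAux


theorem rayStmt (hb : BoundStmt) (hadm : AdmWStmt) (hml : ML2WStmt) : RayStmt := by
  classical
  intro m N M ζ Ys as hs h0 h1 κ κ1 hκ hκ0 γ hγ0 hγ1 i j hij hζ
  obtain ⟨hκd, hκc, S0, hκS⟩ := hκ
  obtain ⟨τ, hτ⟩ : ∃ τ, τ = lev M ζ Ys as hs := ⟨_, rfl⟩
  obtain ⟨f, hf⟩ : ∃ f, f = ff M ζ τ κ1 γ i j := ⟨_, rfl⟩
  have hfm : Measurable f := by rw [hf]; exact meas_ff M ζ τ κ1 hκc.measurable γ i j
  obtain ⟨ν, hν⟩ : ∃ ν : Measure (ℝ × ℝ), ν = volume.restrict strip := ⟨_, rfl⟩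
  have hsf : SFinite ν := by rw [hν]; infer_instance
  have hfI : Integrable f ((volume : Measure ℝ).prod ((volume : Measure (Fin m → ℝ)).prod ν)) := by
    have h2 := hb m N M ζ τ κ κ1 ⟨hκd, hκc, S0, hκS⟩ γ hγ0 hγ1 i j hij hζ
    rw [hν, hf]
    refine h2.neg.congr (ae_of_all _ fun y => ?_)
    simp only [Pi.neg_apply, ff]
    ring
  have hstrip : MeasurableSet strip := measurableSet_Ioo.prod MeasurableSet.univ
  have hJ : Jij M ζ τ κ1 γ i j =
      ∫ y, f y ∂((volume : Measure ℝ).prod ((volume : Measure (Fin m → ℝ)).prod ν)) := by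
    rw [hf, hν]
    rfl
  rw [← hτ, hJ]
  -- reorder the variables
  have hassoc := measurePreserving_prodAssoc (volume : Measure ℝ)
    (volume : Measure (Fin m → ℝ)) ν
  obtain ⟨F, hF⟩ : ∃ F : (ℝ × (Fin m → ℝ)) × (ℝ × ℝ) → ℝ,
      F = fun z => f (z.1.1, (z.1.2, z.2)) := ⟨_, rfl⟩
  have hFm : Measurable F := by
    rw [hF]
    exact hfm.comp ((measurable_fst.comp measurable_fst).prodMk
      ((measurable_snd.comp measurable_fst).prodMk measurable_snd))
  obtain ⟨lam, hlam⟩ : ∃ lam : Measure (ℝ × (Fin m → ℝ)),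
      lam = (volume : Measure ℝ).prod (volume : Measure (Fin m → ℝ)) := ⟨_, rfl⟩
  have hlsf : SFinite lam := by rw [hlam]; infer_instance
  rw [← hlam] at hassoc
  have hFI : Integrable F (lam.prod ν) := by
    rw [hF]
    exact hassoc.integrable_comp_of_integrable hfI
  have hJ2 : ∫ y, f y ∂((volume : Measure ℝ).prod ((volume : Measure (Fin m → ℝ)).prod ν)) =
      ∫ z, F z ∂(lam.prod ν) := by
    rw [← hassoc.map_eq, integral_map hassoc.measurable.aemeasurable
      hfm.stronglyMeasurable.aestronglyMeasurable, hF]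
    rfl
  rw [hJ2]
  -- the new integrand
  obtain ⟨g, hg⟩ : ∃ g : (ℝ × (Fin m → ℝ)) × (ℝ × ℝ) → ℝ,
      g = fun z => |z.2.1 - as| ^ (m + 1) * F (sh (SS M hs z.2) Ys ((z.2.1 - as) • z.1), z.2) :=
    ⟨_, rfl⟩
  have hgm : Measurable g := by
    rw [hg]
    have a1 : Measurable fun z : (ℝ × (Fin m → ℝ)) × (ℝ × ℝ) => z.2.1 - as :=
      (measurable_fst.comp measurable_snd).sub measurable_const
    have a2 : Measurable fun z : (ℝ × (Fin m → ℝ)) × (ℝ × ℝ) =>
        (sh (SS M hs z.2) Ys ((z.2.1 - as) • z.1), z.2) :=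
      (meas_sh M hs Ys as).prodMk measurable_snd
    exact (a1.abs.pow_const _).mul (hFm.comp a2)
  have hSA : ∀ A : ℝ × ℝ, Measurable (SS M hs A) := meas_SA M hs
  have hne : ∀ᵐ A ∂ν, A.1 - as ≠ 0 := by
    rw [hν]
    refine ae_restrict_of_ae ?_
    have h2 : volume (({as} : Set ℝ) ×ˢ (univ : Set ℝ)) = 0 := by
      rw [Measure.volume_eq_prod, Measure.prod_prod, Real.volume_singleton, zero_mul]
    rw [ae_iff]
    refine measure_mono_null ?_ h2
    intro A hA
    rw [mem_ofPred_eq, not_not] at hA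
    exact ⟨sub_eq_zero.1 hA, mem_univ _⟩
  have hcov : ∀ A : ℝ × ℝ, A.1 - as ≠ 0 → ∫ x, g (x, A) ∂lam = ∫ x, F (x, A) ∂lam := by
    intro A hA
    rw [hg, hlam]
    exact cov (SS M hs A) (hSA A) Ys (A.1 - as) hA (fun x => F (x, A))
      (hFm.comp (measurable_id.prodMk measurable_const))
  have hcovn : ∀ A : ℝ × ℝ, A.1 - as ≠ 0 → ∫ x, ‖g (x, A)‖ ∂lam = ∫ x, ‖F (x, A)‖ ∂lam := by
    intro A hA
    have h2 := cov (SS M hs A) (hSA A) Ys (A.1 - as) hA (fun x => ‖F (x, A)‖)
      (hFm.comp (measurable_id.prodMk measurable_const)).norm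
    rw [hlam, ← h2]
    refine integral_congr_ae (ae_of_all _ fun x => ?_)
    rw [hg]
    simp only [norm_mul, norm_pow, Real.norm_eq_abs, abs_abs]
  have hgI : Integrable g (lam.prod ν) := by
    rw [integrable_prod_iff' hgm.stronglyMeasurable.aestronglyMeasurable]
    have h2 := (integrable_prod_iff' hFm.stronglyMeasurable.aestronglyMeasurable).1 hFI
    constructor
    · filter_upwards [h2.1, hne] with A hA1 hA2
      rw [hg]
      rw [hlam] at hA1 ⊢
      exact cov_int (SS M hs A) (hSA A) Ys (A.1 - as) hA2 (fun x => F (x, A)) hA1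
    · refine h2.2.congr ?_
      filter_upwards [hne] with A hA
      exact (hcovn A hA).symm
  have hJ3 : ∫ z, F z ∂(lam.prod ν) = ∫ z, g z ∂(lam.prod ν) := by
    rw [integral_prod_symm _ hFI, integral_prod_symm _ hgI]
    refine integral_congr_ae ?_
    filter_upwards [hne] with A hA
    exact (hcov A hA).symm
  rw [hJ3, integral_prod _ hgI]
  -- almost all `Z` are good
  have hm3 : 3 ≤ m := by
    have h2 := M.hμ3
    have h3 := Finset.card_le_univ (Finset.univ.filter (fun k => M.μ k = 0))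
    rw [Fintype.card_fin] at h3
    omega
  have hgood : ∀ᵐ x ∂lam, M.Good (-x.2) (Ys - as • x.2) := by
    obtain ⟨k1, hk1⟩ : (Finset.univ.filter (fun k => M.μ k = 0)).Nonempty :=
      Finset.card_pos.1 (by have := M.hμ3; omega)
    obtain ⟨k2, hk2⟩ : (Finset.univ.filter (fun k => M.ν k = 0)).Nonempty :=
      Finset.card_pos.1 (by have := M.hν3; omega)
    rw [Finset.mem_filter] at hk1 hk2
    have h2 : ∀ᵐ Z ∂(volume : Measure (Fin m → ℝ)), Z k1 ≠ Ys k1 / as :=
      Measure.ae_eval_ne (fun _ : Fin m => (volume : Measure ℝ)) k1 _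
    have h3 : ∀ᵐ Z ∂(volume : Measure (Fin m → ℝ)), Z k2 ≠ -(Ys k2 / (1 - as)) :=
      Measure.ae_eval_ne (fun _ : Fin m => (volume : Measure ℝ)) k2 _
    have h4 : ∀ᵐ Z ∂(volume : Measure (Fin m → ℝ)), M.Good (-Z) (Ys - as • Z) := by
      filter_upwards [h2, h3] with Z hZ1 hZ2
      refine ⟨⟨k1, hk1.2, ?_⟩, ⟨k2, hk2.2, ?_⟩⟩
      · intro h5
        apply hZ1
        rw [Pi.sub_apply, Pi.smul_apply, smul_eq_mul] at h5
        rw [eq_div_iff h0]
        linarith
      · intro h5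
        apply hZ2
        rw [Pi.sub_apply, Pi.smul_apply, Pi.neg_apply, smul_eq_mul] at h5
        have h6 : (1 : ℝ) - as ≠ 0 := sub_ne_zero.2 (Ne.symm h1)
        rw [← neg_div, eq_div_iff h6]
        linarith
    rw [hlam]
    exact Measure.quasiMeasurePreserving_snd.ae h4
  refine integral_nonneg_of_ae ?_
  filter_upwards [hgood] with x hx
  simp only [Pi.zero_apply]
  -- the function of one pair `(a, v)`
  obtain ⟨p, hp⟩ : ∃ p : ℝ, p = (m : ℝ) - 1 + γ := ⟨_, rfl⟩
  have hp0 : p ≠ 0 := by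
    have : (3 : ℝ) ≤ m := by exact_mod_cast hm3
    rw [hp]
    linarith
  have hmp : (m : ℝ) - 1 ≤ p := by rw [hp]; linarith
  have hgx : ∀ A ∈ strip, g (x, A) = |A.1 - as| ^ (m + 1) *
      (-(κ1 (M.psi (-x.2) (-x.1) (Ys - as • x.2) A.1 + A.2 ^ 2 + (-hs - as * x.1))) *
        (M.W A.1 * Fij γ i j (fun k => (A.1 - as) * uu M ζ x k))) := by
    intro A hA
    have hA1 : A.1 ∈ Ioo (0 : ℝ) 1 := hA.1
    rw [hg, hF, hf]
    simp only [ff]
    rw [← s_eq M Ys as hs x A, hτ]
    have h2 : (fun k => lev M ζ Ys as hs k + (sh (SS M hs A) Ys ((A.1 - as) • x)).1 -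
        hh M ζ k ((sh (SS M hs A) Ys ((A.1 - as) • x)).2, A)) =
        fun k => (A.1 - as) * uu M ζ x k :=
      funext fun k => y_eq M ζ Ys as hs x A hA1 k
    rw [h2]
  have hGd : ∀ h, HasDerivAt (fun h => κ (h + (-hs - as * x.1))) (κ1 (h + (-hs - as * x.1))) h :=
    fun h => (hκd (h + (-hs - as * x.1))).comp_add_const h _
  have hGc : Continuous fun h => κ1 (h + (-hs - as * x.1)) :=
    hκc.comp (continuous_id.add continuous_const)
  have hGt : Tendsto (fun h => κ (h + (-hs - as * x.1))) atTop (𝓝 0) := by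
    refine tendsto_const_nhds.congr' ?_
    filter_upwards [eventually_ge_atTop (S0 - (-hs - as * x.1))] with h hh
    exact (hκS _ (le_trans (by linarith) (le_abs_self _))).symm
  have hcase : ∀ (w : ℝ → ℝ) (C : ℝ), Adm M w → 0 ≤ C → (∀ A ∈ strip, g (x, A) =
      -C * (w A.1 * κ1 (M.psi (-x.2) (-x.1) (Ys - as • x.2) A.1 + A.2 ^ 2 +
        (-hs - as * x.1)))) → 0 ≤ ∫ A, g (x, A) ∂ν := by
    intro w C hw hC heq
    rw [hν, setIntegral_congr_fun hstrip heq, integral_const_mul]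
    by_cases hI : IntegrableOn (fun A : ℝ × ℝ => w A.1 *
        κ1 (M.psi (-x.2) (-x.1) (Ys - as • x.2) A.1 + A.2 ^ 2 + (-hs - as * x.1))) strip
    · have h2 := hml m M w hw (-x.2) (Ys - as • x.2) (-x.1) hx
        (fun h => κ (h + (-hs - as * x.1))) (fun h => κ1 (h + (-hs - as * x.1))) hGd hGc
        (fun h => hκ0 _) hGt hI
      nlinarith [mul_nonneg hC (neg_nonneg.2 h2)]
    · rw [integral_undef hI, mul_zero]
  by_cases hu : ∀ k, 0 < uu M ζ x k
  · -- `t > 0`
    refine hcase (fun a => M.W a * (max (a - as) 0) ^ p) (Fij γ i j (uu M ζ x))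
      (hadm m M as p hmp).1 (Fij_nonneg _ _ _ _) ?_
    intro A hA
    rw [hgx A hA]
    rcases lt_trichotomy (A.1 - as) 0 with ht | ht | ht
    · have h2 : ¬ ∀ k, 0 < (A.1 - as) * uu M ζ x k := by
        intro h3
        have h4 := h3 i
        have h5 := mul_neg_of_neg_of_pos ht (hu i)
        linarith
      rw [Fij_zero _ _ _ _ h2, max_eq_right ht.le, Real.zero_rpow hp0]
      ring
    · rw [ht, abs_zero, zero_pow (Nat.succ_ne_zero m), max_self, Real.zero_rpow hp0]
      ring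
    · rw [Fij_hom γ i j _ ht, abs_of_pos ht, max_eq_left ht.le, hp, ← pow_rpow ht]
      ring
  · by_cases hu' : ∀ k, 0 < -uu M ζ x k
    · refine hcase (fun a => M.W a * (max (as - a) 0) ^ p) (Fij γ i j (fun k => -uu M ζ x k))
        (hadm m M as p hmp).2 (Fij_nonneg _ _ _ _) ?_
      intro A hA
      rw [hgx A hA]
      rcases lt_trichotomy (as - A.1) 0 with ht | ht | ht
      · have h2 : ¬ ∀ k, 0 < (A.1 - as) * uu M ζ x k := by
          intro h3
          have h4 := h3 i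
          have h5 := hu' i
          have h6 : 0 < (A.1 - as) * -uu M ζ x i := mul_pos (by linarith) h5
          linarith
        rw [Fij_zero _ _ _ _ h2, max_eq_right ht.le, Real.zero_rpow hp0]
        ring
      · have ht' : A.1 - as = 0 := by linarith
        rw [ht, ht', abs_zero, zero_pow (Nat.succ_ne_zero m), max_self, Real.zero_rpow hp0]
        ring
      · have h2 : (fun k => (A.1 - as) * uu M ζ x k) = fun k => (as - A.1) * -uu M ζ x k := by
          funext k
          ring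
        have h3 : |A.1 - as| = as - A.1 := by
          rw [abs_sub_comm]
          exact abs_of_pos ht
        rw [h2, Fij_hom γ i j _ ht (fun k => -uu M ζ x k), h3, max_eq_left ht.le, hp,
          ← pow_rpow ht]
        ring
    · refine hcase (fun a => M.W a * (max (a - as) 0) ^ p) 0 (hadm m M as p hmp).1 (le_refl _) ?_
      intro A hA
      rw [hgx A hA]
      rcases lt_trichotomy (A.1 - as) 0 with ht | ht | ht
      · have h2 : ¬ ∀ k, 0 < (A.1 - as) * uu M ζ x k := by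
          intro h3
          apply hu'
          intro k
          have h4 := h3 k
          by_contra h5
          rw [not_lt] at h5
          have h6 : (A.1 - as) * uu M ζ x k ≤ 0 :=
            mul_nonpos_of_nonpos_of_nonneg ht.le (by linarith)
          linarith
        rw [Fij_zero _ _ _ _ h2]
        ring
      · rw [ht, abs_zero, zero_pow (Nat.succ_ne_zero m)]
        ring
      · have h2 : ¬ ∀ k, 0 < (A.1 - as) * uu M ζ x k := by
          intro h3
          exact hu fun k => (mul_pos_iff_of_pos_left ht).1 (h3 k)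
        rw [Fij_zero _ _ _ _ h2]
        ring

end Pool.Agent.Lib.MP_0c1c75_co.KA

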