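import Pool.Agent.Lib.MP_0c1c75_co.KA.Spec

/-!
# Theorem A: the affine relation for `d + 5` points (helper11)
-/

set_option autoImplicit false

open scoped RealInnerProductSpace

namespace Pool.Agent.Lib.MP_0c1c75_co.KA

open Pool.Agent.Lib.MP_0c1c75_co.KG

namespace RelAux

/-- the functional `(x, y) ↦ ⟪α, x⟫ + ⟪β, y⟫` -/
private noncomputable def Phi (d : ℕ) : (E d × E d) →ₗ[ℝ] Module.Dual ℝ (E d × E d) where
  toFun a := (innerₗ (E d) a.1).coprod (innerₗ (E d) a.2)
  map_add' a b := by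
    refine LinearMap.ext fun x => ?_
    simp only [LinearMap.coprod_apply, LinearMap.add_apply, innerₗ_apply_apply, Prod.fst_add,
      Prod.snd_add, inner_add_left]
    ring
  map_smul' c a := by
    refine LinearMap.ext fun x => ?_
    simp only [LinearMap.coprod_apply, LinearMap.smul_apply, innerₗ_apply_apply, Prod.smul_fst,
      Prod.smul_snd, real_inner_smul_left, RingHom.id_apply, smul_eq_mul]
    ring

private theorem Phi_apply {d : ℕ} (a x : E d × E d) : Phi d a x = ⟪a.1, x.1⟫ + ⟪a.2, x.2⟫ := by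
  change (innerₗ (E d) a.1).coprod (innerₗ (E d) a.2) x = _
  rw [LinearMap.coprod_apply, innerₗ_apply_apply, innerₗ_apply_apply]

private theorem Phi_inj {d : ℕ} {a : E d × E d} (h : Phi d a = 0) : a = 0 := by
  have h1 : Phi d a a = 0 := by rw [h, LinearMap.zero_apply]
  rw [Phi_apply, real_inner_self_eq_norm_sq, real_inner_self_eq_norm_sq] at h1
  have h2 : ‖a.1‖ ^ 2 = 0 := by nlinarith [sq_nonneg ‖a.1‖, sq_nonneg ‖a.2‖]
  have h3 : ‖a.2‖ ^ 2 = 0 := by nlinarith [sq_nonneg ‖a.1‖, sq_nonneg ‖a.2‖]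
  refine Prod.ext ?_ ?_
  · exact norm_eq_zero.1 (pow_eq_zero_iff (by norm_num) |>.1 h2)
  · exact norm_eq_zero.1 (pow_eq_zero_iff (by norm_num) |>.1 h3)

/-- the affine functions of the points -/
private noncomputable def Lm {d N : ℕ} (p q : Fin N → E d) :
    (ℝ × (E d × E d)) →ₗ[ℝ] (Fin N → ℝ) where
  toFun a i := a.1 + Phi d a.2 (p i, q i)
  map_add' a b := by
    funext i
    simp only [Prod.fst_add, Prod.snd_add, map_add, LinearMap.add_apply, Pi.add_apply]
    ring
  map_smul' c a := by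
    funext i
    simp only [Prod.smul_fst, Prod.smul_snd, map_smul, LinearMap.smul_apply, smul_eq_mul,
      Pi.smul_apply, RingHom.id_apply]
    ring

private theorem Lm_apply {d N : ℕ} (p q : Fin N → E d) (a : ℝ × (E d × E d)) (i : Fin N) :
    Lm p q a i = a.1 + Phi d a.2 (p i, q i) := rfl

private theorem ker_le {d N : ℕ} (p q : Fin N → E d) (i0 : Fin N) :
    Module.finrank ℝ (LinearMap.ker (Lm p q)) ≤
      Module.finrank ℝ (Submodule.span ℝ
        {w : E d × E d | ∃ i j, w = (p i - p j, q i - q j)}).dualAnnihilator := by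
  have hmem : ∀ x : LinearMap.ker (Lm p q), Phi d (x : ℝ × (E d × E d)).2 ∈
      (Submodule.span ℝ {w : E d × E d | ∃ i j, w = (p i - p j, q i - q j)}).dualAnnihilator := by
    intro x
    rw [Submodule.mem_dualAnnihilator]
    have h1 : Submodule.span ℝ {w : E d × E d | ∃ i j, w = (p i - p j, q i - q j)} ≤
        LinearMap.ker (Phi d (x : ℝ × (E d × E d)).2) := by
      rw [Submodule.span_le]
      rintro w ⟨i, j, rfl⟩
      have h2 := congrFun (LinearMap.mem_ker.1 x.2) i
      have h3 := congrFun (LinearMap.mem_ker.1 x.2) j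
      rw [Lm_apply, Pi.zero_apply] at h2 h3
      have h4 : (p i - p j, q i - q j) = (p i, q i) - (p j, q j) := rfl
      rw [SetLike.mem_coe, LinearMap.mem_ker, h4, map_sub]
      linarith
    intro w hw
    exact LinearMap.mem_ker.1 (h1 hw)
  let g : LinearMap.ker (Lm p q) →ₗ[ℝ] (Submodule.span ℝ
        {w : E d × E d | ∃ i j, w = (p i - p j, q i - q j)}).dualAnnihilator :=
    LinearMap.codRestrict _ ((Phi d).comp ((LinearMap.snd ℝ ℝ (E d × E d)).comp
      (LinearMap.ker (Lm p q)).subtype)) hmem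
  refine LinearMap.finrank_le_finrank_of_injective (f := g) ?_
  rw [injective_iff_map_eq_zero]
  intro x hx
  have h1 : Phi d (x : ℝ × (E d × E d)).2 = 0 := congrArg Subtype.val hx
  have h2 := Phi_inj h1
  have h3 := congrFun (LinearMap.mem_ker.1 x.2) i0
  rw [Lm_apply, h1, LinearMap.zero_apply, add_zero, Pi.zero_apply] at h3
  exact Subtype.ext (Prod.ext h3 h2)

/-- two vectors of a space of dimension at most one -/
private theorem dep {V : Type*} [AddCommGroup V] [Module ℝ V] [Module.Finite ℝ V]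
    (h : Module.finrank ℝ V ≤ 1) (u v : V) :
    ∃ lam mu : ℝ, ¬(lam = 0 ∧ mu = 0) ∧ lam • u + mu • v = 0 := by
  obtain ⟨e, he⟩ := finrank_le_one_iff.1 h
  obtain ⟨a, ha⟩ := he u
  obtain ⟨b, hb⟩ := he v
  by_cases h0 : b = 0
  · refine ⟨0, 1, fun h1 => one_ne_zero h1.2, ?_⟩
    rw [← hb, h0, zero_smul, zero_smul, smul_zero, add_zero]
  · refine ⟨b, -a, fun h1 => h0 h1.1, ?_⟩
    rw [← ha, ← hb, smul_smul, smul_smul, ← add_smul]
    have h2 : b * a + -a * b = 0 := by ring
    rw [h2, zero_smul]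

end RelAux

open RelAux

theorem relStmt : RelStmt := by
  intro d N p q r hN hfr
  have hN0 : 0 < N := by
    rcases Nat.eq_zero_or_pos N with h0 | h0
    · exfalso
      have h1 : {w : E d × E d | ∃ i j, w = (p i - p j, q i - q j)} = ∅ := by
        refine Set.eq_empty_of_forall_notMem ?_
        rintro w ⟨i, _⟩
        have := i.2
        omega
      rw [h1, Submodule.span_empty, finrank_bot] at hfr
      omega
    · exact h0
  have h1 := ker_le p q ⟨0, hN0⟩
  have h2 := Subspace.finrank_add_finrank_dualAnnihilator_eq (Submodule.span ℝ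
        {w : E d × E d | ∃ i j, w = (p i - p j, q i - q j)})
  have h3 := LinearMap.finrank_range_add_finrank_ker (Lm p q)
  have h4 : Module.finrank ℝ (E d × E d) = d + d := by
    rw [Module.finrank_prod, finrank_euclideanSpace_fin]
  have h5 : Module.finrank ℝ (ℝ × (E d × E d)) = 1 + (d + d) := by
    rw [Module.finrank_prod, h4, Module.finrank_self]
  rw [hfr, h4] at h2
  rw [h5] at h3
  have h6 := Submodule.finrank_quotient_add_finrank (LinearMap.range (Lm p q))
  rw [Module.finrank_fin_fun] at h6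
  have h7 : Module.finrank ℝ ((Fin N → ℝ) ⧸ LinearMap.range (Lm p q)) ≤ 1 := by omega
  obtain ⟨lam, mu, h8, h9⟩ := dep h7
    ((LinearMap.range (Lm p q)).mkQ fun i => ‖p i‖ ^ 2 - r i ^ 2)
    ((LinearMap.range (Lm p q)).mkQ fun i => ‖q i‖ ^ 2 - r i ^ 2)
  rw [← map_smul, ← map_smul, ← map_add, ← LinearMap.mem_ker, Submodule.ker_mkQ] at h9
  obtain ⟨a, ha⟩ := h9
  refine ⟨lam, mu, a.1, a.2.1, a.2.2, h8, fun i => ?_⟩
  have h10 := congrFun ha i
  rw [Lm_apply, Phi_apply] at h10
  simp only [Pi.add_apply, Pi.smul_apply, smul_eq_mul] at h10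
  linarith

end Pool.Agent.Lib.MP_0c1c75_co.KA
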