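import Pool.Agent.Lib.MP_0c1c75_co.KA.Spec

/-!
MP_0c1c75_co, KA/RepW: the kernel representation without the third condition of the normal form.
-/

set_option autoImplicit false

open MeasureTheory Set Filter Topology

namespace Pool.Agent.Lib.MP_0c1c75_co.KA

open Pool.Agent.Lib.MP_0c1c75_co.KG

namespace RepWAux

variable {N m : ℕ}

private lemma nn_pos {l : Fin N →₀ ℕ} (hl : l ≠ 0) : 0 < nn l := by
  unfold nn
  obtain ⟨i, hi⟩ : ∃ i, l i ≠ 0 := by
    by_contra h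
    push Not at h
    exact hl (Finsupp.ext h)
  refine Finset.sum_pos' (fun i _ => Nat.cast_nonneg _) ⟨i, Finset.mem_univ i, ?_⟩
  exact_mod_cast Nat.pos_of_ne_zero hi

private lemma r_pos (M : Modes m) (k : Fin m) {a : ℝ} (ha : a ∈ Ioo (0 : ℝ) 1) :
    0 < M.r k a := by
  obtain ⟨h0, h1⟩ := ha
  have hμ := M.hμ k
  have hν := M.hν k
  have hs := M.hs k
  unfold Modes.r
  rcases lt_or_eq_of_le hμ with h | h
  · have h2 : 0 < (1 - a) * M.μ k := mul_pos (by linarith) h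
    have h3 : 0 ≤ a * M.ν k := mul_nonneg h0.le hν
    linarith
  · have h2 : M.ν k = 1 := by linarith
    rw [← h, h2]
    linarith

/-- first moment -/
private noncomputable def S1 (ζ : Fin N → Fin m → ℝ) (l : Fin N →₀ ℕ) (k : Fin m) : ℝ :=
  ∑ i, (l i : ℝ) * ζ i k

/-- second moment -/
private noncomputable def S2 (ζ : Fin N → Fin m → ℝ) (l : Fin N →₀ ℕ) (k : Fin m) : ℝ :=
  ∑ i, (l i : ℝ) * ζ i k ^ 2

private lemma dbl (ζ : Fin N → Fin m → ℝ) (l : Fin N →₀ ℕ) (k : Fin m) :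
    ∑ i, ∑ j, (l i : ℝ) * (l j : ℝ) * (ζ i k - ζ j k) ^ 2 =
      2 * (nn l * S2 ζ l k - S1 ζ l k ^ 2) := by
  have h1 : ∀ i, ∑ j, (l i : ℝ) * (l j : ℝ) * (ζ i k - ζ j k) ^ 2 =
      nn l * ((l i : ℝ) * ζ i k ^ 2) - 2 * ((l i : ℝ) * ζ i k) * S1 ζ l k +
        (l i : ℝ) * S2 ζ l k := by
    intro i
    have h2 : ∀ j, (l i : ℝ) * (l j : ℝ) * (ζ i k - ζ j k) ^ 2 =
        (l j : ℝ) * ((l i : ℝ) * ζ i k ^ 2) - 2 * ((l i : ℝ) * ζ i k) * ((l j : ℝ) * ζ j k) +
          (l i : ℝ) * ((l j : ℝ) * ζ j k ^ 2) := fun j => by ring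
    simp only [h2, Finset.sum_add_distrib, Finset.sum_sub_distrib]
    rw [← Finset.sum_mul, ← Finset.mul_sum, ← Finset.mul_sum]
    rfl
  simp only [h1, Finset.sum_add_distrib, Finset.sum_sub_distrib]
  rw [← Finset.mul_sum, ← Finset.sum_mul, ← Finset.sum_mul, ← Finset.mul_sum]
  have h3 : ∑ i, (l i : ℝ) = nn l := rfl
  have h4 : ∑ i, (l i : ℝ) * ζ i k ^ 2 = S2 ζ l k := rfl
  have h5 : ∑ i, (l i : ℝ) * ζ i k = S1 ζ l k := rfl
  rw [h3, h4, h5]
  ring

private lemma qq_eq (D : Fin N → Fin N → ℝ) (w : Fin m → ℝ) (ζ : Fin N → Fin m → ℝ)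
    (h : ∀ i j, D i j = ∑ k, w k * (ζ i k - ζ j k) ^ 2) (l : Fin N →₀ ℕ) :
    qq D l = ∑ k, w k * (nn l * S2 ζ l k - S1 ζ l k ^ 2) := by
  unfold qq
  have h1 : ∀ i j, (l i : ℝ) * (l j : ℝ) * D i j =
      ∑ k, w k * ((l i : ℝ) * (l j : ℝ) * (ζ i k - ζ j k) ^ 2) := by
    intro i j
    rw [h i j, Finset.mul_sum]
    exact Finset.sum_congr rfl fun k _ => by ring
  simp only [h1]
  rw [Finset.sum_congr rfl fun i _ => Finset.sum_comm, Finset.sum_comm, Finset.mul_sum]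
  refine Finset.sum_congr rfl fun k _ => ?_
  simp only [← Finset.mul_sum]
  rw [dbl]
  ring

/-- the centre of the Gaussian in the coordinate `k` -/
private noncomputable def cn (M : Modes m) (ζ : Fin N → Fin m → ℝ)
    (l : Fin N →₀ ℕ) (a : ℝ) (k : Fin m) : ℝ :=
  M.r k a * (S1 ζ l k / nn l)

/-- the exponent -/
private lemma expo {D D' : Fin N → Fin N → ℝ} (M : Modes m) (ζ : Fin N → Fin m → ℝ)
    (h1 : ∀ i j, D i j = ∑ k, M.μ k * (ζ i k - ζ j k) ^ 2)
    (h2 : ∀ i j, D' i j = ∑ k, M.ν k * (ζ i k - ζ j k) ^ 2)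
    {l : Fin N →₀ ℕ} (hl : l ≠ 0) {a : ℝ} (ha : a ∈ Ioo (0 : ℝ) 1) (Y : Fin m → ℝ) (v : ℝ) :
    -∑ i, (l i : ℝ) * hh M ζ i (Y, (a, v)) =
      -((1 - a) * qq D l + a * qq D' l) / nn l +
        (∑ k, -(nn l / M.r k a) * (Y k - cn M ζ l a k) ^ 2 + -nn l * v ^ 2) := by
  have hn := nn_pos hl
  have hq : (1 - a) * qq D l + a * qq D' l =
      ∑ k, M.r k a * (nn l * S2 ζ l k - S1 ζ l k ^ 2) := by
    rw [qq_eq D M.μ ζ h1 l, qq_eq D' M.ν ζ h2 l, Finset.mul_sum, Finset.mul_sum,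
      ← Finset.sum_add_distrib]
    refine Finset.sum_congr rfl fun k _ => ?_
    unfold Modes.r
    ring
  have hhs : ∑ i, (l i : ℝ) * hh M ζ i (Y, (a, v)) =
      ∑ k, (nn l * Y k ^ 2 / M.r k a - 2 * Y k * S1 ζ l k + M.r k a * S2 ζ l k) +
        nn l * v ^ 2 := by
    have h4 : ∀ i, (l i : ℝ) * hh M ζ i (Y, (a, v)) =
        ∑ k, ((l i : ℝ) * (Y k ^ 2 / M.r k a) - 2 * Y k * ((l i : ℝ) * ζ i k) +
          M.r k a * ((l i : ℝ) * ζ i k ^ 2)) + (l i : ℝ) * v ^ 2 := by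
      intro i
      unfold hh
      simp only
      rw [mul_add, Finset.mul_sum]
      congr 1
      refine Finset.sum_congr rfl fun k _ => ?_
      have hr := (r_pos M k ha).ne'
      field_simp
      ring
    rw [Finset.sum_congr rfl fun i _ => h4 i, Finset.sum_add_distrib, Finset.sum_comm,
      ← Finset.sum_mul]
    congr 1
    refine Finset.sum_congr rfl fun k _ => ?_
    rw [Finset.sum_add_distrib, Finset.sum_sub_distrib, ← Finset.sum_mul, ← Finset.mul_sum,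
      ← Finset.mul_sum]
    have h5 : ∑ i, (l i : ℝ) = nn l := rfl
    have h6 : ∑ i, (l i : ℝ) * ζ i k ^ 2 = S2 ζ l k := rfl
    have h7 : ∑ i, (l i : ℝ) * ζ i k = S1 ζ l k := rfl
    rw [h5, h6, h7]
    ring
  have hterm : ∀ k, -(nn l * Y k ^ 2 / M.r k a - 2 * Y k * S1 ζ l k + M.r k a * S2 ζ l k) =
      -(M.r k a * (nn l * S2 ζ l k - S1 ζ l k ^ 2)) / nn l +
        -(nn l / M.r k a) * (Y k - cn M ζ l a k) ^ 2 := by
    intro k
    have hr := r_pos M k ha
    unfold cn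
    obtain ⟨r, hr2⟩ : ∃ r, r = M.r k a := ⟨_, rfl⟩
    rw [← hr2] at hr ⊢
    field_simp
    ring
  rw [hhs, hq]
  have h9 : -(∑ k, M.r k a * (nn l * S2 ζ l k - S1 ζ l k ^ 2)) / nn l =
      ∑ k, -(M.r k a * (nn l * S2 ζ l k - S1 ζ l k ^ 2)) / nn l := by
    rw [← Finset.sum_neg_distrib, Finset.sum_div]
  rw [h9, ← add_assoc, ← Finset.sum_add_distrib, ← Finset.sum_congr rfl fun k _ => hterm k,
    Finset.sum_neg_distrib]
  ring

/-- the integral of a Gaussian -/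
private lemma gauss1 {t : ℝ} (ht : 0 < t) (s : ℝ) :
    Integrable (fun y : ℝ => Real.exp (-t * (y - s) ^ 2)) ∧
    ∫ y : ℝ, Real.exp (-t * (y - s) ^ 2) = √(Real.pi / t) := by
  refine ⟨(integrable_exp_neg_mul_sq ht).comp_sub_right s, ?_⟩
  rw [integral_sub_right_eq_self (fun y : ℝ => Real.exp (-t * y ^ 2)) s, integral_gaussian]

private lemma powers (M : Modes m) {a n : ℝ} (ha : a ∈ Ioo (0 : ℝ) 1) (hn : 0 < n) :
    M.W a * n * ((∏ k, √(Real.pi / (n / M.r k a))) * √(Real.pi / n)) =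
      Real.pi ^ (((m : ℝ) + 1) / 2) * n ^ (-(((m : ℝ) - 1) / 2)) := by
  have hπ := Real.pi_pos
  have h0 : (0 : ℝ) < Real.pi / n := div_pos hπ hn
  have h1 : M.W a * ∏ k, √(Real.pi / (n / M.r k a)) = √(Real.pi / n) ^ m := by
    unfold Modes.W
    rw [← Finset.prod_mul_distrib, Finset.prod_congr rfl (g := fun _ => √(Real.pi / n)),
      Finset.prod_const, Finset.card_univ, Fintype.card_fin]
    intro k _
    have hr := r_pos M k ha
    have h2 : Real.pi / (n / M.r k a) = Real.pi / n * M.r k a := by field_simp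
    rw [h2, Real.sqrt_mul h0.le, Real.sqrt_eq_rpow (M.r k a), mul_left_comm,
      ← Real.rpow_add hr]
    norm_num
  have h3 : M.W a * n * ((∏ k, √(Real.pi / (n / M.r k a))) * √(Real.pi / n)) =
      n * (√(Real.pi / n) ^ m * √(Real.pi / n)) := by
    rw [← h1]
    ring
  have h4 : √(Real.pi / n) ^ m * √(Real.pi / n) = (Real.pi / n) ^ (((m : ℝ) + 1) / 2) := by
    rw [← pow_succ, Real.sqrt_eq_rpow, ← Real.rpow_natCast, ← Real.rpow_mul h0.le]
    congr 1
    push_cast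
    ring
  rw [h3, h4, Real.div_rpow hπ.le hn.le]
  have h5 : n ^ (-(((m : ℝ) - 1) / 2)) = n / n ^ (((m : ℝ) + 1) / 2) := by
    have h6 : -(((m : ℝ) - 1) / 2) = 1 - ((m : ℝ) + 1) / 2 := by ring
    rw [h6, Real.rpow_sub hn, Real.rpow_one]
  rw [h5]
  ring

/-- the integrand -/
private noncomputable def kin (M : Modes m) (ζ : Fin N → Fin m → ℝ) (l : Fin N →₀ ℕ)
    (x : (Fin m → ℝ) × (ℝ × ℝ)) : ℝ :=
  M.W x.2.1 * (nn l * Real.exp (-∑ i, (l i : ℝ) * hh M ζ i x))

private lemma fixA {D D' : Fin N → Fin N → ℝ} (M : Modes m) (ζ : Fin N → Fin m → ℝ)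
    (h1 : ∀ i j, D i j = ∑ k, M.μ k * (ζ i k - ζ j k) ^ 2)
    (h2 : ∀ i j, D' i j = ∑ k, M.ν k * (ζ i k - ζ j k) ^ 2)
    {l : Fin N →₀ ℕ} (hl : l ≠ 0) {a : ℝ} (ha : a ∈ Ioo (0 : ℝ) 1) :
    Integrable (fun x : (Fin m → ℝ) × ℝ => kin M ζ l (x.1, (a, x.2)))
        ((volume : Measure (Fin m → ℝ)).prod volume) ∧
      ∫ x : (Fin m → ℝ) × ℝ, kin M ζ l (x.1, (a, x.2))
        ∂((volume : Measure (Fin m → ℝ)).prod volume) =
        Real.pi ^ (((m : ℝ) + 1) / 2) * ((nn l) ^ (-(((m : ℝ) - 1) / 2)) *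
          Real.exp (-((1 - a) * qq D l + a * qq D' l) / nn l)) := by
  have hn := nn_pos hl
  obtain ⟨C, hC⟩ : ∃ C, C = Real.exp (-((1 - a) * qq D l + a * qq D' l) / nn l) := ⟨_, rfl⟩
  have hf : (fun x : (Fin m → ℝ) × ℝ => kin M ζ l (x.1, (a, x.2))) =
      fun x => (M.W a * nn l * C) *
        ((∏ k, Real.exp (-(nn l / M.r k a) * (x.1 k - cn M ζ l a k) ^ 2)) *
          Real.exp (-nn l * (x.2 - 0) ^ 2)) := by
    funext x
    unfold kin
    simp only
    rw [expo M ζ h1 h2 hl ha x.1 x.2, Real.exp_add, Real.exp_add, Real.exp_sum, ← hC,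
      sub_zero]
    ring
  have hg : ∀ k, Integrable (fun y : ℝ => Real.exp (-(nn l / M.r k a) *
      (y - cn M ζ l a k) ^ 2)) := fun k => (gauss1 (div_pos hn (r_pos M k ha)) _).1
  have hp : Integrable (fun Y : Fin m → ℝ => ∏ k, Real.exp (-(nn l / M.r k a) *
      (Y k - cn M ζ l a k) ^ 2)) :=
    Integrable.fintype_prod (f := fun k (y : ℝ) => Real.exp (-(nn l / M.r k a) *
      (y - cn M ζ l a k) ^ 2)) hg
  have hv := gauss1 hn 0
  rw [hf]
  refine ⟨(Integrable.mul_prod hp hv.1).const_mul _, ?_⟩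
  rw [integral_const_mul, integral_prod_mul
    (fun Y : Fin m → ℝ => ∏ k, Real.exp (-(nn l / M.r k a) * (Y k - cn M ζ l a k) ^ 2))
    (fun v : ℝ => Real.exp (-nn l * (v - 0) ^ 2)), hv.2,
    integral_fintype_prod_volume_eq_prod (f := fun k (y : ℝ) => Real.exp (-(nn l / M.r k a) *
      (y - cn M ζ l a k) ^ 2)),
    Finset.prod_congr rfl fun k _ => (gauss1 (div_pos hn (r_pos M k ha)) _).2, ← hC]
  have h5 := powers M ha hn
  calc M.W a * nn l * C * ((∏ k, √(Real.pi / (nn l / M.r k a))) * √(Real.pi / nn l)) =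
      C * (M.W a * nn l * ((∏ k, √(Real.pi / (nn l / M.r k a))) * √(Real.pi / nn l))) := by ring
    _ = _ := by
      rw [h5]
      ring

private lemma nn_nonneg (l : Fin N →₀ ℕ) : 0 ≤ nn l :=
  Finset.sum_nonneg fun _ _ => Nat.cast_nonneg _

private lemma kin_nonneg (M : Modes m) (ζ : Fin N → Fin m → ℝ)
    (l : Fin N →₀ ℕ) (x : (Fin m → ℝ) × (ℝ × ℝ)) (hx : x.2.1 ∈ Ioo (0 : ℝ) 1) :
    0 ≤ kin M ζ l x := by
  unfold kin
  apply mul_nonneg
  · unfold Modes.W
    exact Finset.prod_nonneg fun k _ => Real.rpow_nonneg (r_pos M k hx).le _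
  · exact mul_nonneg (nn_nonneg l) (Real.exp_pos _).le

private lemma r_meas (M : Modes m) (k : Fin m) : Measurable (M.r k) := by
  unfold Modes.r
  fun_prop

private lemma W_meas (M : Modes m) : Measurable M.W := by
  unfold Modes.W
  exact Finset.measurable_prod _ fun k _ => (r_meas M k).pow_const _

private lemma kin_meas (M : Modes m) (ζ : Fin N → Fin m → ℝ)
    (l : Fin N →₀ ℕ) : Measurable (kin M ζ l) := by
  have h1 : Measurable (fun x : (Fin m → ℝ) × (ℝ × ℝ) => M.W x.2.1) :=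
    (W_meas M).comp (measurable_fst.comp measurable_snd)
  have h2 : ∀ i, Measurable (fun x : (Fin m → ℝ) × (ℝ × ℝ) => hh M ζ i x) := by
    intro i
    unfold hh
    apply Measurable.add
    · apply Finset.measurable_sum
      intro k _
      have h5 : Measurable (fun x : (Fin m → ℝ) × (ℝ × ℝ) => M.r k x.2.1) :=
        (r_meas M k).comp (measurable_fst.comp measurable_snd)
      apply Measurable.div
      · apply Measurable.pow_const
        apply Measurable.sub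
        · fun_prop
        · exact h5.mul_const _
      · exact h5
    · fun_prop
  have h3 : Measurable (fun x : (Fin m → ℝ) × (ℝ × ℝ) => ∑ i, (l i : ℝ) * hh M ζ i x) := by
    apply Finset.measurable_sum
    intro i _
    exact (h2 i).const_mul _
  unfold kin
  exact h1.mul (measurable_const.mul (Real.measurable_exp.comp h3.neg))

/-- `(a, (Y, v)) ↦ (Y, (a, v))` -/
private def eqv (m : ℕ) : ℝ × ((Fin m → ℝ) × ℝ) ≃ᵐ (Fin m → ℝ) × (ℝ × ℝ) :=
  (MeasurableEquiv.prodAssoc.symm.trans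
    (MeasurableEquiv.prodCongr MeasurableEquiv.prodComm (MeasurableEquiv.refl ℝ))).trans
    MeasurableEquiv.prodAssoc

private lemma eqv_mp (m : ℕ) (μ : Measure ℝ) [SigmaFinite μ] :
    MeasurePreserving (eqv m) (μ.prod ((volume : Measure (Fin m → ℝ)).prod volume))
      ((volume : Measure (Fin m → ℝ)).prod (μ.prod volume)) := by
  have h1 : MeasurePreserving (MeasurableEquiv.prodAssoc : (ℝ × (Fin m → ℝ)) × ℝ ≃ᵐ _)
      ((μ.prod (volume : Measure (Fin m → ℝ))).prod (volume : Measure ℝ))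
      (μ.prod ((volume : Measure (Fin m → ℝ)).prod volume)) :=
    measurePreserving_prodAssoc _ _ _
  have h2 : MeasurePreserving (MeasurableEquiv.prodAssoc : ((Fin m → ℝ) × ℝ) × ℝ ≃ᵐ _)
      (((volume : Measure (Fin m → ℝ)).prod μ).prod (volume : Measure ℝ))
      ((volume : Measure (Fin m → ℝ)).prod (μ.prod volume)) :=
    measurePreserving_prodAssoc _ _ _
  have h3 : MeasurePreserving (Prod.swap : ℝ × (Fin m → ℝ) → (Fin m → ℝ) × ℝ)
      (μ.prod (volume : Measure (Fin m → ℝ))) ((volume : Measure (Fin m → ℝ)).prod μ) :=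
    Measure.measurePreserving_swap
  have h4 := h3.prod (MeasurePreserving.id (volume : Measure ℝ))
  exact h2.comp (h4.comp (h1.symm _))

end RepWAux

open RepWAux in
theorem repWStmt : RepWStmt := by
  intro m N D D' M ζ hrep l hl
  obtain ⟨h1, h2⟩ := hrep
  have hA' := fun (a : ℝ) (ha : a ∈ Ioo (0 : ℝ) 1) => fixA M ζ h1 h2 hl ha
  have hst : (volume : Measure (ℝ × ℝ)).restrict strip =
      ((volume : Measure ℝ).restrict (Ioo 0 1)).prod volume := by
    rw [strip, Measure.volume_eq_prod, ← Measure.prod_restrict, Measure.restrict_univ]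
  change Integrable (kin M ζ l) (mes m) ∧ mw (((m : ℝ) - 1) / 2) D D' l =
    Real.pi ^ (-(((m : ℝ) + 1) / 2)) * ∫ x, kin M ζ l x ∂(mes m)
  unfold mes
  rw [hst]
  set μ := (volume : Measure ℝ).restrict (Ioo 0 1) with hμ
  set C : ℝ := Real.pi ^ (((m : ℝ) + 1) / 2) with hC
  set K : ℝ := nn l ^ (-(((m : ℝ) - 1) / 2)) with hK
  have hmp := eqv_mp m μ
  have hfm := kin_meas M ζ l
  have hgm : Measurable (kin M ζ l ∘ eqv m) := hfm.comp (eqv m).measurable
  have hcont : Continuous fun a : ℝ =>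
      C * (K * Real.exp (-((1 - a) * qq D l + a * qq D' l) / nn l)) := by fun_prop
  have hg : Integrable (kin M ζ l ∘ eqv m)
      (μ.prod ((volume : Measure (Fin m → ℝ)).prod volume)) := by
    rw [integrable_prod_iff hgm.aestronglyMeasurable]
    constructor
    · rw [hμ, ae_restrict_iff' measurableSet_Ioo]
      exact Filter.Eventually.of_forall fun a ha => (hA' a ha).1
    · have h5 : IntegrableOn (fun a : ℝ =>
          C * (K * Real.exp (-((1 - a) * qq D l + a * qq D' l) / nn l))) (Ioo 0 1) :=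
        (hcont.integrableOn_Icc (a := 0) (b := 1)).mono_set Ioo_subset_Icc_self
      refine IntegrableOn.congr_fun h5 (fun a ha => ?_) measurableSet_Ioo
      change _ = ∫ y : (Fin m → ℝ) × ℝ, ‖kin M ζ l (y.1, (a, y.2))‖
        ∂((volume : Measure (Fin m → ℝ)).prod volume)
      rw [← (hA' a ha).2]
      refine integral_congr_ae (Filter.Eventually.of_forall fun y => ?_)
      exact (Real.norm_of_nonneg (kin_nonneg M ζ l (y.1, (a, y.2)) ha)).symm
  have hf : Integrable (kin M ζ l) ((volume : Measure (Fin m → ℝ)).prod (μ.prod volume)) :=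
    (hmp.integrable_comp hfm.aestronglyMeasurable).1 hg
  refine ⟨hf, ?_⟩
  have h6 : ∫ x, kin M ζ l x ∂((volume : Measure (Fin m → ℝ)).prod (μ.prod volume)) =
      ∫ x, (kin M ζ l ∘ eqv m) x
        ∂(μ.prod ((volume : Measure (Fin m → ℝ)).prod volume)) :=
    (hmp.integral_comp' (kin M ζ l)).symm
  rw [h6, integral_prod _ hg]
  have h7 : ∫ a, ∫ y, (kin M ζ l ∘ eqv m) (a, y)
      ∂((volume : Measure (Fin m → ℝ)).prod volume) ∂μ =
      ∫ a in Ioo (0 : ℝ) 1, C * (K * Real.exp (-((1 - a) * qq D l + a * qq D' l) / nn l)) := by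
    rw [hμ]
    exact setIntegral_congr_fun measurableSet_Ioo fun a ha => (hA' a ha).2
  rw [h7, integral_const_mul, integral_const_mul]
  unfold mw
  rw [intervalIntegral.integral_of_le zero_le_one, integral_Ioc_eq_integral_Ioo, ← hK]
  have h8 : Real.pi ^ (-(((m : ℝ) + 1) / 2)) * C = 1 := by
    rw [hC, ← Real.rpow_add Real.pi_pos]
    simp
  rw [← mul_assoc, h8, one_mul]

end Pool.Agent.Lib.MP_0c1c75_co.KA
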