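import Pool.Agent.Lib.MP_0c1c75_co.KA.Spec
import Pool.Agent.Lib.MP_0c1c75_co.KG.Tder

/-!
Module TderW: the function `T(h)` with an admissible weight is nondecreasing.
-/

set_option autoImplicit false

open MeasureTheory Set Filter Topology

namespace Pool.Agent.Lib.MP_0c1c75_co.KA

open Pool.Agent.Lib.MP_0c1c75_co.KG

namespace TderWAux

open TderAux

variable {m : ℕ} (M : Modes m) (w w1 : ℝ → ℝ) (b Y : Fin m → ℝ)

/-- derivative of `Γ` along a curve -/
noncomputable def DGw (x y a x' y' a' : ℝ) : ℝ :=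
  w1 a * a' * (M.EE b Y x y a) ^ (-(1 / 2) : ℝ) +
    w a * (-(S1 M b Y x y a * x' + S1 M b Y y x a * y' + S1 M b Y a x y * a') *
      (-(1 / 2)) * (M.EE b Y x y a) ^ (-(3 / 2) : ℝ))

theorem hasDerivAt_Gw {x y a : ℝ → ℝ} {x' y' a' t : ℝ} (hw : HasDerivAt w (w1 (a t)) (a t))
    (hx : HasDerivAt x x' t)
    (hy : HasDerivAt y y' t) (ha : HasDerivAt a a' t) (hx0 : x t ∈ Ioo (0 : ℝ) 1)
    (hy0 : y t ∈ Ioo (0 : ℝ) 1) (ha0 : a t ∈ Ioo (0 : ℝ) 1)
    (hE : 0 < M.EE b Y (x t) (y t) (a t)) :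
    HasDerivAt (fun t => w (a t) * (M.EE b Y (x t) (y t) (a t)) ^ (-(1 / 2) : ℝ))
      (DGw M w w1 b Y (x t) (y t) (a t) x' y' a') t := by
  have h1 := (hasDerivAt_EE M b Y hx hy ha hx0 hy0 ha0).rpow_const (p := (-(1 / 2) : ℝ))
    (Or.inl hE.ne')
  have h2 := (hw.comp t ha).mul h1
  refine h2.congr_deriv ?_
  rw [DGw]
  have : (-(1 / 2) - 1 : ℝ) = -(3 / 2) := by norm_num
  rw [this]
  rfl

theorem continuousOn_DGw (hwc : ContinuousOn w (Ioo 0 1)) (hw1c : ContinuousOn w1 (Ioo 0 1))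
    {α : Type*} [TopologicalSpace α] {s : Set α} {x y a x' y' a' : α → ℝ}
    (hx : ContinuousOn x s) (hx0 : ∀ p ∈ s, x p ∈ Ioo (0 : ℝ) 1)
    (hy : ContinuousOn y s) (hy0 : ∀ p ∈ s, y p ∈ Ioo (0 : ℝ) 1)
    (ha : ContinuousOn a s) (ha0 : ∀ p ∈ s, a p ∈ Ioo (0 : ℝ) 1)
    (hx' : ContinuousOn x' s) (hy' : ContinuousOn y' s) (ha' : ContinuousOn a' s)
    (hE : ∀ p ∈ s, 0 < M.EE b Y (x p) (y p) (a p)) :
    ContinuousOn (fun p => DGw M w w1 b Y (x p) (y p) (a p) (x' p) (y' p) (a' p)) s := by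
  simp only [DGw]
  have hW : ContinuousOn (fun p => w (a p)) s := hwc.comp ha ha0
  have hL : ContinuousOn (fun p => w1 (a p)) s := hw1c.comp ha ha0
  have hEE := continuousOn_EE M b Y hx hx0 hy hy0 ha ha0
  have hS1 := continuousOn_S1 M b Y hx hx0 hy hy0 ha ha0
  have hS2 := continuousOn_S1 M b Y hy hy0 hx hx0 ha ha0
  have hS3 := continuousOn_S1 M b Y ha ha0 hx hx0 hy hy0
  have hp1 := hEE.rpow_const (p := (-(1 / 2) : ℝ)) fun p hp => Or.inl (hE p hp).ne'
  have hp2 := hEE.rpow_const (p := (-(3 / 2) : ℝ)) fun p hp => Or.inl (hE p hp).ne'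
  exact ((hL.mul ha').mul hp1).add
    (hW.mul (((((hS1.mul hx').add (hS2.mul hy')).add (hS3.mul ha')).neg.mul
      continuousOn_const).mul hp2))

/-- `H = w E^{-3/2}` -/
noncomputable def HHw (x y a : ℝ) : ℝ := w a * (M.EE b Y x y a) ^ (-(3 / 2) : ℝ)

/-- the function `Q` -/
noncomputable def QQw (x y x' y' : ℝ) (H1 : ℝ → ℝ) (a : ℝ) : ℝ :=
  w a * (M.EE b Y x y a) ^ (-(1 / 2) : ℝ) * (((y - a) * x' + (a - x) * y') / (y - x)) -
    2 * HHw M w b Y x y a * (a - (x + y) / 2) / (y - x) ^ 2 -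
    2 * H1 a * ((a - x) * (y - a)) / (y - x) ^ 2

theorem Gw_eq {x y a : ℝ} (hE : 0 < M.EE b Y x y a) :
    w a * (M.EE b Y x y a) ^ (-(1 / 2) : ℝ) = HHw M w b Y x y a * M.EE b Y x y a := by
  rw [HHw, mul_assoc]
  congr 1
  nth_rewrite 3 [← Real.rpow_one (M.EE b Y x y a)]
  rw [← Real.rpow_add hE]
  norm_num

theorem hasDerivAt_QQw {x y x' y' a : ℝ} {H1 : ℝ → ℝ} {H2 : ℝ} (hx : x ∈ Ioo (0 : ℝ) 1)
    (hy : y ∈ Ioo (0 : ℝ) 1) (ha : a ∈ Ioo (0 : ℝ) 1) (hE : 0 < M.EE b Y x y a)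
    (hw : HasDerivAt w (w1 a) a)
    (hH1 : HasDerivAt (HHw M w b Y x y) (H1 a) a) (hH2 : HasDerivAt H1 H2 a) :
    HasDerivAt (QQw M w b Y x y x' y' H1)
      (DGw M w w1 b Y x y a 0 0 1 * (((y - a) * x' + (a - x) * y') / (y - x)) +
        w a * (M.EE b Y x y a) ^ (-(1 / 2) : ℝ) * ((y' - x') / (y - x)) +
        2 * H1 a * (a - (x + y) / 2) / (y - x) ^ 2 - 2 * HHw M w b Y x y a / (y - x) ^ 2 -
        2 * H2 * ((a - x) * (y - a)) / (y - x) ^ 2) a := by
  have h1 := hasDerivAt_Gw M w w1 b Y (a := fun a => a) hw (hasDerivAt_const a x) (hasDerivAt_const a y) (hasDerivAt_id a)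
    hx hy ha hE
  have hid := hasDerivAt_id a
  have h2 : HasDerivAt (fun a => ((y - a) * x' + (a - x) * y') / (y - x))
      ((y' - x') / (y - x)) a := by
    refine ((((hid.const_sub y).mul_const x').add ((hid.sub_const x).mul_const y')).div_const
      (y - x)).congr_deriv ?_
    ring
  have h3 : HasDerivAt (fun a => 2 * HHw M w b Y x y a * (a - (x + y) / 2) / (y - x) ^ 2)
      ((2 * H1 a * (a - (x + y) / 2) + 2 * HHw M w b Y x y a) / (y - x) ^ 2) a := by
    refine (((hH1.const_mul 2).mul (hid.sub_const ((x + y) / 2))).div_const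
      ((y - x) ^ 2)).congr_deriv ?_
    simp
  have h4 : HasDerivAt (fun a => 2 * H1 a * ((a - x) * (y - a)) / (y - x) ^ 2)
      ((2 * H2 * ((a - x) * (y - a)) - 4 * H1 a * (a - (x + y) / 2)) / (y - x) ^ 2) a := by
    refine (((hH2.const_mul 2).mul ((hid.sub_const x).mul (hid.const_sub y))).div_const
      ((y - x) ^ 2)).congr_deriv ?_
    simp
    ring
  refine (((h1.mul h2).sub h3).sub h4).congr_deriv ?_
  ring

theorem DGw_eq (x y a x' y' a' : ℝ) : DGw M w w1 b Y x y a x' y' a' =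
    DGw M w w1 b Y x y a 0 0 1 * a' -
      1 / 2 * HHw M w b Y x y a * (-(S1 M b Y x y a * x' + S1 M b Y y x a * y')) := by
  simp only [DGw, HHw]
  ring

theorem hasDerivAt_Rw {x y x' y' φ : ℝ} {H1 : ℝ → ℝ} {H2 : ℝ} (hx : x ∈ Ioo (0 : ℝ) 1)
    (hy : y ∈ Ioo (0 : ℝ) 1) (hxy : x < y)
    (hI : (-x' * (y - aph x y φ) + y' * (aph x y φ - x)) * M.EE b Y x y (aph x y φ) +
      (aph x y φ - x) * (y - aph x y φ) *
        (-(S1 M b Y x y (aph x y φ) * x' + S1 M b Y y x (aph x y φ) * y')) = 1)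
    (hE : 0 < M.EE b Y x y (aph x y φ))
    (hw : HasDerivAt w (w1 (aph x y φ)) (aph x y φ))
    (hH1 : HasDerivAt (HHw M w b Y x y) (H1 (aph x y φ)) (aph x y φ))
    (hH2 : HasDerivAt H1 H2 (aph x y φ)) (hφ : φ ∈ Ioo 0 (Real.pi / 2)) :
    HasDerivAt (fun φ => QQw M w b Y x y x' y' H1 (aph x y φ) / ((y - x) * (Real.sin φ * Real.cos φ)))
      (2 * DGw M w w1 b Y x y (aph x y φ) x' y' (x' * Real.cos φ ^ 2 + y' * Real.sin φ ^ 2) -
        4 * H2 * ((aph x y φ - x) * (y - aph x y φ)) / (y - x) ^ 2) φ := by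
  have hs : 0 < Real.sin φ := Real.sin_pos_of_pos_of_lt_pi hφ.1 (by linarith [hφ.2, Real.pi_pos])
  have hc : 0 < Real.cos φ := Real.cos_pos_of_mem_Ioo ⟨by linarith [hφ.1, Real.pi_pos], hφ.2⟩
  have hl : 0 < y - x := by linarith
  have ha := aph_mem hx hy hxy φ
  have e1 := aph_sub x y φ
  have e2 := sub_aph x y φ
  have hQ := hasDerivAt_QQw (x' := x') (y' := y') M w w1 b Y hx hy ha hE hw hH1 hH2
  have hxa : x < aph x y φ := by
    have : 0 < (y - x) * Real.sin φ ^ 2 := by positivity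
    linarith
  have hay : aph x y φ < y := by
    have : 0 < (y - x) * Real.cos φ ^ 2 := by positivity
    linarith
  have hτ : x' * Real.cos φ ^ 2 + y' * Real.sin φ ^ 2 =
      ((y - aph x y φ) * x' + (aph x y φ - x) * y') / (y - x) := by
    rw [e1, e2]
    field_simp
  have key := alg x y (aph x y φ) x' y' _ (DGw M w w1 b Y x y (aph x y φ) 0 0 1)
    (HHw M w b Y x y (aph x y φ)) (H1 (aph x y φ)) H2 (M.EE b Y x y (aph x y φ))
    (-(S1 M b Y x y (aph x y φ) * x' + S1 M b Y y x (aph x y φ) * y')) hxa hay (Gw_eq M w b Y hE) hI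
  have hcomp := (hQ.comp φ (hasDerivAt_aph x y φ)).div (hasDerivAt_sc (y - x) φ)
    (by positivity)
  refine hcomp.congr_deriv ?_
  rw [hτ, DGw_eq M w w1 b Y x y (aph x y φ) x' y', key]
  have hσ : aph x y φ - (x + y) / 2 = (y - x) / 2 * (Real.sin φ ^ 2 - Real.cos φ ^ 2) := by
    linarith
  have hPi : (aph x y φ - x) * (y - aph x y φ) = ((y - x) * (Real.sin φ * Real.cos φ)) ^ 2 := by
    rw [e1, e2]; ring
  simp only [Function.comp, QQw]
  rw [hPi, hσ]
  field_simp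
  ring

end TderWAux

open TderAux TderWAux in
theorem tderWStmt (hpsi : PsiStmt) (hddi : DdiStmt) : TderWStmt := by
  intro m M w ⟨_, ⟨w1, hw1c, hw⟩, hH⟩ b Y c hgood h0 A1 A2 hA
  have hwc : ContinuousOn w (Ioo 0 1) := fun a ha => (hw a ha).continuousAt.continuousWithinAt
  obtain ⟨-, -, hpsi2, -⟩ := hpsi m M b Y c
  have hA1c : ContinuousOn A1 (Ioi h0) := fun h hh =>
    (hA h hh).2.2.2.2.2.1.continuousAt.continuousWithinAt
  have hA2c : ContinuousOn A2 (Ioi h0) := fun h hh =>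
    (hA h hh).2.2.2.2.2.2.1.continuousAt.continuousWithinAt
  have hA1m : ∀ h ∈ Ioi h0, A1 h ∈ Ioo (0 : ℝ) 1 := fun h hh =>
    ⟨(hA h hh).1, (hA h hh).2.1.trans (hA h hh).2.2.1⟩
  have hA2m : ∀ h ∈ Ioi h0, A2 h ∈ Ioo (0 : ℝ) 1 := fun h hh =>
    ⟨(hA h hh).1.trans (hA h hh).2.1, (hA h hh).2.2.1⟩
  have hp1c : ContinuousOn (M.psi1 b c Y) (Ioo 0 1) := fun a ha =>
    (hpsi2 a ha).continuousAt.continuousWithinAt
  set x' : ℝ → ℝ := fun h => (M.psi1 b c Y (A1 h))⁻¹ with hx'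
  set y' : ℝ → ℝ := fun h => (M.psi1 b c Y (A2 h))⁻¹ with hy'
  have hx'c : ContinuousOn x' (Ioi h0) :=
    (hp1c.comp hA1c hA1m).inv₀ fun h hh => (hA h hh).2.2.2.2.2.2.2.1.ne
  have hy'c : ContinuousOn y' (Ioi h0) :=
    (hp1c.comp hA2c hA2m).inv₀ fun h hh => (hA h hh).2.2.2.2.2.2.2.2.ne'
  -- the integrand and its derivative
  set F : ℝ → ℝ → ℝ := fun h φ => w (aph (A1 h) (A2 h) φ) *
    (M.EE b Y (A1 h) (A2 h) (aph (A1 h) (A2 h) φ)) ^ (-(1 / 2) : ℝ) with hF
  set F' : ℝ → ℝ → ℝ := fun h φ => DGw M w w1 b Y (A1 h) (A2 h) (aph (A1 h) (A2 h) φ) (x' h) (y' h)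
    (x' h * Real.cos φ ^ 2 + y' h * Real.sin φ ^ 2) with hF'
  have haph : ∀ h ∈ Ioi h0, ∀ φ, aph (A1 h) (A2 h) φ ∈ Ioo (0 : ℝ) 1 := fun h hh φ =>
    aph_mem (hA1m h hh) (hA2m h hh) (hA h hh).2.1 φ
  have hEE : ∀ h ∈ Ioi h0, ∀ a ∈ Ioo (0 : ℝ) 1, 0 < M.EE b Y (A1 h) (A2 h) a := fun h hh =>
    (hH b Y hgood (A1 h) (hA1m h hh) (A2 h) (hA2m h hh)).1
  have hder : ∀ h ∈ Ioi h0, ∀ φ, HasDerivAt (fun h => F h φ) (F' h φ) h := by
    intro h hh φ
    have ha : HasDerivAt (fun h => aph (A1 h) (A2 h) φ)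
        (x' h * Real.cos φ ^ 2 + y' h * Real.sin φ ^ 2) h :=
      ((hA h hh).2.2.2.2.2.1.mul_const _).add ((hA h hh).2.2.2.2.2.2.1.mul_const _)
    exact hasDerivAt_Gw M w w1 b Y (hw _ (haph h hh φ)) (hA h hh).2.2.2.2.2.1 (hA h hh).2.2.2.2.2.2.1 ha (hA1m h hh)
      (hA2m h hh) (haph h hh φ) (hEE h hh _ (haph h hh φ))
  -- joint continuity of `F'`
  have hF'c : ContinuousOn (fun p : ℝ × ℝ => F' p.1 p.2) (Ioi h0 ×ˢ univ) := by
    have k1 : ContinuousOn (fun p : ℝ × ℝ => A1 p.1) (Ioi h0 ×ˢ univ) :=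
      hA1c.comp continuousOn_fst fun p hp => hp.1
    have k2 : ContinuousOn (fun p : ℝ × ℝ => A2 p.1) (Ioi h0 ×ˢ univ) :=
      hA2c.comp continuousOn_fst fun p hp => hp.1
    have k3 : ContinuousOn (fun p : ℝ × ℝ => x' p.1) (Ioi h0 ×ˢ univ) :=
      hx'c.comp continuousOn_fst fun p hp => hp.1
    have k4 : ContinuousOn (fun p : ℝ × ℝ => y' p.1) (Ioi h0 ×ˢ univ) :=
      hy'c.comp continuousOn_fst fun p hp => hp.1
    have kc : ContinuousOn (fun p : ℝ × ℝ => Real.cos p.2) (Ioi h0 ×ˢ univ) := by fun_prop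
    have ks : ContinuousOn (fun p : ℝ × ℝ => Real.sin p.2) (Ioi h0 ×ˢ univ) := by fun_prop
    exact continuousOn_DGw M w w1 b Y hwc hw1c k1 (fun p hp => hA1m _ hp.1) k2 (fun p hp => hA2m _ hp.1)
      ((k1.mul (kc.pow 2)).add (k2.mul (ks.pow 2))) (fun p hp => haph _ hp.1 _) k3 k4
      ((k3.mul (kc.pow 2)).add (k4.mul (ks.pow 2))) (fun p hp => hEE _ hp.1 _ (haph _ hp.1 _))
  have hFc : ∀ h ∈ Ioi h0, Continuous (F h) := by
    intro h hh
    have ka : ContinuousOn (fun φ => aph (A1 h) (A2 h) φ) univ := by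
      simp only [aph]; fun_prop
    have := (hwc.comp ka fun φ _ => haph h hh φ).mul
      ((continuousOn_EE M b Y (continuousOn_const (c := A1 h)) (fun _ _ => hA1m h hh)
        (continuousOn_const (c := A2 h)) (fun _ _ => hA2m h hh) ka
        (fun φ _ => haph h hh φ)).rpow_const (p := (-(1 / 2) : ℝ))
        fun φ _ => Or.inl (hEE h hh _ (haph h hh φ)).ne')
    exact continuousOn_univ.1 this
  have hF'c1 : ∀ h ∈ Ioi h0, Continuous (F' h) := by
    intro h hh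
    have : ContinuousOn (F' h) univ := hF'c.comp
      (f := fun φ : ℝ => ((h, φ) : ℝ × ℝ)) (by fun_prop) fun φ _ => ⟨hh, mem_univ _⟩
    exact continuousOn_univ.1 this
  -- derivative of the integral
  have hT : ∀ h ∈ Ioi h0, HasDerivAt (fun h => ∫ φ in (0 : ℝ)..(Real.pi / 2), F h φ)
      (∫ φ in (0 : ℝ)..(Real.pi / 2), F' h φ) h := by
    intro h hh
    obtain ⟨ε, hε, hball⟩ := Metric.isOpen_iff.1 (isOpen_Ioi (a := h0)) h hh
    have hsub : Icc (h - ε / 2) (h + ε / 2) ⊆ Ioi h0 := by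
      intro t ht
      apply hball
      rw [Metric.mem_ball, Real.dist_eq, abs_lt]
      constructor <;> linarith [ht.1, ht.2]
    obtain ⟨C, hC⟩ := (isCompact_Icc.prod
      (isCompact_Icc (a := (0 : ℝ)) (b := Real.pi / 2))).exists_bound_of_continuousOn
      (hF'c.mono (prod_mono hsub (subset_univ _)))
    have := intervalIntegral.hasDerivAt_integral_of_dominated_loc_of_deriv_le
      (μ := volume) (a := 0) (b := Real.pi / 2) (F := F) (F' := F') (x₀ := h)
      (s := Icc (h - ε / 2) (h + ε / 2)) (bound := fun _ => C)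
      (Icc_mem_nhds (by linarith) (by linarith))
      (by
        filter_upwards [Icc_mem_nhds (by linarith : h - ε / 2 < h) (by linarith : h < h + ε / 2)]
          with t ht
        exact (hFc t (hsub ht)).aestronglyMeasurable)
      ((hFc h hh).intervalIntegrable _ _)
      (hF'c1 h hh).aestronglyMeasurable
      (by
        refine Eventually.of_forall fun φ hφ t ht => ?_
        have hφ' : φ ∈ Icc 0 (Real.pi / 2) := by
          rw [uIoc_of_le (by positivity)] at hφ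
          exact Ioc_subset_Icc_self hφ
        exact hC (t, φ) ⟨ht, hφ'⟩)
      (by simp)
      (Eventually.of_forall fun φ _ t ht => hder t (hsub ht) φ)
    exact this.2
  -- sign of the derivative
  have hnn : ∀ h ∈ Ioi h0, 0 ≤ ∫ φ in (0 : ℝ)..(Real.pi / 2), F' h φ := by
    intro h hh
    obtain ⟨g1, g2, g3, g4, g5, g6, g7, g8, g9⟩ := hA h hh
    obtain ⟨hEpos, H1, H2, hH2c, hH12⟩ := hH b Y hgood (A1 h) (hA1m h hh) (A2 h) (hA2m h hh)
    have hl : 0 < A2 h - A1 h := by linarith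
    set K : ℝ → ℝ := fun φ => 4 * H2 (aph (A1 h) (A2 h) φ) *
      ((aph (A1 h) (A2 h) φ - A1 h) * (A2 h - aph (A1 h) (A2 h) φ)) / (A2 h - A1 h) ^ 2 with hK
    have hKc : Continuous K := by
      have ka : Continuous (fun φ => aph (A1 h) (A2 h) φ) := by simp only [aph]; fun_prop
      have kh : Continuous (fun φ => H2 (aph (A1 h) (A2 h) φ)) :=
        continuousOn_univ.1 (hH2c.comp ka.continuousOn fun φ _ => haph h hh φ)
      exact ((continuous_const.mul kh).mul ((ka.sub continuous_const).mul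
        (continuous_const.sub ka))).div_const _
    have hKnn : ∀ φ, 0 ≤ K φ := by
      intro φ
      simp only [hK]
      rw [aph_sub, sub_aph]
      have := (hH12 _ (haph h hh φ)).2.2
      positivity
    have hR : ∀ φ ∈ Ioo 0 (Real.pi / 2), HasDerivAt
        (fun φ => QQw M w b Y (A1 h) (A2 h) (x' h) (y' h) H1 (aph (A1 h) (A2 h) φ) /
          ((A2 h - A1 h) * (Real.sin φ * Real.cos φ))) (2 * F' h φ - K φ) φ := by
      intro φ hφ
      exact hasDerivAt_Rw M w w1 b Y (hA1m h hh) (hA2m h hh) g2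
        (relI M b Y hddi hA hh (haph h hh φ)) (hEpos _ (haph h hh φ)) (hw _ (haph h hh φ))
        (hH12 _ (haph h hh φ)).1 (hH12 _ (haph h hh φ)).2.1 hφ
    have hint : IntervalIntegrable (fun φ => 2 * F' h φ - K φ) volume 0 (Real.pi / 2) :=
      (((hF'c1 h hh).const_mul 2).sub hKc).intervalIntegrable _ _
    have hq : ∀ φ, HasDerivAt
        (fun φ => QQw M w b Y (A1 h) (A2 h) (x' h) (y' h) H1 (aph (A1 h) (A2 h) φ)) _ φ :=
      fun φ => (hasDerivAt_QQw (x' := x' h) (y' := y' h) M w w1 b Y (hA1m h hh) (hA2m h hh)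
        (haph h hh φ) (hEpos _ (haph h hh φ)) (hw _ (haph h hh φ)) (hH12 _ (haph h hh φ)).1
        (hH12 _ (haph h hh φ)).2.1).comp φ (hasDerivAt_aph (A1 h) (A2 h) φ)
    have hpi := Real.pi_pos
    have hlim0 : Tendsto (fun φ => QQw M w b Y (A1 h) (A2 h) (x' h) (y' h) H1
        (aph (A1 h) (A2 h) φ) / ((A2 h - A1 h) * (Real.sin φ * Real.cos φ))) (𝓝[>] 0) (𝓝 0) := by
      have hr := tendsto_ratio (hq 0) (hasDerivAt_sc (A2 h - A1 h) 0) ?_ (by simp) ?_
      · have := hr.mono_left (nhdsWithin_mono _ (fun z (hz : z ∈ Ioi (0 : ℝ)) => ne_of_gt hz))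
        simpa using this
      · have ha0 : aph (A1 h) (A2 h) 0 = A1 h := by simp [aph]
        have hI := relI M b Y hddi hA hh (hA1m h hh)
        rw [sub_self, mul_zero, zero_mul, zero_mul, add_zero, add_zero] at hI
        rw [ha0, QQw, Gw_eq M w b Y (hEpos _ (hA1m h hh))]
        have hI' : x' h * M.EE b Y (A1 h) (A2 h) (A1 h) = -1 / (A2 h - A1 h) := by
          rw [eq_div_iff hl.ne']
          linarith
        have : HHw M w b Y (A1 h) (A2 h) (A1 h) * M.EE b Y (A1 h) (A2 h) (A1 h) *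
            (((A2 h - A1 h) * x' h + (A1 h - A1 h) * y' h) / (A2 h - A1 h)) =
            HHw M w b Y (A1 h) (A2 h) (A1 h) * (x' h * M.EE b Y (A1 h) (A2 h) (A1 h)) := by
          field_simp
          ring
        rw [this, hI']
        field_simp
        ring
      · simpa using hl.ne'
    have hlim1 : Tendsto (fun φ => QQw M w b Y (A1 h) (A2 h) (x' h) (y' h) H1
        (aph (A1 h) (A2 h) φ) / ((A2 h - A1 h) * (Real.sin φ * Real.cos φ)))
        (𝓝[<] (Real.pi / 2)) (𝓝 0) := by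
      have hr := tendsto_ratio (hq (Real.pi / 2)) (hasDerivAt_sc (A2 h - A1 h) (Real.pi / 2)) ?_
        (by simp) ?_
      · have := hr.mono_left (nhdsWithin_mono _
          (fun z (hz : z ∈ Iio (Real.pi / 2)) => ne_of_lt hz))
        simpa using this
      · have ha0 : aph (A1 h) (A2 h) (Real.pi / 2) = A2 h := by simp [aph]
        have hI := relI M b Y hddi hA hh (hA2m h hh)
        rw [sub_self, mul_zero, zero_add, mul_zero, zero_mul, add_zero] at hI
        rw [ha0, QQw, Gw_eq M w b Y (hEpos _ (hA2m h hh))]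
        have hI' : y' h * M.EE b Y (A1 h) (A2 h) (A2 h) = 1 / (A2 h - A1 h) := by
          rw [eq_div_iff hl.ne']
          linarith
        have : HHw M w b Y (A1 h) (A2 h) (A2 h) * M.EE b Y (A1 h) (A2 h) (A2 h) *
            (((A2 h - A2 h) * x' h + (A2 h - A1 h) * y' h) / (A2 h - A1 h)) =
            HHw M w b Y (A1 h) (A2 h) (A2 h) * (y' h * M.EE b Y (A1 h) (A2 h) (A2 h)) := by
          field_simp
          ring
        rw [this, hI']
        field_simp
        ring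
      · simpa using (sub_neg.2 g2).ne
    have h0' := intervalIntegral.integral_eq_sub_of_hasDerivAt_of_tendsto (by positivity) hR hint
      hlim0 hlim1
    rw [sub_zero, intervalIntegral.integral_sub
      (((hF'c1 h hh).const_mul 2).intervalIntegrable _ _) (hKc.intervalIntegrable _ _),
      intervalIntegral.integral_const_mul] at h0'
    have hK0 : 0 ≤ ∫ φ in (0 : ℝ)..(Real.pi / 2), K φ :=
      intervalIntegral.integral_nonneg (by positivity) fun φ _ => hKnn φ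
    linarith
  -- conclusion
  have hTT : ∀ h ∈ Ioi h0, HasDerivAt (fun h => TTw M w b Y (A1 h) (A2 h))
      (2 * ∫ φ in (0 : ℝ)..(Real.pi / 2), F' h φ) h := fun h hh => (hT h hh).const_mul 2
  refine monotoneOn_of_deriv_nonneg (convex_Ioi h0)
    (fun h hh => (hTT h hh).continuousAt.continuousWithinAt) ?_ ?_
  · rw [interior_Ioi]
    exact fun h hh => (hTT h hh).differentiableAt.differentiableWithinAt
  · rw [interior_Ioi]
    intro h hh
    rw [(hTT h hh).deriv]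
    have := hnn h hh
    positivity

end Pool.Agent.Lib.MP_0c1c75_co.KA
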