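import Pool.Agent.Lib.MP_0c1c75_co.KA.Spec

/-!
# Theorem A, module ThmA (helper67): from the normal form and the level sets to balls
-/

set_option autoImplicit false

open MeasureTheory Set Filter Topology
open scoped RealInnerProductSpace

namespace Pool.Agent.Lib.MP_0c1c75_co.KA

open Pool.Agent.Lib.MP_0c1c75_co.KG

namespace ThmAAux

theorem ball {d N : ℕ} (p : Fin N → E d) (r : Fin N → ℝ) (hr : ∀ i, 0 ≤ r i) (l : Fin N → ℝ)
    (hl : ∀ i, r i ^ 2 = l i) :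
    (⋂ i, Metric.closedBall (p i) (r i)) = {x : E d | ∀ k, ‖x - p k‖ ^ 2 ≤ l k} := by
  ext x
  simp only [mem_iInter, Metric.mem_closedBall, dist_eq_norm]
  constructor
  · intro h k
    rw [← hl k]
    exact pow_le_pow_left₀ (norm_nonneg _) (h k) 2
  · intro h k
    have h1 := h k
    rw [← hl k] at h1
    exact (pow_le_pow_iff_left₀ (norm_nonneg _) (hr k) two_ne_zero).1 h1

theorem square {d : ℕ} (x y α β : E d) (lam c r : ℝ) (hl : lam ≠ 0)
    (h : lam * (‖x‖ ^ 2 - r ^ 2) + -lam * (‖y‖ ^ 2 - r ^ 2) = ⟪α, x⟫ + ⟪β, y⟫ + c) :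
    ‖x - (1 / (2 * lam)) • α‖ ^ 2 - ‖y - (-(1 / (2 * lam))) • β‖ ^ 2 =
      c / lam + ‖(1 / (2 * lam)) • α‖ ^ 2 - ‖(-(1 / (2 * lam))) • β‖ ^ 2 := by
  rw [norm_sub_sq_real, norm_sub_sq_real, inner_smul_right, inner_smul_right,
    real_inner_comm α x, real_inner_comm β y]
  have h1 : ‖x‖ ^ 2 - ‖y‖ ^ 2 = (⟪α, x⟫ + ⟪β, y⟫ + c) / lam := by
    rw [eq_div_iff hl, ← h]
    ring
  have h2 : ∀ t : ℝ, 2 * (1 / (2 * lam) * t) = t / lam := by
    intro t
    field_simp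
  have h3 : ∀ t : ℝ, 2 * (-(1 / (2 * lam)) * t) = -(t / lam) := by
    intro t
    field_simp
  rw [h2, h3]
  have h4 : (⟪α, x⟫ + ⟪β, y⟫ + c) / lam = ⟪α, x⟫ / lam + ⟪β, y⟫ / lam + c / lam := by
    rw [add_div, add_div]
  rw [h4] at h1
  linarith

end ThmAAux

theorem thmAStmt (hG : FinalStmt) (hA : ApexStmt) (hN : NfAStmt) : ThmAStmt := by
  intro d N p q r lam mu c α β hd hdist hfin hne hrel
  by_cases hr : ∀ i, 0 ≤ r i
  · by_cases hs : lam + mu = 0
    · have hmu : mu = -lam := by linarith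
      have hlam : lam ≠ 0 := by
        rintro rfl
        exact hne ⟨rfl, by rw [hmu, neg_zero]⟩
      refine (hG d N p q ((1 / (2 * lam)) • α) ((-(1 / (2 * lam))) • β)
        (c / lam + ‖(1 / (2 * lam)) • α‖ ^ 2 - ‖(-(1 / (2 * lam))) • β‖ ^ 2) hd hdist hfin
        (fun i => ?_) r).1
      refine ThmAAux.square (p i) (q i) α β lam c (r i) hlam ?_
      rw [← hmu]
      exact hrel i
    · obtain ⟨M, ζ, Ys, as, hs', hRep, hlev⟩ := hN d N p q r lam mu c α β hd hfin hs hrel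
      rw [ThmAAux.ball p r hr _ hlev, ThmAAux.ball q r hr _ hlev]
      refine hA d N p q M ζ Ys as hs' ?_ hRep
      exact hdist
  · push Not at hr
    obtain ⟨i, hi⟩ := hr
    have h1 : (⋂ i, Metric.closedBall (p i) (r i)) ⊆ ∅ := by
      refine (iInter_subset _ i).trans ?_
      rw [Metric.closedBall_eq_empty.2 hi]
    rw [subset_empty_iff.1 h1, measure_empty]
    exact bot_le

end Pool.Agent.Lib.MP_0c1c75_co.KA
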