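import Pool.Agent.Lib.MP_0c1c75_co.KA.Spec

/-!
# The substitution `a = a1 cos² φ + a2 sin² φ` for a general weight
-/

set_option autoImplicit false

open MeasureTheory Set Filter Topology

namespace Pool.Agent.Lib.MP_0c1c75_co.KA

open Pool.Agent.Lib.MP_0c1c75_co.KG

namespace TsubWAux

private theorem aph_eq (a1 a2 φ : ℝ) : aph a1 a2 φ = a1 + (a2 - a1) * Real.sin φ ^ 2 := by
  unfold aph
  have := Real.sin_sq_add_cos_sq φ
  have h : Real.cos φ ^ 2 = 1 - Real.sin φ ^ 2 := by linarith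
  rw [h]
  ring

private theorem aph_eq' (a1 a2 φ : ℝ) : aph a1 a2 φ = a2 - (a2 - a1) * Real.cos φ ^ 2 := by
  unfold aph
  have := Real.sin_sq_add_cos_sq φ
  have h : Real.sin φ ^ 2 = 1 - Real.cos φ ^ 2 := by linarith
  rw [h]
  ring

private theorem aph_cont (a1 a2 : ℝ) : Continuous (aph a1 a2) := by
  unfold aph
  fun_prop

private theorem aph_deriv (a1 a2 φ : ℝ) :
    HasDerivAt (aph a1 a2) (2 * ((a2 - a1) * (Real.sin φ * Real.cos φ))) φ := by
  have h1 := ((Real.hasDerivAt_cos φ).pow 2).const_mul a1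
  have h2 := ((Real.hasDerivAt_sin φ).pow 2).const_mul a2
  have h3 := h1.add h2
  have e : a1 * ((2 : ℕ) * Real.cos φ ^ (2 - 1) * -Real.sin φ) +
      a2 * ((2 : ℕ) * Real.sin φ ^ (2 - 1) * Real.cos φ) =
      2 * ((a2 - a1) * (Real.sin φ * Real.cos φ)) := by
    norm_num
    ring
  rw [← e]
  exact h3

end TsubWAux

open TsubWAux in
theorem tsubWStmt (hpsi : PsiStmt) (hddi : DdiStmt) : TsubWStmt := by
  intro m M w hA b Y c hG a1 a2 h h0 h12 h1 hp1 hp2
  have ha1 : a1 ∈ Ioo (0 : ℝ) 1 := ⟨h0, h12.trans h1⟩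
  have ha2 : a2 ∈ Ioo (0 : ℝ) 1 := ⟨h0.trans h12, h1⟩
  have hr := (hpsi m M b Y c).1
  obtain ⟨-, ⟨w1, -, hw1⟩, hA3⟩ := hA
  have hE := (hA3 b Y hG a1 ha1 a2 ha2).1
  have hd := hddi m M b Y c a1 ha1 a2 ha2
  have hw : 0 < a2 - a1 := sub_pos.2 h12
  -- continuity
  have hrc : ∀ k, Continuous (M.r k) := by
    intro k
    unfold Modes.r
    fun_prop
  have hWc : ContinuousOn w (Ioo 0 1) :=
    fun a ha => (hw1 a ha).continuousAt.continuousWithinAt
  have hEc : ContinuousOn (M.EE b Y a1 a2) (Ioo 0 1) := by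
    unfold Modes.EE
    refine continuousOn_finsetSum _ fun k _ => ?_
    refine continuousOn_const.div ((continuousOn_const.mul (hrc k).continuousOn)) fun a ha => ?_
    have i1 := hr k a1 ha1
    have i2 := hr k a2 ha2
    have i3 := hr k a ha
    positivity
  have hmem : ∀ φ, aph a1 a2 φ ∈ Ioo (0 : ℝ) 1 := by
    intro φ
    constructor
    · rw [aph_eq]
      have := mul_nonneg hw.le (sq_nonneg (Real.sin φ))
      linarith
    · rw [aph_eq']
      have := mul_nonneg hw.le (sq_nonneg (Real.cos φ))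
      linarith
  have hFc : Continuous fun φ => 2 * (w (aph a1 a2 φ) *
      (M.EE b Y a1 a2 (aph a1 a2 φ)) ^ (-(1 / 2) : ℝ)) := by
    have j1 : Continuous fun φ => w (aph a1 a2 φ) :=
      hWc.comp_continuous (aph_cont a1 a2) hmem
    have j2 : Continuous fun φ => M.EE b Y a1 a2 (aph a1 a2 φ) :=
      hEc.comp_continuous (aph_cont a1 a2) hmem
    have j3 : Continuous fun φ => (M.EE b Y a1 a2 (aph a1 a2 φ)) ^ (-(1 / 2) : ℝ) :=
      j2.rpow_const fun φ => Or.inl (hE _ (hmem φ)).ne'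
    exact continuous_const.mul (j1.mul j3)
  have hpi : (0 : ℝ) < Real.pi / 2 := by positivity
  have hsc : ∀ φ ∈ Ioo (0 : ℝ) (Real.pi / 2), 0 < Real.sin φ ∧ 0 < Real.cos φ := by
    intro φ hφ
    refine ⟨Real.sin_pos_of_pos_of_lt_pi hφ.1 ?_, Real.cos_pos_of_mem_Ioo ⟨?_, hφ.2⟩⟩
    · have := Real.pi_pos
      linarith [hφ.2]
    · have := Real.pi_pos
      linarith [hφ.1]
  -- the image
  have himg : aph a1 a2 '' Ioo (0 : ℝ) (Real.pi / 2) = Ioo a1 a2 := by
    apply Subset.antisymm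
    · rintro _ ⟨φ, hφ, rfl⟩
      obtain ⟨s1, s2⟩ := hsc φ hφ
      constructor
      · rw [aph_eq]
        have : 0 < (a2 - a1) * Real.sin φ ^ 2 := by positivity
        linarith
      · rw [aph_eq']
        have : 0 < (a2 - a1) * Real.cos φ ^ 2 := by positivity
        linarith
    · have h3 := intermediate_value_Ioo hpi.le ((aph_cont a1 a2).continuousOn
        (s := Icc (0 : ℝ) (Real.pi / 2)))
      have e0 : aph a1 a2 0 = a1 := by
        rw [aph_eq, Real.sin_zero]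
        ring
      have e1 : aph a1 a2 (Real.pi / 2) = a2 := by
        rw [aph_eq', Real.cos_pi_div_two]
        ring
      rwa [e0, e1] at h3
  have hinj : InjOn (aph a1 a2) (Ioo (0 : ℝ) (Real.pi / 2)) := by
    intro φ hφ φ' hφ' he
    rw [aph_eq, aph_eq] at he
    have h3 : Real.sin φ ^ 2 = Real.sin φ' ^ 2 := by
      have : (a2 - a1) * Real.sin φ ^ 2 = (a2 - a1) * Real.sin φ' ^ 2 := by linarith
      exact mul_left_cancel₀ hw.ne' this
    have h4 : Real.sin φ = Real.sin φ' :=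
      (pow_left_inj₀ (hsc φ hφ).1.le (hsc φ' hφ').1.le two_ne_zero).1 h3
    refine Real.injOn_sin ⟨?_, hφ.2.le⟩ ⟨?_, hφ'.2.le⟩ h4
    · linarith [hφ.1]
    · linarith [hφ'.1]
  have hder : ∀ φ ∈ Ioo (0 : ℝ) (Real.pi / 2), HasDerivWithinAt (aph a1 a2)
      (2 * ((a2 - a1) * (Real.sin φ * Real.cos φ))) (Ioo (0 : ℝ) (Real.pi / 2)) φ :=
    fun φ _ => (aph_deriv a1 a2 φ).hasDerivWithinAt
  -- the integrand
  have hcg : ∀ φ ∈ Ioo (0 : ℝ) (Real.pi / 2),
      |2 * ((a2 - a1) * (Real.sin φ * Real.cos φ))| •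
        (w (aph a1 a2 φ) * (h - M.psi b c Y (aph a1 a2 φ)) ^ (-(1 / 2) : ℝ)) =
      2 * (w (aph a1 a2 φ) * (M.EE b Y a1 a2 (aph a1 a2 φ)) ^ (-(1 / 2) : ℝ)) := by
    intro φ hφ
    obtain ⟨s1, s2⟩ := hsc φ hφ
    have h3 := hd (aph a1 a2 φ) (hmem φ) h12.ne h hp1 hp2
    have hx : 0 < (a2 - a1) * (Real.sin φ * Real.cos φ) := by positivity
    have h4 : (aph a1 a2 φ - a1) * (a2 - aph a1 a2 φ) =
        ((a2 - a1) * (Real.sin φ * Real.cos φ)) ^ (2 : ℝ) := by
      have e1 : aph a1 a2 φ - a1 = (a2 - a1) * Real.sin φ ^ 2 := by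
        rw [aph_eq]
        ring
      have e2 : a2 - aph a1 a2 φ = (a2 - a1) * Real.cos φ ^ 2 := by
        rw [aph_eq']
        ring
      rw [e1, e2, Real.rpow_two]
      ring
    rw [h3, h4, Real.mul_rpow (by positivity) (hE _ (hmem φ)).le, ← Real.rpow_mul hx.le,
      abs_of_pos (by positivity), smul_eq_mul]
    have h5 : (2 : ℝ) * (-(1 / 2)) = -1 := by norm_num
    rw [h5, Real.rpow_neg_one]
    field_simp
  have hmeas : MeasurableSet (Ioo (0 : ℝ) (Real.pi / 2)) := measurableSet_Ioo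
  have hint : IntegrableOn (fun φ => 2 * (w (aph a1 a2 φ) *
      (M.EE b Y a1 a2 (aph a1 a2 φ)) ^ (-(1 / 2) : ℝ))) (Ioo (0 : ℝ) (Real.pi / 2)) :=
    (hFc.integrableOn_Icc).mono_set Ioo_subset_Icc_self
  constructor
  · rw [← himg, integrableOn_image_iff_integrableOn_abs_deriv_smul hmeas hder hinj]
    exact (integrableOn_congr_fun hcg hmeas).2 hint
  · rw [← himg, integral_image_eq_integral_abs_deriv_smul hmeas hder hinj,
      setIntegral_congr_fun hmeas hcg, ← integral_Ioc_eq_integral_Ioo,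
      ← intervalIntegral.integral_of_le hpi.le]
    unfold TTw
    rw [← intervalIntegral.integral_const_mul]

end Pool.Agent.Lib.MP_0c1c75_co.KA
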