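import Pool.Agent.Lib.MP_0c1c75_co.KG.All
import Pool.Agent.Lib.MP_0c1c75_co.KA.RepW
import Pool.Agent.Lib.MP_0c1c75_co.KA.IdPoly
import Pool.Agent.Lib.MP_0c1c75_co.KA.Approx1
import Pool.Agent.Lib.MP_0c1c75_co.KA.IdC1
import Pool.Agent.Lib.MP_0c1c75_co.KA.Bound
import Pool.Agent.Lib.MP_0c1c75_co.KA.Mellin
import Pool.Agent.Lib.MP_0c1c75_co.KA.AdmW
import Pool.Agent.Lib.MP_0c1c75_co.KA.TderW
import Pool.Agent.Lib.MP_0c1c75_co.KA.TsubW
import Pool.Agent.Lib.MP_0c1c75_co.KA.ML2W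
import Pool.Agent.Lib.MP_0c1c75_co.KA.Ray
import Pool.Agent.Lib.MP_0c1c75_co.KA.Level
import Pool.Agent.Lib.MP_0c1c75_co.KA.Apex
import Pool.Agent.Lib.MP_0c1c75_co.KA.NfA
import Pool.Agent.Lib.MP_0c1c75_co.KA.ThmA
import Pool.Agent.Lib.MP_0c1c75_co.KA.Rel
import Pool.Agent.Lib.MP_0c1c75_co.KA.Pert
import Pool.Agent.Lib.MP_0c1c75_co.KA.Few5

/-!
Theorem A (apex theorem): the final assembly.
-/

set_option autoImplicit false

open MeasureTheory Set Filter Topology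
open scoped RealInnerProductSpace

namespace Pool.Agent.Lib.MP_0c1c75_co.KA

open Pool.Agent.Lib.MP_0c1c75_co.KG

theorem idC1All : IdC1Stmt :=
  idC1Stmt gaussStmt repWStmt approx1Stmt (idPolyStmt gaussStmt diffStmt repWStmt)

theorem mellinAll : MellinStmt := mellinStmt idC1All boundStmt

theorem ml2WAll : ML2WStmt :=
  ml2WStmt psiStmt rootsStmt (tderWStmt psiStmt ddiStmt) (tsubWStmt psiStmt ddiStmt) coareaStmt
    layerStmt

theorem rayAll : RayStmt := rayStmt boundStmt admWStmt ml2WAll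

theorem apexAll : ApexStmt := apexStmt (levelStmt boundStmt mellinAll rayAll)

theorem thmAAll : ThmAStmt := thmAStmt finalStmt apexAll nfAStmt

theorem few5All : Few5Stmt := few5Stmt thmAAll relStmt pertStmt

/-- Theorem A -/
theorem apexThm (d N : ℕ) (p q : Fin N → E d) (r : Fin N → ℝ) (hd : 3 ≤ d)
    (h : ∀ i j, dist (q i) (q j) ≤ dist (p i) (p j))
    (hdim : Module.finrank ℝ
      (Submodule.span ℝ {w : E d × E d | ∃ i j, w = (p i - p j, q i - q j)}) ≤ d + 3)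
    (hrel : N ≤ d + 5 ∨ ∃ (lam mu c : ℝ) (α β : E d), ¬(lam = 0 ∧ mu = 0) ∧
      ∀ i, lam * (‖p i‖ ^ 2 - r i ^ 2) + mu * (‖q i‖ ^ 2 - r i ^ 2) = ⟪α, p i⟫ + ⟪β, q i⟫ + c) :
    volume (⋂ i, Metric.closedBall (p i) (r i)) ≤
      volume (⋂ i, Metric.closedBall (q i) (r i)) := by
  rcases hrel with hN | ⟨lam, mu, c, α, β, hne, hr⟩
  · exact few5All d N p q hd hN h hdim r
  · exact thmAAll d N p q r lam mu c α β hd h hdim hne hr

end Pool.Agent.Lib.MP_0c1c75_co.KA
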