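import Pool.Agent.Lib.MP_0c1c75_co.KA.Spec

/-!
# Module ML2W: assembly of the analytic core, with a weight
-/

set_option autoImplicit false

open MeasureTheory Set Filter Topology

namespace Pool.Agent.Lib.MP_0c1c75_co.KA

open Pool.Agent.Lib.MP_0c1c75_co.KG

theorem ml2WStmt (hpsi : PsiStmt) (hroots : RootsStmt) (htder : TderWStmt) (htsub : TsubWStmt)
    (hco : CoareaStmt) (hlay : LayerStmt) : ML2WStmt := by
  intro m M w hw b Y c hG G G' hder hcont hpos hlim hint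
  have hw0 : ∀ a ∈ Ioo (0 : ℝ) 1, 0 ≤ w a := hw.1
  have hwc : ContinuousOn w (Ioo 0 1) := by
    obtain ⟨w1, _, h1⟩ := hw.2.1
    exact fun a ha => (h1 a ha).continuousAt.continuousWithinAt
  obtain ⟨hr, hd1, hd2, hgood⟩ := hpsi m M b Y c
  obtain ⟨hpos2, hlim0, hlim1⟩ := hgood hG
  obtain ⟨a0, A1, A2, ha0, hmin, hA⟩ := hroots (M.psi b c Y) (M.psi1 b c Y) (M.psi2 b Y) hd1 hd2
    hpos2 hlim0 hlim1
  have hfc : ContinuousOn (M.psi b c Y) (Ioo 0 1) := fun a ha =>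
    (hd1 a ha).continuousAt.continuousWithinAt
  obtain ⟨hI, hE⟩ := hco w (M.psi b c Y) G' hwc hfc hw0 hcont hint
  rw [hE]
  have hset : ∀ h, M.psi b c Y a0 < h →
      {a | a ∈ Ioo (0 : ℝ) 1 ∧ M.psi b c Y a < h} = Ioo (A1 h) (A2 h) := by
    intro h hh
    obtain ⟨h1, h2, h3, h4, h5, h6, h7, h8, h9, h10, h11⟩ := hA h hh
    ext a
    constructor
    · rintro ⟨ha, hlt⟩
      exact (h11 a ha).1 hlt
    · rintro ⟨ha1, ha2⟩
      have ha : a ∈ Ioo (0 : ℝ) 1 := ⟨lt_trans h1 ha1, lt_trans ha2 h4⟩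
      exact ⟨ha, (h11 a ha).2 ⟨ha1, ha2⟩⟩
  have hsetE : ∀ h, h ≤ M.psi b c Y a0 → {a | a ∈ Ioo (0 : ℝ) 1 ∧ M.psi b c Y a < h} = ∅ := by
    intro h hh
    ext a
    constructor
    · rintro ⟨ha, hlt⟩
      exact absurd (lt_of_lt_of_le hlt hh) (not_lt.mpr (hmin a ha))
    · intro ha
      exact ha.elim
  refine hlay G G' (fun h => ∫ a in {a | a ∈ Ioo (0 : ℝ) 1 ∧ M.psi b c Y a < h},
      w a * (h - M.psi b c Y a) ^ (-(1 / 2) : ℝ)) (M.psi b c Y a0) hder hcont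
    (fun h _ => hpos h) hlim ?_ ?_ ?_ hI
  · intro h hh
    simp only [hsetE h hh, Measure.restrict_empty, integral_zero_measure]
  · intro h
    rcases le_or_gt h (M.psi b c Y a0) with hh | hh
    · simp only [hsetE h hh, Measure.restrict_empty, integral_zero_measure, le_refl]
    · simp only [hset h hh]
      obtain ⟨h1, h2, h3, h4, h5, h6, h7, h8, h9, h10, h11⟩ := hA h hh
      apply setIntegral_nonneg measurableSet_Ioo
      intro a ha
      have ha' : a ∈ Ioo (0 : ℝ) 1 := ⟨lt_trans h1 ha.1, lt_trans ha.2 h4⟩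
      refine mul_nonneg (hw0 a ha') (Real.rpow_nonneg ?_ _)
      have := (h11 a ha').2 ⟨ha.1, ha.2⟩
      linarith
  · have hmono := htder m M w hw b Y c hG (M.psi b c Y a0) A1 A2 (by
      intro h hh
      obtain ⟨h1, h2, h3, h4, h5, h6, h7, h8, h9, h10, h11⟩ := hA h hh
      exact ⟨h1, lt_trans h2 h3, h4, h5, h6, h9, h10, h7, h8⟩)
    refine hmono.congr ?_
    intro h hh
    have hh' : M.psi b c Y a0 < h := hh
    obtain ⟨h1, h2, h3, h4, h5, h6, h7, h8, h9, h10, h11⟩ := hA h hh'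
    simp only [hset h hh']
    exact ((htsub m M w hw b Y c hG (A1 h) (A2 h) h h1 (lt_trans h2 h3) h4 h5 h6).2).symm

end Pool.Agent.Lib.MP_0c1c75_co.KA
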