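import Pool.Agent.Lib.MP_0c1c75_co.KG.Spec

/-!
# Theorem A (apex theorem): specification

Kneser-Poulsen inequality in `E^d`, `d ≥ 3`, for arbitrarily many balls when
`dim span {(p_i - p_j, q_i - q_j)} ≤ d + 3` and `λ (|p_i|² - r_i²) + μ (|q_i|² - r_i²)` is an affine
function of `(p_i, q_i)` for some `(λ, μ) ≠ (0, 0)`; in particular for at most `8` balls in `E³`.

Notation of `KG/Spec.lean`: modes `μ_k, ν_k`, `r_k(a) = (1-a) μ_k + a ν_k`, `W = ∏ r_k^{-1/2}`,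
points `ζ_i`, `D i j = ∑ μ_k (ζ_ik - ζ_jk)²`, `D' i j = ∑ ν_k (ζ_ik - ζ_jk)²`, `m = d + 3`.

`hh_i(Y,a,v) = ∑_k (Y_k - r_k ζ_ik)²/r_k + v²` (= `|x - P_i(a)|² + v²` with `Y_k = √r_k x_k`), hence
`hh_i = ∑ Y_k²/r_k + v² - l_i(Y,a)`, `l_i` AFFINE in `(Y,a)`.
-/

set_option autoImplicit false

open MeasureTheory Set Filter Topology
open scoped RealInnerProductSpace

namespace Pool.Agent.Lib.MP_0c1c75_co.KA

open Pool.Agent.Lib.MP_0c1c75_co.KG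

/-- the measure `dY da dv` on `ℝ^m × ((0,1) × ℝ)` -/
noncomputable def mes (m : ℕ) : Measure ((Fin m → ℝ) × (ℝ × ℝ)) :=
  (volume : Measure (Fin m → ℝ)).prod (volume.restrict strip)

/-- `hh_i(Y,(a,v)) = ∑ (Y_k - r_k(a) ζ_ik)² / r_k(a) + v²` -/
noncomputable def hh {m N : ℕ} (M : Modes m) (ζ : Fin N → Fin m → ℝ) (i : Fin N)
    (x : (Fin m → ℝ) × (ℝ × ℝ)) : ℝ :=
  ∑ k, (x.1 k - M.r k x.2.1 * ζ i k) ^ 2 / M.r k x.2.1 + x.2.2 ^ 2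

/-- squared distances in the modes -/
def Rep {m N : ℕ} (M : Modes m) (ζ : Fin N → Fin m → ℝ) (D D' : Fin N → Fin N → ℝ) : Prop :=
  (∀ i j, D i j = ∑ k, M.μ k * (ζ i k - ζ j k) ^ 2) ∧
  (∀ i j, D' i j = ∑ k, M.ν k * (ζ i k - ζ j k) ^ 2)

/-- `C¹` function with compact support, with its derivative -/
def Kap (κ κ1 : ℝ → ℝ) : Prop :=
  (∀ s, HasDerivAt κ (κ1 s) s) ∧ Continuous κ1 ∧ ∃ S : ℝ, ∀ s, S ≤ |s| → κ s = 0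

/-- `G_i'(h_i) G_j'(h_j) ∏_{k ≠ i,j} G_k(h_k)` -/
def Pij {N : ℕ} (G G1 : Fin N → ℝ → ℝ) (i j : Fin N) (h : Fin N → ℝ) : ℝ :=
  G1 i (h i) * G1 j (h j) * ∏ k ∈ (Finset.univ.erase i).erase j, G k (h k)

/-- The identity for product functions, averaged over the common shift `s` of the levels:
`∫ κ(s) (∫_{E^d} ∏ G_k(|x-q_k|²-s) dx - ∫_{E^d} ∏ G_k(|x-p_k|²-s) dx) ds =
(1/π²) ½ ∑_{i≠j} (|p_ij|²-|q_ij|²) ∫∫ -κ'(s) W(a) P_ij(hh - s) dY da dv ds`, with integrability. -/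
def IdFor (d N : ℕ) (p q : Fin N → E d) (M : Modes (d + 3)) (ζ : Fin N → Fin (d + 3) → ℝ)
    (κ κ1 : ℝ → ℝ) (G G1 : Fin N → ℝ → ℝ) : Prop :=
  (∀ s, Integrable (fun x : E d => ∏ k, G k (‖x - p k‖ ^ 2 - s)) ∧
    Integrable (fun x : E d => ∏ k, G k (‖x - q k‖ ^ 2 - s))) ∧
  (∀ i j, i ≠ j → Integrable (fun y : ℝ × ((Fin (d + 3) → ℝ) × (ℝ × ℝ)) =>
    κ1 y.1 * (M.W y.2.2.1 * Pij G G1 i j (fun k => hh M ζ k y.2 - y.1)))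
      ((volume : Measure ℝ).prod (mes (d + 3)))) ∧
  (∫ s, κ s * ∫ x : E d, ∏ k, G k (‖x - q k‖ ^ 2 - s)) -
    (∫ s, κ s * ∫ x : E d, ∏ k, G k (‖x - p k‖ ^ 2 - s)) =
    (1 / Real.pi ^ 2) * ((1 / 2) * ∑ i, ∑ j ∈ Finset.univ.erase i, (DD p i j - DD q i j) *
      ∫ y, -(κ1 y.1) * (M.W y.2.2.1 * Pij G G1 i j (fun k => hh M ζ k y.2 - y.1))
        ∂((volume : Measure ℝ).prod (mes (d + 3))))

/-- Module RepW. As `KG.RepStmt` (files `KG/RepA.lean`, `KG/Rep.lean`), without the third condition of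
`NF`: `∑_i l_i (Y_k - r_k ζ_ik)²/r_k = (n/r_k) (Y_k - r_k m_k)² + (r_k/n) ½ ∑∑ l_i l_j (ζ_ik - ζ_jk)²`,
`n = nn l`, `m_k = (1/n) ∑ l_i ζ_ik`. -/
def RepWStmt : Prop :=
  ∀ (m N : ℕ) (D D' : Fin N → Fin N → ℝ) (M : Modes m) (ζ : Fin N → Fin m → ℝ), Rep M ζ D D' →
    ∀ l : Fin N →₀ ℕ, l ≠ 0 →
      Integrable (fun x => M.W x.2.1 * (nn l * Real.exp (-∑ i, (l i : ℝ) * hh M ζ i x)))
        (mes m) ∧
      mw (((m : ℝ) - 1) / 2) D D' l = Real.pi ^ (-(((m : ℝ) + 1) / 2)) *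
        ∫ x, M.W x.2.1 * (nn l * Real.exp (-∑ i, (l i : ℝ) * hh M ζ i x)) ∂(mes m)

/-- Module IdPoly. The identity for polynomials in `exp(-h)`. `F = ∏ aeval (X k) (R k)`,
`F_s(z) = F(e^s z)` (replace `R k` by `(R k).comp (C (exp s) * X)`). `GaussStmt`: the two integrals
over `E^d` are `val d (DD q) F_s`, `val d (DD p) F_s`. `DiffStmt` and `RepWStmt` (`m = d + 3`,
`(m-1)/2 = 1 + d/2`, `π^{d/2} π^{-(m+1)/2} = π^{-2}`): their difference is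
`π^{-2} ½ ∑∑ (D-D') ∫ W ∑_l P_l e^{s n_l} n_l e^{-∑ l_i hh_i}`, `P = X_i X_j ∂_i ∂_j F`, and
`∑_l P_l e^{s n_l} n_l e^{-..} = ∂_s [P(e^s z)]`, `P(e^s z) = Pij(hh - s)` for `z = e^{-hh}`.
Multiply by `κ(s)`, integrate by parts in `s` (compact support), Fubini. -/
def IdPolyStmt : Prop :=
  ∀ (d N : ℕ) (p q : Fin N → E d) (M : Modes (d + 3)) (ζ : Fin N → Fin (d + 3) → ℝ)
    (κ κ1 : ℝ → ℝ), 0 < N → Rep M ζ (DD p) (DD q) → Kap κ κ1 → ∀ R : Fin N → Polynomial ℝ,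
    (∀ k, (R k).eval 0 = 0) →
    IdFor d N p q M ζ κ κ1 (fun k h => (R k).eval (Real.exp (-h)))
      (fun k h => -(Real.exp (-h) * (Polynomial.derivative (R k)).eval (Real.exp (-h))))

/-- Module Approx1. `f(z) = G(-log z)/z` (`0` for `z ≤ 0`) is `C¹` on `[0, e^S]` and vanishes near `0`;
Weierstrass: a polynomial `T` with `|T - f'| ≤ ε'` on `[0, e^S]`, `U = ∫_0^z T`, `R = X U`. -/
def Approx1Stmt : Prop :=
  ∀ (G G1 : ℝ → ℝ) (H S : ℝ), (∀ h, HasDerivAt G (G1 h) h) → Continuous G1 →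
    (∀ h, H ≤ h → G h = 0) → ∀ ε : ℝ, 0 < ε → ∃ R : Polynomial ℝ, R.eval 0 = 0 ∧
      ∀ h, -S ≤ h → |R.eval (Real.exp (-h)) - G h| ≤ ε * Real.exp (-h) ∧
        |-(Real.exp (-h) * (Polynomial.derivative R).eval (Real.exp (-h))) - G1 h| ≤
          ε * Real.exp (-h)

/-- Module IdC1. The identity for `C¹` functions `G_k` with support bounded above, by approximation
(`Approx1Stmt`, `IdPolyStmt`): for `h_k ≥ 0`, `|s| ≤ S` all differences are at most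
`C ε ∏ e^{-(h_k - s)}` (also `|G_k|, |G1_k| ≤ C e^{-h}` on `[-S,∞)`), and `W ∏ e^{-hh_k}` is
integrable by `RepWStmt` with `l = (1,..,1)`, `∏ e^{-|x-p_k|²}` by `GaussStmt`; `hh_k ≥ 0` on the
strip. `κ1 = 0` outside a compact set. -/
def IdC1Stmt : Prop :=
  ∀ (d N : ℕ) (p q : Fin N → E d) (M : Modes (d + 3)) (ζ : Fin N → Fin (d + 3) → ℝ)
    (κ κ1 : ℝ → ℝ), 0 < N → Rep M ζ (DD p) (DD q) → Kap κ κ1 → ∀ (G G1 : Fin N → ℝ → ℝ) (H : ℝ),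
    (∀ k h, HasDerivAt (G k) (G1 k h) h) → (∀ k, Continuous (G1 k)) →
    (∀ k h, H ≤ h → G k h = 0) → IdFor d N p q M ζ κ κ1 G G1

/-! ## Homogeneous functions -/

/-- `F(y) = (∑ 1/y_k)^{-γ}` for `y > 0`, `0` otherwise: homogeneous of degree `γ` -/
noncomputable def Fg {N : ℕ} (γ : ℝ) (y : Fin N → ℝ) : ℝ :=
  open Classical in if ∀ k, 0 < y k then (∑ k, (y k)⁻¹) ^ (-γ) else 0

/-- `(∑ 1/y_k)^{-γ-2} (y_i y_j)^{-2}`: `γ (γ+1)` times this is `∂_i ∂_j F`; homogeneous of degree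
`γ - 2` -/
noncomputable def Fij {N : ℕ} (γ : ℝ) (i j : Fin N) (y : Fin N → ℝ) : ℝ :=
  open Classical in if ∀ k, 0 < y k then
    (∑ k, (y k)⁻¹) ^ (-γ - 2) * ((y i)⁻¹ * (y j)⁻¹) ^ 2 else 0

/-- the kernel integral of the pair `i, j` for the levels `τ` -/
noncomputable def Jij {m N : ℕ} (M : Modes m) (ζ : Fin N → Fin m → ℝ) (τ : Fin N → ℝ)
    (κ1 : ℝ → ℝ) (γ : ℝ) (i j : Fin N) : ℝ :=
  ∫ y, -(κ1 y.1) * (M.W y.2.2.1 * Fij γ i j (fun k => τ k + y.1 - hh M ζ k y.2))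
    ∂((volume : Measure ℝ).prod (mes m))

/-- Module Bound. With `y_k = τ_k + s - hh_k`: `Fij ≤ (y_i + y_j)^{γ-2}`; `y_i - y_j = Δ(Y,a)` is affine
in `Y` with gradient `2 (ζ_i - ζ_j) ≠ 0`; `∫ (2σ + |Δ|)^{γ-2} dσ ≤ C |Δ|^{γ-1}` (integral over `s`,
`σ = min(y_i, y_j) > 0`); `hh_i < C` gives `|Y_l - r_l ζ_il| ≤ √(C r_l)`, `|v| ≤ √C`; integrate
`|Δ|^{γ-1}` over `Y_k`, `ζ_ik ≠ ζ_jk` (bounded), the other `Y_l` give `∏_{l≠k} 2 √(C r_l)`; with `W`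
the result is `≤ C' r_k(a)^{-1/2} ≤ C' (min a (1-a))^{-1/2}`, integrable over `(0,1)`.
(`r_k(a) ≥ min a (1-a)`, `r_k ≤ 1`.) -/
def BoundStmt : Prop :=
  ∀ (m N : ℕ) (M : Modes m) (ζ : Fin N → Fin m → ℝ) (τ : Fin N → ℝ) (κ κ1 : ℝ → ℝ), Kap κ κ1 →
    ∀ γ : ℝ, 0 < γ → γ < 1 → ∀ i j, i ≠ j → ζ i ≠ ζ j →
    Integrable (fun y : ℝ × ((Fin m → ℝ) × (ℝ × ℝ)) =>
      κ1 y.1 * (M.W y.2.2.1 * Fij γ i j (fun k => τ k + y.1 - hh M ζ k y.2)))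
      ((volume : Measure ℝ).prod (mes m))

/-- Module Mellin. `IdC1Stmt` for `G_k(h) = exp(-ε/(τ_k - h))` (`h < τ_k`, else `0`; `C^∞`,
`expNegInvGlue`), times `ε^{γ-1}/Γ(γ)`, integrated over `ε > 0`:
`∫_0^∞ ε^{γ-1} e^{-ε S} dε = Γ(γ) S^{-γ}`, `P_ij = ε² (y_i y_j)^{-2} e^{-ε S}`,
`∫ ε^{γ+1} e^{-ε S} dε = Γ(γ+2) S^{-γ-2}`, `Γ(γ+2)/Γ(γ) = γ(γ+1)`, `S = ∑ 1/y_k`; Fubini by
`BoundStmt` (everything except `κ, κ1` is `≥ 0`; if `D_ij ≠ D'_ij` then `ζ_i ≠ ζ_j`; the other pairs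
have coefficient `0`). Left side: `F ≤ (y_1)^γ` bounded with compact support. -/
def MellinStmt : Prop :=
  ∀ (d N : ℕ) (p q : Fin N → E d) (M : Modes (d + 3)) (ζ : Fin N → Fin (d + 3) → ℝ)
    (κ κ1 : ℝ → ℝ), 0 < N → Rep M ζ (DD p) (DD q) → Kap κ κ1 → ∀ (τ : Fin N → ℝ) (γ : ℝ),
    0 < γ → γ < 1 →
    (∫ s, κ s * ∫ x : E d, Fg γ (fun k => τ k + s - ‖x - q k‖ ^ 2)) -
      (∫ s, κ s * ∫ x : E d, Fg γ (fun k => τ k + s - ‖x - p k‖ ^ 2)) =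
    (γ * (γ + 1) / Real.pi ^ 2) * ((1 / 2) * ∑ i, ∑ j ∈ Finset.univ.erase i,
      (DD p i j - DD q i j) * Jij M ζ τ κ1 γ i j)

/-! ## Weights -/

/-- admissible weights: `w ≥ 0` is `C¹` on `(0,1)`, and `w E^{-3/2}` is `C²` and convex -/
def Adm {m : ℕ} (M : Modes m) (w : ℝ → ℝ) : Prop :=
  (∀ a ∈ Ioo (0 : ℝ) 1, 0 ≤ w a) ∧
  (∃ w1 : ℝ → ℝ, ContinuousOn w1 (Ioo 0 1) ∧ ∀ a ∈ Ioo (0 : ℝ) 1, HasDerivAt w (w1 a) a) ∧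
  ∀ (b Y : Fin m → ℝ), M.Good b Y → ∀ a1 ∈ Ioo (0 : ℝ) 1, ∀ a2 ∈ Ioo (0 : ℝ) 1,
    (∀ a ∈ Ioo (0 : ℝ) 1, 0 < M.EE b Y a1 a2 a) ∧
    ∃ H1 H2 : ℝ → ℝ, ContinuousOn H2 (Ioo 0 1) ∧ ∀ a ∈ Ioo (0 : ℝ) 1,
      HasDerivAt (fun a => w a * (M.EE b Y a1 a2 a) ^ (-(3 / 2) : ℝ)) (H1 a) a ∧
      HasDerivAt H1 (H2 a) a ∧ 0 ≤ H2 a

/-- Module AdmW. `w = W ω`, `ω = (a - a*)_+^p` or `(a* - a)_+^p`, `p ≥ m - 1 ≥ 5`: `C²`. Where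
`ω > 0`, with `κ = 1/(a - a*)`, `u = 1/a`, `v = 1/(1-a)`, `ξ = x1 - (u - v)` (notation of
`KG/Hconv.lean`: `x1, x2` the averages of `g, g²`), `S1, S2` the sums of `g_k, g_k²` over the modes
other than three with `μ_k = 0` and three with `ν_k = 0`:
`H'/H = (3/2) ξ - ½ S1 + p κ`, `H''/H - (H'/H)² = ½ (3u² + 3v² + S2) - (3/2)(2 x2 - x1²) - p κ² ≥
½ S2 + (3/2) ξ² - p κ²`. Cauchy-Schwarz: `(p κ)² = (z - (3/2) ξ + ½ S1)² ≤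
(z² + (3/2) ξ² + ½ S2) (1 + 3/2 + (m-6)/2)` with `z = H'/H`, so
`H''/H ≥ p κ² (2 p/(m-1) - 1) ≥ 0`. Where `ω = 0` everything vanishes (`p > 2`). -/
def AdmWStmt : Prop :=
  ∀ (m : ℕ) (M : Modes m) (as p : ℝ), (m : ℝ) - 1 ≤ p →
    Adm M (fun a => M.W a * (max (a - as) 0) ^ p) ∧ Adm M (fun a => M.W a * (max (as - a) 0) ^ p)

/-- `2 ∫_0^{π/2} w E^{-1/2} dφ` -/
noncomputable def TTw {m : ℕ} (M : Modes m) (w : ℝ → ℝ) (b Y : Fin m → ℝ) (a1 a2 : ℝ) : ℝ :=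
  2 * ∫ φ in (0 : ℝ)..(Real.pi / 2),
    w (aph a1 a2 φ) * (M.EE b Y a1 a2 (aph a1 a2 φ)) ^ (-(1 / 2) : ℝ)

/-- Module TderW: as `KG/Tder.lean` with `w` instead of `W`. -/
def TderWStmt : Prop :=
  ∀ (m : ℕ) (M : Modes m) (w : ℝ → ℝ), Adm M w → ∀ (b Y : Fin m → ℝ) (c : ℝ), M.Good b Y →
    ∀ (h0 : ℝ) (A1 A2 : ℝ → ℝ),
      (∀ h, h0 < h → 0 < A1 h ∧ A1 h < A2 h ∧ A2 h < 1 ∧ M.psi b c Y (A1 h) = h ∧
        M.psi b c Y (A2 h) = h ∧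
        HasDerivAt A1 (M.psi1 b c Y (A1 h))⁻¹ h ∧ HasDerivAt A2 (M.psi1 b c Y (A2 h))⁻¹ h ∧
        M.psi1 b c Y (A1 h) < 0 ∧ 0 < M.psi1 b c Y (A2 h)) →
      MonotoneOn (fun h => TTw M w b Y (A1 h) (A2 h)) (Ioi h0)

/-- Module TsubW: as `KG/Tsub.lean` with `w` instead of `W`. -/
def TsubWStmt : Prop :=
  ∀ (m : ℕ) (M : Modes m) (w : ℝ → ℝ), Adm M w → ∀ (b Y : Fin m → ℝ) (c : ℝ), M.Good b Y →
    ∀ a1 a2 h : ℝ, 0 < a1 → a1 < a2 → a2 < 1 → M.psi b c Y a1 = h → M.psi b c Y a2 = h →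
      IntegrableOn (fun a => w a * (h - M.psi b c Y a) ^ (-(1 / 2) : ℝ)) (Ioo a1 a2) ∧
      ∫ a in Ioo a1 a2, w a * (h - M.psi b c Y a) ^ (-(1 / 2) : ℝ) = TTw M w b Y a1 a2

/-- Module ML2W: as `KG/ML2.lean` with `w` instead of `W`. -/
def ML2WStmt : Prop :=
  ∀ (m : ℕ) (M : Modes m) (w : ℝ → ℝ), Adm M w → ∀ (b Y : Fin m → ℝ) (c : ℝ), M.Good b Y →
    ∀ G G' : ℝ → ℝ, (∀ h, HasDerivAt G (G' h) h) → Continuous G' →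
      (∀ h, 0 ≤ G h) → Tendsto G atTop (𝓝 0) →
      IntegrableOn (fun x : ℝ × ℝ => w x.1 * G' (M.psi b c Y x.1 + x.2 ^ 2)) strip →
      ∫ x in strip, w x.1 * G' (M.psi b c Y x.1 + x.2 ^ 2) ≤ 0

/-! ## The apex -/

/-- the levels whose functions `l_i` pass through the point `(Y*, a*, h*)` -/
def lev {m N : ℕ} (M : Modes m) (ζ : Fin N → Fin m → ℝ) (Ys : Fin m → ℝ) (as hs : ℝ)
    (i : Fin N) : ℝ :=
  hs - 2 * ∑ k, Ys k * ζ i k + ∑ k, M.r k as * ζ i k ^ 2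

/-- Module Ray. For fixed `a ≠ a*` and `v` substitute `Y = Y* + (a - a*) Z` (Jacobian `|a-a*|^m`) and
`s = ∑ Y_k²/r_k + v² - h* - (a - a*) η` (Jacobian `|a-a*|`): `y_k = τ_k + s - hh_k =
(a - a*) (l_k(Z) - η)`, `l_k(Z) = 2 ∑ Z_j ζ_kj + ∑_j (μ_j - ν_j) ζ_kj²`, so
`Fij γ i j y = |a-a*|^{γ-2} Fij γ i j (± (l_k(Z) - η))_k` (`+` for `a > a*`). Hence
`Jij = ∫ dZ dη [Fij(l - η) ∫∫_strip W (a-a*)_+^p (-κ1)(ψ + v² - h* + a* η) +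
Fij(η - l) ∫∫_strip W (a*-a)_+^p (-κ1)(..)]`, `p = m - 1 + γ`, `ψ = psi b c Y0` with
`Y0 = Y* - a* Z`, `b = -Z`, `c = η`. The inner integrals are `≥ 0` by `ML2WStmt` + `AdmWStmt`
(`G(h) = κ(h - h* + a* η) ≥ 0`), for almost all `Z` (`Good`: `Y*_k - a* Z_k ≠ 0`,
`Y*_k + (1-a*) Z_k ≠ 0`, here `a* ≠ 0, 1`). Fubini by `BoundStmt`. -/
def RayStmt : Prop :=
  ∀ (m N : ℕ) (M : Modes m) (ζ : Fin N → Fin m → ℝ) (Ys : Fin m → ℝ) (as hs : ℝ),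
    as ≠ 0 → as ≠ 1 → ∀ κ κ1 : ℝ → ℝ, Kap κ κ1 → (∀ s, 0 ≤ κ s) → ∀ γ : ℝ, 0 < γ → γ < 1 →
    ∀ i j, i ≠ j → ζ i ≠ ζ j → 0 ≤ Jij M ζ (lev M ζ Ys as hs) κ1 γ i j

/-- Module Level. `MellinStmt` + `RayStmt`: the left side of `MellinStmt` is `≥ 0` for every
`γ ∈ (0,1)`; `γ → 0`: `Fg γ y → 1` if all `y_k > 0`, `0` otherwise (dominated), so
`∫ κ(s) V°_p(τ+s) ds ≤ ∫ κ(s) V°_q(τ+s) ds` for the open sets `{|x-p_k|² < τ_k + s}`; `κ` supported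
in `(0,δ)` with integral `1`: `V_p(τ) ≤ V_q(τ+δ)`, `δ → 0` (continuity from above). `N = 0` is
trivial. -/
def LevelStmt : Prop :=
  ∀ (d N : ℕ) (p q : Fin N → E d) (M : Modes (d + 3)) (ζ : Fin N → Fin (d + 3) → ℝ)
    (Ys : Fin (d + 3) → ℝ) (as hs : ℝ), Contr p q → Rep M ζ (DD p) (DD q) → as ≠ 0 → as ≠ 1 →
    volume {x : E d | ∀ k, ‖x - p k‖ ^ 2 ≤ lev M ζ Ys as hs k} ≤
      volume {x : E d | ∀ k, ‖x - q k‖ ^ 2 ≤ lev M ζ Ys as hs k}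

/-- Module Apex. The same for `a* = 0, 1`: `lev` is continuous in `a*`;
`V_p(lev a*) ≤ V_p(lev a*' + δ) ≤ V_q(lev a*' + δ) ≤ V_q(lev a* + 2δ)` (a shift of `h*`), `δ → 0`. -/
def ApexStmt : Prop :=
  ∀ (d N : ℕ) (p q : Fin N → E d) (M : Modes (d + 3)) (ζ : Fin N → Fin (d + 3) → ℝ)
    (Ys : Fin (d + 3) → ℝ) (as hs : ℝ), Contr p q → Rep M ζ (DD p) (DD q) →
    volume {x : E d | ∀ k, ‖x - p k‖ ^ 2 ≤ lev M ζ Ys as hs k} ≤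
      volume {x : E d | ∀ k, ‖x - q k‖ ^ 2 ≤ lev M ζ Ys as hs k}

/-- Module NfA. The normal form (as `KG/Nfg.lean`): `ζ_i` = coordinates of `(p_i - p_0, q_i - q_0)`;
`a* = μ/(λ+μ)`; `r_i² = (1-a*)|p_i|² + a*|q_i|² - affine(p_i,q_i)` and
`(1-a*)|p_i-p_0|² + a*|q_i-q_0|² = ∑ r_k(a*) ζ_ik²`. -/
def NfAStmt : Prop :=
  ∀ (d N : ℕ) (p q : Fin N → E d) (r : Fin N → ℝ) (lam mu c : ℝ) (α β : E d), 3 ≤ d →
    Module.finrank ℝ (Submodule.span ℝ {w : E d × E d | ∃ i j, w = (p i - p j, q i - q j)}) ≤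
      d + 3 →
    lam + mu ≠ 0 →
    (∀ i, lam * (‖p i‖ ^ 2 - r i ^ 2) + mu * (‖q i‖ ^ 2 - r i ^ 2) = ⟪α, p i⟫ + ⟪β, q i⟫ + c) →
    ∃ (M : Modes (d + 3)) (ζ : Fin N → Fin (d + 3) → ℝ) (Ys : Fin (d + 3) → ℝ) (as hs : ℝ),
      Rep M ζ (DD p) (DD q) ∧ ∀ i, r i ^ 2 = lev M ζ Ys as hs i

/-- Module ThmA, from `ApexStmt`, `NfAStmt` and theorem G' (`KG.FinalStmt`, the case `λ + μ = 0`).
If some `r_i < 0` the left side is `0`; otherwise `closedBall` is the level set. -/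
def ThmAStmt : Prop :=
  ∀ (d N : ℕ) (p q : Fin N → E d) (r : Fin N → ℝ) (lam mu c : ℝ) (α β : E d), 3 ≤ d →
    (∀ i j, dist (q i) (q j) ≤ dist (p i) (p j)) →
    Module.finrank ℝ (Submodule.span ℝ {w : E d × E d | ∃ i j, w = (p i - p j, q i - q j)}) ≤
      d + 3 →
    ¬(lam = 0 ∧ mu = 0) →
    (∀ i, lam * (‖p i‖ ^ 2 - r i ^ 2) + mu * (‖q i‖ ^ 2 - r i ^ 2) = ⟪α, p i⟫ + ⟪β, q i⟫ + c) →
    volume (⋂ i, Metric.closedBall (p i) (r i)) ≤ volume (⋂ i, Metric.closedBall (q i) (r i))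

/-- Module Rel. If the span has dimension exactly `d + 3` and `N ≤ d + 5`, the relation exists:
the affine functions of `(p_i, q_i)` form a subspace of `ℝ^N` of dimension `d + 4`; its quotient has
dimension `≤ 1`. -/
def RelStmt : Prop :=
  ∀ (d N : ℕ) (p q : Fin N → E d) (r : Fin N → ℝ), N ≤ d + 5 →
    Module.finrank ℝ (Submodule.span ℝ {w : E d × E d | ∃ i j, w = (p i - p j, q i - q j)}) =
      d + 3 →
    ∃ (lam mu c : ℝ) (α β : E d), ¬(lam = 0 ∧ mu = 0) ∧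
      ∀ i, lam * (‖p i‖ ^ 2 - r i ^ 2) + mu * (‖q i‖ ^ 2 - r i ^ 2) = ⟪α, p i⟫ + ⟪β, q i⟫ + c

/-- Module Pert. Perturbation to the full dimension, `N = d + 5` points, `d ≥ 3`.
`Q(x,y) = |x|² - |y|²`. (1) `δ > 0` small, `w_i = ((1+δ) p_i, q_i)`: `Q(w_i - w_j) > 0` if
`p_i ≠ p_j`, and `w_i = w_j` if `p_i = p_j`; the span `S` of the `w_i - w_j` is the image of the
original span under `(x,y) ↦ ((1+δ) x, y)`, dimension `≤ d + 3 ≤ 2 d`. (2) Choose `V ⊇ S` of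
dimension exactly `d + 3` containing a vector `e` with `Q(e) > 0` (if `p_i ≠ p_j` for some `i, j` then
`e = w_i - w_j ∈ S`; otherwise `S = 0` and `V ∋ (x, 0)`). (3) `u_i = i e + t g_i`, `i = 0..d+4`,
`g_0 = 0`, `g_i` (`i = 1..d+3`) a basis of `V`, `g_{d+4} = 0`, `t > 0` small: `Q(u_i - u_j) > 0` for
`i ≠ j`. (4) `w_i' = w_i + ε u_i`: `Q(w_i' - w_j') ≥ 0` for small `ε > 0` (strict inequality at
`ε = 0` if `p_i ≠ p_j`, `ε² Q(u_i - u_j)` otherwise), all differences are in `V`, and they span `V`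
for all but finitely many `(t, ε)`: the determinant of `w_i' - w_0'` (`i = 1..d+3`) in a basis of `V`
is a polynomial in `t' = t ε` (for fixed `t' / ε = t`...; simplest: fix `ε`, `e`-part and let `t` vary:
`det (A + (ε t) 1)`, `A` = matrix of `w_i - w_0 + ε i e`, is a nonzero polynomial in `t`). -/
def PertStmt : Prop :=
  ∀ (d : ℕ) (p q : Fin (d + 5) → E d), 3 ≤ d → Contr p q →
    Module.finrank ℝ (Submodule.span ℝ {w : E d × E d | ∃ i j, w = (p i - p j, q i - q j)}) ≤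
      d + 3 → ∀ ε : ℝ, 0 < ε →
    ∃ p' q' : Fin (d + 5) → E d, Contr p' q' ∧ (∀ i, ‖p' i - p i‖ ≤ ε) ∧
      (∀ i, ‖q' i - q i‖ ≤ ε) ∧
      Module.finrank ℝ (Submodule.span ℝ {w : E d × E d | ∃ i j, w = (p' i - p' j, q' i - q' j)}) =
        d + 3

/-- Module Few5, from `ThmAStmt`, `RelStmt`, `PertStmt`: at most `d + 5` balls. `N = 0` is trivial;
repeat a ball to get `N = d + 5` (the span does not change); then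
`V_p(r) ≤ V_{p'}(r + ε) ≤ V_{q'}(r + ε) ≤ V_q(r + 2ε)`, `ε → 0`. -/
def Few5Stmt : Prop :=
  ∀ (d N : ℕ) (p q : Fin N → E d), 3 ≤ d → N ≤ d + 5 →
    (∀ i j, dist (q i) (q j) ≤ dist (p i) (p j)) →
    Module.finrank ℝ (Submodule.span ℝ {w : E d × E d | ∃ i j, w = (p i - p j, q i - q j)}) ≤
      d + 3 → ∀ r : Fin N → ℝ,
    volume (⋂ i, Metric.closedBall (p i) (r i)) ≤ volume (⋂ i, Metric.closedBall (q i) (r i))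

end Pool.Agent.Lib.MP_0c1c75_co.KA
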